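import Mathlib

set_option autoImplicit false

/-!
# Definitions for the stack number of upward planar 2-trees

* `G2`: a rooted directed 2-tree with heights.
* `Draw`: the curves of an upward drawing as functions of the height.
* `Emb`: the combinatorial information extracted from a drawing.
* `Skel`, `Homes`: an outerplanar skeleton and the choice of homes.
* `Nest`: the nesting structure with a layout for every skeleton.
-/

namespace UP2

/-- Kinds of a new vertex over its parent arc `lo → hi`: above, below or between. -/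
inductive Kind
  | A | B | T
  deriving DecidableEq

/-- `Birth lo hi kind x u v`: `u → v` is one of the two arcs created by the vertex `x`. -/
def Birth {V : Type} (lo hi : V → V) (kind : V → Kind) (x u v : V) : Prop :=
  match kind x with
  | Kind.A => (u = lo x ∧ v = x) ∨ (u = hi x ∧ v = x)
  | Kind.B => (u = x ∧ v = lo x) ∨ (u = x ∧ v = hi x)
  | Kind.T => (u = lo x ∧ v = x) ∨ (u = x ∧ v = hi x)

/-- A rooted directed 2-tree with heights. -/
structure G2 (V : Type) where
  /-- lower end of the root arc -/
  r0 : V
  /-- upper end of the root arc -/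
  r1 : V
  /-- birth index -/
  ix : V → ℕ
  /-- lower end of the parent arc -/
  lo : V → V
  /-- upper end of the parent arc -/
  hi : V → V
  /-- kind of the new vertex -/
  kind : V → Kind
  /-- arcs -/
  arc : V → V → Prop
  /-- heights -/
  ht : V → ℝ
  ix_inj : Function.Injective ix
  ix_root : ∀ x, x ≠ r0 → x ≠ r1 → ix r0 < ix x ∧ ix r1 < ix x
  ix_par : ∀ x, x ≠ r0 → x ≠ r1 → ix (lo x) < ix x ∧ ix (hi x) < ix x
  par : ∀ x, x ≠ r0 → x ≠ r1 → arc (lo x) (hi x)
  arc_iff : ∀ u v, arc u v ↔
    (u = r0 ∧ v = r1) ∨ ∃ x, (x ≠ r0 ∧ x ≠ r1) ∧ Birth lo hi kind x u v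
  ht_lt : ∀ u v, arc u v → ht u < ht v

namespace G2

variable {V : Type} (G : G2 V)

/-- not a root vertex; such a vertex is the youngest vertex of its triangle -/
def nr (x : V) : Prop := x ≠ G.r0 ∧ x ≠ G.r1

/-- bottom vertex of the triangle of `y` -/
def ca (y : V) : V :=
  match G.kind y with
  | Kind.A => G.lo y
  | Kind.B => y
  | Kind.T => G.lo y

/-- middle vertex of the triangle of `y` -/
def cb (y : V) : V :=
  match G.kind y with
  | Kind.A => G.hi y
  | Kind.B => G.lo y
  | Kind.T => y

/-- top vertex of the triangle of `y` -/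
def cc (y : V) : V :=
  match G.kind y with
  | Kind.A => y
  | Kind.B => G.hi y
  | Kind.T => G.hi y

/-- `z` is a corner of the triangle of `y` -/
def corner (y z : V) : Prop := z = G.ca y ∨ z = G.cb y ∨ z = G.cc y

/-- adjacency -/
def Adj (u v : V) : Prop := G.arc u v ∨ G.arc v u

/-- `u → v` is one of the three arcs of the triangle of `y` -/
def HasArc (y u v : V) : Prop :=
  (u = G.ca y ∧ v = G.cb y) ∨ (u = G.cb y ∧ v = G.cc y) ∨ (u = G.ca y ∧ v = G.cc y)

end G2

/-- The curves of an upward drawing as functions of the height. -/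
structure Draw {V : Type} (arc : V → V → Prop) (ht : V → ℝ) where
  /-- horizontal coordinate of the vertices -/
  x : V → ℝ
  /-- horizontal coordinate of the arc `u → v` at a given height -/
  X : V → V → ℝ → ℝ
  ht_lt : ∀ u v, arc u v → ht u < ht v
  cont : ∀ u v, arc u v → ContinuousOn (X u v) (Set.Icc (ht u) (ht v))
  X0 : ∀ u v, arc u v → X u v (ht u) = x u
  X1 : ∀ u v, arc u v → X u v (ht v) = x v
  pinj : ∀ u v, ht u = ht v → x u = x v → u = v
  avoid : ∀ u v w, arc u v → ht u ≤ ht w → ht w ≤ ht v → X u v (ht w) = x w → w = u ∨ w = v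
  cross : ∀ u v u' v' h, arc u v → arc u' v' → ¬ (u = u' ∧ v = v') →
    h ∈ Set.Icc (ht u) (ht v) → h ∈ Set.Icc (ht u') (ht v') →
    X u v h = X u' v' h → ∃ w, h = ht w ∧ (w = u ∨ w = v) ∧ (w = u' ∨ w = v')

namespace Draw

variable {V : Type} {arc : V → V → Prop} {ht : V → ℝ} (D : Draw arc ht)

/-- the path `a → b → c` as a function of the height -/
noncomputable def path (a b c : V) (h : ℝ) : ℝ := if h ≤ ht b then D.X a b h else D.X b c h

/-- the open region (horizontal coordinate, height) of the triangle `a → b → c`, `a → c` -/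
def region (a b c : V) : Set (ℝ × ℝ) :=
  {P | ht a < P.2 ∧ P.2 < ht c ∧
    ((D.path a b c P.2 < P.1 ∧ P.1 < D.X a c P.2) ∨ (D.X a c P.2 < P.1 ∧ P.1 < D.path a b c P.2))}

end Draw

/-- `a → b → c` and `a → c` -/
def Tri {V : Type} (arc : V → V → Prop) (a b c : V) : Prop := arc a b ∧ arc b c ∧ arc a c

/-- the side of the arc `u → v` of the triangle of `y` on which this triangle lies;
`side y` is the side of the long arc on which the middle vertex lies -/
noncomputable def sideAt {V : Type} (G : G2 V) (side : V → Bool) (y u v : V) : Bool := by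
  classical exact if u = G.ca y ∧ v = G.cc y then side y else !(side y)

/-- The combinatorial information extracted from a drawing. -/
structure Emb {V : Type} (G : G2 V) where
  /-- `In x y`: `x` lies strictly inside the triangle of `y` -/
  In : V → V → Prop
  /-- `Sub y y'`: the triangle of `y` is contained in the triangle of `y'` -/
  Sub : V → V → Prop
  /-- side of the long arc on which the middle vertex lies -/
  side : V → Bool
  in_nr : ∀ x y, In x y → G.nr y
  sub_nr : ∀ y y', Sub y y' → G.nr y ∧ G.nr y'
  root_not_in : ∀ y, ¬ In G.r0 y ∧ ¬ In G.r1 y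
  in_not_corner : ∀ x y, In x y → ¬ G.corner y x
  in_ht : ∀ x y, In x y → G.ht (G.ca y) < G.ht x ∧ G.ht x < G.ht (G.cc y)
  adj : ∀ u v y, G.Adj u v → In u y → In v y ∨ G.corner y v
  lam : ∀ x y y', In x y → In x y' → Sub y y' ∨ Sub y' y
  sub_refl : ∀ y, G.nr y → Sub y y
  sub_trans : ∀ y y' y'', Sub y y' → Sub y' y'' → Sub y y''
  sub_antisymm : ∀ y y', Sub y y' → Sub y' y → y = y'
  sub_in : ∀ y y' z, Sub y y' → In z y → In z y'
  sub_corner : ∀ y y' z, Sub y y' → G.corner y z → In z y' ∨ G.corner y' z
  sub_of_in : ∀ y y' z, G.nr y → G.corner y z → In z y' → Sub y y'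
  mid : ∀ y y', G.nr y → G.nr y' → G.cb y = G.cb y' → side y = side y' → Sub y y' ∨ Sub y' y
  sub_mid : ∀ y y', Sub y y' → G.cb y = G.cb y' → side y = side y'
  arcside : ∀ y y' u v, G.nr y → G.nr y' → G.HasArc y u v → G.HasArc y' u v →
    sideAt G side y u v = sideAt G side y' u v → Sub y y' ∨ Sub y' y
  sub_arcside : ∀ y y' u v, Sub y y' → G.HasArc y u v → G.HasArc y' u v →
    sideAt G side y u v = sideAt G side y' u v

/-- `Desc h z x`: `x` is `z` or a descendant of `z` in the forest `h`. -/
def Desc {V : Type} (h : V → Option V) (z x : V) : Prop :=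
  Relation.ReflTransGen (fun a b => h b = some a) z x

/-- `τ` orders the vertices in `M` such that all blocks `{x | Desc h z x}` are intervals and the
children of a vertex are placed before or after it as prescribed by `r`. -/
structure FOrd {V : Type} (M : V → Prop) (h : V → Option V) (r τ : V → ℤ) : Prop where
  inj : ∀ x y, M x → M y → τ x = τ y → x = y
  blk : ∀ z x y, M z → M x → M y → Desc h z x → ¬ Desc h z y →
    ((τ x < τ y ↔ τ z < τ y) ∧ (τ y < τ x ↔ τ y < τ z))
  sib : ∀ x y, M x → M y → h x = h y → r x < r y → τ x < τ y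
  neg : ∀ x m, M x → h x = some m → r x < 0 → τ x < τ m
  pos : ∀ x m, M x → h x = some m → 0 < r x → τ m < τ x

/-- ends of the birth arc `b` of `y`: `false` is the arc between `lo y` and `y`,
`true` the arc between `y` and `hi y` -/
def ends {V : Type} (lo hi : V → V) (kind : V → Kind) (y : V) (b : Bool) : V × V :=
  match b, kind y with
  | false, Kind.A => (lo y, y)
  | false, Kind.B => (y, lo y)
  | false, Kind.T => (lo y, y)
  | true, Kind.A => (hi y, y)
  | true, Kind.B => (y, hi y)
  | true, Kind.T => (y, hi y)

/-- An outerplanar skeleton, given by the births of its vertices. Every slot (a root slot or one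
of the two birth arcs of a vertex) is the parent arc of at most one vertex. -/
structure Skel (V : Type) where
  /-- the born vertices -/
  N : V → Prop
  /-- the root vertices -/
  Rt : V → Prop
  /-- positions of the root vertices -/
  rpos : V → ℤ
  /-- lower ends of the root slots -/
  e0 : Fin 3 → V
  /-- upper ends of the root slots -/
  e1 : Fin 3 → V
  /-- birth index -/
  ix : V → ℕ
  /-- lower end of the parent arc -/
  lo : V → V
  /-- upper end of the parent arc -/
  hi : V → V
  /-- kind -/
  kind : V → Kind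
  /-- parent slot -/
  ps : V → Fin 3 ⊕ (V × Bool)
  disj : ∀ x, N x → ¬ Rt x
  e_rt : ∀ j, Rt (e0 j) ∧ Rt (e1 j)
  rpos_lt : ∀ j, rpos (e0 j) < rpos (e1 j)
  rpos_inj : ∀ x y, Rt x → Rt y → rpos x = rpos y → x = y
  root_nc : ∀ i j, ¬ (rpos (e0 i) < rpos (e0 j) ∧ rpos (e0 j) < rpos (e1 i) ∧
    rpos (e1 i) < rpos (e1 j))
  ix_inj : ∀ x y, N x → N y → ix x = ix y → x = y
  ps_root : ∀ x j, N x → ps x = Sum.inl j → lo x = e0 j ∧ hi x = e1 j
  ps_new : ∀ x y b, N x → ps x = Sum.inr (y, b) →
    N y ∧ ix y < ix x ∧ (lo x, hi x) = ends lo hi kind y b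
  ps_inj : ∀ x x', N x → N x' → ps x = ps x' → x = x'

namespace Skel

variable {V : Type} (S : Skel V)

/-- the arcs of the skeleton -/
def SArc (u v : V) : Prop :=
  (∃ j, u = S.e0 j ∧ v = S.e1 j) ∨ ∃ x, S.N x ∧ Birth S.lo S.hi S.kind x u v

/-- `Fan x b y`: `y` is born on an arc at `x`, in the fan of `x` that starts with the birth arc
`b` of `x` -/
inductive Fan (x : V) (b : Bool) : V → Prop
  | base (y : V) : S.N y → S.ps y = Sum.inr (x, b) → Fan x b y
  | step (y z : V) (c : Bool) : Fan x b y → S.N z → S.ps z = Sum.inr (y, c) →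
      (c = false → S.lo y = x) → (c = true → S.hi y = x) → Fan x b z

/-- the only consequence of planarity used for a skeleton: the two growths at a vertex between
its parents do not both bypass it -/
def C1 : Prop := ∀ x, S.N x → S.kind x = Kind.T →
  ¬ ((∃ y, S.N y ∧ S.kind y = Kind.B ∧ S.lo y = x ∧ S.Fan x true y) ∧
     (∃ y, S.N y ∧ S.kind y = Kind.A ∧ S.hi y = x ∧ S.Fan x false y))

end Skel

/-- states of an arc: free, lower end fixed, upper end fixed -/
inductive St
  | F | L | H
  deriving DecidableEq

/-- state of the far arc of a vertex -/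
def nextSt : St → Kind → Bool → St
  | St.F, Kind.A, _ => St.F
  | St.F, Kind.B, _ => St.F
  | St.F, Kind.T, false => St.L
  | St.F, Kind.T, true => St.H
  | St.L, _, _ => St.L
  | St.H, _, _ => St.H

/-- A choice of homes. `home x = false` means that the home is `lo x`, otherwise it is `hi x`.
The near arc of `x` is the birth arc `home x`, the far arc is the other one. `fam x` is the
family of the parent arc of `x`; the near arc of `y` starts the family `inr y`. -/
structure Homes {V : Type} (S : Skel V) where
  /-- the home is the upper end -/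
  home : V → Bool
  /-- state of the parent arc -/
  st : V → St
  /-- family of the parent arc -/
  fam : V → Fin 3 ⊕ V
  fam_root : ∀ x j, S.N x → S.ps x = Sum.inl j → fam x = Sum.inl j
  fam_near : ∀ x y, S.N x → S.ps x = Sum.inr (y, home y) → fam x = Sum.inr y
  fam_far : ∀ x y, S.N x → S.ps x = Sum.inr (y, !(home y)) → fam x = fam y
  st_root : ∀ x j, S.N x → S.ps x = Sum.inl j → st x = St.F
  st_near : ∀ x y, S.N x → S.ps x = Sum.inr (y, home y) → st x = St.F
  st_far : ∀ x y, S.N x → S.ps x = Sum.inr (y, !(home y)) →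
    st x = nextSt (st y) (S.kind y) (home y)
  hA : ∀ x, S.N x → S.kind x = Kind.A → home x = true
  hB : ∀ x, S.N x → S.kind x = Kind.B → home x = false
  hL : ∀ x, S.N x → st x = St.L → S.kind x ≠ Kind.B ∧ home x = true
  hH : ∀ x, S.N x → st x = St.H → S.kind x ≠ Kind.A ∧ home x = false

/-- The nesting structure: every vertex `x` strictly inside some triangle has a smallest such
triangle `reg x`; `off` and `col` are layouts of the skeletons. -/
structure Nest (V : Type) (k : ℕ) where
  /-- arcs -/
  arc : V → V → Prop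
  /-- the smallest triangle containing `x` -/
  reg : V → Option V
  /-- bottom vertex -/
  ca : V → V
  /-- middle vertex -/
  cb : V → V
  /-- top vertex -/
  cc : V → V
  /-- side -/
  side : V → Bool
  /-- level of a triangle among those with the same middle vertex -/
  lev : V → ℕ
  /-- nesting depth -/
  rk : V → ℕ
  /-- position in the layout of the skeleton, relative to the middle vertex -/
  off : V → ℤ
  /-- colours of the layout of the skeleton -/
  col : V → V → Fin k
  /-- proper colouring -/
  pc : V → Fin 3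
  rk_lt : ∀ x y, reg x = some y → rk (ca y) < rk x ∧ rk (cb y) < rk x ∧ rk (cc y) < rk x
  cls : ∀ u v, arc u v → reg u = reg v ∨ (∃ y, reg v = some y ∧ (u = ca y ∨ u = cb y)) ∨
    (∃ y, reg u = some y ∧ (v = cb y ∨ v = cc y))
  arcs : ∀ x y, reg x = some y → arc (ca y) (cb y) ∧ arc (cb y) (cc y)
  nomixU : ∀ x y y', reg x = some y → reg (cc y) = some y' → cb y ≠ ca y'
  nomixD : ∀ x y y', reg x = some y → reg (ca y) = some y' → cb y ≠ cc y'
  lev_inj : ∀ x x' y y', reg x = some y → reg x' = some y' → cb y = cb y' → lev y = lev y' → y = y'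
  uniqU : ∀ x x' y y', reg x = some y → reg x' = some y' → cb y = cb y' → side y = side y' →
    reg (cc y) = reg (cb y) → reg (cc y') = reg (cb y) → cc y = cc y'
  uniqD : ∀ x x' y y', reg x = some y → reg x' = some y' → cb y = cb y' → side y = side y' →
    reg (ca y) = reg (cb y) → reg (ca y') = reg (cb y) → ca y = ca y'
  levU : ∀ x x' y y' y'', reg x = some y → reg x' = some y' → reg (cc y) = some y'' →
    cb y' = cb y → cb y'' = cb y → side y' = side y → lev y ≤ lev y' → lev y' < lev y'' →
    cc y' = cc y
  levD : ∀ x x' y y' y'', reg x = some y → reg x' = some y' → reg (ca y) = some y'' →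
    cb y' = cb y → cb y'' = cb y → side y' = side y → lev y ≤ lev y' → lev y' < lev y'' →
    ca y' = ca y
  levU_lt : ∀ x y y'', reg x = some y → reg (cc y) = some y'' → cb y'' = cb y → lev y < lev y''
  levD_lt : ∀ x y y'', reg x = some y → reg (ca y) = some y'' → cb y'' = cb y → lev y < lev y''
  off_ne : ∀ x y, reg x = some y → off x ≠ 0
  off_inj : ∀ x x', reg x = reg x' → off x = off x' → x = x'
  off_arc : ∀ u v, arc u v → reg u = reg v → off u < off v
  off_neg : ∀ u y, reg u = some y → arc u (cb y) → off u < 0
  off_pos : ∀ v y, reg v = some y → arc (cb y) v → 0 < off v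
  col_nc : ∀ u v u' v', arc u v → arc u' v' → reg u = reg v → reg u' = reg v' →
    reg u = reg u' → col u v = col u' v' → ¬ (off u < off u' ∧ off u' < off v ∧ off v < off v')
  pc_ne : ∀ u v, arc u v → pc u ≠ pc v

end UP2
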