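import Pool.Agent.Lib.MP_20105c_co.Defs

set_option autoImplicit false

/-!
# Shared auxiliary definitions: the home forest of a skeleton and of a nest
-/

namespace UP2

namespace Homes

variable {V : Type} {S : Skel V} (H : Homes S)

/-- the home forest -/
noncomputable def hm (x : V) : Option V := by
  classical exact if S.N x then some (if H.home x then S.hi x else S.lo x) else none

/-- the other parent -/
def ot (x : V) : V := if H.home x then S.lo x else S.hi x

/-- members of the skeleton -/
def Mem (S : Skel V) (x : V) : Prop := S.N x ∨ S.Rt x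

/-- `x` is placed after its home -/
def after (x : V) : Prop := S.kind x = Kind.A ∨ (S.kind x = Kind.T ∧ H.home x = false)

/-- position relative to the home: younger vertices are placed closer -/
noncomputable def off (B : ℕ) (x : V) : ℤ := by
  classical exact if S.N x then (if H.after x then (B : ℤ) - S.ix x else (S.ix x : ℤ) - B)
    else S.rpos x

/-- the far arc of `x` -/
def far (x : V) : V × V := ends S.lo S.hi S.kind x (!(H.home x))

/-- the near arc of `x` -/
def near (x : V) : V × V := ends S.lo S.hi S.kind x (H.home x)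

/-- centre of a family -/
noncomputable def cen (φ : Fin 3 ⊕ V) : Option V :=
  match φ with
  | Sum.inl _ => none
  | Sum.inr c => H.hm c

/-- the far arc of `x` belongs to the first (nested) phase of its family -/
def phN (x : V) : Prop := H.st x = St.F ∧ S.kind x ≠ Kind.T

/-- `FanFrom m s x`: `x` is born on an arc at `m`, in the fan of `m` starting with the slot `s` -/
inductive FanFrom (S : Skel V) (m : V) : (Fin 3 ⊕ (V × Bool)) → V → Prop
  | root (j : Fin 3) (x : V) : S.N x → S.ps x = Sum.inl j → (m = S.e0 j ∨ m = S.e1 j) →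
      FanFrom S m (Sum.inl j) x
  | own (b : Bool) (x : V) : S.N x → S.ps x = Sum.inr (m, b) → FanFrom S m (Sum.inr (m, b)) x
  | step (s : Fin 3 ⊕ (V × Bool)) (y z : V) (c : Bool) : FanFrom S m s y → S.N z →
      S.ps z = Sum.inr (y, c) → (c = false → S.lo y = m) → (c = true → S.hi y = m) →
      FanFrom S m s z

end Homes

namespace Nest

variable {V : Type} {k : ℕ} (Q : Nest V k)

/-- the home forest -/
def hm (x : V) : Option V := (Q.reg x).map Q.cb

/-- position relative to the home -/
noncomputable def pos (B : ℕ) (x : V) : ℤ :=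
  match Q.reg x with
  | none => Q.off x
  | some y => if Q.off x < 0 then Q.off x - (Q.lev y * B : ℕ) else Q.off x + (Q.lev y * B : ℕ)

/-- the arc `u → v` is a U-arc: `v` is the top of the smallest triangle containing `u` -/
def isU (u v : V) : Prop := ∃ y, Q.reg u = some y ∧ v = Q.cc y

/-- the arc `u → v` is a D-arc -/
def isD (u v : V) : Prop := ∃ y, Q.reg v = some y ∧ u = Q.ca y

/-- internal arcs -/
def isI (u v : V) : Prop := Q.reg u = Q.reg v ∨ (∃ y, Q.reg v = some y ∧ u = Q.cb y) ∨
  (∃ y, Q.reg u = some y ∧ v = Q.cb y)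

/-- the reversed structure -/
def rev : Nest V k where
  arc u v := Q.arc v u
  reg := Q.reg
  ca := Q.cc
  cb := Q.cb
  cc := Q.ca
  side := Q.side
  lev := Q.lev
  rk := Q.rk
  off x := - Q.off x
  col u v := Q.col v u
  pc := Q.pc
  rk_lt x y h := ⟨(Q.rk_lt x y h).2.2, (Q.rk_lt x y h).2.1, (Q.rk_lt x y h).1⟩
  cls u v h := by
    rcases Q.cls v u h with h1 | ⟨y, h1, h2⟩ | ⟨y, h1, h2⟩
    · exact Or.inl h1.symm
    · exact Or.inr (Or.inr ⟨y, h1, h2.symm⟩)
    · exact Or.inr (Or.inl ⟨y, h1, h2.symm⟩)
  arcs x y h := ⟨(Q.arcs x y h).2, (Q.arcs x y h).1⟩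
  nomixU := Q.nomixD
  nomixD := Q.nomixU
  lev_inj := Q.lev_inj
  uniqU := Q.uniqD
  uniqD := Q.uniqU
  levU := Q.levD
  levD := Q.levU
  levU_lt := Q.levD_lt
  levD_lt := Q.levU_lt
  off_ne x y h := by simpa using Q.off_ne x y h
  off_inj x x' h h' := Q.off_inj x x' h (by simpa using h')
  off_arc u v h h' := by simpa using Q.off_arc v u h h'.symm
  off_neg u y h h' := by simpa using Q.off_pos u y h h'
  off_pos v y h h' := by simpa using Q.off_neg v y h h'
  col_nc u v u' v' h1 h2 h3 h4 h5 h6 h7 := by
    refine Q.col_nc v' u' v u h2 h1 h4.symm h3.symm ?_ h6.symm ⟨?_, ?_, ?_⟩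
    · rw [← h4, ← h3, h5]
    · have := h7.2.2; omega
    · have := h7.2.1; omega
    · have := h7.1; omega
  pc_ne u v h := (Q.pc_ne v u h).symm

end Nest

end UP2
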