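import Pool.Agent.Lib.MP_20105c_co.GeoArc

set_option autoImplicit false

/-!
# Laminarity of the regions of the triangles
-/

namespace UP2

namespace Draw

variable {V : Type} {arc : V → V → Prop} {ht : V → ℝ} (D : Draw arc ht)

/-- `u → v` is one of the arcs of the triangle -/
def GeoLam_is (a b c u v : V) : Prop := (u = a ∧ v = b) ∨ (u = b ∧ v = c) ∨ (u = a ∧ v = c)

theorem GeoLam_arc {a b c u v : V} (h : Tri arc a b c) (hu : GeoLam_is a b c u v) : arc u v := by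
  rcases hu with ⟨rfl, rfl⟩ | ⟨rfl, rfl⟩ | ⟨rfl, rfl⟩
  · exact h.1
  · exact h.2.1
  · exact h.2.2

include D in
theorem GeoLam_lt {a b c : V} (h : Tri arc a b c) : ht a < ht b ∧ ht b < ht c :=
  ⟨D.ht_lt _ _ h.1, D.ht_lt _ _ h.2.1⟩

/-- the path consists of two arcs -/
theorem GeoLam_path {a b c : V} (_ : Tri arc a b c) {t : ℝ} (_ : ht a ≤ t) (_ : t ≤ ht c) :
    (t ≤ ht b ∧ D.path a b c t = D.X a b t) ∨ (ht b ≤ t ∧ D.path a b c t = D.X b c t) := by
  rcases le_or_gt t (ht b) with h3 | h3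
  · exact Or.inl ⟨h3, if_pos h3⟩
  · exact Or.inr ⟨h3.le, if_neg (not_le.2 h3)⟩

theorem GeoLam_pathb (a b c : V) (h : arc a b) : D.path a b c (ht b) = D.x b := by
  unfold path
  rw [if_pos le_rfl, D.X1 a b h]

/-- every arc of the triangle is on the boundary -/
theorem GeoLam_bd {a b c u v : V} (h : Tri arc a b c) (hu : GeoLam_is a b c u v) {t : ℝ}
    (ht0 : t ∈ Set.Icc (ht u) (ht v)) :
    D.X u v t = D.path a b c t ∨ D.X u v t = D.X a c t := by
  rcases hu with ⟨rfl, rfl⟩ | ⟨rfl, rfl⟩ | ⟨rfl, rfl⟩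
  · left
    unfold path
    rw [if_pos ht0.2]
  · left
    rcases eq_or_lt_of_le ht0.1 with h3 | h3
    · rw [← h3, D.GeoLam_pathb a _ _ h.1, D.X0 _ _ h.2.1]
    · unfold path
      rw [if_neg (not_le.2 h3)]
  · right
    rfl

/-- the arcs of a triangle do not meet its region -/
theorem GeoLam_own {a b c u v : V} (h : Tri arc a b c) (hu : GeoLam_is a b c u v) {t : ℝ}
    (ht0 : t ∈ Set.Icc (ht u) (ht v)) : (D.X u v t, t) ∉ D.region a b c := by
  intro hin
  obtain ⟨-, -, h3⟩ := hin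
  simp only at h3
  rcases D.GeoLam_bd h hu ht0 with h4 | h4
  · rw [h4] at h3
    rcases h3 with ⟨h3, -⟩ | ⟨-, h3⟩
    · exact lt_irrefl _ h3
    · exact lt_irrefl _ h3
  · rw [h4] at h3
    rcases h3 with ⟨-, h3⟩ | ⟨h3, -⟩
    · exact lt_irrefl _ h3
    · exact lt_irrefl _ h3

include D in
/-- an arc between two corners is an arc of the triangle -/
theorem GeoLam_corner {a b c u v : V} (h : Tri arc a b c) (huv : arc u v)
    (hu : u = a ∨ u = b ∨ u = c) (hv : v = a ∨ v = b ∨ v = c) : GeoLam_is a b c u v := by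
  have h1 := D.GeoLam_lt h
  have h2 := D.ht_lt _ _ huv
  unfold GeoLam_is
  rcases hu with rfl | rfl | rfl <;> rcases hv with rfl | rfl | rfl <;>
    first
      | (exfalso; linarith [h1.1, h1.2])
      | simp

/-- neighbours of a vertex inside -/
theorem GeoLam_nb {a b c y z : V} (h : Tri arc a b c) (hyz : arc y z ∨ arc z y)
    (hy : (D.x y, ht y) ∈ D.region a b c) :
    (D.x z, ht z) ∈ D.region a b c ∨ z = a ∨ z = b ∨ z = c := by
  rcases hyz with h1 | h1
  · have h2 := D.arc_region h h1 (ht y) ⟨le_rfl, (D.ht_lt _ _ h1).le⟩ (by rwa [D.X0 _ _ h1])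
    exact h2.2.2
  · have h2 := D.arc_region h h1 (ht y) ⟨(D.ht_lt _ _ h1).le, le_rfl⟩ (by rwa [D.X1 _ _ h1])
    exact h2.2.1

/-- if an arc of `t'` has a point in the region of `t`, all vertices of `t'` are inside or
corners -/
theorem GeoLam_all {a b c a' b' c' u v : V} (h : Tri arc a b c) (h' : Tri arc a' b' c')
    (hu : GeoLam_is a' b' c' u v) {t : ℝ} (ht0 : t ∈ Set.Icc (ht u) (ht v))
    (hin : (D.X u v t, t) ∈ D.region a b c) :
    ∀ z, (z = a' ∨ z = b' ∨ z = c') →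
      ((D.x z, ht z) ∈ D.region a b c ∨ z = a ∨ z = b ∨ z = c) := by
  have huv := GeoLam_arc h' hu
  obtain ⟨-, h2, h3⟩ := D.arc_region h huv t ht0 hin
  -- some vertex is inside
  have hy : ∃ y, (y = a' ∨ y = b' ∨ y = c') ∧ (D.x y, ht y) ∈ D.region a b c := by
    rcases h2 with h2 | h2
    · refine ⟨u, ?_, h2⟩
      rcases hu with ⟨rfl, rfl⟩ | ⟨rfl, rfl⟩ | ⟨rfl, rfl⟩ <;> simp
    · rcases h3 with h3 | h3
      · refine ⟨v, ?_, h3⟩
        rcases hu with ⟨rfl, rfl⟩ | ⟨rfl, rfl⟩ | ⟨rfl, rfl⟩ <;> simp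
      · exact absurd hin (D.GeoLam_own h (D.GeoLam_corner h huv h2 h3) ht0)
  obtain ⟨y, hy, hyin⟩ := hy
  intro z hz
  by_cases hyz : y = z
  · subst hyz
    exact Or.inl hyin
  · refine D.GeoLam_nb h ?_ hyin
    obtain ⟨k1, k2, k3⟩ := h'
    rcases hy with rfl | rfl | rfl <;> rcases hz with rfl | rfl | rfl <;>
      first
        | exact absurd rfl hyz
        | exact Or.inl k1
        | exact Or.inl k2
        | exact Or.inl k3
        | exact Or.inr k1
        | exact Or.inr k2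
        | exact Or.inr k3

/-- weakly between -/
theorem GeoLam_cl {a b c u v : V} (h : Tri arc a b c) (huv : arc u v)
    (hu : (D.x u, ht u) ∈ D.region a b c ∨ u = a ∨ u = b ∨ u = c)
    (hv : (D.x v, ht v) ∈ D.region a b c ∨ v = a ∨ v = b ∨ v = c) {t : ℝ}
    (ht0 : t ∈ Set.Icc (ht u) (ht v)) (ht1 : ht a < t) (ht2 : t < ht c) :
    (D.path a b c t ≤ D.X u v t ∧ D.X u v t ≤ D.X a c t) ∨
      (D.X a c t ≤ D.X u v t ∧ D.X u v t ≤ D.path a b c t) := by
  have strict : (D.X u v t, t) ∈ D.region a b c →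
      (D.path a b c t ≤ D.X u v t ∧ D.X u v t ≤ D.X a c t) ∨
      (D.X a c t ≤ D.X u v t ∧ D.X u v t ≤ D.path a b c t) := by
    rintro ⟨-, -, h3⟩
    rcases h3 with h3 | h3
    · exact Or.inl ⟨h3.1.le, h3.2.le⟩
    · exact Or.inr ⟨h3.1.le, h3.2.le⟩
  have hside : D.path a b c t < D.X a c t ∨ D.X a c t < D.path a b c t := by
    rcases D.side_const h with h3 | h3
    · exact Or.inl (h3 t ⟨ht1, ht2⟩)
    · exact Or.inr (h3 t ⟨ht1, ht2⟩)
  have hpath : D.X u v t = D.path a b c t →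
      (D.path a b c t ≤ D.X u v t ∧ D.X u v t ≤ D.X a c t) ∨
      (D.X a c t ≤ D.X u v t ∧ D.X u v t ≤ D.path a b c t) := by
    intro h4
    rw [h4]
    rcases hside with h3 | h3
    · exact Or.inl ⟨le_rfl, h3.le⟩
    · exact Or.inr ⟨h3.le, le_rfl⟩
  have hlong : D.X u v t = D.X a c t →
      (D.path a b c t ≤ D.X u v t ∧ D.X u v t ≤ D.X a c t) ∨
      (D.X a c t ≤ D.X u v t ∧ D.X u v t ≤ D.path a b c t) := by
    intro h4
    rw [h4]
    rcases hside with h3 | h3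
    · exact Or.inl ⟨h3.le, le_rfl⟩
    · exact Or.inr ⟨le_rfl, h3.le⟩
  have hopen : ∀ s0 ∈ Set.Icc (ht u) (ht v), (D.X u v s0, s0) ∈ D.region a b c →
      (D.path a b c t ≤ D.X u v t ∧ D.X u v t ≤ D.X a c t) ∨
      (D.X a c t ≤ D.X u v t ∧ D.X u v t ≤ D.path a b c t) := by
    intro s0 hs0 hin
    obtain ⟨k1, k2, k3⟩ := D.arc_region h huv s0 hs0 hin
    rcases eq_or_lt_of_le ht0.1 with e1 | e1
    · subst e1
      rcases k2 with k2 | rfl | rfl | rfl
      · exact strict (by rwa [D.X0 _ _ huv])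
      · exact absurd ht1 (lt_irrefl _)
      · exact hpath (by rw [D.X0 _ _ huv, D.GeoLam_pathb a _ _ h.1])
      · exact absurd ht2 (lt_irrefl _)
    · rcases eq_or_lt_of_le ht0.2 with e2 | e2
      · subst e2
        rcases k3 with k3 | rfl | rfl | rfl
        · exact strict (by rwa [D.X1 _ _ huv])
        · exact absurd ht1 (lt_irrefl _)
        · exact hpath (by rw [D.X1 _ _ huv, D.GeoLam_pathb a _ _ h.1])
        · exact absurd ht2 (lt_irrefl _)
      · exact strict (k1 t ⟨e1, e2⟩)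
  rcases hu with hu | hu
  · exact hopen (ht u) ⟨le_rfl, (D.ht_lt _ _ huv).le⟩ (by rwa [D.X0 _ _ huv])
  · rcases hv with hv | hv
    · exact hopen (ht v) ⟨(D.ht_lt _ _ huv).le, le_rfl⟩ (by rwa [D.X1 _ _ huv])
    · rcases D.GeoLam_bd h (D.GeoLam_corner h huv hu hv) ht0 with h4 | h4
      · exact hpath h4
      · exact hlong h4

/-- if an arc of `t'` has a point in the region of `t`, the region of `t'` is contained in the
region of `t` -/
theorem GeoLam_sub {a b c a' b' c' u v : V} (h : Tri arc a b c) (h' : Tri arc a' b' c')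
    (hu : GeoLam_is a' b' c' u v) {t : ℝ} (ht0 : t ∈ Set.Icc (ht u) (ht v))
    (hin : (D.X u v t, t) ∈ D.region a b c) : D.region a' b' c' ⊆ D.region a b c := by
  have hall := D.GeoLam_all h h' hu ht0 hin
  rintro ⟨x, s⟩ ⟨hs1, hs2, hs3⟩
  simp only at hs1 hs2 hs3
  have hla := hall a' (Or.inl rfl)
  have hlb := hall b' (Or.inr (Or.inl rfl))
  have hlc := hall c' (Or.inr (Or.inr rfl))
  have hab := D.GeoLam_lt h
  have ha : ht a < s := by
    refine lt_of_le_of_lt ?_ hs1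
    rcases hla with h1 | h1 | h1 | h1
    · exact h1.1.le
    · rw [h1]
    · rw [h1]; exact hab.1.le
    · rw [h1]; exact (hab.1.trans hab.2).le
  have hc : s < ht c := by
    refine lt_of_lt_of_le hs2 ?_
    rcases hlc with h1 | h1 | h1 | h1
    · exact h1.2.1.le
    · rw [h1]; exact (hab.1.trans hab.2).le
    · rw [h1]; exact hab.2.le
    · rw [h1]
  have hq := D.GeoLam_cl h h'.2.2 hla hlc ⟨hs1.le, hs2.le⟩ ha hc
  have hp : (D.path a b c s ≤ D.path a' b' c' s ∧ D.path a' b' c' s ≤ D.X a c s) ∨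
      (D.X a c s ≤ D.path a' b' c' s ∧ D.path a' b' c' s ≤ D.path a b c s) := by
    rcases D.GeoLam_path h' hs1.le hs2.le with ⟨h1, h2⟩ | ⟨h1, h2⟩
    · rw [h2]
      exact D.GeoLam_cl h h'.1 hla hlb ⟨hs1.le, h1⟩ ha hc
    · rw [h2]
      exact D.GeoLam_cl h h'.2.1 hlb hlc ⟨h1, hs2.le⟩ ha hc
  refine ⟨ha, hc, ?_⟩
  simp only
  rcases hp with hp | hp <;> rcases hq with hq | hq <;> rcases hs3 with hs3 | hs3 <;>
    first
      | (left; constructor <;> linarith [hp.1, hp.2, hq.1, hq.2, hs3.1, hs3.2])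
      | (right; constructor <;> linarith [hp.1, hp.2, hq.1, hq.2, hs3.1, hs3.2])

/-- regions which meet while no arc of one meets the other -/
theorem GeoLam_eq {a b c a' b' c' : V} (h : Tri arc a b c) (h' : Tri arc a' b' c')
    (h1 : ∀ u v, GeoLam_is a' b' c' u v → ∀ t ∈ Set.Icc (ht u) (ht v),
      (D.X u v t, t) ∉ D.region a b c)
    (h2 : ∀ u v, GeoLam_is a b c u v → ∀ t ∈ Set.Icc (ht u) (ht v),
      (D.X u v t, t) ∉ D.region a' b' c')
    (hne : (D.region a b c ∩ D.region a' b' c').Nonempty) : a = a' ∧ b = b' ∧ c = c' := by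
  obtain ⟨⟨x, s⟩, ⟨s1, s2, s3⟩, ⟨s1', s2', s3'⟩⟩ := hne
  simp only at s1 s2 s3 s1' s2' s3'
  have hlt := D.GeoLam_lt h
  have hlt' := D.GeoLam_lt h'
  have q1 : ¬ ((D.path a b c s < D.X a' c' s ∧ D.X a' c' s < D.X a c s) ∨
      (D.X a c s < D.X a' c' s ∧ D.X a' c' s < D.path a b c s)) := fun k =>
    h1 a' c' (Or.inr (Or.inr ⟨rfl, rfl⟩)) s ⟨s1'.le, s2'.le⟩ ⟨s1, s2, k⟩
  have q2 : ¬ ((D.path a' b' c' s < D.X a c s ∧ D.X a c s < D.X a' c' s) ∨
      (D.X a' c' s < D.X a c s ∧ D.X a c s < D.path a' b' c' s)) := fun k =>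
    h2 a c (Or.inr (Or.inr ⟨rfl, rfl⟩)) s ⟨s1.le, s2.le⟩ ⟨s1', s2', k⟩
  have p1 : ¬ ((D.path a b c s < D.path a' b' c' s ∧ D.path a' b' c' s < D.X a c s) ∨
      (D.X a c s < D.path a' b' c' s ∧ D.path a' b' c' s < D.path a b c s)) := by
    intro k
    rcases D.GeoLam_path h' s1'.le s2'.le with ⟨g1, g2⟩ | ⟨g1, g2⟩
    · rw [g2] at k
      exact h1 a' b' (Or.inl ⟨rfl, rfl⟩) s ⟨s1'.le, g1⟩ ⟨s1, s2, k⟩
    · rw [g2] at k
      exact h1 b' c' (Or.inr (Or.inl ⟨rfl, rfl⟩)) s ⟨g1, s2'.le⟩ ⟨s1, s2, k⟩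
  have p2 : ¬ ((D.path a' b' c' s < D.path a b c s ∧ D.path a b c s < D.X a' c' s) ∨
      (D.X a' c' s < D.path a b c s ∧ D.path a b c s < D.path a' b' c' s)) := by
    intro k
    rcases D.GeoLam_path h s1.le s2.le with ⟨g1, g2⟩ | ⟨g1, g2⟩
    · rw [g2] at k
      exact h2 a b (Or.inl ⟨rfl, rfl⟩) s ⟨s1.le, g1⟩ ⟨s1', s2', k⟩
    · rw [g2] at k
      exact h2 b c (Or.inr (Or.inl ⟨rfl, rfl⟩)) s ⟨g1, s2.le⟩ ⟨s1', s2', k⟩
  have key : (D.path a b c s = D.path a' b' c' s ∧ D.X a c s = D.X a' c' s) ∨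
      (D.path a b c s = D.X a' c' s ∧ D.X a c s = D.path a' b' c' s) := by
    generalize D.path a b c s = p at *
    generalize D.X a c s = q at *
    generalize D.path a' b' c' s = p' at *
    generalize D.X a' c' s = q' at *
    clear hlt hlt' h1 h2
    push Not at q1 q2 p1 p2
    obtain ⟨q1, q1'⟩ := q1
    obtain ⟨q2, q2'⟩ := q2
    obtain ⟨p1, p1'⟩ := p1
    obtain ⟨p2, p2'⟩ := p2
    rcases s3 with ⟨s3, s4⟩ | ⟨s3, s4⟩ <;> rcases s3' with ⟨s3', s4'⟩ | ⟨s3', s4'⟩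
    · left
      refine ⟨?_, ?_⟩
      · rcases lt_trichotomy p p' with g | g | g
        · exact absurd (p1 g) (by linarith)
        · exact g
        · exact absurd (p2 g) (by linarith)
      · rcases lt_trichotomy q q' with g | g | g
        · have := q2 (by linarith); linarith
        · exact g
        · have := q1 (by linarith); linarith
    · right
      refine ⟨?_, ?_⟩
      · rcases lt_trichotomy p q' with g | g | g
        · exact absurd (q1 g) (by linarith)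
        · exact g
        · exact absurd (p2' g) (by linarith)
      · rcases lt_trichotomy q p' with g | g | g
        · have := q2' (by linarith); linarith
        · exact g
        · have := p1 (by linarith); linarith
    · right
      refine ⟨?_, ?_⟩
      · rcases lt_trichotomy p q' with g | g | g
        · have := p2 (by linarith); linarith
        · exact g
        · have := q1' (by linarith); linarith
      · rcases lt_trichotomy q p' with g | g | g
        · exact absurd (p1' g) (by linarith)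
        · exact g
        · exact absurd (q2 g) (by linarith)
    · left
      refine ⟨?_, ?_⟩
      · rcases lt_trichotomy p p' with g | g | g
        · have := p2' (by linarith); linarith
        · exact g
        · have := p1' (by linarith); linarith
      · rcases lt_trichotomy q q' with g | g | g
        · exact absurd (q1' g) (by linarith)
        · exact g
        · exact absurd (q2' g) (by linarith)
  -- two arcs with a common point at height `s`, which is inside the range of the first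
  have hcr : ∀ u v u' v', arc u v → arc u' v' → s ∈ Set.Ioo (ht u) (ht v) →
      s ∈ Set.Icc (ht u') (ht v') → D.X u v s = D.X u' v' s → u = u' ∧ v = v' := by
    intro u v u' v' k1 k2 k3 k4 k5
    by_contra k6
    obtain ⟨w, k7, k8, -⟩ := D.cross u v u' v' s k1 k2 k6 ⟨k3.1.le, k3.2.le⟩ k4 k5
    rcases k8 with rfl | rfl
    · exact absurd k7 (ne_of_gt k3.1)
    · exact absurd k7 (ne_of_lt k3.2)
  rcases key with ⟨e1, e2⟩ | ⟨e1, e2⟩
  · obtain ⟨rfl, rfl⟩ := hcr a c a' c' h.2.2 h'.2.2 ⟨s1, s2⟩ ⟨s1'.le, s2'.le⟩ e2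
    refine ⟨rfl, ?_, rfl⟩
    rcases D.GeoLam_path h s1.le s2.le with ⟨g1, g2⟩ | ⟨g1, g2⟩ <;>
      rcases D.GeoLam_path h' s1'.le s2'.le with ⟨g1', g2'⟩ | ⟨g1', g2'⟩
    · by_contra hb
      obtain ⟨w, k7, k8, k9⟩ := D.cross a b a b' s h.1 h'.1 (fun k => hb k.2) ⟨s1.le, g1⟩
        ⟨s1.le, g1'⟩ (by rw [← g2, ← g2', e1])
      rcases k8 with rfl | rfl
      · exact absurd k7 (ne_of_gt s1)
      · rcases k9 with k9 | k9
        · rw [k9] at hlt; exact absurd hlt.1 (lt_irrefl _)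
        · exact hb k9
    · by_contra hb
      obtain ⟨w, k7, k8, k9⟩ := D.cross a b b' c s h.1 h'.2.1
        (fun k => by rw [k.2] at hlt; exact absurd hlt.2 (lt_irrefl _)) ⟨s1.le, g1⟩
        ⟨g1', s2.le⟩ (by rw [← g2, ← g2', e1])
      rcases k8 with rfl | rfl
      · exact absurd k7 (ne_of_gt s1)
      · rcases k9 with k9 | k9
        · exact hb k9
        · rw [k9] at hlt; exact absurd hlt.2 (lt_irrefl _)
    · by_contra hb
      obtain ⟨w, k7, k8, k9⟩ := D.cross b c a b' s h.2.1 h'.1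
        (fun k => by rw [k.1] at hlt; exact absurd hlt.1 (lt_irrefl _)) ⟨g1, s2.le⟩
        ⟨s1.le, g1'⟩ (by rw [← g2, ← g2', e1])
      rcases k8 with rfl | rfl
      · rcases k9 with k9 | k9
        · rw [k9] at hlt; exact absurd hlt.1 (lt_irrefl _)
        · exact hb k9
      · exact absurd k7 (ne_of_lt s2)
    · by_contra hb
      obtain ⟨w, k7, k8, k9⟩ := D.cross b c b' c s h.2.1 h'.2.1 (fun k => hb k.1) ⟨g1, s2.le⟩
        ⟨g1', s2.le⟩ (by rw [← g2, ← g2', e1])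
      rcases k8 with rfl | rfl
      · rcases k9 with k9 | k9
        · exact hb k9
        · rw [k9] at hlt; exact absurd hlt.2 (lt_irrefl _)
      · exact absurd k7 (ne_of_lt s2)
  · exfalso
    rcases D.GeoLam_path h s1.le s2.le with ⟨g1, g2⟩ | ⟨g1, g2⟩ <;>
      rcases D.GeoLam_path h' s1'.le s2'.le with ⟨g1', g2'⟩ | ⟨g1', g2'⟩
    · obtain ⟨k1, k2⟩ := hcr a c a' b' h.2.2 h'.1 ⟨s1, s2⟩ ⟨s1'.le, g1'⟩ (by rw [e2, g2'])
      obtain ⟨k3, k4⟩ := hcr a' c' a b h'.2.2 h.1 ⟨s1', s2'⟩ ⟨s1.le, g1⟩ (by rw [← e1, g2])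
      subst k2 k4
      linarith [hlt.1, hlt.2, hlt'.1, hlt'.2]
    · obtain ⟨k1, k2⟩ := hcr a c b' c' h.2.2 h'.2.1 ⟨s1, s2⟩ ⟨g1', s2'.le⟩ (by rw [e2, g2'])
      obtain ⟨k3, k4⟩ := hcr a' c' a b h'.2.2 h.1 ⟨s1', s2'⟩ ⟨s1.le, g1⟩ (by rw [← e1, g2])
      subst k1 k3
      linarith [hlt.1, hlt.2, hlt'.1, hlt'.2]
    · obtain ⟨k1, k2⟩ := hcr a c a' b' h.2.2 h'.1 ⟨s1, s2⟩ ⟨s1'.le, g1'⟩ (by rw [e2, g2'])
      obtain ⟨k3, k4⟩ := hcr a' c' b c h'.2.2 h.2.1 ⟨s1', s2'⟩ ⟨g1, s2.le⟩ (by rw [← e1, g2])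
      subst k1 k3
      linarith [hlt.1, hlt.2, hlt'.1, hlt'.2]
    · obtain ⟨k1, k2⟩ := hcr a c b' c' h.2.2 h'.2.1 ⟨s1, s2⟩ ⟨g1', s2'.le⟩ (by rw [e2, g2'])
      obtain ⟨k3, k4⟩ := hcr a' c' b c h'.2.2 h.2.1 ⟨s1', s2'⟩ ⟨g1, s2.le⟩ (by rw [← e1, g2])
      subst k1 k3
      linarith [hlt.1, hlt.2, hlt'.1, hlt'.2]

/-- task G4: laminarity -/
theorem region_lam {a b c a' b' c' : V} (h : Tri arc a b c) (h' : Tri arc a' b' c')
    (hne : (D.region a b c ∩ D.region a' b' c').Nonempty) :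
    D.region a b c ⊆ D.region a' b' c' ∨ D.region a' b' c' ⊆ D.region a b c := by
  by_cases h1 : ∀ u v, GeoLam_is a' b' c' u v → ∀ t ∈ Set.Icc (ht u) (ht v),
      (D.X u v t, t) ∉ D.region a b c
  · by_cases h2 : ∀ u v, GeoLam_is a b c u v → ∀ t ∈ Set.Icc (ht u) (ht v),
        (D.X u v t, t) ∉ D.region a' b' c'
    · obtain ⟨rfl, rfl, rfl⟩ := D.GeoLam_eq h h' h1 h2 hne
      exact Or.inl subset_rfl
    · push Not at h2
      obtain ⟨u, v, k1, t, k2, k3⟩ := h2
      exact Or.inl (D.GeoLam_sub h' h k1 k2 k3)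
  · push Not at h1
    obtain ⟨u, v, k1, t, k2, k3⟩ := h1
    exact Or.inr (D.GeoLam_sub h h' k1 k2 k3)

theorem region_inj {a b c a' b' c' : V} (h : Tri arc a b c) (h' : Tri arc a' b' c')
    (he : D.region a b c = D.region a' b' c') : a = a' ∧ b = b' ∧ c = c' := by
  have hlt := D.GeoLam_lt h
  refine D.GeoLam_eq h h' ?_ ?_ ?_
  · intro u v k1 t k2
    rw [he]
    exact D.GeoLam_own h' k1 k2
  · intro u v k1 t k2
    rw [← he]
    exact D.GeoLam_own h k1 k2
  · rw [← he, Set.inter_self]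
    have hm : (ht a + ht c) / 2 ∈ Set.Ioo (ht a) (ht c) :=
      ⟨by linarith [hlt.1, hlt.2], by linarith [hlt.1, hlt.2]⟩
    refine ⟨((D.path a b c ((ht a + ht c) / 2) + D.X a c ((ht a + ht c) / 2)) / 2,
      (ht a + ht c) / 2), hm.1, hm.2, ?_⟩
    simp only
    rcases D.side_const h with k | k
    · left
      have := k _ hm
      constructor <;> linarith
    · right
      have := k _ hm
      constructor <;> linarith

end Draw

end UP2
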