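import Pool.Agent.Lib.MP_20105c_co.GeoArc

set_option autoImplicit false

namespace UP2

namespace Draw

open Set

variable {V : Type} {arc : V → V → Prop} {ht : V → ℝ} (D : Draw arc ht)

theorem geoRoot_path_a {a b c : V} (h : Tri arc a b c) : D.path a b c (ht a) = D.x a := by
  unfold path
  rw [if_pos (D.ht_lt _ _ h.1).le]
  exact D.X0 _ _ h.1

theorem geoRoot_path_b {a b c : V} (h : Tri arc a b c) : D.path a b c (ht b) = D.x b := by
  unfold path
  rw [if_pos le_rfl]
  exact D.X1 _ _ h.1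

theorem geoRoot_path_c {a b c : V} (h : Tri arc a b c) : D.path a b c (ht c) = D.x c := by
  unfold path
  rw [if_neg (not_le.2 (D.ht_lt _ _ h.2.1))]
  exact D.X1 _ _ h.2.1

include D in
theorem geoRoot_lt {a b c : V} (h : Tri arc a b c) : ht a < ht c := D.ht_lt _ _ h.2.2

/-- the pair of functions bounding the region -/
noncomputable def geoRootF (a b c : V) (P : ℝ × ℝ) : ℝ × ℝ :=
  (D.path a b c P.2 - P.1, D.X a c P.2 - P.1)

theorem geoRoot_contF {a b c : V} (h : Tri arc a b c) :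
    ContinuousOn (D.geoRootF a b c) {P : ℝ × ℝ | P.2 ∈ Icc (ht a) (ht c)} := by
  have h1 : MapsTo (fun P : ℝ × ℝ => P.2) {P : ℝ × ℝ | P.2 ∈ Icc (ht a) (ht c)}
      (Icc (ht a) (ht c)) := fun P hP => hP
  unfold geoRootF
  exact (((D.path_cont h).comp continuous_snd.continuousOn h1).sub continuous_fst.continuousOn).prodMk
    (((D.cont _ _ h.2.2).comp continuous_snd.continuousOn h1).sub continuous_fst.continuousOn)

theorem geoRoot_open {a b c : V} (h : Tri arc a b c) : IsOpen (D.region a b c) := by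
  have h1 : D.region a b c = {P : ℝ × ℝ | P.2 ∈ Ioo (ht a) (ht c)} ∩ D.geoRootF a b c ⁻¹'
      {q : ℝ × ℝ | (q.1 < 0 ∧ 0 < q.2) ∨ (q.2 < 0 ∧ 0 < q.1)} := by
    ext P
    simp only [region, geoRootF, mem_ofPred_eq, mem_inter_iff, mem_preimage, mem_Ioo, sub_neg,
      sub_pos, and_assoc]
  rw [h1]
  refine ContinuousOn.isOpen_inter_preimage ((D.geoRoot_contF h).mono ?_) ?_ ?_
  · intro P hP
    exact ⟨hP.1.le, hP.2.le⟩
  · exact isOpen_Ioo.preimage continuous_snd
  · exact ((isOpen_lt continuous_fst continuous_const).inter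
      (isOpen_lt continuous_const continuous_snd)).union
      ((isOpen_lt continuous_snd continuous_const).inter
      (isOpen_lt continuous_const continuous_fst))

theorem geoRoot_closed {a b c : V} (h : Tri arc a b c) {P : ℝ × ℝ}
    (hP : P ∈ closure (D.region a b c)) : P.2 ∈ Icc (ht a) (ht c) ∧
      ((D.path a b c P.2 ≤ P.1 ∧ P.1 ≤ D.X a c P.2) ∨
        (D.X a c P.2 ≤ P.1 ∧ P.1 ≤ D.path a b c P.2)) := by
  have h2 : IsClosed ({P : ℝ × ℝ | P.2 ∈ Icc (ht a) (ht c)} ∩ D.geoRootF a b c ⁻¹'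
      {q : ℝ × ℝ | (q.1 ≤ 0 ∧ 0 ≤ q.2) ∨ (q.2 ≤ 0 ∧ 0 ≤ q.1)}) := by
    refine ContinuousOn.preimage_isClosed_of_isClosed (D.geoRoot_contF h) ?_ ?_
    · exact isClosed_Icc.preimage continuous_snd
    · exact ((isClosed_le continuous_fst continuous_const).inter
        (isClosed_le continuous_const continuous_snd)).union
        ((isClosed_le continuous_snd continuous_const).inter
        (isClosed_le continuous_const continuous_fst))
  have h3 : D.region a b c ⊆ ({P : ℝ × ℝ | P.2 ∈ Icc (ht a) (ht c)} ∩ D.geoRootF a b c ⁻¹'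
      {q : ℝ × ℝ | (q.1 ≤ 0 ∧ 0 ≤ q.2) ∨ (q.2 ≤ 0 ∧ 0 ≤ q.1)}) := by
    rintro Q ⟨h4, h5, h6⟩
    refine ⟨⟨h4.le, h5.le⟩, ?_⟩
    simp only [geoRootF, mem_preimage, mem_ofPred_eq, sub_nonpos, sub_nonneg]
    rcases h6 with h6 | h6
    · exact Or.inl ⟨h6.1.le, h6.2.le⟩
    · exact Or.inr ⟨h6.1.le, h6.2.le⟩
  have h4 := closure_minimal h3 h2 hP
  simpa only [geoRootF, mem_inter_iff, mem_preimage, mem_ofPred_eq, sub_nonpos, sub_nonneg] using h4

theorem geoRoot_corner {a b c z : V} (h : Tri arc a b c) (hz : z = a ∨ z = b ∨ z = c) :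
    (D.x z, ht z) ∈ closure (D.region a b c) := by
  have hac := D.geoRoot_lt h
  have hside := D.side_const h
  have hmid : ∀ s ∈ Ioo (ht a) (ht c), ∀ r ∈ Ioo (0 : ℝ) 1,
      (D.path a b c s + r * (D.X a c s - D.path a b c s), s) ∈ D.region a b c := by
    intro s hs r hr
    refine ⟨hs.1, hs.2, ?_⟩
    simp only
    rcases hside with h1 | h1
    · left
      have := h1 s hs
      constructor
      · nlinarith [hr.1]
      · nlinarith [hr.2]
    · right
      have := h1 s hs
      constructor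
      · nlinarith [hr.2]
      · nlinarith [hr.1]
  by_cases hb : z = b
  · subst hb
    have hs : ht z ∈ Ioo (ht a) (ht c) := ⟨D.ht_lt _ _ h.1, D.ht_lt _ _ h.2.1⟩
    have h1 : ContinuousWithinAt (fun r : ℝ => ((D.x z + r * (D.X a c (ht z) - D.x z), ht z) :
        ℝ × ℝ)) (Ioo 0 1) 0 := by
      apply Continuous.continuousWithinAt
      fun_prop
    have h2 : (0 : ℝ) ∈ closure (Ioo (0 : ℝ) 1) := by
      rw [closure_Ioo (by norm_num)]
      exact ⟨le_rfl, zero_le_one⟩
    have h3 : MapsTo (fun r : ℝ => ((D.x z + r * (D.X a c (ht z) - D.x z), ht z) :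
        ℝ × ℝ)) (Ioo 0 1) (D.region a z c) := by
      intro r hr
      have := hmid (ht z) hs r hr
      rwa [D.geoRoot_path_b h] at this
    have h4 := h1.mem_closure h2 h3
    simpa using h4
  · have hz' : z = a ∨ z = c := by tauto
    have h1 : ContinuousOn (fun s : ℝ => ((D.path a b c s + (1 / 2 : ℝ) * (D.X a c s - D.path a b c s), s) :
        ℝ × ℝ)) (Icc (ht a) (ht c)) :=
      ((D.path_cont h).add (continuousOn_const.mul ((D.cont _ _ h.2.2).sub
        (D.path_cont h)))).prodMk continuousOn_id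
    have h2 : ht z ∈ Icc (ht a) (ht c) := by
      rcases hz' with rfl | rfl
      · exact ⟨le_rfl, hac.le⟩
      · exact ⟨hac.le, le_rfl⟩
    have h3 : MapsTo (fun s : ℝ => ((D.path a b c s + (1 / 2 : ℝ) * (D.X a c s - D.path a b c s), s) :
        ℝ × ℝ)) (Ioo (ht a) (ht c)) (D.region a b c) := by
      intro s hs
      exact hmid s hs (1 / 2) ⟨by norm_num, by norm_num⟩
    have h4 := ((h1 (ht z) h2).mono Ioo_subset_Icc_self).mem_closure
      (by rwa [closure_Ioo hac.ne]) h3
    have h5 : D.path a b c (ht z) = D.x z := by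
      rcases hz' with rfl | rfl
      · exact D.geoRoot_path_a h
      · exact D.geoRoot_path_c h
    have h6 : D.X a c (ht z) = D.x z := by
      rcases hz' with rfl | rfl
      · exact D.X0 _ _ h.2.2
      · exact D.X1 _ _ h.2.2
    simpa [h5, h6] using h4

/-- task G5: corners of contained triangles -/
theorem region_corner {a b c a' b' c' z : V} (h : Tri arc a b c) (h' : Tri arc a' b' c')
    (hs : D.region a b c ⊆ D.region a' b' c') (hz : z = a ∨ z = b ∨ z = c) :
    (D.x z, ht z) ∈ D.region a' b' c' ∨ z = a' ∨ z = b' ∨ z = c' := by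
  obtain ⟨h1, h2⟩ := D.geoRoot_closed h' (closure_mono hs (D.geoRoot_corner h hz))
  simp only at h1 h2
  have hX : D.X a' c' (ht z) = D.x z → z = a' ∨ z = b' ∨ z = c' := by
    intro h3
    have := D.avoid a' c' z h'.2.2 h1.1 h1.2 h3
    tauto
  have hp : D.path a' b' c' (ht z) = D.x z → z = a' ∨ z = b' ∨ z = c' := by
    intro h3
    unfold path at h3
    by_cases h4 : ht z ≤ ht b'
    · rw [if_pos h4] at h3
      have := D.avoid a' b' z h'.1 h1.1 h4 h3
      tauto
    · rw [if_neg h4] at h3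
      have := D.avoid b' c' z h'.2.1 (not_le.1 h4).le h1.2 h3
      tauto
  by_cases e1 : D.X a' c' (ht z) = D.x z
  · exact Or.inr (hX e1)
  by_cases e2 : D.path a' b' c' (ht z) = D.x z
  · exact Or.inr (hp e2)
  by_cases e3 : ht z = ht a'
  · exfalso
    apply e1
    have hx := D.X0 _ _ h'.2.2
    have hy := D.geoRoot_path_a h'
    rw [e3] at h2 ⊢
    rw [hx, hy] at h2
    rw [hx]
    rcases h2 with h2 | h2 <;> linarith [h2.1, h2.2]
  by_cases e4 : ht z = ht c'
  · exfalso
    apply e1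
    have hx := D.X1 _ _ h'.2.2
    have hy := D.geoRoot_path_c h'
    rw [e4] at h2 ⊢
    rw [hx, hy] at h2
    rw [hx]
    rcases h2 with h2 | h2 <;> linarith [h2.1, h2.2]
  left
  refine ⟨lt_of_le_of_ne h1.1 (Ne.symm e3), lt_of_le_of_ne h1.2 e4, ?_⟩
  rcases h2 with h2 | h2
  · exact Or.inl ⟨lt_of_le_of_ne h2.1 e2, lt_of_le_of_ne h2.2 (Ne.symm e1)⟩
  · exact Or.inr ⟨lt_of_le_of_ne h2.1 e1, lt_of_le_of_ne h2.2 (Ne.symm e2)⟩

theorem region_of_corner {a b c a' b' c' z : V} (h : Tri arc a b c) (h' : Tri arc a' b' c')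
    (hz : z = a ∨ z = b ∨ z = c) (hin : (D.x z, ht z) ∈ D.region a' b' c') :
    (D.region a b c ∩ D.region a' b' c').Nonempty := by
  have h1 := mem_closure_iff.1 (D.geoRoot_corner h hz) _ (D.geoRoot_open h') hin
  rwa [inter_comm] at h1

/-- task G7: a root arc no end of which lies in a region -/
theorem exists_root [Finite V] (h : ∃ u v, arc u v) :
    ∃ u v, arc u v ∧ ∀ a b c, Tri arc a b c →
      (D.x u, ht u) ∉ D.region a b c ∧ (D.x v, ht v) ∉ D.region a b c := by
  obtain ⟨u0, v0, h0⟩ := h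
  obtain ⟨u, ⟨v1, hu⟩, hmin⟩ := exists_min_image {u : V | ∃ v, arc u v} ht (toFinite _)
    ⟨u0, v0, h0⟩
  have hmin' : ∀ a b, arc a b → ht u ≤ ht a := fun a b hab => hmin a ⟨b, hab⟩
  obtain ⟨w, hw, hwmin⟩ := exists_min_image {w : V | arc u w} ht (toFinite _) ⟨v1, hu⟩
  have hlt := D.ht_lt _ _ hw
  obtain ⟨s, hs1, hs2⟩ := exists_between hlt
  have hs3 : ∀ y, arc u y → s < ht y := fun y hy => hs2.trans_le (hwmin y hy)
  obtain ⟨v, hv, hvmin⟩ := exists_min_image {w : V | arc u w} (fun w => D.X u w s) (toFinite _)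
    ⟨v1, hu⟩
  have hnu : ∀ a b c, Tri arc a b c → (D.x u, ht u) ∉ D.region a b c := by
    intro a b c habc hin
    have h1 := hin.1
    have h2 := hmin' a b habc.1
    simp only at h1
    linarith
  refine ⟨u, v, hv, fun a b c habc => ⟨hnu a b c habc, fun hin => ?_⟩⟩
  have hX := D.X1 _ _ hv
  have hin' : (D.X u v (ht v), ht v) ∈ D.region a b c := by rwa [hX]
  obtain ⟨h1, h2, -⟩ := D.arc_region habc hv (ht v) ⟨(D.ht_lt _ _ hv).le, le_rfl⟩ hin'
  have hab := D.ht_lt _ _ habc.1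
  have hbc := D.ht_lt _ _ habc.2.1
  have hua := hmin' a b habc.1
  have h3 : u = a := by
    rcases h2 with h2 | h2 | h2 | h2
    · exact absurd h2 (hnu a b c habc)
    · exact h2
    · rw [h2] at hua
      linarith
    · rw [h2] at hua
      linarith
  subst h3
  have h4 := h1 s ⟨hs1, hs3 v hv⟩
  obtain ⟨-, -, h5⟩ := h4
  have h6 : D.path u b c s = D.X u b s := by
    unfold path
    rw [if_pos (hs3 b habc.1).le]
  simp only [h6] at h5
  have h7 := hvmin b habc.1
  have h8 := hvmin c habc.2.2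
  rcases h5 with h5 | h5 <;> linarith [h5.1, h5.2]

end Draw

end UP2
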