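import Pool.Agent.Lib.MP_20105c_co.GeoArc
import Pool.Agent.Lib.MP_20105c_co.GeoLam
import Pool.Agent.Lib.MP_20105c_co.GeoRoot

set_option autoImplicit false

/-!
# The combinatorial information of a drawing
-/

namespace UP2

namespace GeoEmb

variable {V : Type} (G : G2 V)

theorem tri {y : V} (hy : G.nr y) : Tri G.arc (G.ca y) (G.cb y) (G.cc y) := by
  have h1 := G.par y hy.1 hy.2
  have h2 : ∀ u v, Birth G.lo G.hi G.kind y u v → G.arc u v := fun u v h =>
    (G.arc_iff u v).2 (Or.inr ⟨y, hy, h⟩)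
  unfold G2.ca G2.cb G2.cc Tri
  unfold Birth at h2
  cases hk : G.kind y
  · rw [hk] at h2
    exact ⟨h1, h2 _ _ (Or.inr ⟨rfl, rfl⟩), h2 _ _ (Or.inl ⟨rfl, rfl⟩)⟩
  · rw [hk] at h2
    exact ⟨h2 _ _ (Or.inl ⟨rfl, rfl⟩), h1, h2 _ _ (Or.inr ⟨rfl, rfl⟩)⟩
  · rw [hk] at h2
    exact ⟨h2 _ _ (Or.inl ⟨rfl, rfl⟩), h2 _ _ (Or.inr ⟨rfl, rfl⟩), h1⟩

theorem corner_self (y : V) : G.corner y y := by
  unfold G2.corner G2.ca G2.cb G2.cc
  cases G.kind y <;> simp

theorem corner_ix {y z : V} (hy : G.nr y) (hz : G.corner y z) : G.ix z ≤ G.ix y := by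
  have h := G.ix_par y hy.1 hy.2
  unfold G2.corner G2.ca G2.cb G2.cc at hz
  cases hk : G.kind y <;> simp only [hk] at hz <;> rcases hz with h1 | h1 | h1 <;> rw [h1] <;>
    omega

theorem eq_of_corners {y y' : V} (hy : G.nr y) (hy' : G.nr y') (ha : G.ca y = G.ca y')
    (hb : G.cb y = G.cb y') (hc : G.cc y = G.cc y') : y = y' := by
  have h1 : G.corner y y' := by
    have := corner_self G y'
    unfold G2.corner at this ⊢
    rwa [ha, hb, hc]
  have h2 : G.corner y' y := by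
    have := corner_self G y
    unfold G2.corner at this ⊢
    rwa [← ha, ← hb, ← hc]
  exact G.ix_inj (le_antisymm (corner_ix G hy' h2) (corner_ix G hy h1))

variable {G} (D : Draw G.arc G.ht)

/-- the region of the triangle of `y` -/
def R (y : V) : Set (ℝ × ℝ) := D.region (G.ca y) (G.cb y) (G.cc y)

theorem not_mem_corner {y z : V} (hy : G.nr y) (hz : G.corner y z) : (D.x z, G.ht z) ∉ R D y := by
  intro h
  have ht := tri G hy
  obtain ⟨h1, h2, h3⟩ := h
  simp only at h1 h2 h3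
  rcases hz with rfl | rfl | rfl
  · exact lt_irrefl _ h1
  · have e : D.path (G.ca y) (G.cb y) (G.cc y) (G.ht (G.cb y)) = D.x (G.cb y) := by
      unfold Draw.path
      rw [if_pos le_rfl, D.X1 _ _ ht.1]
    rw [e] at h3
    rcases h3 with h3 | h3
    · exact lt_irrefl _ h3.1
    · exact lt_irrefl _ h3.2
  · exact lt_irrefl _ h2

theorem mid_ne {y : V} (hy : G.nr y) :
    D.X (G.ca y) (G.cc y) (G.ht (G.cb y)) ≠ D.x (G.cb y) := by
  intro h
  have ht := tri G hy
  have h1 := G.ht_lt _ _ ht.1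
  have h2 := G.ht_lt _ _ ht.2.1
  rcases D.avoid _ _ _ ht.2.2 h1.le h2.le h with h3 | h3
  · rw [h3] at h1
    exact lt_irrefl _ h1
  · rw [h3] at h2
    exact lt_irrefl _ h2

/-- the side of the long arc on which the middle vertex lies -/
noncomputable def sd (y : V) : Bool := by
  classical exact decide (D.x (G.cb y) < D.X (G.ca y) (G.cc y) (G.ht (G.cb y)))

/-- the description of the region by the side -/
theorem mem_R {y : V} (hy : G.nr y) :
    (sd D y = true ∧ ∀ P : ℝ × ℝ, P ∈ R D y ↔ G.ht (G.ca y) < P.2 ∧ P.2 < G.ht (G.cc y) ∧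
      D.path (G.ca y) (G.cb y) (G.cc y) P.2 < P.1 ∧ P.1 < D.X (G.ca y) (G.cc y) P.2) ∨
    (sd D y = false ∧ ∀ P : ℝ × ℝ, P ∈ R D y ↔ G.ht (G.ca y) < P.2 ∧ P.2 < G.ht (G.cc y) ∧
      D.X (G.ca y) (G.cc y) P.2 < P.1 ∧ P.1 < D.path (G.ca y) (G.cb y) (G.cc y) P.2) := by
  classical
  have ht := tri G hy
  have h1 := G.ht_lt _ _ ht.1
  have h2 := G.ht_lt _ _ ht.2.1
  have e : D.path (G.ca y) (G.cb y) (G.cc y) (G.ht (G.cb y)) = D.x (G.cb y) := by
    unfold Draw.path
    rw [if_pos le_rfl, D.X1 _ _ ht.1]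
  rcases D.side_const ht with hs | hs
  · left
    have h3 := hs _ ⟨h1, h2⟩
    rw [e] at h3
    refine ⟨by unfold sd; simpa using h3, ?_⟩
    intro P
    constructor
    · rintro ⟨p1, p2, p3⟩
      refine ⟨p1, p2, ?_⟩
      rcases p3 with p3 | p3
      · exact p3
      · exact absurd (p3.1.trans p3.2) (hs _ ⟨p1, p2⟩).le.not_gt
    · rintro ⟨p1, p2, p3⟩
      exact ⟨p1, p2, Or.inl p3⟩
  · right
    have h3 := hs _ ⟨h1, h2⟩
    rw [e] at h3
    refine ⟨by unfold sd; simpa using h3.le, ?_⟩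
    intro P
    constructor
    · rintro ⟨p1, p2, p3⟩
      refine ⟨p1, p2, ?_⟩
      rcases p3 with p3 | p3
      · exact absurd (p3.1.trans p3.2) (hs _ ⟨p1, p2⟩).le.not_gt
      · exact p3
    · rintro ⟨p1, p2, p3⟩
      exact ⟨p1, p2, Or.inr p3⟩

/-- the region near an arc -/
theorem near_arc {y u v : V} (hy : G.nr y) (huv : G.HasArc y u v) {h : ℝ}
    (hh : h ∈ Set.Ioo (G.ht u) (G.ht v)) :
    (sideAt G (sd D) y u v = true → (∀ x, (x, h) ∈ R D y → x < D.X u v h) ∧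
      ∃ l, l < D.X u v h ∧ ∀ x, l < x → x < D.X u v h → (x, h) ∈ R D y) ∧
    (sideAt G (sd D) y u v = false → (∀ x, (x, h) ∈ R D y → D.X u v h < x) ∧
      ∃ l, D.X u v h < l ∧ ∀ x, D.X u v h < x → x < l → (x, h) ∈ R D y) := by
  classical
  have ht := tri G hy
  have hab := G.ht_lt _ _ ht.1
  have hbc := G.ht_lt _ _ ht.2.1
  have hside := D.side_const ht
  have hm := mem_R D hy
  obtain ⟨hh1, hh2⟩ := hh
  by_cases hl : u = G.ca y ∧ v = G.cc y
  · -- the long arc
    obtain ⟨rfl, rfl⟩ := hl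
    have e : sideAt G (sd D) y (G.ca y) (G.cc y) = sd D y := by
      unfold sideAt
      rw [if_pos ⟨rfl, rfl⟩]
    rw [e]
    rcases hm with ⟨hs, hm⟩ | ⟨hs, hm⟩
    · rw [hs]
      refine ⟨fun _ => ⟨fun x hx => ((hm _).1 hx).2.2.2,
        D.path (G.ca y) (G.cb y) (G.cc y) h, ?_, fun x h3 h4 => (hm _).2 ⟨hh1, hh2, h3, h4⟩⟩,
        fun h => by simp at h⟩
      rcases hside with hside | hside
      · exact hside _ ⟨hh1, hh2⟩
      · exfalso
        have e2 : D.path (G.ca y) (G.cb y) (G.cc y) (G.ht (G.cb y)) = D.x (G.cb y) := by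
          unfold Draw.path
          rw [if_pos le_rfl, D.X1 _ _ ht.1]
        have := hside _ ⟨hab, hbc⟩
        rw [e2] at this
        unfold sd at hs
        simp only [decide_eq_true_eq] at hs
        exact lt_asymm hs this
    · rw [hs]
      refine ⟨fun h => by simp at h, fun _ => ⟨fun x hx => ((hm _).1 hx).2.2.1,
        D.path (G.ca y) (G.cb y) (G.cc y) h, ?_, fun x h3 h4 => (hm _).2 ⟨hh1, hh2, h3, h4⟩⟩⟩
      rcases hside with hside | hside
      · exfalso
        have e2 : D.path (G.ca y) (G.cb y) (G.cc y) (G.ht (G.cb y)) = D.x (G.cb y) := by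
          unfold Draw.path
          rw [if_pos le_rfl, D.X1 _ _ ht.1]
        have := hside _ ⟨hab, hbc⟩
        rw [e2] at this
        unfold sd at hs
        simp only [decide_eq_false_iff_not] at hs
        exact hs this
      · exact hside _ ⟨hh1, hh2⟩
  · -- an arc of the path
    have e : sideAt G (sd D) y u v = !(sd D y) := by
      unfold sideAt
      rw [if_neg hl]
    have hpath : G.ht (G.ca y) < h ∧ h < G.ht (G.cc y) ∧
        D.path (G.ca y) (G.cb y) (G.cc y) h = D.X u v h := by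
      rcases huv with ⟨rfl, rfl⟩ | ⟨rfl, rfl⟩ | hl'
      · refine ⟨hh1, hh2.trans hbc, ?_⟩
        unfold Draw.path
        rw [if_pos hh2.le]
      · refine ⟨hab.trans hh1, hh2, ?_⟩
        unfold Draw.path
        rw [if_neg (not_le.2 hh1)]
      · exact absurd hl' hl
    obtain ⟨hp1, hp2, hp3⟩ := hpath
    rw [e]
    rcases hm with ⟨hs, hm⟩ | ⟨hs, hm⟩
    · rw [hs]
      refine ⟨fun h => by simp at h, fun _ => ⟨fun x hx => hp3 ▸ ((hm _).1 hx).2.2.1,
        D.X (G.ca y) (G.cc y) h, ?_, fun x h3 h4 => (hm _).2 ⟨hp1, hp2, by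
          simp only; rw [hp3]; exact h3, h4⟩⟩⟩
      rw [← hp3]
      rcases hside with hside | hside
      · exact hside _ ⟨hp1, hp2⟩
      · exfalso
        have e2 : D.path (G.ca y) (G.cb y) (G.cc y) (G.ht (G.cb y)) = D.x (G.cb y) := by
          unfold Draw.path
          rw [if_pos le_rfl, D.X1 _ _ ht.1]
        have := hside _ ⟨hab, hbc⟩
        rw [e2] at this
        unfold sd at hs
        simp only [decide_eq_true_eq] at hs
        exact lt_asymm hs this
    · rw [hs]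
      refine ⟨fun _ => ⟨fun x hx => hp3 ▸ ((hm _).1 hx).2.2.2,
        D.X (G.ca y) (G.cc y) h, ?_, fun x h3 h4 => (hm _).2 ⟨hp1, hp2, h3, by
          simp only; rw [hp3]; exact h4⟩⟩, fun h => by simp at h⟩
      rw [← hp3]
      rcases hside with hside | hside
      · exfalso
        have e2 : D.path (G.ca y) (G.cb y) (G.cc y) (G.ht (G.cb y)) = D.x (G.cb y) := by
          unfold Draw.path
          rw [if_pos le_rfl, D.X1 _ _ ht.1]
        have := hside _ ⟨hab, hbc⟩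
        rw [e2] at this
        unfold sd at hs
        simp only [decide_eq_false_iff_not] at hs
        exact hs this
      · exact hside _ ⟨hp1, hp2⟩

theorem hasArc_arc {y u v : V} (hy : G.nr y) (h : G.HasArc y u v) : G.arc u v := by
  have ht := tri G hy
  rcases h with ⟨rfl, rfl⟩ | ⟨rfl, rfl⟩ | ⟨rfl, rfl⟩
  · exact ht.1
  · exact ht.2.1
  · exact ht.2.2

/-- the region at the height of the middle vertex -/
theorem near_mid {y : V} (hy : G.nr y) :
    (sd D y = true → (∀ x, (x, G.ht (G.cb y)) ∈ R D y → D.x (G.cb y) < x) ∧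
      ∃ l, D.x (G.cb y) < l ∧ ∀ x, D.x (G.cb y) < x → x < l → (x, G.ht (G.cb y)) ∈ R D y) ∧
    (sd D y = false → (∀ x, (x, G.ht (G.cb y)) ∈ R D y → x < D.x (G.cb y)) ∧
      ∃ l, l < D.x (G.cb y) ∧ ∀ x, l < x → x < D.x (G.cb y) → (x, G.ht (G.cb y)) ∈ R D y) := by
  classical
  have ht := tri G hy
  have hab := G.ht_lt _ _ ht.1
  have hbc := G.ht_lt _ _ ht.2.1
  have hm := mem_R D hy
  have e : D.path (G.ca y) (G.cb y) (G.cc y) (G.ht (G.cb y)) = D.x (G.cb y) := by
    unfold Draw.path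
    rw [if_pos le_rfl, D.X1 _ _ ht.1]
  rcases hm with ⟨hs, hm⟩ | ⟨hs, hm⟩
  · rw [hs]
    refine ⟨fun _ => ⟨fun x hx => e ▸ ((hm _).1 hx).2.2.1,
      D.X (G.ca y) (G.cc y) (G.ht (G.cb y)), ?_, fun x h3 h4 => (hm _).2 ⟨hab, hbc, by
        simp only; rw [e]; exact h3, h4⟩⟩, fun h => by simp at h⟩
    unfold sd at hs
    simpa using hs
  · rw [hs]
    refine ⟨fun h => by simp at h, fun _ => ⟨fun x hx => e ▸ ((hm _).1 hx).2.2.2,
      D.X (G.ca y) (G.cc y) (G.ht (G.cb y)), ?_, fun x h3 h4 => (hm _).2 ⟨hab, hbc, h3, by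
        simp only; rw [e]; exact h4⟩⟩⟩
    unfold sd at hs
    simp only [decide_eq_false_iff_not, not_lt] at hs
    exact lt_of_le_of_ne hs (mid_ne D hy)

end GeoEmb

open GeoEmb

/-- task G6: all fields of `Emb` -/
theorem exists_emb {V : Type} (G : G2 V) (D : Draw G.arc G.ht)
    (hr : ∀ a b c, Tri G.arc a b c → (D.x G.r0, G.ht G.r0) ∉ D.region a b c ∧
      (D.x G.r1, G.ht G.r1) ∉ D.region a b c) : Nonempty (Emb G) := by
  classical
  have hlam : ∀ y y', G.nr y → G.nr y' → (R D y ∩ R D y').Nonempty →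
      (G.nr y ∧ G.nr y' ∧ R D y ⊆ R D y') ∨ (G.nr y' ∧ G.nr y ∧ R D y' ⊆ R D y) := by
    intro y y' hy hy' hne
    rcases D.region_lam (tri G hy) (tri G hy') hne with h | h
    · exact Or.inl ⟨hy, hy', h⟩
    · exact Or.inr ⟨hy', hy, h⟩
  refine ⟨{
    In := fun x y => G.nr y ∧ (D.x x, G.ht x) ∈ R D y
    Sub := fun y y' => G.nr y ∧ G.nr y' ∧ R D y ⊆ R D y'
    side := sd D
    in_nr := fun x y h => h.1
    sub_nr := fun y y' h => ⟨h.1, h.2.1⟩
    root_not_in := fun y => ⟨fun h => (hr _ _ _ (tri G h.1)).1 h.2,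
      fun h => (hr _ _ _ (tri G h.1)).2 h.2⟩
    in_not_corner := fun x y h hc => not_mem_corner D h.1 hc h.2
    in_ht := fun x y h => ⟨h.2.1, h.2.2.1⟩
    adj := ?_
    lam := fun x y y' h h' => hlam y y' h.1 h'.1 ⟨_, h.2, h'.2⟩
    sub_refl := fun y hy => ⟨hy, hy, subset_rfl⟩
    sub_trans := fun y y' y'' h h' => ⟨h.1, h'.2.1, h.2.2.trans h'.2.2⟩
    sub_antisymm := ?_
    sub_in := fun y y' z h hz => ⟨h.2.1, h.2.2 hz.2⟩
    sub_corner := ?_
    sub_of_in := ?_
    mid := ?_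
    sub_mid := ?_
    arcside := ?_
    sub_arcside := ?_ }⟩
  · -- adj
    intro u v y hadj hu
    have ht := tri G hu.1
    rcases hadj with h | h
    · have hlt := G.ht_lt _ _ h
      have := (D.arc_region ht h (G.ht u) ⟨le_rfl, hlt.le⟩ (by rw [D.X0 _ _ h]; exact hu.2)).2.2
      rcases this with h1 | h1
      · exact Or.inl ⟨hu.1, h1⟩
      · exact Or.inr h1
    · have hlt := G.ht_lt _ _ h
      have := (D.arc_region ht h (G.ht u) ⟨hlt.le, le_rfl⟩ (by rw [D.X1 _ _ h]; exact hu.2)).2.1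
      rcases this with h1 | h1
      · exact Or.inl ⟨hu.1, h1⟩
      · exact Or.inr h1
  · -- sub_antisymm
    intro y y' h h'
    obtain ⟨h1, h2, h3⟩ := D.region_inj (tri G h.1) (tri G h.2.1) (h.2.2.antisymm h'.2.2)
    exact eq_of_corners G h.1 h.2.1 h1 h2 h3
  · -- sub_corner
    intro y y' z h hz
    rcases D.region_corner (tri G h.1) (tri G h.2.1) h.2.2 hz with h1 | h1
    · exact Or.inl ⟨h.2.1, h1⟩
    · exact Or.inr h1
  · -- sub_of_in
    intro y y' z hy hz hin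
    rcases hlam y y' hy hin.1 (D.region_of_corner (tri G hy) (tri G hin.1) hz hin.2) with h | h
    · exact h
    · exact absurd (h.2.2 hin.2) (not_mem_corner D hy hz)
  · -- mid
    intro y y' hy hy' hb hs
    apply hlam y y' hy hy'
    have n1 := near_mid D hy
    have n2 := near_mid D hy'
    rw [← hb, ← hs] at n2
    cases hsd : sd D y
    · obtain ⟨-, l, hl, h1⟩ := n1.2 hsd
      obtain ⟨-, l', hl', h2⟩ := n2.2 hsd
      obtain ⟨x, hx, hx2⟩ := exists_between (max_lt hl hl')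
      exact ⟨(x, G.ht (G.cb y)), h1 x ((le_max_left _ _).trans_lt hx) hx2,
        h2 x ((le_max_right _ _).trans_lt hx) hx2⟩
    · obtain ⟨-, l, hl, h1⟩ := n1.1 hsd
      obtain ⟨-, l', hl', h2⟩ := n2.1 hsd
      obtain ⟨x, hx, hx2⟩ := exists_between (lt_min hl hl')
      exact ⟨(x, G.ht (G.cb y)), h1 x hx (hx2.trans_le (min_le_left _ _)),
        h2 x hx (hx2.trans_le (min_le_right _ _))⟩
  · -- sub_mid
    intro y y' h hb
    have n1 := near_mid D h.1
    have n2 := near_mid D h.2.1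
    rw [← hb] at n2
    cases hsd : sd D y <;> cases hsd' : sd D y'
    · rfl
    · exfalso
      obtain ⟨-, l, hl, h1⟩ := n1.2 hsd
      obtain ⟨h2, -⟩ := n2.1 hsd'
      obtain ⟨x, hx, hx2⟩ := exists_between hl
      exact lt_asymm hx2 (h2 x (h.2.2 (h1 x hx hx2)))
    · exfalso
      obtain ⟨-, l, hl, h1⟩ := n1.1 hsd
      obtain ⟨h2, -⟩ := n2.2 hsd'
      obtain ⟨x, hx, hx2⟩ := exists_between hl
      exact lt_asymm hx (h2 x (h.2.2 (h1 x hx hx2)))
    · rfl
  · -- arcside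
    intro y y' u v hy hy' huv huv' hs
    apply hlam y y' hy hy'
    have hlt := G.ht_lt _ _ (hasArc_arc hy huv)
    obtain ⟨h, hh⟩ := exists_between hlt
    have n1 := near_arc D hy huv hh
    have n2 := near_arc D hy' huv' hh
    rw [← hs] at n2
    cases hsd : sideAt G (sd D) y u v
    · obtain ⟨-, l, hl, h1⟩ := n1.2 hsd
      obtain ⟨-, l', hl', h2⟩ := n2.2 hsd
      obtain ⟨x, hx, hx2⟩ := exists_between (lt_min hl hl')
      exact ⟨(x, h), h1 x hx (hx2.trans_le (min_le_left _ _)),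
        h2 x hx (hx2.trans_le (min_le_right _ _))⟩
    · obtain ⟨-, l, hl, h1⟩ := n1.1 hsd
      obtain ⟨-, l', hl', h2⟩ := n2.1 hsd
      obtain ⟨x, hx, hx2⟩ := exists_between (max_lt hl hl')
      exact ⟨(x, h), h1 x ((le_max_left _ _).trans_lt hx) hx2,
        h2 x ((le_max_right _ _).trans_lt hx) hx2⟩
  · -- sub_arcside
    intro y y' u v h huv huv'
    have hlt := G.ht_lt _ _ (hasArc_arc h.1 huv)
    obtain ⟨t, ht⟩ := exists_between hlt
    have n1 := near_arc D h.1 huv ht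
    have n2 := near_arc D h.2.1 huv' ht
    cases hsd : sideAt G (sd D) y u v <;> cases hsd' : sideAt G (sd D) y' u v
    · rfl
    · exfalso
      obtain ⟨-, l, hl, h1⟩ := n1.2 hsd
      obtain ⟨h2, -⟩ := n2.1 hsd'
      obtain ⟨x, hx, hx2⟩ := exists_between hl
      exact lt_asymm hx (h2 x (h.2.2 (h1 x hx hx2)))
    · exfalso
      obtain ⟨-, l, hl, h1⟩ := n1.1 hsd
      obtain ⟨h2, -⟩ := n2.2 hsd'
      obtain ⟨x, hx, hx2⟩ := exists_between hl
      exact lt_asymm hx2 (h2 x (h.2.2 (h1 x hx hx2)))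
    · rfl

end UP2
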