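import Pool.Agent.Lib.MP_20105c_co.Defs

set_option autoImplicit false

/-!
# Existence of homes for a skeleton (task H1)
-/

namespace UP2

namespace HomesAux

variable {V : Type} (S : Skel V)

/-- some vertex of kind `B` in the fan of `x` above bypasses `x` -/
private def U (x : V) : Prop :=
  ∃ y, S.N y ∧ S.kind y = Kind.B ∧ S.lo y = x ∧ S.Fan x true y

/-- some vertex of kind `A` in the fan of `x` below bypasses `x` -/
private def U' (x : V) : Prop :=
  ∃ y, S.N y ∧ S.kind y = Kind.A ∧ S.hi y = x ∧ S.Fan x false y

/-- the home of a vertex of a given kind, whose parent arc has a given state -/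
private def homeOf (k : Kind) (s : St) (u : Bool) : Bool :=
  match k, s with
  | Kind.A, _ => true
  | Kind.B, _ => false
  | Kind.T, St.F => u
  | Kind.T, St.L => true
  | Kind.T, St.H => false

open Classical in
/-- state and family of the parent arc -/
private noncomputable def data (x : V) : St × (Fin 3 ⊕ V) :=
  match S.ps x with
  | Sum.inl j => (St.F, Sum.inl j)
  | Sum.inr (y, b) =>
    if _h : S.ix y < S.ix x then
      if b = homeOf (S.kind y) (data y).1 (decide (U S y)) then (St.F, Sum.inr y)
      else (nextSt (data y).1 (S.kind y) (homeOf (S.kind y) (data y).1 (decide (U S y))),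
        (data y).2)
    else (St.F, Sum.inl 0)
termination_by S.ix x

open Classical in
/-- the home -/
private noncomputable def home (x : V) : Bool :=
  homeOf (S.kind x) (data S x).1 (decide (U S x))

private theorem data_root (x : V) (j : Fin 3) (h : S.ps x = Sum.inl j) :
    data S x = (St.F, Sum.inl j) := by
  rw [data, h]

private theorem data_near (x y : V) (hx : S.N x) (h : S.ps x = Sum.inr (y, home S y)) :
    data S x = (St.F, Sum.inr y) := by
  have h1 := (S.ps_new x y _ hx h).2.1
  rw [data, h]
  simp only [h1, dite_true]
  rw [if_pos]
  rfl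

private theorem data_far (x y : V) (hx : S.N x) (h : S.ps x = Sum.inr (y, !(home S y))) :
    data S x = (nextSt (data S y).1 (S.kind y) (home S y), (data S y).2) := by
  have h1 := (S.ps_new x y _ hx h).2.1
  rw [data, h]
  simp only [h1, dite_true]
  rw [if_neg]
  · rfl
  · show ¬ ((!(home S y)) = home S y)
    cases home S y <;> simp

private theorem inv (hC : S.C1) (n : ℕ) : ∀ x, S.N x → S.ix x = n →
    ((data S x).1 = St.L → S.kind x ≠ Kind.B ∧ home S x = true ∧
      ∃ z, S.N z ∧ S.kind z = Kind.T ∧ ¬ U S z ∧ S.lo x = z ∧ S.Fan z true x) ∧
    ((data S x).1 = St.H → S.kind x ≠ Kind.A ∧ home S x = false ∧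
      ∃ z, S.N z ∧ S.kind z = Kind.T ∧ ¬ U' S z ∧ S.hi x = z ∧ S.Fan z false x) := by
  induction n using Nat.strong_induction_on with
  | _ n ih =>
  intro x hx hn
  subst hn
  have key : ((data S x).1 = St.L →
      ∃ z, S.N z ∧ S.kind z = Kind.T ∧ ¬ U S z ∧ S.lo x = z ∧ S.Fan z true x) ∧
    ((data S x).1 = St.H →
      ∃ z, S.N z ∧ S.kind z = Kind.T ∧ ¬ U' S z ∧ S.hi x = z ∧ S.Fan z false x) := by
    rcases hps : S.ps x with j | ⟨y, b⟩
    · rw [data_root S x j hps]
      exact ⟨fun h => by simp at h, fun h => by simp at h⟩
    · by_cases hb : b = home S y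
      · subst hb
        rw [data_near S x y hx hps]
        exact ⟨fun h => by simp at h, fun h => by simp at h⟩
      · have hb' : b = !(home S y) := by
          cases b <;> cases h : home S y <;> simp_all
        subst hb'
        obtain ⟨hy, hlt, hends⟩ := S.ps_new x y _ hx hps
        obtain ⟨ihL, ihH⟩ := ih (S.ix y) hlt y hy rfl
        rw [data_far S x y hx hps]
        simp only
        cases hst : (data S y).1 with
        | F =>
          cases hk : S.kind y with
          | A => exact ⟨fun h => by simp [nextSt] at h, fun h => by simp [nextSt] at h⟩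
          | B => exact ⟨fun h => by simp [nextSt] at h, fun h => by simp [nextSt] at h⟩
          | T =>
            have hh : home S y = true ↔ U S y := by
              simp [home, hst, hk, homeOf]
            cases hhy : home S y with
            | false =>
              rw [hhy] at hends hps
              have hU : ¬ U S y := by
                intro hu
                have := hh.2 hu
                rw [hhy] at this
                exact Bool.noConfusion this
              refine ⟨fun _ => ⟨y, hy, hk, hU, ?_, ?_⟩, fun h => by simp [nextSt] at h⟩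
              · simp [ends, hk] at hends
                exact hends.1
              · exact Skel.Fan.base x hx hps
            | true =>
              rw [hhy] at hends hps
              have hU : U S y := hh.1 hhy
              have hU' : ¬ U' S y := fun h => hC y hy hk ⟨hU, h⟩
              refine ⟨fun h => by simp [nextSt] at h, fun _ => ⟨y, hy, hk, hU', ?_, ?_⟩⟩
              · simp [ends, hk] at hends
                exact hends.2
              · exact Skel.Fan.base x hx hps
        | L =>
          obtain ⟨hkB, hhome, z, hz, hkz, hUz, hlo, hfan⟩ := ihL hst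
          rw [hhome] at hps hends
          refine ⟨fun _ => ⟨z, hz, hkz, hUz, ?_, ?_⟩, fun h => by simp [nextSt] at h⟩
          · cases hk : S.kind y with
            | A => simp [ends, hk] at hends; rw [hends.1, hlo]
            | B => exact absurd hk hkB
            | T => simp [ends, hk] at hends; rw [hends.1, hlo]
          · exact Skel.Fan.step y x false hfan hx (by simpa using hps) (fun _ => hlo)
              (fun h => by simp at h)
        | H =>
          obtain ⟨hkA, hhome, z, hz, hkz, hUz, hhi, hfan⟩ := ihH hst
          rw [hhome] at hps hends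
          refine ⟨fun h => by simp [nextSt] at h, fun _ => ⟨z, hz, hkz, hUz, ?_, ?_⟩⟩
          · cases hk : S.kind y with
            | A => exact absurd hk hkA
            | B => simp [ends, hk] at hends; rw [hends.2, hhi]
            | T => simp [ends, hk] at hends; rw [hends.2, hhi]
          · exact Skel.Fan.step y x true hfan hx (by simpa using hps) (fun h => by simp at h)
              (fun _ => hhi)
  refine ⟨fun h => ?_, fun h => ?_⟩
  · obtain ⟨z, hz, hkz, hUz, hlo, hfan⟩ := key.1 h
    have hkB : S.kind x ≠ Kind.B := fun hk => hUz ⟨x, hx, hk, hlo, hfan⟩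
    refine ⟨hkB, ?_, z, hz, hkz, hUz, hlo, hfan⟩
    unfold home
    rw [h]
    cases hk : S.kind x with
    | A => rfl
    | B => exact absurd hk hkB
    | T => rfl
  · obtain ⟨z, hz, hkz, hUz, hhi, hfan⟩ := key.2 h
    have hkA : S.kind x ≠ Kind.A := fun hk => hUz ⟨x, hx, hk, hhi, hfan⟩
    refine ⟨hkA, ?_, z, hz, hkz, hUz, hhi, hfan⟩
    unfold home
    rw [h]
    cases hk : S.kind x with
    | A => exact absurd hk hkA
    | B => rfl
    | T => rfl

end HomesAux

open HomesAux in
theorem exists_homes {V : Type} (S : Skel V) (hC : S.C1) : Nonempty (Homes S) := by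
  refine ⟨⟨home S, fun x => (data S x).1, fun x => (data S x).2, ?_, ?_, ?_, ?_, ?_, ?_, ?_, ?_,
    ?_, ?_⟩⟩
  · intro x j _ h
    rw [data_root S x j h]
  · intro x y hx h
    rw [data_near S x y hx h]
  · intro x y hx h
    rw [data_far S x y hx h]
  · intro x j _ h
    rw [data_root S x j h]
  · intro x y hx h
    rw [data_near S x y hx h]
  · intro x y hx h
    rw [data_far S x y hx h]
  · intro x _ hk
    unfold home
    rw [hk]
    rfl
  · intro x _ hk
    unfold home
    rw [hk]
    rfl
  · intro x hx h
    have := (inv S hC (S.ix x) x hx rfl).1 h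
    exact ⟨this.1, this.2.1⟩
  · intro x hx h
    have := (inv S hC (S.ix x) x hx rfl).2 h
    exact ⟨this.1, this.2.1⟩

end UP2
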