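import Pool.Agent.Lib.MP_20105c_co.NestU

set_option autoImplicit false

/-!
# Colouring of the internal arcs of a nest and assembly
-/

namespace UP2

namespace Nest

variable {V : Type} {k : ℕ} (Q : Nest V k)

/-- the depth function of the home forest -/
private theorem nestfin_depth : ∃ d : V → ℕ, ∀ x,
    (Q.hm x = none → d x = 1) ∧ (∀ m, Q.hm x = some m → d x = d m + 1) := by
  have hwf : WellFounded (fun a b : V => Q.rk a < Q.rk b) := (measure Q.rk).wf
  have hrk : ∀ x m, Q.hm x = some m → Q.rk m < Q.rk x := by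
    intro x m h
    unfold hm at h
    rw [Option.map_eq_some_iff] at h
    obtain ⟨y, h1, h2⟩ := h
    rw [← h2]
    exact (Q.rk_lt x y h1).2.1
  classical
  let F : ∀ x : V, (∀ y : V, Q.rk y < Q.rk x → ℕ) → ℕ := fun x ih =>
    if h : ∃ m, Q.hm x = some m then ih h.choose (hrk x _ h.choose_spec) + 1 else 1
  refine ⟨hwf.fix F, fun x => ⟨fun h => ?_, fun m h => ?_⟩⟩
  · rw [hwf.fix_eq]
    have h' : ¬ ∃ m, Q.hm x = some m := by
      rintro ⟨m, hm⟩
      rw [h] at hm
      exact absurd hm (by simp)
    simp only [F, dif_neg h']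
  · rw [hwf.fix_eq]
    have h' : ∃ m, Q.hm x = some m := ⟨m, h⟩
    simp only [F, dif_pos h']
    have : h'.choose = m := Option.some_injective _ (h'.choose_spec.symm.trans h)
    rw [this]

private theorem nestfin_desc {d : V → ℕ} (hd : ∀ x,
    (Q.hm x = none → d x = 1) ∧ (∀ m, Q.hm x = some m → d x = d m + 1)) {z x : V}
    (h : Desc Q.hm z x) : d z ≤ d x ∧ (d z = d x → z = x) := by
  unfold Desc at h
  induction h with
  | refl => exact ⟨le_rfl, fun _ => rfl⟩
  | tail _ h2 ih =>
    have := (hd _).2 _ h2
    refine ⟨by omega, fun h3 => ?_⟩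
    omega

/-- the centre of an internal arc -/
private noncomputable def nestfin_cen (u v : V) : Option V := by
  classical exact if Q.reg u = Q.reg v then Q.hm u else
    if ∃ y, Q.reg v = some y ∧ u = Q.cb y then some u else some v

private theorem nestfin_hm {x y : V} (h : Q.reg x = some y) : Q.hm x = some (Q.cb y) := by
  unfold hm; rw [h]; rfl

/-- both ends of an internal arc lie in the block of the centre and are close to it -/
private theorem nestfin_cen_spec {d : V → ℕ} (hd : ∀ x,
    (Q.hm x = none → d x = 1) ∧ (∀ m, Q.hm x = some m → d x = d m + 1)) {u v : V}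
    (h : Q.isI u v) : (∀ m, Q.nestfin_cen u v = some m → Desc Q.hm m u ∧ Desc Q.hm m v) ∧
    (∀ m, Q.nestfin_cen u v = some m → d u ≤ d m + 1 ∧ d v ≤ d m + 1) ∧
    (Q.nestfin_cen u v = none → d u ≤ 1 ∧ d v ≤ 1) ∧
    (Q.reg u ≠ Q.reg v → Q.nestfin_cen u v = some u ∨ Q.nestfin_cen u v = some v) := by
  classical
  by_cases h1 : Q.reg u = Q.reg v
  · have hc : Q.nestfin_cen u v = Q.hm u := by unfold nestfin_cen; rw [if_pos h1]
    have hv : Q.hm v = Q.hm u := by unfold hm; rw [h1]
    refine ⟨fun m hm => ?_, fun m hm => ?_, fun hm => ?_, fun hne => absurd h1 hne⟩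
    · rw [hc] at hm
      exact ⟨Relation.ReflTransGen.single hm, Relation.ReflTransGen.single (hv.trans hm)⟩
    · rw [hc] at hm
      have a := (hd u).2 m hm
      have b := (hd v).2 m (hv.trans hm)
      omega
    · rw [hc] at hm
      have a := (hd u).1 hm
      have b := (hd v).1 (hv.trans hm)
      omega
  · by_cases h2 : ∃ y, Q.reg v = some y ∧ u = Q.cb y
    · have hc : Q.nestfin_cen u v = some u := by
        unfold nestfin_cen; rw [if_neg h1, if_pos h2]
      obtain ⟨y, hy1, hy2⟩ := h2
      have hv : Q.hm v = some u := by rw [Q.nestfin_hm hy1, hy2]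
      refine ⟨fun m hm => ?_, fun m hm => ?_, fun hm => ?_, fun _ => Or.inl hc⟩
      · rw [hc] at hm
        obtain rfl := Option.some_injective _ hm
        exact ⟨Relation.ReflTransGen.refl, Relation.ReflTransGen.single hv⟩
      · rw [hc] at hm
        obtain rfl := Option.some_injective _ hm
        have b := (hd v).2 u hv
        omega
      · rw [hc] at hm; exact absurd hm (by simp)
    · have hc : Q.nestfin_cen u v = some v := by
        unfold nestfin_cen; rw [if_neg h1, if_neg h2]
      have h3 : ∃ y, Q.reg u = some y ∧ v = Q.cb y := by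
        rcases h with h | h | h
        · exact absurd h h1
        · exact absurd h h2
        · exact h
      obtain ⟨y, hy1, hy2⟩ := h3
      have hv : Q.hm u = some v := by rw [Q.nestfin_hm hy1, hy2]
      refine ⟨fun m hm => ?_, fun m hm => ?_, fun hm => ?_, fun _ => Or.inr hc⟩
      · rw [hc] at hm
        obtain rfl := Option.some_injective _ hm
        exact ⟨Relation.ReflTransGen.single hv, Relation.ReflTransGen.refl⟩
      · rw [hc] at hm
        obtain rfl := Option.some_injective _ hm
        have b := (hd u).2 v hv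
        omega
      · rw [hc] at hm; exact absurd hm (by simp)

/-- positions of vertices of different levels -/
private theorem nestfin_pos {B : ℕ} (hB : ∀ x, |Q.off x| < B) {x y a b : V}
    (hx : Q.reg x = some a) (hy : Q.reg y = some b) (hl : Q.lev a < Q.lev b) :
    Q.pos B y < Q.pos B x ∧ Q.off y < 0 ∨ Q.pos B x < Q.pos B y ∧ 0 < Q.off y := by
  have h1 : (Q.lev a + 1) * B ≤ Q.lev b * B := Nat.mul_le_mul_right _ hl
  have hx' := hB x
  have hy' := hB y
  have hne := Q.off_ne y b hy
  rw [abs_lt] at hx' hy'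
  have h2 : ((Q.lev a * B : ℕ) : ℤ) + B ≤ ((Q.lev b * B : ℕ) : ℤ) := by
    have : Q.lev a * B + B ≤ Q.lev b * B := by rw [add_mul, one_mul] at h1; exact h1
    exact_mod_cast this
  have h3 : (0 : ℤ) ≤ ((Q.lev a * B : ℕ) : ℤ) := Int.natCast_nonneg _
  have px : Q.pos B x = if Q.off x < 0 then Q.off x - ((Q.lev a * B : ℕ) : ℤ) else
      Q.off x + ((Q.lev a * B : ℕ) : ℤ) := by unfold pos; rw [hx]
  have py : Q.pos B y = if Q.off y < 0 then Q.off y - ((Q.lev b * B : ℕ) : ℤ) else
      Q.off y + ((Q.lev b * B : ℕ) : ℤ) := by unfold pos; rw [hy]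
  rw [px, py]
  generalize ((Q.lev a * B : ℕ) : ℤ) = A at *
  generalize ((Q.lev b * B : ℕ) : ℤ) = C at *
  split_ifs <;> omega

/-- positions of vertices with the same smallest triangle -/
private theorem nestfin_pos_same {B : ℕ} {x y : V} (h : Q.reg x = Q.reg y)
    (hl : Q.off x < Q.off y) : Q.pos B x < Q.pos B y := by
  rcases hr : Q.reg y with _ | b
  · have px : Q.pos B x = Q.off x := by unfold pos; rw [h, hr]
    have py : Q.pos B y = Q.off y := by unfold pos; rw [hr]
    rw [px, py]; exact hl
  · have px : Q.pos B x = if Q.off x < 0 then Q.off x - ((Q.lev b * B : ℕ) : ℤ) else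
        Q.off x + ((Q.lev b * B : ℕ) : ℤ) := by unfold pos; rw [h, hr]
    have py : Q.pos B y = if Q.off y < 0 then Q.off y - ((Q.lev b * B : ℕ) : ℤ) else
        Q.off y + ((Q.lev b * B : ℕ) : ℤ) := by unfold pos; rw [hr]
    have h3 : (0 : ℤ) ≤ ((Q.lev b * B : ℕ) : ℤ) := Int.natCast_nonneg _
    rw [px, py]
    generalize ((Q.lev b * B : ℕ) : ℤ) = C at *
    split_ifs <;> omega

/-- task P4: colouring of the internal arcs -/
theorem colI [Finite V] (B : ℕ) (hB : ∀ x, |Q.off x| < B) (τ : V → ℤ)
    (hτ : FOrd (fun _ => True) Q.hm (Q.pos B) τ) :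
    ∃ c : V → V → (Bool × Option (Fin k)),
      ∀ u v u' v', Q.arc u v → Q.arc u' v' → Q.isI u v → Q.isI u' v' → c u v = c u' v' →
        ¬ (τ u < τ u' ∧ τ u' < τ v ∧ τ v < τ v') := by
  classical
  obtain ⟨d, hd⟩ := Q.nestfin_depth
  let dc : Option V → ℕ := fun m => match m with
    | none => 0
    | some m => d m
  refine ⟨fun u v => (decide (Even (dc (Q.nestfin_cen u v))),
    if Q.reg u = Q.reg v then some (Q.col u v) else none), ?_⟩
  rintro u v u' v' ha ha' hi hi' hc ⟨t1, t2, t3⟩
  rw [Prod.mk.injEq] at hc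
  obtain ⟨hpar, hcol⟩ := hc
  rw [decide_eq_decide] at hpar
  obtain ⟨e1, e2, e3, e4⟩ := Q.nestfin_cen_spec hd hi
  obtain ⟨f1, f2, f3, f4⟩ := Q.nestfin_cen_spec hd hi'
  have hdpos : ∀ x, 1 ≤ d x := by
    intro x
    rcases hx : Q.hm x with _ | m
    · rw [(hd x).1 hx]
    · rw [(hd x).2 m hx]; omega
  -- upper bounds of the depth
  have ev : d v ≤ dc (Q.nestfin_cen u v) + 1 := by
    rcases hm : Q.nestfin_cen u v with _ | m
    · exact (e3 hm).2
    · exact (e2 m hm).2
  have fu' : d u' ≤ dc (Q.nestfin_cen u' v') + 1 := by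
    rcases hm : Q.nestfin_cen u' v' with _ | m
    · exact (f3 hm).1
    · exact (f2 m hm).1
  -- blocks
  have he : ∀ m, Q.nestfin_cen u v = some m → Desc Q.hm m u' := fun m hm =>
    hτ.conv trivial trivial trivial trivial (e1 m hm).1 (e1 m hm).2 t1 t2
  have hf : ∀ m, Q.nestfin_cen u' v' = some m → Desc Q.hm m v := fun m hm =>
    hτ.conv trivial trivial trivial trivial (f1 m hm).1 (f1 m hm).2 t2 t3
  have heq : Q.nestfin_cen u v = Q.nestfin_cen u' v' := by
    rcases hm : Q.nestfin_cen u v with _ | m
    · rcases hm' : Q.nestfin_cen u' v' with _ | m'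
      · rfl
      · exfalso
        rw [hm, hm'] at hpar
        rw [hm] at ev
        have h1 := (Q.nestfin_desc hd (hf m' hm')).1
        have h2 := hdpos m'
        simp only [dc] at hpar ev
        have h3 : d m' = 1 := by omega
        rw [h3] at hpar
        exact absurd (hpar.1 (by decide)) (by decide)
    · rcases hm' : Q.nestfin_cen u' v' with _ | m'
      · exfalso
        rw [hm, hm'] at hpar
        rw [hm'] at fu'
        have h1 := (Q.nestfin_desc hd (he m hm)).1
        have h2 := hdpos m
        simp only [dc] at hpar fu'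
        have h3 : d m = 1 := by omega
        rw [h3] at hpar
        exact absurd (hpar.2 (by decide)) (by decide)
      · rw [hm, hm'] at hpar
        rw [hm] at ev
        rw [hm'] at fu'
        have h1 := (Q.nestfin_desc hd (he m hm)).1
        have h2 := (Q.nestfin_desc hd (hf m' hm')).1
        simp only [dc] at hpar ev fu'
        have h3 : d m = d m' := by
          rw [Nat.even_iff, Nat.even_iff] at hpar
          omega
        rcases desc_or (he m hm) (f1 m' hm').1 with h4 | h4
        · rw [(Q.nestfin_desc hd h4).2 h3]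
        · rw [(Q.nestfin_desc hd h4).2 h3.symm]
  by_cases hr : Q.reg u = Q.reg v
  · by_cases hr' : Q.reg u' = Q.reg v'
    · rw [if_pos hr, if_pos hr'] at hcol
      have hcol' := Option.some_injective _ hcol
      have hcu : Q.nestfin_cen u v = Q.hm u := by unfold nestfin_cen; rw [if_pos hr]
      have hcu' : Q.nestfin_cen u' v' = Q.hm u' := by unfold nestfin_cen; rw [if_pos hr']
      have hhv : Q.hm v = Q.hm u := by unfold hm; rw [hr]
      have hhv' : Q.hm v' = Q.hm u' := by unfold hm; rw [hr']
      have hhu : Q.hm u = Q.hm u' := by rw [← hcu, ← hcu', heq]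
      have key : ∀ x y, Q.hm x = Q.hm y → τ x < τ y → ¬ Q.pos B y < Q.pos B x := by
        intro x y hxy h1 h2
        have := hτ.sib y x trivial trivial hxy.symm h2
        omega
      by_cases hreg : Q.reg u = Q.reg u'
      · -- the same smallest triangle
        have key2 : ∀ x y, Q.reg x = Q.reg y → τ x < τ y → Q.off x < Q.off y := by
          intro x y hxy h1
          have hh : Q.hm x = Q.hm y := by unfold hm; rw [hxy]
          by_contra h2
          rcases lt_or_eq_of_le (not_lt.1 h2) with h3 | h3
          · exact key x y hh h1 (Q.nestfin_pos_same hxy.symm h3)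
          · have := Q.off_inj x y hxy h3.symm
            rw [this] at h1
            exact lt_irrefl _ h1
        exact Q.col_nc u v u' v' ha ha' hr hr' hreg hcol'
          ⟨key2 u u' hreg t1, key2 u' v (hreg.symm.trans hr) t2,
            key2 v v' (hr.symm.trans (hreg.trans hr')) t3⟩
      · rcases hru : Q.reg u with _ | a
        · rcases hru' : Q.reg u' with _ | b
          · exact hreg (by rw [hru, hru'])
          · rw [Q.nestfin_hm hru'] at hhu
            unfold hm at hhu
            rw [hru] at hhu
            exact absurd hhu (by simp)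
        · rcases hru' : Q.reg u' with _ | b
          · rw [Q.nestfin_hm hru] at hhu
            unfold hm at hhu
            rw [hru'] at hhu
            exact absurd hhu (by simp)
          · have hcb : Q.cb a = Q.cb b := by
              rw [Q.nestfin_hm hru, Q.nestfin_hm hru'] at hhu
              exact Option.some_injective _ hhu
            have hab : a ≠ b := by
              intro h; exact hreg (by rw [hru, hru', h])
            have hlev : Q.lev a ≠ Q.lev b := fun h => hab (Q.lev_inj u u' a b hru hru' hcb h)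
            have hrv : Q.reg v = some a := by rw [← hr, hru]
            have hrv' : Q.reg v' = some b := by rw [← hr', hru']
            rcases lt_or_gt_of_ne hlev with hl | hl
            · rcases Q.nestfin_pos hB hru hru' hl with ⟨h1, h2⟩ | ⟨h1, h2⟩
              · exact key u u' hhu t1 h1
              · rcases Q.nestfin_pos hB hrv hru' hl with ⟨h3, h4⟩ | ⟨h3, h4⟩
                · omega
                · exact key u' v (by rw [hhv, hhu]) t2 h3
            · rcases Q.nestfin_pos hB hru' hrv hl with ⟨h1, h2⟩ | ⟨h1, h2⟩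
              · exact key u' v (by rw [hhv, hhu]) t2 h1
              · rcases Q.nestfin_pos hB hrv' hrv hl with ⟨h3, h4⟩ | ⟨h3, h4⟩
                · omega
                · exact key v v' (by rw [hhv, hhu, hhv']) t3 h3
    · rw [if_pos hr, if_neg hr'] at hcol
      exact absurd hcol (by simp)
  · by_cases hr' : Q.reg u' = Q.reg v'
    · rw [if_neg hr, if_pos hr'] at hcol
      exact absurd hcol (by simp)
    · rcases e4 hr with h1 | h1 <;> rcases f4 hr' with h2 | h2 <;>
      · rw [h1, h2] at heq
        have h3 := congrArg τ (Option.some_injective _ heq)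
        omega

/-- the reversed order -/
private theorem nestfin_rev (B : ℕ) (τ : V → ℤ)
    (hτ : FOrd (fun _ => True) Q.hm (Q.pos B) τ) :
    FOrd (fun _ => True) Q.rev.hm (Q.rev.pos B) (fun x => - τ x) := by
  have hh : Q.rev.hm = Q.hm := rfl
  have hp : ∀ x, Q.rev.pos B x = - Q.pos B x := by
    intro x
    rcases hr : Q.reg x with _ | y
    · have h1 : Q.rev.pos B x = - Q.off x := by
        unfold pos
        have : Q.rev.reg x = none := hr
        rw [this]; rfl
      have h2 : Q.pos B x = Q.off x := by unfold pos; rw [hr]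
      rw [h1, h2]
    · have h1 : Q.rev.pos B x = if - Q.off x < 0 then - Q.off x - ((Q.lev y * B : ℕ) : ℤ) else
          - Q.off x + ((Q.lev y * B : ℕ) : ℤ) := by
        unfold pos
        have : Q.rev.reg x = some y := hr
        rw [this]; rfl
      have h2 : Q.pos B x = if Q.off x < 0 then Q.off x - ((Q.lev y * B : ℕ) : ℤ) else
          Q.off x + ((Q.lev y * B : ℕ) : ℤ) := by unfold pos; rw [hr]
      have h3 := Q.off_ne x y hr
      rw [h1, h2]
      split_ifs <;> omega
  rw [hh]
  refine ⟨fun x y hx hy h => hτ.inj x y hx hy (by omega), fun z x y hz hx hy h1 h2 => ?_,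
    fun x y hx hy h1 h2 => ?_, fun x m hx h1 h2 => ?_, fun x m hx h1 h2 => ?_⟩
  · have := hτ.blk z x y hz hx hy h1 h2
    constructor
    · constructor
      · intro h
        have := this.2.1 (by omega)
        omega
      · intro h
        have := this.2.2 (by omega)
        omega
    · constructor
      · intro h
        have := this.1.1 (by omega)
        omega
      · intro h
        have := this.1.2 (by omega)
        omega
  · rw [hp, hp] at h2
    have := hτ.sib y x hy hx h1.symm (by omega)
    omega
  · rw [hp] at h2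
    have := hτ.pos x m hx h1 (by omega)
    omega
  · rw [hp] at h2
    have := hτ.neg x m hx h1 (by omega)
    omega

end Nest

/-- task P5 -/
theorem nest_layout (k : ℕ) : ∃ K : ℕ, ∀ (V : Type) [Fintype V] (Q : Nest V k),
    ∃ (τ : V → ℤ) (c : V → V → Fin K), Function.Injective τ ∧ (∀ u v, Q.arc u v → τ u < τ v) ∧
      (∀ u v u' v', Q.arc u v → Q.arc u' v' → c u v = c u' v' →
        ¬ (τ u < τ u' ∧ τ u' < τ v ∧ τ v < τ v')) := by
  classical
  let C := (Fin 3 × Bool × Option (Fin k) × Bool × Fin 3 × Fin 3) ⊕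
    ((Fin 3 × Bool × Option (Fin k) × Bool × Fin 3 × Fin 3) ⊕ (Bool × Option (Fin k)))
  refine ⟨Fintype.card C, fun V _ Q => ?_⟩
  obtain ⟨B, hB⟩ : ∃ B : ℕ, ∀ x, |Q.off x| < B := by
    refine ⟨∑ x, (Q.off x).natAbs + 1, fun x => ?_⟩
    have h1 : (Q.off x).natAbs ≤ ∑ x, (Q.off x).natAbs :=
      Finset.single_le_sum (f := fun x => (Q.off x).natAbs) (fun i _ => Nat.zero_le _)
        (Finset.mem_univ x)
    rw [Int.abs_eq_natAbs]
    exact_mod_cast Nat.lt_succ_of_le h1
  obtain ⟨τ, hτ⟩ := Q.exists_tau B hB
  have hB' : ∀ x, |Q.rev.off x| < B := by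
    intro x
    have : Q.rev.off x = - Q.off x := rfl
    rw [this, abs_neg]
    exact hB x
  obtain ⟨cU, hU⟩ := Q.colU B hB τ hτ
  obtain ⟨cD, hD⟩ := Q.rev.colU B hB' (fun x => - τ x) (Q.nestfin_rev B τ hτ)
  obtain ⟨cI, hI⟩ := Q.colI B hB τ hτ
  let c : V → V → C := fun u v => if Q.isU u v then Sum.inl (cU u v) else
    if Q.isD u v then Sum.inr (Sum.inl (cD v u)) else Sum.inr (Sum.inr (cI u v))
  refine ⟨τ, fun u v => Fintype.equivFin C (c u v), fun x y h => hτ.inj x y trivial trivial h,
    fun u v h => Q.arc_lt B hB τ hτ u v h, ?_⟩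
  intro u v u' v' ha ha' hc hcr
  have hc' : c u v = c u' v' := (Fintype.equivFin C).injective hc
  have hcls : ∀ u v, Q.arc u v → ¬ Q.isU u v → ¬ Q.isD u v → Q.isI u v := by
    intro u v h h1 h2
    rcases Q.cls u v h with h3 | ⟨y, h3, h4 | h4⟩ | ⟨y, h3, h4 | h4⟩
    · exact Or.inl h3
    · exact absurd ⟨y, h3, h4⟩ h2
    · exact Or.inr (Or.inl ⟨y, h3, h4⟩)
    · exact Or.inr (Or.inr ⟨y, h3, h4⟩)
    · exact absurd ⟨y, h3, h4⟩ h1
  simp only [c] at hc'
  by_cases h1 : Q.isU u v
  · by_cases h2 : Q.isU u' v'
    · rw [if_pos h1, if_pos h2] at hc'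
      exact hU u v u' v' ha ha' h1 h2 (Sum.inl_injective hc') hcr
    · rw [if_pos h1, if_neg h2] at hc'
      split_ifs at hc'
  · by_cases h2 : Q.isU u' v'
    · rw [if_neg h1, if_pos h2] at hc'
      split_ifs at hc'
    · rw [if_neg h1, if_neg h2] at hc'
      by_cases h3 : Q.isD u v
      · by_cases h4 : Q.isD u' v'
        · rw [if_pos h3, if_pos h4] at hc'
          have hc2 := Sum.inl_injective (Sum.inr_injective hc')
          refine hD v' u' v u ha' ha h4 h3 hc2.symm ⟨?_, ?_, ?_⟩
          · have := hcr.2.2; omega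
          · have := hcr.2.1; omega
          · have := hcr.1; omega
        · rw [if_pos h3, if_neg h4] at hc'
          exact absurd (Sum.inr_injective hc') (by simp)
      · by_cases h4 : Q.isD u' v'
        · rw [if_neg h3, if_pos h4] at hc'
          exact absurd (Sum.inr_injective hc') (by simp)
        · rw [if_neg h3, if_neg h4] at hc'
          exact hI u v u' v' ha ha' (hcls u v ha h1 h3) (hcls u' v' ha' h2 h4)
            (Sum.inr_injective (Sum.inr_injective hc')) hcr

end UP2
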