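import Pool.Agent.Lib.MP_20105c_co.Defs2

set_option autoImplicit false

/-!
# Families of far arcs (tasks S2, S3, S5)
-/

namespace UP2

/-! ## Descendants -/

private theorem SkelFam_desc_refl {V : Type} (h : V → Option V) (z : V) : Desc h z z :=
  Relation.ReflTransGen.refl

private theorem SkelFam_desc_some {V : Type} {h : V → Option V} {z x m : V} (hx : h x = some m) :
    Desc h z x ↔ x = z ∨ Desc h z m := by
  constructor
  · intro hd
    rcases Relation.ReflTransGen.cases_tail hd with h1 | ⟨b, h1, h2⟩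
    · exact Or.inl h1
    · have h2' : h x = some b := h2
      rw [hx] at h2'
      injection h2' with h3
      subst h3
      exact Or.inr h1
  · rintro (rfl | hd)
    · exact Relation.ReflTransGen.refl
    · exact Relation.ReflTransGen.tail hd hx

private theorem SkelFam_desc_none {V : Type} {h : V → Option V} {z x : V} (hx : h x = none) :
    Desc h z x ↔ x = z := by
  constructor
  · intro hd
    rcases Relation.ReflTransGen.cases_tail hd with h1 | ⟨b, h1, h2⟩
    · exact h1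
    · have h2' : h x = some b := h2
      rw [hx] at h2'
      exact absurd h2' (by simp)
  · rintro rfl
    exact Relation.ReflTransGen.refl

private theorem SkelFam_desc_head {V : Type} {h : V → Option V} {z x : V} (hd : Desc h z x)
    (hne : x ≠ z) : ∃ d, h d = some z ∧ Desc h d x := by
  rcases Relation.ReflTransGen.cases_head hd with h1 | ⟨d, h1, h2⟩
  · exact absurd h1.symm hne
  · exact ⟨d, h1, h2⟩

namespace Homes

variable {V : Type} {S : Skel V} (H : Homes S)

/-- the home of `x` -/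
private def hv (x : V) : V := if H.home x then S.hi x else S.lo x

private theorem hm_of_N {x : V} (hx : S.N x) : H.hm x = some (H.hv x) := by
  unfold hm hv
  rw [if_pos hx]

private theorem hm_of_not_N {x : V} (hx : ¬ S.N x) : H.hm x = none := by
  unfold hm
  rw [if_neg hx]

private theorem hm_root {x : V} (hx : S.Rt x) : H.hm x = none :=
  H.hm_of_not_N fun h => S.disj x h hx

private theorem hm_some_iff {x m : V} : H.hm x = some m ↔ S.N x ∧ H.hv x = m := by
  constructor
  · intro h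
    by_cases hx : S.N x
    · rw [H.hm_of_N hx] at h
      exact ⟨hx, by injection h⟩
    · rw [H.hm_of_not_N hx] at h
      exact absurd h (by simp)
  · rintro ⟨h1, h2⟩
    rw [H.hm_of_N h1, h2]

private theorem hv_ot (x : V) : (H.hv x = S.lo x ∧ H.ot x = S.hi x) ∨ (H.hv x = S.hi x ∧ H.ot x = S.lo x) := by
  unfold hv ot
  cases H.home x <;> simp

private theorem par_slot {x y : V} {b : Bool} (h : (S.lo x, S.hi x) = ends S.lo S.hi S.kind y b) :
    (H.hv x = y ∧ H.ot x = (if b then S.hi y else S.lo y)) ∨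
    (H.hv x = (if b then S.hi y else S.lo y) ∧ H.ot x = y) := by
  have e1 : S.lo x = (ends S.lo S.hi S.kind y b).1 := congrArg Prod.fst h
  have e2 : S.hi x = (ends S.lo S.hi S.kind y b).2 := congrArg Prod.snd h
  rcases H.hv_ot x with ⟨h2, h3⟩ | ⟨h2, h3⟩ <;> rw [h2, h3, e1, e2] <;>
    cases b <;> cases hk : S.kind y <;> simp [ends, hk]

/-- the parent arc is the near arc of `y` -/
private theorem par_near' {x y : V} (hx : S.N x) (h : S.ps x = Sum.inr (y, H.home y)) :
    (H.hv x = y ∧ H.ot x = H.hv y) ∨ (H.hv x = H.hv y ∧ H.ot x = y) :=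
  H.par_slot (S.ps_new x y _ hx h).2.2

/-- the parent arc is the far arc of `y` -/
private theorem par_far' {x y : V} (hx : S.N x) (h : S.ps x = Sum.inr (y, !(H.home y))) :
    (H.hv x = y ∧ H.ot x = H.ot y) ∨ (H.hv x = H.ot y ∧ H.ot x = y) := by
  have h1 := H.par_slot (S.ps_new x y _ hx h).2.2
  have h2 : (if (!(H.home y)) = true then S.hi y else S.lo y) = H.ot y := by
    unfold ot
    cases H.home y <;> simp
  rwa [h2] at h1

/-- the three cases for the parent slot -/
private theorem ps_cases {x : V} (hx : S.N x) :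
    (∃ j, S.ps x = Sum.inl j ∧ H.fam x = Sum.inl j ∧
      ((H.hv x = S.e0 j ∧ H.ot x = S.e1 j) ∨ (H.hv x = S.e1 j ∧ H.ot x = S.e0 j))) ∨
    (∃ y, S.ps x = Sum.inr (y, H.home y) ∧ S.N y ∧ S.ix y < S.ix x ∧ H.fam x = Sum.inr y ∧
      ((H.hv x = y ∧ H.ot x = H.hv y) ∨ (H.hv x = H.hv y ∧ H.ot x = y))) ∨
    (∃ y, S.ps x = Sum.inr (y, !(H.home y)) ∧ S.N y ∧ S.ix y < S.ix x ∧ H.fam x = H.fam y ∧
      ((H.hv x = y ∧ H.ot x = H.ot y) ∨ (H.hv x = H.ot y ∧ H.ot x = y))) := by
  rcases hps : S.ps x with j | ⟨y, b⟩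
  · left
    obtain ⟨h1, h2⟩ := S.ps_root x j hx hps
    refine ⟨j, rfl, H.fam_root x j hx hps, ?_⟩
    rw [← h1, ← h2]
    exact H.hv_ot x
  · right
    obtain ⟨h1, h2, -⟩ := S.ps_new x y b hx hps
    by_cases hb : b = H.home y
    · left
      subst hb
      exact ⟨y, rfl, h1, h2, H.fam_near x y hx hps, H.par_near' hx hps⟩
    · right
      have hb' : b = !(H.home y) := by
        revert hb; cases b <;> cases H.home y <;> simp
      subst hb'
      exact ⟨y, rfl, h1, h2, H.fam_far x y hx hps, H.par_far' hx hps⟩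

/-- the parents are members and older -/
private theorem par_mem (n : ℕ) : ∀ x, S.N x → S.ix x = n →
    (Mem S (H.hv x) ∧ (S.N (H.hv x) → S.ix (H.hv x) < S.ix x)) ∧
    (Mem S (H.ot x) ∧ (S.N (H.ot x) → S.ix (H.ot x) < S.ix x)) := by
  induction n using Nat.strong_induction_on with
  | _ n ih =>
    intro x hx hn
    have hroot : ∀ j, (Mem S (S.e0 j) ∧ (S.N (S.e0 j) → S.ix (S.e0 j) < S.ix x)) ∧
        (Mem S (S.e1 j) ∧ (S.N (S.e1 j) → S.ix (S.e1 j) < S.ix x)) := by
      intro j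
      obtain ⟨h1, h2⟩ := S.e_rt j
      exact ⟨⟨Or.inr h1, fun h => absurd h1 (S.disj _ h)⟩,
        ⟨Or.inr h2, fun h => absurd h2 (S.disj _ h)⟩⟩
    rcases H.ps_cases hx with ⟨j, -, -, h⟩ | ⟨y, -, hy, hlt, -, h⟩ | ⟨y, -, hy, hlt, -, h⟩
    · obtain ⟨h1, h2⟩ := hroot j
      rcases h with ⟨e1, e2⟩ | ⟨e1, e2⟩
      · rw [e1, e2]; exact ⟨h1, h2⟩
      · rw [e1, e2]; exact ⟨h2, h1⟩
    · obtain ⟨⟨g1, g2⟩, -⟩ := ih (S.ix y) (by omega) y hy rfl
      rcases h with ⟨e1, e2⟩ | ⟨e1, e2⟩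
      · rw [e1, e2]
        exact ⟨⟨Or.inl hy, fun _ => hlt⟩, ⟨g1, fun h => (g2 h).trans hlt⟩⟩
      · rw [e1, e2]
        exact ⟨⟨g1, fun h => (g2 h).trans hlt⟩, ⟨Or.inl hy, fun _ => hlt⟩⟩
    · obtain ⟨-, ⟨g1, g2⟩⟩ := ih (S.ix y) (by omega) y hy rfl
      rcases h with ⟨e1, e2⟩ | ⟨e1, e2⟩
      · rw [e1, e2]
        exact ⟨⟨Or.inl hy, fun _ => hlt⟩, ⟨g1, fun h => (g2 h).trans hlt⟩⟩
      · rw [e1, e2]
        exact ⟨⟨g1, fun h => (g2 h).trans hlt⟩, ⟨Or.inl hy, fun _ => hlt⟩⟩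

private theorem hv_mem {x : V} (hx : S.N x) : Mem S (H.hv x) := ((H.par_mem _ x hx rfl).1).1

private theorem ot_mem {x : V} (hx : S.N x) : Mem S (H.ot x) := ((H.par_mem _ x hx rfl).2).1

private theorem ix_hv_lt {x : V} (hx : S.N x) (h : S.N (H.hv x)) : S.ix (H.hv x) < S.ix x :=
  ((H.par_mem _ x hx rfl).1).2 h

private theorem ix_ot_lt {x : V} (hx : S.N x) (h : S.N (H.ot x)) : S.ix (H.ot x) < S.ix x :=
  ((H.par_mem _ x hx rfl).2).2 h

open Classical in
/-- a rank which decreases towards the roots of the home forest -/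
private noncomputable def rkh (S : Skel V) (x : V) : ℕ := if S.N x then S.ix x + 1 else 0

private theorem rkh_lt {x m : V} (h : H.hm x = some m) : rkh S m < rkh S x := by
  obtain ⟨hx, rfl⟩ := H.hm_some_iff.1 h
  unfold rkh
  rw [if_pos hx]
  split_ifs with h1
  · have := H.ix_hv_lt hx h1; omega
  · omega

private theorem rkh_le {z x : V} (h : Desc H.hm z x) : rkh S z ≤ rkh S x := by
  induction h with
  | refl => exact le_rfl
  | tail _ h2 ih => exact ih.trans (H.rkh_lt h2).le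

private theorem not_desc_of_hm {d p : V} (h : H.hm d = some p) : ¬ Desc H.hm d p := by
  intro hd
  have h1 := H.rkh_le hd
  have h2 := H.rkh_lt h
  omega

/-- a descendant of a born vertex is born and not older -/
private theorem desc_N {z x : V} (hz : S.N z) (h : Desc H.hm z x) : S.N x ∧ S.ix z ≤ S.ix x := by
  have hx : S.N x := by
    by_contra hx
    rw [SkelFam_desc_none (H.hm_of_not_N hx)] at h
    rw [h] at hx
    exact hx hz
  have h1 := H.rkh_le h
  unfold rkh at h1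
  rw [if_pos hz, if_pos hx] at h1
  exact ⟨hx, by omega⟩

/-- task S2: entering a block -/
theorem enter (z x : V) (hz : S.N z) (hx : S.N x)
    (h : Desc H.hm z x ∧ ¬ Desc H.hm z (H.ot x) ∨ ¬ Desc H.hm z x ∧ Desc H.hm z (H.ot x)) :
    H.fam x = Sum.inr z ∨ H.fam x = H.fam z := by
  obtain ⟨n, hn⟩ : ∃ n, S.ix x = n := ⟨_, rfl⟩
  induction n using Nat.strong_induction_on generalizing x with
  | _ n ih =>
    by_cases hxz : x = z
    · rw [hxz]; exact Or.inr rfl
    rw [SkelFam_desc_some (H.hm_of_N hx)] at h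
    simp only [hxz, false_or] at h
    rcases H.ps_cases hx with ⟨j, -, -, e⟩ | ⟨y, -, hy, hlt, hf, e⟩ | ⟨y, -, hy, hlt, hf, e⟩
    · exfalso
      have h0 : ∀ r, S.Rt r → ¬ Desc H.hm z r := by
        intro r hr hd
        rw [SkelFam_desc_none (H.hm_root hr)] at hd
        rw [hd] at hr
        exact S.disj z hz hr
      have h1 := h0 _ (S.e_rt j).1
      have h2 := h0 _ (S.e_rt j).2
      rcases e with ⟨e1, e2⟩ | ⟨e1, e2⟩ <;> rw [e1, e2] at h <;> tauto
    · left
      rw [hf]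
      have h1 := SkelFam_desc_some (z := z) (H.hm_of_N hy)
      have : y = z := by
        by_contra hyz
        simp only [hyz, false_or] at h1
        rcases e with ⟨e1, e2⟩ | ⟨e1, e2⟩ <;> rw [e1, e2] at h <;> tauto
      rw [this]
    · rw [hf]
      refine ih (S.ix y) (by omega) y hy ?_ rfl
      rcases e with ⟨e1, e2⟩ | ⟨e1, e2⟩ <;> rw [e1, e2] at h <;> tauto

theorem enter_root (z x : V) (hz : S.Rt z) (hx : S.N x)
    (h : Desc H.hm z x ∧ ¬ Desc H.hm z (H.ot x) ∨ ¬ Desc H.hm z x ∧ Desc H.hm z (H.ot x)) :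
    ∃ j, H.fam x = Sum.inl j := by
  obtain ⟨n, hn⟩ : ∃ n, S.ix x = n := ⟨_, rfl⟩
  induction n using Nat.strong_induction_on generalizing x with
  | _ n ih =>
    have hne : ∀ w, S.N w → w ≠ z := by
      rintro w hw rfl
      exact S.disj w hw hz
    have hxz := hne x hx
    rw [SkelFam_desc_some (H.hm_of_N hx)] at h
    simp only [hxz, false_or] at h
    rcases H.ps_cases hx with ⟨j, -, hf, e⟩ | ⟨y, -, hy, hlt, hf, e⟩ | ⟨y, -, hy, hlt, hf, e⟩
    · exact ⟨j, hf⟩
    · exfalso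
      have h1 := SkelFam_desc_some (z := z) (H.hm_of_N hy)
      have hyz := hne y hy
      simp only [hyz, false_or] at h1
      rcases e with ⟨e1, e2⟩ | ⟨e1, e2⟩ <;> rw [e1, e2] at h <;> tauto
    · rw [hf]
      refine ih (S.ix y) (by omega) y hy ?_ rfl
      rcases e with ⟨e1, e2⟩ | ⟨e1, e2⟩ <;> rw [e1, e2] at h <;> tauto

/-- task S3: ends of the far arcs of a family -/
theorem fam_inr (c x : V) (hx : S.N x) (hf : H.fam x = Sum.inr c) : S.N c ∧ S.ix c < S.ix x ∧
    ∃ m, H.hm c = some m ∧ Desc H.hm m x ∧ Desc H.hm m (H.ot x) ∧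
      ((Desc H.hm c x ∧ ¬ Desc H.hm c (H.ot x)) ∨ (¬ Desc H.hm c x ∧ Desc H.hm c (H.ot x))) := by
  obtain ⟨n, hn⟩ : ∃ n, S.ix x = n := ⟨_, rfl⟩
  induction n using Nat.strong_induction_on generalizing x with
  | _ n ih =>
    have hxm := H.hm_of_N hx
    rcases H.ps_cases hx with ⟨j, -, hf', e⟩ | ⟨y, -, hy, hlt, hf', e⟩ | ⟨y, -, hy, hlt, hf', e⟩
    · rw [hf'] at hf; exact absurd hf (by simp)
    · rw [hf'] at hf
      have hyc : y = c := by injection hf
      subst hyc
      have hym := H.hm_of_N hy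
      have hnd := H.not_desc_of_hm hym
      refine ⟨hy, hlt, H.hv y, hym, ?_⟩
      have hxy : x ≠ y := by rintro rfl; omega
      rcases e with ⟨e1, e2⟩ | ⟨e1, e2⟩
      · rw [e2]
        have h1 : Desc H.hm y x := by
          rw [SkelFam_desc_some hxm, e1]; exact Or.inr (SkelFam_desc_refl _ _)
        have h2 : Desc H.hm (H.hv y) y := by
          rw [SkelFam_desc_some hym]; exact Or.inr (SkelFam_desc_refl _ _)
        exact ⟨h2.trans h1, SkelFam_desc_refl _ _, Or.inl ⟨h1, hnd⟩⟩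
      · rw [e2]
        have h1 : Desc H.hm (H.hv y) x := by
          rw [SkelFam_desc_some hxm, e1]; exact Or.inr (SkelFam_desc_refl _ _)
        have h2 : Desc H.hm (H.hv y) y := by
          rw [SkelFam_desc_some hym]; exact Or.inr (SkelFam_desc_refl _ _)
        have h3 : ¬ Desc H.hm y x := by
          rw [SkelFam_desc_some hxm, e1]
          rintro (h | h)
          · exact hxy h
          · exact hnd h
        exact ⟨h1, h2, Or.inr ⟨h3, SkelFam_desc_refl _ _⟩⟩
    · rw [hf'] at hf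
      obtain ⟨g1, g2, m, g3, g4, g5, g6⟩ := ih (S.ix y) (by omega) y hy hf rfl
      refine ⟨g1, by omega, m, g3, ?_⟩
      have hxc : x ≠ c := by rintro rfl; omega
      have h1 := SkelFam_desc_some (z := c) hxm
      have h2 := SkelFam_desc_some (z := m) hxm
      simp only [hxc, false_or] at h1
      rcases e with ⟨e1, e2⟩ | ⟨e1, e2⟩ <;> rw [e1] at h1 h2 <;> rw [e2] <;> tauto

theorem fam_inl (j : Fin 3) (x : V) (hx : S.N x) (hf : H.fam x = Sum.inl j) :
    (Desc H.hm (S.e0 j) x ∧ Desc H.hm (S.e1 j) (H.ot x)) ∨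
    (Desc H.hm (S.e1 j) x ∧ Desc H.hm (S.e0 j) (H.ot x)) := by
  obtain ⟨n, hn⟩ : ∃ n, S.ix x = n := ⟨_, rfl⟩
  induction n using Nat.strong_induction_on generalizing x with
  | _ n ih =>
    have hxm := H.hm_of_N hx
    have h1 := SkelFam_desc_some (z := S.e0 j) hxm
    have h2 := SkelFam_desc_some (z := S.e1 j) hxm
    rcases H.ps_cases hx with ⟨j', -, hf', e⟩ | ⟨y, -, hy, hlt, hf', e⟩ | ⟨y, -, hy, hlt, hf', e⟩
    · rw [hf'] at hf
      have hj : j' = j := by injection hf
      subst hj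
      rcases e with ⟨e1, e2⟩ | ⟨e1, e2⟩
      · left
        rw [h1, e1, e2]
        exact ⟨Or.inr (SkelFam_desc_refl _ _), SkelFam_desc_refl _ _⟩
      · right
        rw [h2, e1, e2]
        exact ⟨Or.inr (SkelFam_desc_refl _ _), SkelFam_desc_refl _ _⟩
    · rw [hf'] at hf; exact absurd hf (by simp)
    · rw [hf'] at hf
      have g := ih (S.ix y) (by omega) y hy hf rfl
      rcases e with ⟨e1, e2⟩ | ⟨e1, e2⟩ <;> rw [e1] at h1 h2 <;> rw [e2] <;> tauto

/-- task S5: the other end of a far arc that does not contain the centre -/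
theorem second_child (c m x : V) (hx : S.N x) (hf : H.fam x = Sum.inr c) (hc : H.hm c = some m)
    (h1 : m ≠ x) (h2 : m ≠ H.ot x) :
    ∃ w, S.N w ∧ H.fam w = Sum.inr c ∧ H.hm w = some m ∧ w ≠ c ∧
      (Desc H.hm w x ∨ Desc H.hm w (H.ot x)) := by
  obtain ⟨n, hn⟩ : ∃ n, S.ix x = n := ⟨_, rfl⟩
  induction n using Nat.strong_induction_on generalizing x with
  | _ n ih =>
    have hxm := H.hm_of_N hx
    obtain ⟨hcN, hcx, -⟩ := H.fam_inr c x hx hf
    have hxc : x ≠ c := by rintro rfl; omega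
    by_cases hxv : H.hv x = m
    · exact ⟨x, hx, hf, by rw [hxm, hxv], hxc, Or.inl (SkelFam_desc_refl _ _)⟩
    rcases H.ps_cases hx with ⟨j, -, hf', e⟩ | ⟨y, -, hy, hlt, hf', e⟩ | ⟨y, -, hy, hlt, hf', e⟩
    · rw [hf'] at hf; exact absurd hf (by simp)
    · rw [hf'] at hf
      have hyc : y = c := by injection hf
      subst hyc
      have hv : H.hv y = m := (H.hm_some_iff.1 hc).2
      exfalso
      rcases e with ⟨e1, e2⟩ | ⟨e1, e2⟩
      · rw [e2, hv] at h2; exact h2 rfl
      · rw [e1] at hxv; exact hxv hv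
    · rw [hf'] at hf
      rcases e with ⟨e1, e2⟩ | ⟨e1, e2⟩
      · rw [e1] at hxv
        rw [e2] at h2
        obtain ⟨w, w1, w2, w3, w4, w5⟩ := ih (S.ix y) (by omega) y hy hf (Ne.symm hxv) h2 rfl
        refine ⟨w, w1, w2, w3, w4, ?_⟩
        rw [e2, SkelFam_desc_some hxm, e1]
        tauto
      · rw [e1] at hxv
        rw [e2] at h2
        obtain ⟨w, w1, w2, w3, w4, w5⟩ := ih (S.ix y) (by omega) y hy hf h2 (Ne.symm hxv) rfl
        refine ⟨w, w1, w2, w3, w4, ?_⟩
        rw [e2, SkelFam_desc_some hxm, e1]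
        tauto

end Homes

end UP2
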