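import Pool.Agent.Lib.MP_20105c_co.Defs2

set_option autoImplicit false

/-!
# Fans of a skeleton (task S6)
-/

namespace UP2

namespace Homes

namespace SkelFan

variable {V : Type} {S : Skel V}

/-- `x` is an ancestor of `y` for the relation born on a birth arc of -/
private def Anc (S : Skel V) (x y : V) : Prop :=
  Relation.ReflTransGen (fun a b => S.N b ∧ ∃ c, S.ps b = Sum.inr (a, c)) x y

private theorem Anc.ix_lt {x y : V} (h : Anc S x y) : x = y ∨ S.ix x < S.ix y := by
  induction h with
  | refl => exact Or.inl rfl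
  | tail h1 h2 ih =>
    obtain ⟨hN, c, hc⟩ := h2
    have := (S.ps_new _ _ _ hN hc).2.1
    rcases ih with rfl | ih
    · exact Or.inr this
    · exact Or.inr (ih.trans this)

private theorem Anc.antisymm {x y : V} (h : Anc S x y) (h' : Anc S y x) : x = y := by
  rcases h.ix_lt with h1 | h1
  · exact h1
  · rcases h'.ix_lt with h2 | h2
    · exact h2.symm
    · omega

private theorem Anc.step {x y z : V} {c : Bool} (h : Anc S x y) (hz : S.N z)
    (hp : S.ps z = Sum.inr (y, c)) : Anc S x z :=
  Relation.ReflTransGen.tail h ⟨hz, c, hp⟩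

private theorem Anc.parent {x y z : V} {c : Bool} (h : Anc S x z)
    (hp : S.ps z = Sum.inr (y, c)) : x = z ∨ Anc S x y := by
  rcases Relation.ReflTransGen.cases_tail h with h1 | ⟨b, h1, h2, c', hc'⟩
  · exact Or.inl h1.symm
  · rw [hp] at hc'
    simp only [Sum.inr.injEq, Prod.mk.injEq] at hc'
    rw [hc'.1]
    exact Or.inr h1

/-- both parents are members of the skeleton and older than `x` -/
private theorem par_mem (n : ℕ) : ∀ x, S.N x → S.ix x = n →
    ((S.Rt (S.lo x) ∨ (S.N (S.lo x) ∧ S.ix (S.lo x) < S.ix x)) ∧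
      (S.Rt (S.hi x) ∨ (S.N (S.hi x) ∧ S.ix (S.hi x) < S.ix x))) ∧ S.lo x ≠ S.hi x := by
  induction n using Nat.strong_induction_on with
  | _ n ih =>
  intro x hx hn
  subst hn
  rcases hps : S.ps x with j | ⟨y, b⟩
  · obtain ⟨h1, h2⟩ := S.ps_root x j hx hps
    rw [h1, h2]
    refine ⟨⟨Or.inl (S.e_rt j).1, Or.inl (S.e_rt j).2⟩, fun h => ?_⟩
    have := S.rpos_lt j
    rw [h] at this
    exact lt_irrefl _ this
  · obtain ⟨hy, hlt, he⟩ := S.ps_new x y b hx hps
    obtain ⟨⟨h1, h2⟩, h3⟩ := ih _ hlt y hy rfl
    have h1' : S.lo y ≠ y := by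
      intro h
      rw [h] at h1
      rcases h1 with h1 | h1
      · exact S.disj y hy h1
      · exact lt_irrefl _ h1.2
    have h2' : S.hi y ≠ y := by
      intro h
      rw [h] at h2
      rcases h2 with h2 | h2
      · exact S.disj y hy h2
      · exact lt_irrefl _ h2.2
    have h1'' : S.Rt (S.lo y) ∨ (S.N (S.lo y) ∧ S.ix (S.lo y) < S.ix x) :=
      h1.imp id (fun h => ⟨h.1, h.2.trans hlt⟩)
    have h2'' : S.Rt (S.hi y) ∨ (S.N (S.hi y) ∧ S.ix (S.hi y) < S.ix x) :=
      h2.imp id (fun h => ⟨h.1, h.2.trans hlt⟩)
    have h0 : S.Rt y ∨ (S.N y ∧ S.ix y < S.ix x) := Or.inr ⟨hy, hlt⟩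
    cases b <;> cases hk : S.kind y <;> simp only [ends, hk, Prod.mk.injEq] at he <;>
      rw [he.1, he.2]
    · exact ⟨⟨h1'', h0⟩, h1'⟩
    · exact ⟨⟨h0, h1''⟩, h1'.symm⟩
    · exact ⟨⟨h1'', h0⟩, h1'⟩
    · exact ⟨⟨h2'', h0⟩, h2'⟩
    · exact ⟨⟨h0, h2''⟩, h2'.symm⟩
    · exact ⟨⟨h0, h2''⟩, h2'.symm⟩

private theorem lo_ne_hi {x : V} (hx : S.N x) : S.lo x ≠ S.hi x := (par_mem _ x hx rfl).2

private theorem fanFrom_N {m x : V} {s : Fin 3 ⊕ (V × Bool)} (h : FanFrom S m s x) : S.N x := by
  cases h <;> assumption

/-- `m` is a root or older than all vertices of its fans -/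
private theorem fanFrom_lt {m x : V} {s : Fin 3 ⊕ (V × Bool)} (h : FanFrom S m s x) :
    S.Rt m ∨ (S.N m ∧ S.ix m < S.ix x) := by
  induction h with
  | root j x hx hps hm =>
    rcases hm with rfl | rfl
    · exact Or.inl (S.e_rt j).1
    · exact Or.inl (S.e_rt j).2
  | own b x hx hps =>
    obtain ⟨hy, hlt, he⟩ := S.ps_new x _ b hx hps
    exact Or.inr ⟨hy, hlt⟩
  | step s y z c h1 hz hps h2 h3 ih =>
    obtain ⟨hy, hlt, he⟩ := S.ps_new z _ _ hz hps
    exact ih.imp id (fun h => ⟨h.1, h.2.trans hlt⟩)

private theorem not_fanFrom_self {m : V} {s : Fin 3 ⊕ (V × Bool)} : ¬ FanFrom S m s m := by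
  intro h
  rcases fanFrom_lt h with h1 | h1
  · exact S.disj m (fanFrom_N h) h1
  · exact lt_irrefl _ h1.2

/-- the first vertex of a fan -/
private theorem first {m x : V} {s : Fin 3 ⊕ (V × Bool)} (h : FanFrom S m s x) :
    ∃ x0, S.N x0 ∧ S.ps x0 = s ∧ Anc S x0 x := by
  induction h with
  | root j x hx hps hm => exact ⟨x, hx, hps, Relation.ReflTransGen.refl⟩
  | own b x hx hps => exact ⟨x, hx, hps, Relation.ReflTransGen.refl⟩
  | step s y z c h1 hz hps h2 h3 ih =>
    obtain ⟨x0, h4, h5, h6⟩ := ih
    exact ⟨x0, h4, h5, h6.step hz hps⟩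

private theorem anc_of_first {m x x' : V} {s : Fin 3 ⊕ (V × Bool)} (hx : S.N x)
    (h : S.ps x = s) (h' : FanFrom S m s x') : Anc S x x' := by
  obtain ⟨x0, h4, h5, h6⟩ := first h'
  have : x0 = x := S.ps_inj _ _ h4 hx (h5.trans h.symm)
  rwa [this] at h6

/-- fans are chains -/
private theorem chain {m x : V} {s : Fin 3 ⊕ (V × Bool)} (h : FanFrom S m s x) :
    ∀ x', FanFrom S m s x' → Anc S x x' ∨ Anc S x' x := by
  induction h with
  | root j x hx hps hm => exact fun x' h' => Or.inl (anc_of_first hx hps h')
  | own b x hx hps => exact fun x' h' => Or.inl (anc_of_first hx hps h')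
  | step s y z c h1 hz hps h2 h3 ih =>
    intro x' h'
    induction h' with
    | root j x' hx' hps' hm => exact Or.inr (anc_of_first hx' hps' (h1.step _ _ _ c hz hps h2 h3))
    | own b x' hx' hps' => exact Or.inr (anc_of_first hx' hps' (h1.step _ _ _ c hz hps h2 h3))
    | step s y' z' c' h1' hz' hps' h2' h3' ih' =>
      rcases ih' h1 ih with h4 | h4
      · exact Or.inl (h4.step hz' hps')
      rcases h4.parent hps with h5 | h5
      · left
        rw [← h5]
        exact Anc.step Relation.ReflTransGen.refl hz' hps'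
      rcases ih z' (h1'.step _ _ _ c' hz' hps' h2' h3') with h6 | h6
      · rcases h6.parent hps' with h7 | h7
        · right
          rw [← h7]
          exact Anc.step Relation.ReflTransGen.refl hz hps
        · have h8 : y = y' := h7.antisymm h5
          subst h8
          have h9 : c = c' := by
            have hne := lo_ne_hi (fanFrom_N h1)
            cases c <;> cases c'
            · rfl
            · exact absurd ((h2 rfl).trans (h3' rfl).symm) hne
            · exact absurd ((h2' rfl).trans (h3 rfl).symm) hne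
            · rfl
          subst h9
          have h10 : z = z' := S.ps_inj _ _ hz hz' (hps.trans hps'.symm)
          rw [h10]
          exact Or.inl Relation.ReflTransGen.refl
      · exact Or.inr (h6.step hz hps)

private theorem exists_fan (n : ℕ) (m : V) : ∀ x, S.N x → S.ix x = n →
    (m = S.lo x ∨ m = S.hi x) → ∃ s, FanFrom S m s x := by
  induction n using Nat.strong_induction_on with
  | _ n ih =>
  intro x hx hn hm
  subst hn
  rcases hps : S.ps x with j | ⟨y, b⟩
  · obtain ⟨h1, h2⟩ := S.ps_root x j hx hps
    rw [h1, h2] at hm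
    exact ⟨_, FanFrom.root j x hx hps hm⟩
  · obtain ⟨hy, hlt, he⟩ := S.ps_new x y b hx hps
    by_cases hmy : m = y
    · subst hmy
      exact ⟨_, FanFrom.own b x hx hps⟩
    · cases b with
      | false =>
        have h1 : m = S.lo y := by
          cases hk : S.kind y <;> simp only [ends, hk, Prod.mk.injEq] at he <;>
            rw [he.1, he.2] at hm <;> rcases hm with hm | hm <;>
            first | exact hm | exact absurd hm hmy
        obtain ⟨s, hs⟩ := ih _ hlt y hy rfl (Or.inl h1)
        exact ⟨s, FanFrom.step s y x false hs hx hps (fun _ => h1.symm) (fun h => by simp at h)⟩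
      | true =>
        have h1 : m = S.hi y := by
          cases hk : S.kind y <;> simp only [ends, hk, Prod.mk.injEq] at he <;>
            rw [he.1, he.2] at hm <;> rcases hm with hm | hm <;>
            first | exact hm | exact absurd hm hmy
        obtain ⟨s, hs⟩ := ih _ hlt y hy rfl (Or.inr h1)
        exact ⟨s, FanFrom.step s y x true hs hx hps (fun h => by simp at h) (fun _ => h1.symm)⟩

end SkelFan

variable {V : Type} {S : Skel V} (H : Homes S)

open SkelFan in
/-- the members of a family are younger than the vertex that starts it -/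
private theorem SkelFan.fam_lt (n : ℕ) (c : V) : ∀ x, S.N x → S.ix x = n → H.fam x = Sum.inr c →
    S.ix c < S.ix x := by
  induction n using Nat.strong_induction_on with
  | _ n ih =>
  intro x hx hn hf
  subst hn
  rcases hps : S.ps x with j | ⟨y, b⟩
  · rw [H.fam_root x j hx hps] at hf
    simp at hf
  · obtain ⟨hy, hlt, he⟩ := S.ps_new x y b hx hps
    by_cases hb : b = H.home y
    · subst hb
      rw [H.fam_near x y hx hps] at hf
      simp only [Sum.inr.injEq] at hf
      rwa [← hf]
    · have hb' : b = !(H.home y) := by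
        cases b <;> cases h : H.home y <;> simp_all
      subst hb'
      rw [H.fam_far x y hx hps] at hf
      exact (ih _ hlt y hy rfl hf).trans hlt

private theorem SkelFan.hm_N {x m : V} (h : H.hm x = some m) :
    S.N x ∧ m = (if H.home x then S.hi x else S.lo x) := by
  unfold hm at h
  split_ifs at h with h1 h2
  · simp only [Option.some.injEq] at h
    rw [if_pos h2]
    exact ⟨h1, h.symm⟩
  · simp only [Option.some.injEq] at h
    rw [if_neg h2]
    exact ⟨h1, h.symm⟩

open SkelFan in
/-- walking down a family -/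
private theorem SkelFan.walk (m c : V) (s : Fin 3 ⊕ (V × Bool)) (hm : H.hm c = some m)
    (hs : FanFrom S m s c) (n : ℕ) : ∀ w, S.N w → S.ix w = n → H.fam w = Sum.inr c →
    (m = S.lo w ∨ m = S.hi w) → FanFrom S m s w ∧
      ∀ v, Anc S v w → v ≠ w → S.ix c < S.ix v → H.hm v ≠ some m := by
  induction n using Nat.strong_induction_on with
  | _ n ih =>
  intro w hw hn hf hmw
  subst hn
  rcases hps : S.ps w with j | ⟨y, b⟩
  · rw [H.fam_root w j hw hps] at hf
    simp at hf
  obtain ⟨hy, hlt, he⟩ := S.ps_new w y b hw hps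
  by_cases hb : b = H.home y
  · subst hb
    rw [H.fam_near w y hw hps] at hf
    simp only [Sum.inr.injEq] at hf
    subst hf
    obtain ⟨_, h2⟩ := hm_N H hm
    constructor
    · refine FanFrom.step s y w (H.home y) hs hw hps (fun h => ?_) (fun h => ?_)
      · rw [h] at h2; simpa using h2.symm
      · rw [h] at h2; simpa using h2.symm
    · intro v hv hne hlt'
      rcases hv.parent hps with h3 | h3
      · exact absurd h3 hne
      · rcases h3.ix_lt with h4 | h4
        · rw [h4] at hlt'; exact absurd hlt' (lt_irrefl _)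
        · omega
  · have hb' : b = !(H.home y) := by
      cases b <;> cases h : H.home y <;> simp_all
    subst hb'
    rw [H.fam_far w y hw hps] at hf
    have hcy := fam_lt H _ c y hy rfl hf
    have hmy : m ≠ y := by
      rintro rfl
      rcases fanFrom_lt hs with h1 | h1
      · exact S.disj _ hy h1
      · omega
    have hm' : m = (if H.home y then S.lo y else S.hi y) := by
      cases hh : H.home y <;> rw [hh] at he <;> cases hk : S.kind y <;>
        simp only [ends, hk, Prod.mk.injEq, Bool.not_true, Bool.not_false] at he <;>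
        rw [he.1, he.2] at hmw <;> rcases hmw with hmw | hmw <;>
        first | exact absurd hmw hmy | simpa using hmw
    have hne := lo_ne_hi hy
    have hmy' : m = S.lo y ∨ m = S.hi y := by
      cases hh : H.home y <;> rw [hh] at hm'
      · right; simpa using hm'
      · left; simpa using hm'
    obtain ⟨h1, h2⟩ := ih _ hlt y hy rfl hf hmy'
    constructor
    · refine FanFrom.step s y w (!(H.home y)) h1 hw hps (fun h => ?_) (fun h => ?_)
      · have : H.home y = true := by simpa using h
        rw [this] at hm'; simpa using hm'.symm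
      · have : H.home y = false := by simpa using h
        rw [this] at hm'; simpa using hm'.symm
    · intro v hv hvw hlt'
      rcases hv.parent hps with h3 | h3
      · exact absurd h3 hvw
      by_cases hvy : v = y
      · subst hvy
        intro h4
        obtain ⟨_, h5⟩ := hm_N H h4
        cases hh : H.home v <;> rw [hh] at hm' h5
        · have h6 : m = S.hi v := by simpa using hm'
          have h7 : m = S.lo v := by simpa using h5
          exact hne (h7.symm.trans h6)
        · have h6 : m = S.lo v := by simpa using hm'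
          have h7 : m = S.hi v := by simpa using h5
          exact hne (h6.symm.trans h7)
      · exact h2 v h3 hvy hlt'

variable [Fintype V] {B : ℕ} {τ : V → ℤ}

open SkelFan in
/-- task S6: children of `m` in one fan: no child is born between `c` and the second child of the
family of `c` -/
theorem fanFrom_unique (m x : V) (s s' : Fin 3 ⊕ (V × Bool)) (h : FanFrom S m s x)
    (h' : FanFrom S m s' x) : s = s' := by
  induction h generalizing s' with
  | root j x hx hps hm =>
    cases h' with
    | root j' _ _ hps' _ => rw [hps] at hps'; simpa using hps'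
    | own b _ _ hps' => rw [hps] at hps'; simp at hps'
    | step _ y _ c _ _ hps' _ _ => rw [hps] at hps'; simp at hps'
  | own b x hx hps =>
    cases h' with
    | root j' _ _ hps' _ => rw [hps] at hps'; simp at hps'
    | own b' _ _ hps' =>
      rw [hps] at hps'
      simp only [Sum.inr.injEq, Prod.mk.injEq, true_and] at hps'
      rw [hps']
    | step _ y _ c h1 _ hps' _ _ =>
      rw [hps] at hps'
      simp only [Sum.inr.injEq, Prod.mk.injEq] at hps'
      rw [← hps'.1] at h1
      exact absurd h1 not_fanFrom_self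
  | step s y z c h1 hz hps h2 h3 ih =>
    cases h' with
    | root j' _ _ hps' _ => rw [hps] at hps'; simp at hps'
    | own b' _ _ hps' =>
      rw [hps] at hps'
      simp only [Sum.inr.injEq, Prod.mk.injEq] at hps'
      rw [hps'.1] at h1
      exact absurd h1 not_fanFrom_self
    | step _ y' _ c' h1' _ hps' _ _ =>
      rw [hps] at hps'
      simp only [Sum.inr.injEq, Prod.mk.injEq] at hps'
      rw [← hps'.1] at h1'
      exact ih _ h1'

open SkelFan in
theorem fanFrom_exists (m x : V) (hx : S.N x) (h : H.hm x = some m) :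
    ∃ s, FanFrom S m s x := by
  obtain ⟨_, h2⟩ := hm_N H h
  refine exists_fan _ m x hx rfl ?_
  cases hh : H.home x <;> rw [hh] at h2
  · left; simpa using h2
  · right; simpa using h2

open SkelFan in
theorem consec (m c w c' : V) (s s' : Fin 3 ⊕ (V × Bool)) (hw : S.N w) (hc' : S.N c')
    (hm : H.hm c = some m) (hwm : H.hm w = some m) (hcm : H.hm c' = some m)
    (hf : H.fam w = Sum.inr c) (hs : FanFrom S m s c) (hs' : FanFrom S m s c')
    (hsw : FanFrom S m s' w) :
    s' = s ∧ ¬ (S.ix c < S.ix c' ∧ S.ix c' < S.ix w) := by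
  have hmw : m = S.lo w ∨ m = S.hi w := by
    obtain ⟨_, h2⟩ := hm_N H hwm
    cases hh : H.home w <;> rw [hh] at h2
    · left; simpa using h2
    · right; simpa using h2
  obtain ⟨h1, h2⟩ := walk H m c s hm hs _ w hw rfl hf hmw
  refine ⟨fanFrom_unique m w s' s hsw h1, fun ⟨h3, h4⟩ => ?_⟩
  rcases chain hs' w h1 with h5 | h5
  · exact h2 c' h5 (fun h => by rw [h] at h4; exact lt_irrefl _ h4) h3 hcm
  · rcases h5.ix_lt with h6 | h6
    · rw [h6] at h4; exact lt_irrefl _ h4
    · omega

end Homes

end UP2
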