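import Pool.Agent.Lib.MP_20105c_co.Defs2

set_option autoImplicit false

/-!
# Basic facts on homes in an outerplanar skeleton
-/

namespace UP2

/-- rank of a member of a skeleton: roots have rank `0` -/
noncomputable def Skel.rk {V : Type} (S : Skel V) (x : V) : ℕ := by
  classical exact if S.N x then S.ix x + 1 else 0

theorem Skel.rk_N {V : Type} (S : Skel V) {x : V} (h : S.N x) : S.rk x = S.ix x + 1 := by
  unfold Skel.rk
  rw [if_pos h]

theorem Skel.rk_not {V : Type} (S : Skel V) {x : V} (h : ¬ S.N x) : S.rk x = 0 := by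
  unfold Skel.rk
  rw [if_neg h]

namespace Homes

variable {V : Type} {S : Skel V} (H : Homes S)

theorem hm_of_N {x : V} (h : S.N x) :
    H.hm x = some (if H.home x then S.hi x else S.lo x) := by
  unfold Homes.hm
  rw [if_pos h]

theorem hm_of_not {x : V} (h : ¬ S.N x) : H.hm x = none := by
  unfold Homes.hm
  rw [if_neg h]

theorem N_of_hm {x m : V} (h : H.hm x = some m) : S.N x := by
  by_contra hc
  rw [H.hm_of_not hc] at h
  cases h

theorem hm_true {x : V} (h : S.N x) (hh : H.home x = true) : H.hm x = some (S.hi x) := by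
  rw [H.hm_of_N h, hh]
  simp

theorem hm_false {x : V} (h : S.N x) (hh : H.home x = false) : H.hm x = some (S.lo x) := by
  rw [H.hm_of_N h, hh]
  simp

theorem ot_true {x : V} (hh : H.home x = true) : H.ot x = S.lo x := by
  unfold Homes.ot
  rw [hh]
  simp

theorem ot_false {x : V} (hh : H.home x = false) : H.ot x = S.hi x := by
  unfold Homes.ot
  rw [hh]
  simp

/-- the home and the other parent are the two parents -/
theorem hm_ot {x m : V} (h : H.hm x = some m) :
    (m = S.lo x ∧ H.ot x = S.hi x ∧ H.home x = false) ∨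
    (m = S.hi x ∧ H.ot x = S.lo x ∧ H.home x = true) := by
  have hN := H.N_of_hm h
  cases hh : H.home x
  · rw [H.hm_false hN hh] at h
    exact Or.inl ⟨(Option.some.inj h).symm, H.ot_false hh, rfl⟩
  · rw [H.hm_true hN hh] at h
    exact Or.inr ⟨(Option.some.inj h).symm, H.ot_true hh, rfl⟩

end Homes

namespace Skel

variable {V : Type} (S : Skel V)

/-- the parents of a vertex, in terms of its slot -/
theorem par_cases {x : V} (hx : S.N x) :
    (∃ j, S.ps x = Sum.inl j ∧ S.lo x = S.e0 j ∧ S.hi x = S.e1 j) ∨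
    (∃ y b, S.ps x = Sum.inr (y, b) ∧ S.N y ∧ S.ix y < S.ix x ∧
      (S.lo x, S.hi x) = ends S.lo S.hi S.kind y b) := by
  rcases h : S.ps x with j | ⟨y, b⟩
  · exact Or.inl ⟨j, rfl, S.ps_root x j hx h⟩
  · obtain ⟨h1, h2, h3⟩ := S.ps_new x y b hx h
    exact Or.inr ⟨y, b, rfl, h1, h2, h3⟩

theorem e0_ne_e1 (j : Fin 3) : S.e0 j ≠ S.e1 j := by
  intro h
  have := S.rpos_lt j
  rw [h] at this
  exact lt_irrefl _ this

theorem not_N_e0 (j : Fin 3) : ¬ S.N (S.e0 j) := fun h => S.disj _ h (S.e_rt j).1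

theorem not_N_e1 (j : Fin 3) : ¬ S.N (S.e1 j) := fun h => S.disj _ h (S.e_rt j).2

/-- the parents are older members -/
theorem par_mem (x : V) (hx : S.N x) :
    (S.N (S.lo x) ∨ S.Rt (S.lo x)) ∧ (S.N (S.hi x) ∨ S.Rt (S.hi x)) ∧
    S.rk (S.lo x) < S.rk x ∧ S.rk (S.hi x) < S.rk x := by
  induction hn : S.ix x using Nat.strong_induction_on generalizing x with
  | _ n ih =>
    rcases S.par_cases hx with ⟨j, -, h1, h2⟩ | ⟨y, b, -, hy, hlt, he⟩
    · rw [h1, h2, S.rk_N hx, S.rk_not (S.not_N_e0 j), S.rk_not (S.not_N_e1 j)]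
      exact ⟨Or.inr (S.e_rt j).1, Or.inr (S.e_rt j).2, Nat.succ_pos _, Nat.succ_pos _⟩
    · obtain ⟨i1, i2, i3, i4⟩ := ih (S.ix y) (hn ▸ hlt) y hy rfl
      have hr := S.rk_N hy
      have hrx := S.rk_N hx
      cases b <;> cases hk : S.kind y <;> simp only [ends, hk, Prod.mk.injEq] at he <;>
        rw [he.1, he.2]
      all_goals first
        | exact ⟨i1, Or.inl hy, by omega, by omega⟩
        | exact ⟨i2, Or.inl hy, by omega, by omega⟩
        | exact ⟨Or.inl hy, i1, by omega, by omega⟩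
        | exact ⟨Or.inl hy, i2, by omega, by omega⟩

theorem lo_ne (x : V) (hx : S.N x) : S.lo x ≠ x := by
  intro h
  have := (S.par_mem x hx).2.2.1
  rw [h] at this
  exact lt_irrefl _ this

theorem hi_ne (x : V) (hx : S.N x) : S.hi x ≠ x := by
  intro h
  have := (S.par_mem x hx).2.2.2
  rw [h] at this
  exact lt_irrefl _ this

theorem lo_ne_hi (x : V) (hx : S.N x) : S.lo x ≠ S.hi x := by
  rcases S.par_cases hx with ⟨j, -, h1, h2⟩ | ⟨y, b, -, hy, hlt, he⟩
  · rw [h1, h2]
    exact S.e0_ne_e1 j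
  · have h1 := S.lo_ne y hy
    have h2 := S.hi_ne y hy
    cases b <;> cases hk : S.kind y <;> simp only [ends, hk, Prod.mk.injEq] at he <;>
      rw [he.1, he.2] <;> first | exact h1 | exact h2 | exact h1.symm | exact h2.symm

end Skel

namespace Homes

variable {V : Type} {S : Skel V} (H : Homes S)

/-- the home is an older member -/
theorem hm_mem {x m : V} (h : H.hm x = some m) : Mem S m ∧ S.rk m < S.rk x := by
  have hN := H.N_of_hm h
  obtain ⟨i1, i2, i3, i4⟩ := S.par_mem x hN
  rcases H.hm_ot h with ⟨h1, -, -⟩ | ⟨h1, -, -⟩ <;> rw [h1]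
  · exact ⟨i1, i3⟩
  · exact ⟨i2, i4⟩

theorem ot_mem {x : V} (hx : S.N x) : Mem S (H.ot x) ∧ S.rk (H.ot x) < S.rk x := by
  obtain ⟨i1, i2, i3, i4⟩ := S.par_mem x hx
  rcases H.hm_ot (H.hm_of_N hx) with ⟨-, h1, -⟩ | ⟨-, h1, -⟩ <;> rw [h1]
  · exact ⟨i2, i4⟩
  · exact ⟨i1, i3⟩

theorem hm_ne_ot {x m : V} (h : H.hm x = some m) : m ≠ H.ot x := by
  have hN := H.N_of_hm h
  have := S.lo_ne_hi x hN
  rcases H.hm_ot h with ⟨h1, h2, -⟩ | ⟨h1, h2, -⟩ <;> rw [h1, h2]
  · exact this
  · exact this.symm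

theorem hm_ne {x m : V} (h : H.hm x = some m) : m ≠ x := by
  intro he
  have := (H.hm_mem h).2
  rw [he] at this
  exact lt_irrefl _ this

theorem ot_ne {x : V} (hx : S.N x) : H.ot x ≠ x := by
  intro he
  have := (H.ot_mem hx).2
  rw [he] at this
  exact lt_irrefl _ this

theorem Mem_of_N {x : V} (h : S.N x) : Mem S x := Or.inl h

theorem Mem_of_Rt {x : V} (h : S.Rt x) : Mem S x := Or.inr h

theorem hm_Rt {x : V} (h : S.Rt x) : H.hm x = none := H.hm_of_not (fun hN => S.disj x hN h)

/-- descendants are younger -/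
theorem desc_rk {z x : V} (h : Desc H.hm z x) : z = x ∨ S.rk z < S.rk x := by
  unfold Desc at h
  induction h with
  | refl => exact Or.inl rfl
  | tail _ hbc ih =>
    have := (H.hm_mem hbc).2
    rcases ih with ih | ih
    · rw [ih]; exact Or.inr this
    · exact Or.inr (ih.trans this)

theorem desc_ix {z x : V} (hz : S.N z) (hx : S.N x) (h : Desc H.hm z x) :
    z = x ∨ S.ix z < S.ix x := by
  rcases H.desc_rk h with h | h
  · exact Or.inl h
  · rw [S.rk_N hz, S.rk_N hx] at h
    exact Or.inr (by omega)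

theorem desc_mem {z x : V} (hx : Mem S x) (h : Desc H.hm z x) : Mem S z := by
  unfold Desc at h
  induction h with
  | refl => exact hx
  | tail _ hbc ih => exact ih (H.hm_mem hbc).1

/-- a vertex below another vertex is not a root -/
theorem desc_N {z x : V} (hz : S.N z) (h : Desc H.hm z x) : S.N x := by
  rcases Relation.ReflTransGen.cases_tail h with h | ⟨c, -, h⟩
  · rw [h]; exact hz
  · exact H.N_of_hm h

theorem desc_refl (x : V) : Desc H.hm x x := Relation.ReflTransGen.refl

theorem desc_of_hm {x m : V} (h : H.hm x = some m) : Desc H.hm m x :=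
  Relation.ReflTransGen.single h

/-- `x` is below `z` iff it is `z` or its home is below `z` -/
theorem desc_iff {z x m : V} (h : H.hm x = some m) : Desc H.hm z x ↔ z = x ∨ Desc H.hm z m := by
  constructor
  · intro hd
    rcases Relation.ReflTransGen.cases_tail hd with h' | ⟨c, h1, h2⟩
    · exact Or.inl h'.symm
    · rw [h] at h2
      rw [Option.some.inj h2]
      exact Or.inr h1
  · rintro (rfl | h')
    · exact H.desc_refl _
    · exact Relation.ReflTransGen.tail h' h

theorem desc_root {z x : V} (hx : S.Rt x) : Desc H.hm z x ↔ z = x := by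
  constructor
  · intro hd
    rcases Relation.ReflTransGen.cases_tail hd with h' | ⟨c, -, h2⟩
    · exact h'.symm
    · rw [H.hm_Rt hx] at h2
      cases h2
  · rintro rfl
    exact H.desc_refl _

/-- the two parents in a root slot -/
theorem par_root {x : V} {j : Fin 3} (hx : S.N x) (h : S.ps x = Sum.inl j) :
    H.fam x = Sum.inl j ∧ H.st x = St.F ∧
    ((H.hm x = some (S.e0 j) ∧ H.ot x = S.e1 j) ∨
      (H.hm x = some (S.e1 j) ∧ H.ot x = S.e0 j)) := by
  obtain ⟨h1, h2⟩ := S.ps_root x j hx h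
  refine ⟨H.fam_root x j hx h, H.st_root x j hx h, ?_⟩
  cases hh : H.home x
  · left
    rw [H.hm_false hx hh, H.ot_false hh, h1, h2]
    exact ⟨rfl, rfl⟩
  · right
    rw [H.hm_true hx hh, H.ot_true hh, h1, h2]
    exact ⟨rfl, rfl⟩

/-- the near arc joins a vertex and its home -/
theorem near_ends {y m : V} (h : H.hm y = some m) :
    (H.near y = (m, y) ∧ H.after y) ∨ (H.near y = (y, m) ∧ ¬ H.after y) := by
  have hN := H.N_of_hm h
  rcases H.hm_ot h with ⟨h1, -, h3⟩ | ⟨h1, -, h3⟩ <;> unfold Homes.near Homes.after <;>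
    cases hk : S.kind y <;> simp [ends, hk, h3, h1]

/-- the far arc joins a vertex and its other parent -/
theorem far_ends (y : V) :
    (H.far y = (H.ot y, y) ∧ (S.kind y = Kind.A ∨ (S.kind y = Kind.T ∧ H.home y = true))) ∨
    (H.far y = (y, H.ot y) ∧ (S.kind y = Kind.B ∨ (S.kind y = Kind.T ∧ H.home y = false))) := by
  cases hh : H.home y <;> unfold Homes.far <;>
    cases hk : S.kind y <;>
    simp [ends, hk, hh, H.ot_true, H.ot_false]

/-- the parents of a vertex born on a near arc -/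
theorem par_near {x y : V} (hx : S.N x) (h : S.ps x = Sum.inr (y, H.home y)) :
    S.N y ∧ S.ix y < S.ix x ∧ H.fam x = Sum.inr y ∧ H.st x = St.F ∧
    ∃ m, H.hm y = some m ∧
      ((H.hm x = some y ∧ H.ot x = m) ∨ (H.hm x = some m ∧ H.ot x = y)) := by
  obtain ⟨hy, hlt, he⟩ := S.ps_new x y _ hx h
  refine ⟨hy, hlt, H.fam_near x y hx h, H.st_near x y hx h, _, H.hm_of_N hy, ?_⟩
  rw [H.hm_of_N hx]
  cases hhx : H.home x <;> cases hhy : H.home y <;> rw [hhy] at he <;>
    cases hk : S.kind y <;>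
    simp only [ends, hk, Prod.mk.injEq] at he <;>
    simp [H.ot_true, H.ot_false, hhx, he.1, he.2]

/-- the parents of a vertex born on a far arc -/
theorem par_far {x y : V} (hx : S.N x) (h : S.ps x = Sum.inr (y, !(H.home y))) :
    S.N y ∧ S.ix y < S.ix x ∧ H.fam x = H.fam y ∧
    H.st x = nextSt (H.st y) (S.kind y) (H.home y) ∧
      ((H.hm x = some y ∧ H.ot x = H.ot y) ∨ (H.hm x = some (H.ot y) ∧ H.ot x = y)) := by
  obtain ⟨hy, hlt, he⟩ := S.ps_new x y _ hx h
  refine ⟨hy, hlt, H.fam_far x y hx h, H.st_far x y hx h, ?_⟩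
  rw [H.hm_of_N hx]
  cases hhx : H.home x <;> cases hhy : H.home y <;> rw [hhy] at he <;>
    cases hk : S.kind y <;>
    simp only [ends, hk, Prod.mk.injEq, Bool.not_true, Bool.not_false] at he <;>
    simp [H.ot_true, H.ot_false, hhx, hhy, he.1, he.2]

/-- every vertex is born in a root slot, on a near arc or on a far arc -/
theorem slot_cases (x : V) : (∃ j, S.ps x = Sum.inl j) ∨
    (∃ y, S.ps x = Sum.inr (y, H.home y)) ∨ (∃ y, S.ps x = Sum.inr (y, !(H.home y))) := by
  rcases h : S.ps x with j | ⟨y, b⟩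
  · exact Or.inl ⟨j, rfl⟩
  · right
    by_cases hb : b = H.home y
    · left; exact ⟨y, by rw [hb]⟩
    · right
      refine ⟨y, ?_⟩
      have : b = !(H.home y) := by
        cases b <;> cases hh : H.home y <;> simp_all
      rw [this]

/-- every arc is a root arc, a near arc or a far arc -/
theorem sarc_cases {u v : V} (h : S.SArc u v) : (∃ j, u = S.e0 j ∧ v = S.e1 j) ∨
    ∃ x, S.N x ∧ ((u, v) = H.near x ∨ (u, v) = H.far x) := by
  rcases h with h | ⟨x, hx, h⟩
  · exact Or.inl h
  · refine Or.inr ⟨x, hx, ?_⟩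
    unfold Homes.near Homes.far
    cases hh : H.home x <;> cases hk : S.kind x <;> simp only [Birth, hk] at h <;>
      rcases h with ⟨rfl, rfl⟩ | ⟨rfl, rfl⟩ <;> simp [ends, hk]

theorem near_sarc {x : V} (hx : S.N x) : S.SArc (H.near x).1 (H.near x).2 := by
  refine Or.inr ⟨x, hx, ?_⟩
  unfold Homes.near
  cases hh : H.home x <;> cases hk : S.kind x <;> simp [Birth, ends, hk]

theorem far_sarc {x : V} (hx : S.N x) : S.SArc (H.far x).1 (H.far x).2 := by
  refine Or.inr ⟨x, hx, ?_⟩
  unfold Homes.far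
  cases hh : H.home x <;> cases hk : S.kind x <;> simp [Birth, ends, hk]

/-- distinct births use distinct arcs: the ends determine the younger vertex -/
theorem younger_unique {x x' a a' : V}
    (ha : S.rk a < S.rk x) (ha' : S.rk a' < S.rk x')
    (h : (x = x' ∧ a = a') ∨ (x = a' ∧ a = x')) : x = x' ∧ a = a' := by
  rcases h with h | ⟨h1, h2⟩
  · exact h
  · rw [h1, h2] at ha
    exact absurd ha (not_lt.mpr ha'.le)

end Homes

end UP2
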