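import Pool.Agent.Lib.MP_20105c_co.Forest
import Pool.Agent.Lib.MP_20105c_co.SkelBasic

set_option autoImplicit false

/-!
# The order of the vertices of a skeleton (tasks S0, S1)
-/

namespace UP2

namespace Homes

variable {V : Type} {S : Skel V} (H : Homes S) [Fintype V] {B : ℕ} {τ : V → ℤ}

private theorem skelArc_off_root {B : ℕ} {x : V} (h : ¬ S.N x) : H.off B x = S.rpos x := by
  unfold Homes.off; rw [if_neg h]

private theorem skelArc_off_after {B : ℕ} {x : V} (h : S.N x) (ha : H.after x) :
    H.off B x = (B : ℤ) - S.ix x := by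
  unfold Homes.off; rw [if_pos h, if_pos ha]

private theorem skelArc_off_before {B : ℕ} {x : V} (h : S.N x) (ha : ¬ H.after x) :
    H.off B x = (S.ix x : ℤ) - B := by
  unfold Homes.off; rw [if_pos h, if_neg ha]

/-- task S0 -/
theorem exists_tau (hB : ∀ x, S.N x → S.ix x < B) :
    ∃ τ : V → ℤ, FOrd (Mem S) H.hm (H.off B) τ := by
  refine exists_ford (Mem S) H.hm S.rk (H.off B) ?_ ?_ ?_ ?_
  · intro x m _ h
    exact (H.hm_mem h).1
  · intro x m _ h
    exact (H.hm_mem h).2
  · intro x m _ h
    have hN := H.N_of_hm h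
    have hb := hB x hN
    by_cases ha : H.after x
    · rw [H.skelArc_off_after hN ha]; omega
    · rw [H.skelArc_off_before hN ha]; omega
  · intro x y hx hy hxy hr
    by_cases hNx : S.N x
    · have hm := H.hm_of_N hNx
      rw [hxy] at hm
      have hNy := H.N_of_hm hm
      have h1 := hB x hNx
      have h2 := hB y hNy
      apply S.ix_inj x y hNx hNy
      by_cases ha : H.after x
      · rw [H.skelArc_off_after hNx ha] at hr
        by_cases ha' : H.after y
        · rw [H.skelArc_off_after hNy ha'] at hr; omega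
        · rw [H.skelArc_off_before hNy ha'] at hr; omega
      · rw [H.skelArc_off_before hNx ha] at hr
        by_cases ha' : H.after y
        · rw [H.skelArc_off_after hNy ha'] at hr; omega
        · rw [H.skelArc_off_before hNy ha'] at hr; omega
    · have hNy : ¬ S.N y := by
        intro hNy
        have hm := H.hm_of_N hNy
        rw [← hxy] at hm
        exact hNx (H.N_of_hm hm)
      rw [H.skelArc_off_root hNx, H.skelArc_off_root hNy] at hr
      exact S.rpos_inj x y (hx.resolve_left hNx) (hy.resolve_left hNy) hr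

private theorem skelArc_near (hB : ∀ x, S.N x → S.ix x < B)
    (hτ : FOrd (Mem S) H.hm (H.off B) τ) {x m : V} (h : H.hm x = some m) :
    (H.after x → τ m < τ x) ∧ (¬ H.after x → τ x < τ m) := by
  have hN := H.N_of_hm h
  have hb := hB x hN
  constructor
  · intro ha
    refine hτ.pos x m (Or.inl hN) h ?_
    rw [H.skelArc_off_after hN ha]; omega
  · intro ha
    refine hτ.neg x m (Or.inl hN) h ?_
    rw [H.skelArc_off_before hN ha]; omega

private theorem skelArc_not_desc {d p : V} (h : H.hm d = some p) : ¬ Desc H.hm d p := by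
  intro hd
  have h1 := (H.hm_mem h).2
  rcases H.desc_rk hd with h2 | h2
  · rw [h2] at h1; exact lt_irrefl _ h1
  · omega

/-- the far arc of a vertex between its parents -/
private theorem skelArc_T (hB : ∀ x, S.N x → S.ix x < B)
    (hτ : FOrd (Mem S) H.hm (H.off B) τ) {x : V} (hx : S.N x) (hk : S.kind x = Kind.T)
    (hpar : τ (S.lo x) < τ (S.hi x)) : τ (S.lo x) < τ x ∧ τ x < τ (S.hi x) := by
  have hMx : Mem S x := Or.inl hx
  obtain ⟨hlo, hhi, hlo', hhi'⟩ := S.par_mem x hx
  cases hh : H.home x with
  | false =>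
    have hm := H.hm_false hx hh
    have ha : H.after x := Or.inr ⟨hk, hh⟩
    refine ⟨(H.skelArc_near hB hτ hm).1 ha, ?_⟩
    by_cases hd : Desc H.hm (S.lo x) (S.hi x)
    · have hne : S.hi x ≠ S.lo x := by
        intro he; rw [he] at hpar; exact lt_irrefl _ hpar
      obtain ⟨d, hd1, hd2⟩ : ∃ d, H.hm d = some (S.lo x) ∧ Desc H.hm d (S.hi x) := by
        rcases Relation.ReflTransGen.cases_head hd with h1 | ⟨d, h1, h2⟩
        · exact absurd h1.symm hne
        · exact ⟨d, h1, h2⟩
      have hdN := H.N_of_hm hd1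
      have hMd : Mem S d := Or.inl hdN
      have hnd := H.skelArc_not_desc hd1
      have hqN := H.desc_N hdN hd2
      have hix : S.ix d < S.ix x := by
        rw [S.rk_N hx, S.rk_N hqN] at hhi'
        rcases H.desc_ix hdN hqN hd2 with h | h
        · rw [h]; omega
        · omega
      -- `d` is placed after `lo x`
      have h1 := (hτ.blk d (S.hi x) (S.lo x) hMd hhi hlo hd2 hnd).2.1 hpar
      have hda : H.after d := by
        by_contra hc
        have := (H.skelArc_near hB hτ hd1).2 hc
        omega
      have hoff : H.off B x < H.off B d := by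
        rw [H.skelArc_off_after hx ha, H.skelArc_off_after hdN hda]; omega
      have h2 := hτ.sib x d hMx hMd (by rw [hm, hd1]) hoff
      have hxd : ¬ Desc H.hm d x := by
        rw [H.desc_iff hm]
        rintro (h | h)
        · rw [h] at hix; exact lt_irrefl _ hix
        · exact hnd h
      exact (hτ.blk d (S.hi x) x hMd hhi hMx hd2 hxd).2.2 h2
    · exact (hτ.blk (S.lo x) x (S.hi x) hlo hMx hhi (H.desc_of_hm hm) hd).1.2 hpar
  | true =>
    have hm := H.hm_true hx hh
    have ha : ¬ H.after x := by
      rintro (h | ⟨-, h⟩)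
      · rw [hk] at h; exact absurd h (by simp)
      · rw [hh] at h; exact absurd h (by simp)
    refine ⟨?_, (H.skelArc_near hB hτ hm).2 ha⟩
    by_cases hd : Desc H.hm (S.hi x) (S.lo x)
    · have hne : S.lo x ≠ S.hi x := by
        intro he; rw [he] at hpar; exact lt_irrefl _ hpar
      obtain ⟨d, hd1, hd2⟩ : ∃ d, H.hm d = some (S.hi x) ∧ Desc H.hm d (S.lo x) := by
        rcases Relation.ReflTransGen.cases_head hd with h1 | ⟨d, h1, h2⟩
        · exact absurd h1.symm hne
        · exact ⟨d, h1, h2⟩
      have hdN := H.N_of_hm hd1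
      have hMd : Mem S d := Or.inl hdN
      have hnd := H.skelArc_not_desc hd1
      have hqN := H.desc_N hdN hd2
      have hix : S.ix d < S.ix x := by
        rw [S.rk_N hx, S.rk_N hqN] at hlo'
        rcases H.desc_ix hdN hqN hd2 with h | h
        · rw [h]; omega
        · omega
      have h1 := (hτ.blk d (S.lo x) (S.hi x) hMd hlo hhi hd2 hnd).1.1 hpar
      have hda : ¬ H.after d := by
        intro hc
        have := (H.skelArc_near hB hτ hd1).1 hc
        omega
      have hoff : H.off B d < H.off B x := by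
        rw [H.skelArc_off_before hx ha, H.skelArc_off_before hdN hda]; omega
      have h2 := hτ.sib d x hMd hMx (by rw [hm, hd1]) hoff
      have hxd : ¬ Desc H.hm d x := by
        rw [H.desc_iff hm]
        rintro (h | h)
        · rw [h] at hix; exact lt_irrefl _ hix
        · exact hnd h
      exact (hτ.blk d (S.lo x) x hMd hlo hMx hd2 hxd).1.2 h2
    · exact (hτ.blk (S.hi x) x (S.lo x) hhi hMx hlo (H.desc_of_hm hm) hd).2.2 hpar

/-- the two birth arcs go forward if the parent arc does -/
private theorem skelArc_birth (hB : ∀ x, S.N x → S.ix x < B)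
    (hτ : FOrd (Mem S) H.hm (H.off B) τ) {x : V} (hx : S.N x)
    (hpar : τ (S.lo x) < τ (S.hi x)) (b : Bool) :
    τ (ends S.lo S.hi S.kind x b).1 < τ (ends S.lo S.hi S.kind x b).2 := by
  cases hk : S.kind x with
  | A =>
    have hh := H.hA x hx hk
    have h1 := (H.skelArc_near hB hτ (H.hm_true hx hh)).1 (Or.inl hk)
    cases b <;> simp only [ends, hk] <;> omega
  | B =>
    have hh := H.hB x hx hk
    have ha : ¬ H.after x := by
      rintro (h | ⟨h, -⟩)
      · rw [hk] at h; exact absurd h (by simp)
      · rw [hk] at h; exact absurd h (by simp)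
    have h1 := (H.skelArc_near hB hτ (H.hm_false hx hh)).2 ha
    cases b <;> simp only [ends, hk] <;> omega
  | T =>
    obtain ⟨h1, h2⟩ := H.skelArc_T hB hτ hx hk hpar
    cases b <;> simp only [ends, hk] <;> omega

/-- task S1: arcs go forward -/
theorem par_lt (hB : ∀ x, S.N x → S.ix x < B) (hτ : FOrd (Mem S) H.hm (H.off B) τ) :
    (∀ x, S.N x → τ (S.lo x) < τ (S.hi x)) ∧ (∀ u v, S.SArc u v → τ u < τ v) := by
  have hroot : ∀ j, τ (S.e0 j) < τ (S.e1 j) := by
    intro j
    obtain ⟨h0, h1⟩ := S.e_rt j
    refine hτ.sib _ _ (Or.inr h0) (Or.inr h1) (by rw [H.hm_Rt h0, H.hm_Rt h1]) ?_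
    rw [H.skelArc_off_root (S.not_N_e0 j), H.skelArc_off_root (S.not_N_e1 j)]
    exact S.rpos_lt j
  have hpar : ∀ x, S.N x → τ (S.lo x) < τ (S.hi x) := by
    intro x hx
    obtain ⟨n, hn⟩ : ∃ n, S.ix x = n := ⟨_, rfl⟩
    induction n using Nat.strong_induction_on generalizing x with
    | _ n ih =>
      rcases S.par_cases hx with ⟨j, -, h1, h2⟩ | ⟨y, b, -, hy, hlt, he⟩
      · rw [h1, h2]; exact hroot j
      · have h := H.skelArc_birth hB hτ hy (ih (S.ix y) (by omega) y hy rfl) b
        rw [← he] at h
        exact h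
  refine ⟨hpar, ?_⟩
  rintro u v (⟨j, rfl, rfl⟩ | ⟨x, hx, hb⟩)
  · exact hroot j
  · have h0 := H.skelArc_birth hB hτ hx (hpar x hx) false
    have h1 := H.skelArc_birth hB hτ hx (hpar x hx) true
    unfold Birth at hb
    cases hk : S.kind x <;> rw [hk] at hb <;> simp only [ends, hk] at h0 h1 <;>
      rcases hb with ⟨rfl, rfl⟩ | ⟨rfl, rfl⟩ <;> assumption

end Homes

end UP2
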