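import Pool.Agent.Lib.MP_20105c_co.Defs2
import Pool.Agent.Lib.MP_20105c_co.SkelArc

set_option autoImplicit false

/-!
# The two phases of a family (task S4)
-/

namespace UP2

namespace Homes

variable {V : Type} {S : Skel V} (H : Homes S)

variable {B : ℕ} {τ : V → ℤ}

/-- the chain of a family -/
private def skelPhaseCh (x z : V) : Prop :=
  Relation.ReflTransGen (fun a b => S.N b ∧ S.ps b = Sum.inr (a, !(H.home a))) x z

private theorem skelPhase_cases (x : V) (hx : S.N x) :
    (∃ j, S.ps x = Sum.inl j ∧ H.fam x = Sum.inl j) ∨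
    (∃ y, S.ps x = Sum.inr (y, H.home y) ∧ H.fam x = Sum.inr y) ∨
    ∃ y, S.N y ∧ S.ix y < S.ix x ∧ S.ps x = Sum.inr (y, !(H.home y)) ∧ H.fam x = H.fam y := by
  rcases hps : S.ps x with j | ⟨y, b⟩
  · exact Or.inl ⟨j, rfl, H.fam_root x j hx hps⟩
  · by_cases hb : b = H.home y
    · subst hb
      exact Or.inr (Or.inl ⟨y, rfl, H.fam_near x y hx hps⟩)
    · have hb' : b = !(H.home y) := by
        cases b <;> cases hh : H.home y <;> simp_all
      subst hb'
      exact Or.inr (Or.inr ⟨y, (S.ps_new x y _ hx hps).1, (S.ps_new x y _ hx hps).2.1, rfl,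
        H.fam_far x y hx hps⟩)

private theorem skelPhase_ch : ∀ n : ℕ, ∀ x x' : V, S.ix x + S.ix x' = n → S.N x → S.N x' →
    H.fam x = H.fam x' → H.skelPhaseCh x x' ∨ H.skelPhaseCh x' x := by
  intro n
  induction n using Nat.strong_induction_on with
  | _ n ih =>
    intro x x' hn hx hx' hf
    -- a predecessor of the first vertex
    have key : ∀ x x' y : V, S.ix x + S.ix x' = n → S.N x → S.N x' → H.fam x = H.fam x' → S.N y →
        S.ix y < S.ix x → S.ps x = Sum.inr (y, !(H.home y)) → H.fam x = H.fam y →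
        H.skelPhaseCh x x' ∨ H.skelPhaseCh x' x := by
      intro x x' y hn hx hx' hf hy hlt hps hfy
      rcases ih (S.ix y + S.ix x') (by omega) y x' rfl hy hx' (hfy.symm.trans hf) with h | h
      · rcases Relation.ReflTransGen.cases_head h with h1 | ⟨z, ⟨hz, hpz⟩, h2⟩
        · right
          subst h1
          exact Relation.ReflTransGen.single ⟨hx, hps⟩
        · left
          have : z = x := S.ps_inj z x hz hx (hpz.trans hps.symm)
          subst this
          exact h2
      · exact Or.inr (h.tail ⟨hx, hps⟩)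
    rcases H.skelPhase_cases x hx with ⟨j, h1, h2⟩ | ⟨y, h1, h2⟩ | ⟨y, hy, hlt, h1, h2⟩
    · rcases H.skelPhase_cases x' hx' with ⟨j', h1', h2'⟩ | ⟨y', h1', h2'⟩ |
        ⟨y', hy', hlt', h1', h2'⟩
      · have : (Sum.inl j : Fin 3 ⊕ V) = Sum.inl j' := by rw [← h2, ← h2', hf]
        have hj : j = j' := Sum.inl.inj this
        subst hj
        have : x = x' := S.ps_inj x x' hx hx' (h1.trans h1'.symm)
        subst this
        exact Or.inl Relation.ReflTransGen.refl
      · rw [h2, h2'] at hf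
        exact absurd hf (by simp)
      · exact (key x' x y' (by omega) hx' hx hf.symm hy' hlt' h1' h2').symm
    · rcases H.skelPhase_cases x' hx' with ⟨j', h1', h2'⟩ | ⟨y', h1', h2'⟩ |
        ⟨y', hy', hlt', h1', h2'⟩
      · rw [h2, h2'] at hf
        exact absurd hf (by simp)
      · have : (Sum.inr y : Fin 3 ⊕ V) = Sum.inr y' := by rw [← h2, ← h2', hf]
        have hj : y = y' := Sum.inr.inj this
        subst hj
        have : x = x' := S.ps_inj x x' hx hx' (h1.trans h1'.symm)
        subst this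
        exact Or.inl Relation.ReflTransGen.refl
      · exact (key x' x y' (by omega) hx' hx hf.symm hy' hlt' h1' h2').symm
    · exact key x x' y hn hx hx' hf hy hlt h1 h2

private theorem skelPhase_ix {x z : V} (h : H.skelPhaseCh x z) : S.ix x ≤ S.ix z := by
  induction h with
  | refl => exact le_rfl
  | tail _ h2 ih => exact ih.trans (S.ps_new _ _ _ h2.1 h2.2).2.1.le

private theorem skelPhase_bool (b : Bool) : b = !b → False := by cases b <;> simp

/-- the far arc of a vertex in the first phase contains its parent arc -/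
private theorem skelPhase_nest (hlt : ∀ u v, S.SArc u v → τ u < τ v) {y : V} (hy : S.N y)
    (hph : H.phN y) :
    τ (H.far y).1 ≤ τ (S.lo y) ∧ τ (S.hi y) ≤ τ (H.far y).2 := by
  rcases hk : S.kind y
  · have hh := H.hA y hy hk
    have h1 : τ (S.hi y) < τ y := hlt _ _ (Or.inr ⟨y, hy, by unfold Birth; rw [hk]; exact Or.inr ⟨rfl, rfl⟩⟩)
    have hfar : H.far y = (S.lo y, y) := by
      unfold far ends
      rw [hh, hk]
      rfl
    rw [hfar]
    exact ⟨le_rfl, h1.le⟩
  · have hh := H.hB y hy hk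
    have h1 : τ y < τ (S.lo y) := hlt _ _ (Or.inr ⟨y, hy, by unfold Birth; rw [hk]; exact Or.inl ⟨rfl, rfl⟩⟩)
    have hfar : H.far y = (y, S.hi y) := by
      unfold far ends
      rw [hh, hk]
      rfl
    rw [hfar]
    exact ⟨h1.le, le_rfl⟩
  · exact absurd hk hph.2

private theorem skelPhase_far {y z : V} (hz : S.N z) (hps : S.ps z = Sum.inr (y, !(H.home y))) :
    S.lo z = (H.far y).1 ∧ S.hi z = (H.far y).2 := by
  have h := (S.ps_new z y _ hz hps).2.2
  unfold far
  rw [← h]
  exact ⟨rfl, rfl⟩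

private theorem skelPhase_nextF {s : St} {k : Kind} {b : Bool} (h : nextSt s k b = St.F) :
    s = St.F ∧ k ≠ Kind.T := by
  cases s <;> cases k <;> cases b <;> simp_all [nextSt]

private theorem skelPhase_chain (hlt : ∀ u v, S.SArc u v → τ u < τ v) {x z : V} (hx : S.N x)
    (h : H.skelPhaseCh x z) (hph : H.phN z) :
    τ (H.far z).1 ≤ τ (H.far x).1 ∧ τ (H.far x).2 ≤ τ (H.far z).2 := by
  induction h with
  | refl => exact ⟨le_rfl, le_rfl⟩
  | @tail y z h1 h2 ih =>
    have hst := H.st_far z y h2.1 h2.2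
    rw [hph.1] at hst
    have hy := skelPhase_nextF hst.symm
    have hi := ih hy
    have hn := H.skelPhase_nest hlt h2.1 hph
    obtain ⟨e1, e2⟩ := H.skelPhase_far h2.1 h2.2
    rw [e1, e2] at hn
    exact ⟨hn.1.trans hi.1, hi.2.trans hn.2⟩

private theorem skelPhase_L {x z : V} (h : H.skelPhaseCh x z)
    (hL : H.st x = St.L ∨ (H.st x = St.F ∧ S.kind x = Kind.T ∧ H.home x = false)) :
    (H.st z = St.L ∨ (H.st z = St.F ∧ S.kind z = Kind.T ∧ H.home z = false)) ∧
      (H.far z).1 = (H.far x).1 := by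
  induction h with
  | refl => exact ⟨hL, rfl⟩
  | @tail y z h1 h2 ih =>
    have hst := H.st_far z y h2.1 h2.2
    have hz : H.st z = St.L := by
      rcases ih.1 with h3 | ⟨h3, h4, h5⟩
      · rw [hst, h3]
        cases S.kind y <;> cases H.home y <;> rfl
      · rw [hst, h3, h4, h5]
        rfl
    refine ⟨Or.inl hz, ?_⟩
    obtain ⟨hk, hh⟩ := H.hL z h2.1 hz
    rw [← ih.2, ← (H.skelPhase_far h2.1 h2.2).1]
    unfold far ends
    rw [hh]
    rcases hkz : S.kind z
    · rfl
    · exact absurd hkz hk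
    · rfl

private theorem skelPhase_H {x z : V} (h : H.skelPhaseCh x z)
    (hL : H.st x = St.H ∨ (H.st x = St.F ∧ S.kind x = Kind.T ∧ H.home x = true)) :
    (H.st z = St.H ∨ (H.st z = St.F ∧ S.kind z = Kind.T ∧ H.home z = true)) ∧
      (H.far z).2 = (H.far x).2 := by
  induction h with
  | refl => exact ⟨hL, rfl⟩
  | @tail y z h1 h2 ih =>
    have hst := H.st_far z y h2.1 h2.2
    have hz : H.st z = St.H := by
      rcases ih.1 with h3 | ⟨h3, h4, h5⟩
      · rw [hst, h3]
        cases S.kind y <;> cases H.home y <;> rfl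
      · rw [hst, h3, h4, h5]
        rfl
    refine ⟨Or.inl hz, ?_⟩
    obtain ⟨hk, hh⟩ := H.hH z h2.1 hz
    rw [← ih.2, ← (H.skelPhase_far h2.1 h2.2).2]
    unfold far ends
    rw [hh]
    rcases hkz : S.kind z
    · exact absurd hkz hk
    · rfl
    · rfl

private theorem skelPhase_not {x : V} (h : ¬ H.phN x) :
    (H.st x = St.L ∨ (H.st x = St.F ∧ S.kind x = Kind.T ∧ H.home x = false)) ∨
    (H.st x = St.H ∨ (H.st x = St.F ∧ S.kind x = Kind.T ∧ H.home x = true)) := by
  unfold phN at h
  rcases hs : H.st x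
  · rw [hs] at h
    have hk : S.kind x = Kind.T := by
      by_contra hne
      exact h ⟨rfl, hne⟩
    rcases hh : H.home x
    · exact Or.inl (Or.inr ⟨rfl, hk, rfl⟩)
    · exact Or.inr (Or.inr ⟨rfl, hk, rfl⟩)
  · exact Or.inl (Or.inl rfl)
  · exact Or.inr (Or.inl rfl)

variable [Fintype V]

/-- task S4: the two phases of a family -/
theorem phaseN (hB : ∀ x, S.N x → S.ix x < B) (hτ : FOrd (Mem S) H.hm (H.off B) τ) (x x' : V)
    (hx : S.N x) (hx' : S.N x') (hf : H.fam x = H.fam x') (h : H.phN x) (h' : H.phN x')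
    (hi : S.ix x < S.ix x') :
    τ (H.far x').1 ≤ τ (H.far x).1 ∧ τ (H.far x).2 ≤ τ (H.far x').2 := by
  have hlt := (H.par_lt hB hτ).2
  rcases H.skelPhase_ch _ x x' rfl hx hx' hf with h1 | h1
  · exact H.skelPhase_chain hlt hx h1 h'
  · have := H.skelPhase_ix h1
    omega

theorem phaseS (x x' : V) (hx : S.N x) (hx' : S.N x') (hf : H.fam x = H.fam x')
    (h : ¬ H.phN x) (h' : ¬ H.phN x') :
    (H.far x).1 = (H.far x').1 ∨ (H.far x).2 = (H.far x').2 ∨ (H.far x).1 = (H.far x').2 ∨
      (H.far x).2 = (H.far x').1 := by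
  rcases H.skelPhase_ch _ x x' rfl hx hx' hf with h1 | h1
  · rcases H.skelPhase_not h with h2 | h2
    · exact Or.inl (H.skelPhase_L h1 h2).2.symm
    · exact Or.inr (Or.inl (H.skelPhase_H h1 h2).2.symm)
  · rcases H.skelPhase_not h' with h2 | h2
    · exact Or.inl (H.skelPhase_L h1 h2).2
    · exact Or.inr (Or.inl (H.skelPhase_H h1 h2).2)

end Homes

end UP2
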