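import Pool.Agent.Lib.MP_20105c_co.SkelArc
import Pool.Agent.Lib.MP_20105c_co.SkelFam
import Pool.Agent.Lib.MP_20105c_co.SkelPhase
import Pool.Agent.Lib.MP_20105c_co.SkelFan

set_option autoImplicit false

/-!
# Layout of an outerplanar skeleton

`skel_layout`: the order and the colouring of the arcs of a skeleton with homes.
-/

namespace UP2

namespace Homes

variable {V : Type} {S : Skel V} (H : Homes S)

private theorem s7_par (n : ℕ) : ∀ x, S.N x → S.ix x = n →
    (Mem S (S.lo x) ∧ Mem S (S.hi x)) ∧ (S.N (S.lo x) → S.ix (S.lo x) < S.ix x) ∧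
      (S.N (S.hi x) → S.ix (S.hi x) < S.ix x) := by
  induction n using Nat.strong_induction_on with
  | _ n ih =>
    intro x hx hn
    rcases hps : S.ps x with j | ⟨y, b⟩
    · obtain ⟨h1, h2⟩ := S.ps_root x j hx hps
      rw [h1, h2]
      refine ⟨⟨Or.inr (S.e_rt j).1, Or.inr (S.e_rt j).2⟩, fun h => ?_, fun h => ?_⟩
      · exact absurd (S.e_rt j).1 (S.disj _ h)
      · exact absurd (S.e_rt j).2 (S.disj _ h)
    · obtain ⟨hy, hlt, he⟩ := S.ps_new x y b hx hps
      obtain ⟨⟨m1, m2⟩, i1, i2⟩ := ih (S.ix y) (by omega) y hy rfl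
      have key : ((S.lo x = y ∨ S.lo x = S.lo y ∨ S.lo x = S.hi y) ∧
          (S.hi x = y ∨ S.hi x = S.lo y ∨ S.hi x = S.hi y)) := by
        unfold ends at he
        cases b <;> cases hk : S.kind y <;> rw [hk] at he <;> simp only [Prod.mk.injEq] at he <;>
          simp [he.1, he.2]
      refine ⟨⟨?_, ?_⟩, ?_, ?_⟩
      · rcases key.1 with h | h | h <;> rw [h]
        · exact Or.inl hy
        · exact m1
        · exact m2
      · rcases key.2 with h | h | h <;> rw [h]
        · exact Or.inl hy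
        · exact m1
        · exact m2
      · rcases key.1 with h | h | h <;> rw [h] <;> intro hN
        · exact hlt
        · exact (i1 hN).trans hlt
        · exact (i2 hN).trans hlt
      · rcases key.2 with h | h | h <;> rw [h] <;> intro hN
        · exact hlt
        · exact (i1 hN).trans hlt
        · exact (i2 hN).trans hlt

private theorem s7_hm {x m : V} (h : H.hm x = some m) :
    S.N x ∧ m = (if H.home x then S.hi x else S.lo x) ∧ Mem S m ∧ (S.N m → S.ix m < S.ix x) := by
  unfold hm at h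
  split_ifs at h with h1 h2
  · refine ⟨h1, ?_, ?_, ?_⟩
    · simp only [Option.some.injEq] at h; simp [h2, h]
    · simp only [Option.some.injEq] at h; rw [← h]; exact (s7_par _ x h1 rfl).1.2
    · simp only [Option.some.injEq] at h; rw [← h]; exact (s7_par _ x h1 rfl).2.2
  · refine ⟨h1, ?_, ?_, ?_⟩
    · simp only [Option.some.injEq] at h; simp [h2, h]
    · simp only [Option.some.injEq] at h; rw [← h]; exact (s7_par _ x h1 rfl).1.1
    · simp only [Option.some.injEq] at h; rw [← h]; exact (s7_par _ x h1 rfl).2.1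

private theorem s7_hm_ex {x : V} (h : S.N x) : ∃ m, H.hm x = some m := by
  unfold hm
  simp [h]

private theorem s7_hm_root {x : V} (h : S.Rt x) : H.hm x = none := by
  unfold hm
  rw [if_neg (fun hn => S.disj x hn h)]

private theorem s7_ot_mem {x : V} (h : S.N x) : Mem S (H.ot x) := by
  unfold ot
  split_ifs
  · exact (s7_par _ x h rfl).1.1
  · exact (s7_par _ x h rfl).1.2

private theorem s7_far {x : V} (h : S.N x) :
    H.far x = (x, H.ot x) ∨ H.far x = (H.ot x, x) := by
  unfold far ot ends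
  cases hh : H.home x <;> cases hk : S.kind x <;> simp [hk]
  all_goals first
    | (have := H.hA x h hk; simp [hh] at this)
    | (have := H.hB x h hk; simp [hh] at this)
    | skip

private theorem s7_near {x : V} (h : S.N x) : ∃ m, H.hm x = some m ∧
    (H.near x = (x, m) ∨ H.near x = (m, x)) := by
  unfold near hm ends
  cases hh : H.home x <;> cases hk : S.kind x <;> simp [h, hh, hk]

open Classical in
/-- rank -/
private noncomputable def s7_rk (S : Skel V) (x : V) : ℕ := if S.N x then S.ix x + 1 else 0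

private theorem s7_rk_lt {x m : V} (h : H.hm x = some m) : s7_rk S m < s7_rk S x := by
  obtain ⟨h1, -, -, h4⟩ := H.s7_hm h
  unfold s7_rk
  rw [if_pos h1]
  split_ifs with h5
  · have := h4 h5; omega
  · omega

private theorem s7_desc_rk {z x : V} (h : Desc H.hm z x) : z = x ∨ s7_rk S z < s7_rk S x := by
  induction h with
  | refl => exact Or.inl rfl
  | tail _ h2 ih =>
    right
    have := H.s7_rk_lt h2
    rcases ih with rfl | h
    · exact this
    · omega

private theorem s7_anti {z x : V} (h : Desc H.hm z x) (h' : Desc H.hm x z) : z = x := by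
  rcases H.s7_desc_rk h with h1 | h1
  · exact h1
  · rcases H.s7_desc_rk h' with h2 | h2
    · exact h2.symm
    · omega

private theorem s7_desc_root {z x : V} (hx : S.Rt x) (h : Desc H.hm z x) : z = x := by
  rcases Relation.ReflTransGen.cases_tail h with h1 | ⟨y, -, h2⟩
  · exact h1.symm
  · rw [H.s7_hm_root hx] at h2; simp at h2

private theorem s7_desc_mem {z x : V} (hx : Mem S x) (h : Desc H.hm z x) : Mem S z := by
  induction h with
  | refl => exact hx
  | tail _ h2 ih => exact ih (H.s7_hm h2).2.2.1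

/-- going up one step -/
private theorem s7_desc_up {z x m : V} (h : Desc H.hm z x) (hne : z ≠ x) (hm : H.hm x = some m) :
    Desc H.hm z m := by
  rcases Relation.ReflTransGen.cases_tail h with h1 | ⟨y, h1, h2⟩
  · exact absurd h1.symm hne
  · rw [hm] at h2
    simp only [Option.some.injEq] at h2
    rw [h2]; exact h1

private theorem s7_desc_one {x m : V} (hm : H.hm x = some m) : Desc H.hm m x :=
  Relation.ReflTransGen.single hm

/-- blocks of siblings are disjoint -/
private theorem s7_sib_disj {c w m p : V} (hc : H.hm c = some m) (hw : H.hm w = some m)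
    (hne : c ≠ w) (h1 : Desc H.hm c p) (h2 : Desc H.hm w p) : False := by
  rcases desc_or h1 h2 with h | h
  · have h3 := H.s7_desc_up h hne hw
    rcases H.s7_desc_rk h3 with h4 | h4
    · have := H.s7_rk_lt hc; rw [h4] at this; omega
    · have := H.s7_rk_lt hc; omega
  · have h3 := H.s7_desc_up h (Ne.symm hne) hc
    rcases H.s7_desc_rk h3 with h4 | h4
    · have := H.s7_rk_lt hw; rw [h4] at this; omega
    · have := H.s7_rk_lt hw; omega

variable [Fintype V] {B : ℕ} {τ : V → ℤ}

/-- a block below the centre of a far arc contains at most one end of it -/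
private theorem s7_low (x z : V) (hx : S.N x) (hz : Mem S z)
    (hcen : ∀ m, H.cen (H.fam x) = some m → Desc H.hm m z ∧ m ≠ z)
    (h : Desc H.hm z x ∨ Desc H.hm z (H.ot x)) :
    (S.N z ∧ H.fam x = Sum.inr z) ∨ (S.N z ∧ H.fam x = H.fam z) ∨
      (S.Rt z ∧ ∃ j, H.fam x = Sum.inl j) := by
  have hnb : ¬ (Desc H.hm z x ∧ Desc H.hm z (H.ot x)) := by
    rintro ⟨h1, h2⟩
    rcases hf : H.fam x with j | c
    · have hroot : ∀ e p, S.Rt e → Desc H.hm e p → Desc H.hm z p → Desc H.hm e z := by
        intro e p he hep hzp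
        rcases desc_or hep hzp with h | h
        · exact h
        · rw [H.s7_desc_root he h]; exact Relation.ReflTransGen.refl
      have h01 : Desc H.hm (S.e0 j) z ∧ Desc H.hm (S.e1 j) z := by
        rcases H.fam_inl j x hx hf with ⟨h3, h4⟩ | ⟨h3, h4⟩
        · exact ⟨hroot _ _ (S.e_rt j).1 h3 h1, hroot _ _ (S.e_rt j).2 h4 h2⟩
        · exact ⟨hroot _ _ (S.e_rt j).1 h4 h2, hroot _ _ (S.e_rt j).2 h3 h1⟩
      have hee : S.e0 j = S.e1 j := by
        rcases desc_or h01.1 h01.2 with h | h
        · exact H.s7_desc_root (S.e_rt j).2 h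
        · exact (H.s7_desc_root (S.e_rt j).1 h).symm
      have := S.rpos_lt j
      rw [hee] at this
      omega
    · obtain ⟨hc, -, m, hm, -, -, h3⟩ := H.fam_inr c x hx hf
      obtain ⟨hmz, hne⟩ := hcen m (by rw [hf]; exact hm)
      -- an end in the blocks of `c` and `z`
      have key : ∀ p, Desc H.hm c p → Desc H.hm z p → Desc H.hm c z := by
        intro p hcp hzp
        rcases desc_or hcp hzp with h | h
        · exact h
        · by_cases hzc : z = c
          · rw [hzc]; exact Relation.ReflTransGen.refl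
          · exact absurd (H.s7_anti hmz (H.s7_desc_up h hzc hm)) hne
      rcases h3 with ⟨h4, h5⟩ | ⟨h4, h5⟩
      · exact h5 ((key x h4 h1).trans h2)
      · exact h4 ((key _ h5 h2).trans h1)
  have hone : Desc H.hm z x ∧ ¬ Desc H.hm z (H.ot x) ∨ ¬ Desc H.hm z x ∧ Desc H.hm z (H.ot x) := by
    tauto
  rcases hz with hz | hz
  · rcases H.enter z x hz hx hone with h1 | h1
    · exact Or.inl ⟨hz, h1⟩
    · exact Or.inr (Or.inl ⟨hz, h1⟩)
  · exact Or.inr (Or.inr ⟨hz, H.enter_root z x hz hx hone⟩)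

/-- the two children of the centre whose blocks contain the ends of a far arc -/
private theorem s7_two (x c m : V) (hx : S.N x) (hf : H.fam x = Sum.inr c) (hc : H.hm c = some m)
    (h1 : m ≠ x) (h2 : m ≠ H.ot x) :
    ∃ w, S.N w ∧ H.fam w = Sum.inr c ∧ H.hm w = some m ∧ S.ix c < S.ix w ∧
      ((Desc H.hm c x ∧ Desc H.hm w (H.ot x)) ∨ (Desc H.hm w x ∧ Desc H.hm c (H.ot x))) := by
  obtain ⟨w, hw, hfw, hwm, hne, hd⟩ := H.second_child c m x hx hf hc h1 h2
  obtain ⟨hcN, -, m', hm', -, -, h3⟩ := H.fam_inr c x hx hf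
  obtain ⟨-, hlt, -⟩ := H.fam_inr c w hw hfw
  refine ⟨w, hw, hfw, hwm, hlt, ?_⟩
  rcases h3 with ⟨h4, h5⟩ | ⟨h4, h5⟩
  · left
    refine ⟨h4, ?_⟩
    rcases hd with h | h
    · exact (H.s7_sib_disj hc hwm (Ne.symm hne) h4 h).elim
    · exact h
  · right
    refine ⟨?_, h5⟩
    rcases hd with h | h
    · exact h
    · exact (H.s7_sib_disj hc hwm (Ne.symm hne) h5 h).elim

/-- younger siblings are on one side of an older sibling -/
private theorem s7_side (hB : ∀ x, S.N x → S.ix x < B) (hτ : FOrd (Mem S) H.hm (H.off B) τ)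
    {c c' m p p' : V} (hc : H.hm c = some m) (hc' : H.hm c' = some m) (hi : S.ix c < S.ix c')
    (hp : Mem S p) (hp' : Mem S p') (h1 : Desc H.hm c p) (h2 : Desc H.hm c' p') :
    (H.after c → τ p' < τ p) ∧ (¬ H.after c → τ p < τ p') := by
  obtain ⟨hcN, -, -, -⟩ := H.s7_hm hc
  obtain ⟨hcN', -, -, -⟩ := H.s7_hm hc'
  have hne : c ≠ c' := by rintro rfl; omega
  have hb := hB c hcN
  have hb' := hB c' hcN'
  have hcc : ¬ Desc H.hm c p' := fun h => H.s7_sib_disj hc hc' hne h h2
  have hcc' : ¬ Desc H.hm c' c := fun h =>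
    H.s7_sib_disj hc hc' hne Relation.ReflTransGen.refl h
  have e1 := hτ.blk c p p' (Or.inl hcN) hp hp' h1 hcc
  have e2 := hτ.blk c' p' c (Or.inl hcN') hp' (Or.inl hcN) h2 hcc'
  constructor
  · intro ha
    have ho : H.off B c' < H.off B c := by
      unfold off
      rw [if_pos hcN, if_pos hcN', if_pos ha]
      split_ifs <;> push_cast <;> omega
    have h3 := hτ.sib c' c (Or.inl hcN') (Or.inl hcN) (by rw [hc, hc']) ho
    exact e1.2.2 (e2.1.2 h3)
  · intro ha
    have ho : H.off B c < H.off B c' := by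
      unfold off
      rw [if_pos hcN, if_pos hcN', if_neg ha]
      split_ifs <;> push_cast <;> omega
    have h3 := hτ.sib c c' (Or.inl hcN) (Or.inl hcN') (by rw [hc, hc']) ho
    exact e1.1.2 (e2.2.2 h3)


/-- younger pair of siblings: both ends of the far arc of `x'` are on one side of every end of
the far arc of `x` -/
private theorem s7_same (hB : ∀ x, S.N x → S.ix x < B) (hτ : FOrd (Mem S) H.hm (H.off B) τ)
    (x x' c c' m : V) (hx : S.N x) (hx' : S.N x') (hf : H.fam x = Sum.inr c)
    (hf' : H.fam x' = Sum.inr c') (hc : H.hm c = some m) (hc' : H.hm c' = some m)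
    (h1 : m ≠ x) (h2 : m ≠ H.ot x) (h1' : m ≠ x') (h2' : m ≠ H.ot x')
    (hi : S.ix c < S.ix c') (hk : H.fam c' ≠ Sum.inr c)
    (hfan : ∃ s, FanFrom S m s c ∧ FanFrom S m s c') (p : V) (hp : p = x ∨ p = H.ot x) :
    (τ x' < τ p ∧ τ (H.ot x') < τ p) ∨ (τ p < τ x' ∧ τ p < τ (H.ot x')) := by
  obtain ⟨w, hw, hfw, hwm, hcw, hd⟩ := H.s7_two x c m hx hf hc h1 h2
  obtain ⟨w', hw', hfw', hwm', hcw', hd'⟩ := H.s7_two x' c' m hx' hf' hc' h1' h2'
  obtain ⟨s, hs, hs'⟩ := hfan
  obtain ⟨s1, hs1⟩ := H.fanFrom_exists m w hw hwm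
  have hcN' := (H.s7_hm hc').1
  have hne : w ≠ c' := by
    rintro rfl
    exact hk hfw
  have h3 := (H.consec m c w c' s s1 hw hcN' hc hwm hc' hfw hs hs' hs1).2
  have hwc' : S.ix w < S.ix c' := by
    rcases lt_trichotomy (S.ix w) (S.ix c') with h | h | h
    · exact h
    · exact absurd (S.ix_inj w c' hw hcN' h) hne
    · exact absurd ⟨hi, h⟩ h3
  have hxm : Mem S x := Or.inl hx
  have hxm' : Mem S x' := Or.inl hx'
  have hom := H.s7_ot_mem hx
  have hom' := H.s7_ot_mem hx'
  -- every end of `e` is in the block of an older child `a`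
  have hq : ∃ a, H.hm a = some m ∧ S.ix a < S.ix c' ∧ Desc H.hm a p ∧ Mem S p := by
    rcases hd with ⟨d1, d2⟩ | ⟨d1, d2⟩ <;> rcases hp with rfl | rfl
    · exact ⟨c, hc, hi, d1, hxm⟩
    · exact ⟨w, hwm, hwc', d2, hom⟩
    · exact ⟨w, hwm, hwc', d1, hxm⟩
    · exact ⟨c, hc, hi, d2, hom⟩
  obtain ⟨a, ha, hac, hap, hpm⟩ := hq
  have hac' : S.ix a < S.ix w' := by omega
  by_cases haf : H.after a
  · left
    rcases hd' with ⟨d1, d2⟩ | ⟨d1, d2⟩
    · exact ⟨(H.s7_side hB hτ ha hc' hac hpm hxm' hap d1).1 haf,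
        (H.s7_side hB hτ ha hwm' hac' hpm hom' hap d2).1 haf⟩
    · exact ⟨(H.s7_side hB hτ ha hwm' hac' hpm hxm' hap d1).1 haf,
        (H.s7_side hB hτ ha hc' hac hpm hom' hap d2).1 haf⟩
  · right
    rcases hd' with ⟨d1, d2⟩ | ⟨d1, d2⟩
    · exact ⟨(H.s7_side hB hτ ha hc' hac hpm hxm' hap d1).2 haf,
        (H.s7_side hB hτ ha hwm' hac' hpm hom' hap d2).2 haf⟩
    · exact ⟨(H.s7_side hB hτ ha hwm' hac' hpm hxm' hap d1).2 haf,
        (H.s7_side hB hτ ha hc' hac hpm hom' hap d2).2 haf⟩

omit [Fintype V] in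
private theorem s7_fan_fst {m x : V} {s : Fin 3 ⊕ (V × Bool)} (h : FanFrom S m s x) :
    ∀ y b, s = Sum.inr (y, b) → y = m := by
  induction h with
  | root j x _ _ _ => intro y b h; simp at h
  | own b x _ _ => intro y b' h; simp at h; exact h.1.symm
  | step s y z c _ _ _ _ _ ih => exact ih

/-- encoding of slots -/
private def s7_enc (s : Fin 3 ⊕ (V × Bool)) : Fin 3 ⊕ Bool := Sum.map id Prod.snd s

omit [Fintype V] in
private theorem s7_enc_inj {m x x' : V} {s s' : Fin 3 ⊕ (V × Bool)} (h : FanFrom S m s x)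
    (h' : FanFrom S m s' x') (he : s7_enc s = s7_enc s') : s = s' := by
  rcases s with j | ⟨y, b⟩ <;> rcases s' with j' | ⟨y', b'⟩
  · simp [s7_enc] at he; rw [he]
  · simp [s7_enc] at he
  · simp [s7_enc] at he
  · simp [s7_enc] at he
    rw [s7_fan_fst h y b rfl, s7_fan_fst h' y' b' rfl, he]

/-- the colour data -/
private structure S7Col (H : Homes S) where
  s : V → Fin 3
  k : Fin 3 ⊕ V → Fin 5
  dir : Fin 3 ⊕ V → Fin 3 ⊕ Bool
  s1 : ∀ z m, H.hm z = some m → s z ≠ s m
  s2 : ∀ z m, S.N z → H.cen (H.fam z) = some m → s z ≠ s m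
  k0 : ∀ i j, k (Sum.inl i) = k (Sum.inl j) → i = j
  k1 : ∀ z, S.N z → k (Sum.inr z) ≠ k (H.fam z)
  k2 : ∀ z w, H.hm z = some w → S.N w → k (Sum.inr z) ≠ k (Sum.inr w) ∧
    k (Sum.inr z) ≠ k (H.fam w)
  k3 : ∀ z w, H.hm z = some w → S.Rt w → ∀ j, k (Sum.inr z) ≠ k (Sum.inl j)
  d : ∀ c m t, H.hm c = some m → FanFrom S m t c → dir (Sum.inr c) = s7_enc t

private theorem s7_cen_rk {z m : V} (hz : S.N z) (h : H.cen (H.fam z) = some m) :
    s7_rk S m < s7_rk S z := by
  rcases hf : H.fam z with j | c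
  · rw [hf] at h; simp [cen] at h
  · rw [hf] at h
    simp only [cen] at h
    obtain ⟨hc, hlt, -⟩ := H.fam_inr c z hz hf
    have h1 := H.s7_rk_lt h
    have h2 : s7_rk S c < s7_rk S z := by
      unfold s7_rk
      rw [if_pos hc, if_pos hz]
      omega
    omega

private theorem s7_exists_s : ∃ s : V → Fin 3, (∀ z m, H.hm z = some m → s z ≠ s m) ∧
    (∀ z m, S.N z → H.cen (H.fam z) = some m → s z ≠ s m) := by
  classical
  obtain ⟨s, hs⟩ := exists_greedy (s7_rk S) 2
    (fun z => (H.hm z).toFinset ∪ (if S.N z then (H.cen (H.fam z)).toFinset else ∅)) (by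
      intro z
      refine (Finset.card_union_le _ _).trans ?_
      have h1 : (H.hm z).toFinset.card ≤ 1 := by
        cases H.hm z <;> simp
      have h2 : (if S.N z then (H.cen (H.fam z)).toFinset else ∅).card ≤ 1 := by
        split_ifs
        · cases H.cen (H.fam z) <;> simp
        · simp
      omega) (by
      intro z y hy
      simp only [Finset.mem_union, Option.mem_toFinset, Option.mem_def] at hy
      rcases hy with h | h
      · exact H.s7_rk_lt h
      · split_ifs at h with hz
        · simp only [Option.mem_toFinset, Option.mem_def] at h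
          exact H.s7_cen_rk hz h
        · simp at h)
  refine ⟨s, fun z m h => hs z m ?_, fun z m hz h => hs z m ?_⟩
  · simp [h]
  · simp [h, hz]

/-- rank of a family -/
private noncomputable def s7_rf (S : Skel V) (φ : Fin 3 ⊕ V) : ℕ :=
  match φ with
  | Sum.inl j => j.val
  | Sum.inr z => 3 + s7_rk S z

private theorem s7_fam_rf {z : V} (hz : S.N z) : s7_rf S (H.fam z) < s7_rf S (Sum.inr z) := by
  rcases hf : H.fam z with j | c
  · simp only [s7_rf]
    have := j.isLt
    omega
  · obtain ⟨hc, hlt, -⟩ := H.fam_inr c z hz hf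
    simp only [s7_rf]
    unfold s7_rk
    rw [if_pos hc, if_pos hz]
    omega

private theorem s7_exists_k : ∃ k : Fin 3 ⊕ V → Fin 5,
    (∀ i j, k (Sum.inl i) = k (Sum.inl j) → i = j) ∧
    (∀ z, S.N z → k (Sum.inr z) ≠ k (H.fam z)) ∧
    (∀ z w, H.hm z = some w → S.N w → k (Sum.inr z) ≠ k (Sum.inr w) ∧
      k (Sum.inr z) ≠ k (H.fam w)) ∧
    (∀ z w, H.hm z = some w → S.Rt w → ∀ j, k (Sum.inr z) ≠ k (Sum.inl j)) := by
  classical
  let bad : Fin 3 ⊕ V → Finset (Fin 3 ⊕ V) := fun φ =>
    match φ with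
    | Sum.inl j => (Finset.univ.filter (fun i : Fin 3 => i < j)).image Sum.inl
    | Sum.inr z => if S.N z then ({H.fam z} : Finset (Fin 3 ⊕ V)) ∪
        (match H.hm z with
          | none => ∅
          | some w => if S.N w then {Sum.inr w, H.fam w} else Finset.univ.image Sum.inl) else ∅
  obtain ⟨k, hk⟩ := exists_greedy (s7_rf S) 4 bad (by
      intro φ
      rcases φ with j | z
      · simp only [bad]
        refine Finset.card_image_le.trans ((Finset.card_le_univ _).trans ?_)
        simp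
      · simp only [bad]
        split_ifs with hz
        · refine (Finset.card_union_le _ _).trans ?_
          rw [Finset.card_singleton]
          have : (match H.hm z with
            | none => (∅ : Finset (Fin 3 ⊕ V))
            | some w => if S.N w then {Sum.inr w, H.fam w} else
                Finset.univ.image Sum.inl).card ≤ 3 := by
            rcases H.hm z with _ | w
            · simp
            · simp only
              split_ifs
              · exact Finset.card_le_two.trans (by norm_num)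
              · refine Finset.card_image_le.trans ?_
                simp
          omega
        · simp) (by
      intro φ ψ hψ
      rcases φ with j | z
      · simp only [bad, Finset.mem_image, Finset.mem_filter, Finset.mem_univ, true_and] at hψ
        obtain ⟨i, hi, rfl⟩ := hψ
        exact hi
      · simp only [bad] at hψ
        split_ifs at hψ with hz
        · rw [Finset.mem_union, Finset.mem_singleton] at hψ
          rcases hψ with rfl | hψ
          · exact H.s7_fam_rf hz
          · rcases hm : H.hm z with _ | w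
            · rw [hm] at hψ; simp at hψ
            · rw [hm] at hψ
              simp only at hψ
              have hlt : s7_rf S (Sum.inr w) < s7_rf S (Sum.inr z) := by
                have := H.s7_rk_lt hm
                simp only [s7_rf]; omega
              split_ifs at hψ with hw
              · rw [Finset.mem_insert, Finset.mem_singleton] at hψ
                rcases hψ with rfl | rfl
                · exact hlt
                · exact (H.s7_fam_rf hw).trans hlt
              · simp only [Finset.mem_image, Finset.mem_univ, true_and] at hψ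
                obtain ⟨i, rfl⟩ := hψ
                simp only [s7_rf]
                have := i.isLt
                omega
        · simp at hψ)
  refine ⟨k, ?_, ?_, ?_, ?_⟩
  · intro i j h
    rcases lt_trichotomy i j with h1 | h1 | h1
    · exact absurd h.symm (hk (Sum.inl j) (Sum.inl i) (by simp [bad, h1]))
    · exact h1
    · exact absurd h (hk (Sum.inl i) (Sum.inl j) (by simp [bad, h1]))
  · intro z hz
    exact hk (Sum.inr z) _ (by simp [bad, hz])
  · intro z w h hw
    have hz := (H.s7_hm h).1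
    exact ⟨hk (Sum.inr z) _ (by simp [bad, hz, h, hw]), hk (Sum.inr z) _ (by simp [bad, hz, h, hw])⟩
  · intro z w h hw j
    have hz := (H.s7_hm h).1
    have hw' : ¬ S.N w := fun hn => S.disj w hn hw
    exact hk (Sum.inr z) _ (by simp [bad, hz, h, hw'])

private theorem s7_exists_col : Nonempty (S7Col H) := by
  classical
  obtain ⟨s, s1, s2⟩ := H.s7_exists_s
  obtain ⟨k, k0, k1, k2, k3⟩ := H.s7_exists_k
  let dir : Fin 3 ⊕ V → Fin 3 ⊕ Bool := fun φ =>
    match φ with
    | Sum.inl _ => Sum.inl 0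
    | Sum.inr c => if h : ∃ t : Fin 3 ⊕ (V × Bool), ∃ m, H.hm c = some m ∧ FanFrom S m t c then
        s7_enc h.choose else Sum.inl 0
  refine ⟨⟨s, k, dir, s1, s2, k0, k1, k2, k3, ?_⟩⟩
  intro c m t hm ht
  have hex : ∃ t : Fin 3 ⊕ (V × Bool), ∃ m, H.hm c = some m ∧ FanFrom S m t c := ⟨t, m, hm, ht⟩
  simp only [dir]
  rw [dif_pos hex]
  obtain ⟨m', hm', ht'⟩ := hex.choose_spec
  rw [hm] at hm'
  simp only [Option.some.injEq] at hm'
  subst hm'
  rw [fanFrom_unique m c _ _ ht' ht]

open Classical in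
/-- colour of the far arc of `x` -/
private noncomputable def s7_cf (C : S7Col H) (x : V) :
    Fin 3 ⊕ (Fin 5 × (Fin 3 ⊕ Bool) × Bool) :=
  if h : ∃ m, H.cen (H.fam x) = some m ∧ (m = x ∨ m = H.ot x) then Sum.inl (C.s h.choose)
  else Sum.inr (C.k (H.fam x), C.dir (H.fam x), decide (H.phN x))

open Classical in
private theorem s7_cf_cases (C : S7Col H) (x : V) :
    (∃ m, H.cen (H.fam x) = some m ∧ (m = x ∨ m = H.ot x) ∧ H.s7_cf C x = Sum.inl (C.s m)) ∨
    ((∀ m, H.cen (H.fam x) = some m → m ≠ x ∧ m ≠ H.ot x) ∧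
      H.s7_cf C x = Sum.inr (C.k (H.fam x), C.dir (H.fam x), decide (H.phN x))) := by
  by_cases h : ∃ m, H.cen (H.fam x) = some m ∧ (m = x ∨ m = H.ot x)
  · left
    refine ⟨h.choose, h.choose_spec.1, h.choose_spec.2, ?_⟩
    unfold s7_cf
    rw [dif_pos h]
  · right
    refine ⟨?_, ?_⟩
    · intro m hm
      push Not at h
      exact h m hm
    · unfold s7_cf
      rw [dif_neg h]


/-- an arc that enters the block of the centre `z` of the far arc of `x'` has another colour -/
private theorem s7_conflict (C : S7Col H) (x x' z : V) (hx : S.N x) (hx' : S.N x')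
    (hτ : FOrd (Mem S) H.hm (H.off B) τ)
    (hcol : H.s7_cf C x = H.s7_cf C x') (hz : H.cen (H.fam x') = some z)
    (hcen : ∀ m, H.cen (H.fam x) = some m → Desc H.hm m z ∧ m ≠ z)
    (hcross : ∃ p a b, (p = x ∨ p = H.ot x) ∧ (a = x' ∨ a = H.ot x') ∧ (b = x' ∨ b = H.ot x') ∧
      τ a < τ p ∧ τ p < τ b) : False := by
  obtain ⟨p, a, b, hp, ha, hb, hap, hpb⟩ := hcross
  -- the family of `x'`
  obtain ⟨c', hf'⟩ : ∃ c', H.fam x' = Sum.inr c' := by
    rcases hf : H.fam x' with j | c'
    · rw [hf] at hz; simp [cen] at hz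
    · exact ⟨c', rfl⟩
  have hc' : H.hm c' = some z := by rw [hf'] at hz; exact hz
  obtain ⟨hcN', -, z', hz', d1, d2, -⟩ := H.fam_inr c' x' hx' hf'
  have hzz : z' = z := by rw [hc'] at hz'; simp only [Option.some.injEq] at hz'; exact hz'.symm
  subst hzz
  have hzm : Mem S z' := (H.s7_hm hc').2.2.1
  have ham : Mem S a ∧ Desc H.hm z' a := by
    rcases ha with rfl | rfl
    · exact ⟨Or.inl hx', d1⟩
    · exact ⟨H.s7_ot_mem hx', d2⟩
  have hbm : Mem S b ∧ Desc H.hm z' b := by
    rcases hb with rfl | rfl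
    · exact ⟨Or.inl hx', d1⟩
    · exact ⟨H.s7_ot_mem hx', d2⟩
  have hpm : Mem S p := by
    rcases hp with rfl | rfl
    · exact Or.inl hx
    · exact H.s7_ot_mem hx
  have hzp : Desc H.hm z' p := hτ.conv hzm ham.1 hbm.1 hpm ham.2 hbm.2 hap hpb
  have hor : Desc H.hm z' x ∨ Desc H.hm z' (H.ot x) := by
    rcases hp with rfl | rfl
    · exact Or.inl hzp
    · exact Or.inr hzp
  have hlow := H.s7_low x z' hx hzm hcen hor
  rcases H.s7_cf_cases C x with ⟨m, hm, -, e1⟩ | ⟨hm, e1⟩ <;>
    rcases H.s7_cf_cases C x' with ⟨m', hm', -, e2⟩ | ⟨hm', e2⟩ <;>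
    rw [e1, e2] at hcol
  · simp only [Sum.inl.injEq] at hcol
    rw [hz] at hm'
    simp only [Option.some.injEq] at hm'
    subst hm'
    rcases hlow with ⟨hzN, h⟩ | ⟨hzN, h⟩ | ⟨hzR, j, h⟩
    · rw [h] at hm
      exact C.s1 z' m hm hcol.symm
    · rw [h] at hm
      exact C.s2 z' m hzN hm hcol.symm
    · rw [h] at hm
      simp [cen] at hm
  · simp at hcol
  · simp at hcol
  · simp only [Sum.inr.injEq, Prod.mk.injEq] at hcol
    have hk := hcol.1
    rw [hf'] at hk
    rcases hlow with ⟨hzN, h⟩ | ⟨hzN, h⟩ | ⟨hzR, j, h⟩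
    · rw [h] at hk
      exact (C.k2 c' z' hc' hzN).1 hk.symm
    · rw [h] at hk
      exact (C.k2 c' z' hc' hzN).2 hk.symm
    · rw [h] at hk
      exact C.k3 c' z' hc' hzR j hk.symm

/-- two far arcs with the same colour do not cross -/
private theorem s7_far_far (C : S7Col H) (hB : ∀ x, S.N x → S.ix x < B)
    (hτ : FOrd (Mem S) H.hm (H.off B) τ) (x x' : V) (hx : S.N x) (hx' : S.N x')
    (hcol : H.s7_cf C x = H.s7_cf C x')
    (h1 : τ (H.far x).1 < τ (H.far x').1) (h2 : τ (H.far x').1 < τ (H.far x).2)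
    (h3 : τ (H.far x).2 < τ (H.far x').2) : False := by
  classical
  -- the ends
  have hu : (H.far x).1 = x ∨ (H.far x).1 = H.ot x := by
    rcases H.s7_far hx with h | h <;> rw [h] <;> simp
  have hv : (H.far x).2 = x ∨ (H.far x).2 = H.ot x := by
    rcases H.s7_far hx with h | h <;> rw [h] <;> simp
  have hu' : (H.far x').1 = x' ∨ (H.far x').1 = H.ot x' := by
    rcases H.s7_far hx' with h | h <;> rw [h] <;> simp
  have hv' : (H.far x').2 = x' ∨ (H.far x').2 = H.ot x' := by
    rcases H.s7_far hx' with h | h <;> rw [h] <;> simp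
  -- both crossings
  have cr1 : ∃ p a b, (p = x ∨ p = H.ot x) ∧ (a = x' ∨ a = H.ot x') ∧ (b = x' ∨ b = H.ot x') ∧
      τ a < τ p ∧ τ p < τ b := ⟨_, _, _, hv, hu', hv', h2, h3⟩
  have cr2 : ∃ p a b, (p = x' ∨ p = H.ot x') ∧ (a = x ∨ a = H.ot x) ∧ (b = x ∨ b = H.ot x) ∧
      τ a < τ p ∧ τ p < τ b := ⟨_, _, _, hu', hu, hv, h1, h2⟩
  -- no common end
  have hnc : (H.far x).1 ≠ (H.far x').1 ∧ (H.far x).2 ≠ (H.far x').2 ∧
      (H.far x).1 ≠ (H.far x').2 ∧ (H.far x).2 ≠ (H.far x').1 := by
    refine ⟨fun h => ?_, fun h => ?_, fun h => ?_, fun h => ?_⟩ <;>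
      have := congrArg τ h <;> omega
  have hnc2 : ∀ m, (m = x ∨ m = H.ot x) → (m = x' ∨ m = H.ot x') → False := by
    intro m hm hm'
    obtain ⟨n1, n2, n3, n4⟩ := hnc
    have e1 : m = (H.far x).1 ∨ m = (H.far x).2 := by
      rcases H.s7_far hx with h | h <;> rw [h]
      · exact hm
      · exact hm.symm
    have e2 : m = (H.far x').1 ∨ m = (H.far x').2 := by
      rcases H.s7_far hx' with h | h <;> rw [h]
      · exact hm'
      · exact hm'.symm
    rcases e1 with e1 | e1 <;> rcases e2 with e2 | e2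
    · exact n1 (e1 ▸ e2)
    · exact n3 (e1 ▸ e2)
    · exact n4 (e1 ▸ e2)
    · exact n2 (e1 ▸ e2)
  -- same family
  have same : H.fam x = H.fam x' → (H.phN x ↔ H.phN x') → False := by
    intro hf hph
    by_cases hp : H.phN x
    · have hp' := hph.1 hp
      rcases lt_trichotomy (S.ix x) (S.ix x') with h | h | h
      · have := H.phaseN hB hτ x x' hx hx' hf hp hp' h
        omega
      · have := S.ix_inj x x' hx hx' h
        exact hnc.1 (by rw [this])
      · have := H.phaseN hB hτ x' x hx' hx hf.symm hp' hp h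
        omega
    · have hp' : ¬ H.phN x' := fun h => hp (hph.2 h)
      rcases H.phaseS x x' hx hx' hf hp hp' with h | h | h | h
      · exact hnc.1 h
      · exact hnc.2.1 h
      · exact hnc.2.2.1 h
      · exact hnc.2.2.2 h
  -- the families
  have hcen_none : ∀ y, S.N y → H.cen (H.fam y) = none → ∃ j, H.fam y = Sum.inl j := by
    intro y hy h
    rcases hf : H.fam y with j | c
    · exact ⟨j, rfl⟩
    · obtain ⟨-, -, m, hm, -⟩ := H.fam_inr c y hy hf
      rw [hf] at h
      simp only [cen] at h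
      rw [hm] at h
      simp at h
  have hcen_some : ∀ y m, H.cen (H.fam y) = some m → ∃ c, H.fam y = Sum.inr c ∧
      H.hm c = some m := by
    intro y m h
    rcases hf : H.fam y with j | c
    · rw [hf] at h; simp [cen] at h
    · rw [hf] at h
      exact ⟨c, rfl, h⟩
  rcases hm : H.cen (H.fam x) with _ | m <;> rcases hm' : H.cen (H.fam x') with _ | m'
  · -- no centres
    obtain ⟨j, hj⟩ := hcen_none x hx hm
    obtain ⟨j', hj'⟩ := hcen_none x' hx' hm'
    rcases H.s7_cf_cases C x with ⟨m, hm1, -, e1⟩ | ⟨-, e1⟩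
    · rw [hm] at hm1; simp at hm1
    rcases H.s7_cf_cases C x' with ⟨m, hm1, -, e2⟩ | ⟨-, e2⟩
    · rw [hm'] at hm1; simp at hm1
    rw [e1, e2] at hcol
    simp only [Sum.inr.injEq, Prod.mk.injEq, decide_eq_decide] at hcol
    have := C.k0 j j' (by rw [← hj, ← hj']; exact hcol.1)
    exact same (by rw [hj, hj', this]) hcol.2.2
  · exact H.s7_conflict C x x' m' hx hx' hτ hcol hm' (by intro m h; rw [hm] at h; simp at h) cr1
  · exact H.s7_conflict C x' x m hx' hx hτ hcol.symm hm (by intro m h; rw [hm'] at h; simp at h)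
      cr2
  · obtain ⟨c, hf, hc⟩ := hcen_some x m hm
    obtain ⟨c', hf', hc'⟩ := hcen_some x' m' hm'
    by_cases hmm : m = m'
    · subst hmm
      rcases H.s7_cf_cases C x with ⟨m1, hm1, hs1, e1⟩ | ⟨hs1, e1⟩ <;>
        rcases H.s7_cf_cases C x' with ⟨m2, hm2, hs2, e2⟩ | ⟨hs2, e2⟩ <;>
        rw [e1, e2] at hcol
      · rw [hm] at hm1
        rw [hm'] at hm2
        simp only [Option.some.injEq] at hm1 hm2
        subst hm1 hm2
        exact hnc2 _ hs1 hs2
      · simp at hcol
      · simp at hcol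
      · simp only [Sum.inr.injEq, Prod.mk.injEq, decide_eq_decide] at hcol
        obtain ⟨hk, hd, hp⟩ := hcol
        by_cases hcc : c = c'
        · exact same (by rw [hf, hf', hcc]) hp
        have hcN := (H.s7_hm hc).1
        have hcN' := (H.s7_hm hc').1
        obtain ⟨t, ht⟩ := H.fanFrom_exists m c hcN hc
        obtain ⟨t', ht'⟩ := H.fanFrom_exists m c' hcN' hc'
        have htt : t = t' := by
          refine s7_enc_inj ht ht' ?_
          rw [← C.d c m t hc ht, ← C.d c' m t' hc' ht', ← hf, ← hf']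
          exact hd
        subst htt
        obtain ⟨a1, a2⟩ := hs1 m hm
        obtain ⟨b1, b2⟩ := hs2 m hm'
        rcases lt_trichotomy (S.ix c) (S.ix c') with h | h | h
        · have hkc : H.fam c' ≠ Sum.inr c := by
            intro h'
            apply C.k1 c' hcN'
            rw [h', ← hf', ← hf]
            exact hk.symm
          have := H.s7_same hB hτ x x' c c' m hx hx' hf hf' hc hc' a1 a2 b1 b2 h hkc
            ⟨t, ht, ht'⟩ (H.far x).2 hv
          rcases hu' with e | e <;> rcases hv' with e' | e' <;> rw [e] at h2 <;> rw [e'] at h3 <;>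
            omega
        · exact hcc (S.ix_inj c c' hcN hcN' h)
        · have hkc : H.fam c ≠ Sum.inr c' := by
            intro h'
            apply C.k1 c hcN
            rw [h', ← hf', ← hf]
            exact hk
          have := H.s7_same hB hτ x' x c' c m hx' hx hf' hf hc' hc b1 b2 a1 a2 h hkc
            ⟨t, ht', ht⟩ (H.far x').1 hu'
          rcases hu with e | e <;> rcases hv with e' | e' <;> rw [e] at h1 <;> rw [e'] at h2 <;>
            omega
    · -- different centres
      obtain ⟨-, -, z, hz, d1, d2, -⟩ := H.fam_inr c x hx hf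
      have hzm : z = m := by rw [hc] at hz; simp only [Option.some.injEq] at hz; exact hz.symm
      subst hzm
      obtain ⟨-, -, z', hz', d1', d2', -⟩ := H.fam_inr c' x' hx' hf'
      have hzm' : z' = m' := by
        rw [hc'] at hz'; simp only [Option.some.injEq] at hz'; exact hz'.symm
      subst hzm'
      have hmem' : Mem S z' := (H.s7_hm hc').2.2.1
      have eu' : Mem S (H.far x').1 ∧ Desc H.hm z' (H.far x').1 := by
        rcases hu' with e | e <;> rw [e]
        · exact ⟨Or.inl hx', d1'⟩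
        · exact ⟨H.s7_ot_mem hx', d2'⟩
      have ev' : Mem S (H.far x').2 ∧ Desc H.hm z' (H.far x').2 := by
        rcases hv' with e | e <;> rw [e]
        · exact ⟨Or.inl hx', d1'⟩
        · exact ⟨H.s7_ot_mem hx', d2'⟩
      have ev : Mem S (H.far x).2 ∧ Desc H.hm z (H.far x).2 := by
        rcases hv with e | e <;> rw [e]
        · exact ⟨Or.inl hx, d1⟩
        · exact ⟨H.s7_ot_mem hx, d2⟩
      have hv2 : Desc H.hm z' (H.far x).2 :=
        hτ.conv hmem' eu'.1 ev'.1 ev.1 eu'.2 ev'.2 h2 h3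
      rcases desc_or ev.2 hv2 with h | h
      · exact H.s7_conflict C x x' z' hx hx' hτ hcol hm' (by
          intro m h'; rw [hm] at h'; simp only [Option.some.injEq] at h'; subst h'
          exact ⟨h, hmm⟩) cr1
      · exact H.s7_conflict C x' x z hx' hx hτ hcol.symm hm (by
          intro m h'; rw [hm'] at h'; simp only [Option.some.injEq] at h'; subst h'
          exact ⟨h, Ne.symm hmm⟩) cr2

/-- two near arcs do not cross -/
private theorem s7_near_near (hτ : FOrd (Mem S) H.hm (H.off B) τ) (x x' : V) (hx : S.N x)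
    (hx' : S.N x')
    (h1 : τ (H.near x).1 < τ (H.near x').1) (h2 : τ (H.near x').1 < τ (H.near x).2)
    (h3 : τ (H.near x).2 < τ (H.near x').2) : False := by
  obtain ⟨m, hm, hn⟩ := H.s7_near hx
  obtain ⟨m', hm', hn'⟩ := H.s7_near hx'
  have mm := (H.s7_hm hm).2.2.1
  have mm' := (H.s7_hm hm').2.2.1
  have d := H.s7_desc_one hm
  have d' := H.s7_desc_one hm'
  have r : Desc H.hm m m := Relation.ReflTransGen.refl
  have r' : Desc H.hm m' m' := Relation.ReflTransGen.refl
  -- the home of `x'` is in the block of the home of `x`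
  have e1 : Desc H.hm m (H.near x').1 := by
    rcases hn with h | h <;> rcases hn' with h' | h' <;> rw [h] at h1 h2 <;> rw [h'] at h1 h2 ⊢
    · exact hτ.conv mm (Or.inl hx) mm (Or.inl hx') d r h1 h2
    · exact hτ.conv mm (Or.inl hx) mm mm' d r h1 h2
    · exact hτ.conv mm mm (Or.inl hx) (Or.inl hx') r d h1 h2
    · exact hτ.conv mm mm (Or.inl hx) mm' r d h1 h2
  have e2 : Desc H.hm m' (H.near x).2 := by
    rcases hn with h | h <;> rcases hn' with h' | h' <;> rw [h'] at h2 h3 <;> rw [h] at h2 h3 ⊢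
    · exact hτ.conv mm' (Or.inl hx') mm' mm d' r' h2 h3
    · exact hτ.conv mm' mm' (Or.inl hx') mm r' d' h2 h3
    · exact hτ.conv mm' (Or.inl hx') mm' (Or.inl hx) d' r' h2 h3
    · exact hτ.conv mm' mm' (Or.inl hx') (Or.inl hx) r' d' h2 h3
  have e1' : Desc H.hm m m' := by
    rcases hn' with h' | h'
    · rw [h'] at e1
      simp only at e1
      by_cases hmx : m = x'
      · exfalso
        rcases hn with h | h <;> rw [h] at h1 h2 <;> rw [h'] at h1 h2 <;> simp only at h1 h2
        · rw [hmx] at h2; omega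
        · rw [hmx] at h1; omega
      · exact H.s7_desc_up e1 hmx hm'
    · rw [h'] at e1; exact e1
  have e2' : Desc H.hm m' m := by
    rcases hn with h | h
    · rw [h] at e2; exact e2
    · rw [h] at e2
      simp only at e2
      by_cases hmx : m' = x
      · exfalso
        rcases hn' with h' | h' <;> rw [h] at h2 h3 <;> rw [h'] at h2 h3 <;> simp only at h2 h3
        · rw [hmx] at h3; omega
        · rw [hmx] at h2; omega
      · exact H.s7_desc_up e2 hmx hm
  have hmm := H.s7_anti e1' e2'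
  subst hmm
  rcases hn with h | h <;> rcases hn' with h' | h' <;> rw [h] at h1 h2 h3 <;>
    rw [h'] at h1 h2 h3 <;> simp only at h1 h2 h3 <;> omega

end Homes

/-- task S7 -/
theorem skel_layout : ∃ K : ℕ, ∀ (V : Type) [Fintype V] (S : Skel V), Nonempty (Homes S) →
    ∃ (τ : V → ℤ) (c : V → V → Fin K),
      (∀ x y, (S.N x ∨ S.Rt x) → (S.N y ∨ S.Rt y) → τ x = τ y → x = y) ∧
      (∀ u v, S.SArc u v → τ u < τ v) ∧
      (∀ u v u' v', S.SArc u v → S.SArc u' v' → c u v = c u' v' →
        ¬ (τ u < τ u' ∧ τ u' < τ v ∧ τ v < τ v')) := by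
  classical
  refine ⟨Fintype.card (Option (Option (Fin 3 ⊕ (Fin 5 × (Fin 3 ⊕ Bool) × Bool)))), ?_⟩
  intro V _ S hH
  obtain ⟨H⟩ := hH
  obtain ⟨B, hB⟩ : ∃ B : ℕ, ∀ x, S.N x → S.ix x < B := by
    refine ⟨(∑ x, S.ix x) + 1, fun x _ => ?_⟩
    have := Finset.single_le_sum (f := fun x => S.ix x) (fun _ _ => Nat.zero_le _)
      (Finset.mem_univ x)
    omega
  obtain ⟨τ, hτ⟩ := H.exists_tau hB
  obtain ⟨-, harc⟩ := H.par_lt hB hτ
  obtain ⟨C⟩ := H.s7_exists_col
  let c0 : V → V → Option (Option (Fin 3 ⊕ (Fin 5 × (Fin 3 ⊕ Bool) × Bool))) := fun u v =>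
    if h : ∃ x, S.N x ∧ H.far x = (u, v) then some (some (H.s7_cf C h.choose))
    else if ∃ x, S.N x ∧ H.near x = (u, v) then some none else none
  have hc0 : ∀ u v, S.SArc u v →
      (∃ x, S.N x ∧ H.far x = (u, v) ∧ c0 u v = some (some (H.s7_cf C x))) ∨
      (∃ x, S.N x ∧ H.near x = (u, v) ∧ c0 u v = some none) ∨
      ((∃ j, u = S.e0 j ∧ v = S.e1 j) ∧ c0 u v = none) := by
    intro u v huv
    by_cases h1 : ∃ x, S.N x ∧ H.far x = (u, v)
    · left
      refine ⟨h1.choose, h1.choose_spec.1, h1.choose_spec.2, ?_⟩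
      simp only [c0]
      rw [dif_pos h1]
    · right
      by_cases h2 : ∃ x, S.N x ∧ H.near x = (u, v)
      · left
        obtain ⟨x, hx, hxn⟩ := h2
        refine ⟨x, hx, hxn, ?_⟩
        simp only [c0]
        rw [dif_neg h1, if_pos ⟨x, hx, hxn⟩]
      · right
        refine ⟨?_, by simp only [c0]; rw [dif_neg h1, if_neg h2]⟩
        rcases huv with h | ⟨x, hx, hb⟩
        · exact h
        · exfalso
          have key : H.far x = (u, v) ∨ H.near x = (u, v) := by
            unfold Homes.far Homes.near ends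
            unfold Birth at hb
            cases hh : H.home x <;> cases hk : S.kind x <;> simp only [hk] at hb <;>
              rcases hb with ⟨rfl, rfl⟩ | ⟨rfl, rfl⟩ <;> simp
          rcases key with h | h
          · exact h1 ⟨x, hx, h⟩
          · exact h2 ⟨x, hx, h⟩
  refine ⟨τ, fun u v => Fintype.equivFin _ (c0 u v), hτ.inj, harc, ?_⟩
  intro u v u' v' huv huv' hcol hcr
  have hcol' : c0 u v = c0 u' v' := (Fintype.equivFin _).injective hcol
  obtain ⟨h1, h2, h3⟩ := hcr
  rcases hc0 u v huv with ⟨x, hx, hf, e⟩ | ⟨x, hx, hf, e⟩ | ⟨⟨j, rfl, rfl⟩, e⟩ <;>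
    rcases hc0 u' v' huv' with ⟨x', hx', hf', e'⟩ | ⟨x', hx', hf', e'⟩ | ⟨⟨j', rfl, rfl⟩, e'⟩ <;>
    rw [e, e'] at hcol'
  · simp only [Option.some.injEq] at hcol'
    have := H.s7_far_far C hB hτ x x' hx hx' hcol'
    rw [hf, hf'] at this
    exact this h1 h2 h3
  · simp at hcol'
  · simp at hcol'
  · simp at hcol'
  · have := H.s7_near_near hτ x x' hx hx'
    rw [hf, hf'] at this
    exact this h1 h2 h3
  · simp at hcol'
  · simp at hcol'
  · simp at hcol'
  · have key : ∀ a b, S.Rt a → S.Rt b → τ a < τ b → S.rpos a < S.rpos b := by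
      intro a b ha hb hab
      have hoff : ∀ y, S.Rt y → H.off B y = S.rpos y := by
        intro y hy
        unfold Homes.off
        rw [if_neg (fun hn => S.disj y hn hy)]
      rcases lt_trichotomy (S.rpos a) (S.rpos b) with h | h | h
      · exact h
      · have := S.rpos_inj a b ha hb h
        rw [this] at hab; omega
      · have := hτ.sib b a (Or.inr hb) (Or.inr ha)
          (by rw [H.s7_hm_root ha, H.s7_hm_root hb]) (by rw [hoff a ha, hoff b hb]; exact h)
        omega
    exact S.root_nc j j' ⟨key _ _ (S.e_rt j).1 (S.e_rt j').1 h1,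
      key _ _ (S.e_rt j').1 (S.e_rt j).2 h2, key _ _ (S.e_rt j).2 (S.e_rt j').2 h3⟩

end UP2
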