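import Pool.Agent.Lib.MP_20105c_co.Defs2

set_option autoImplicit false

/-!
# The nest of a drawing (task R7)
-/

namespace UP2

namespace TreeNest

variable {V : Type} {G : G2 V}

/-- the triangle of `y` -/
theorem tri (y : V) (hy : G.nr y) : Tri G.arc (G.ca y) (G.cb y) (G.cc y) := by
  have hp := G.par y hy.1 hy.2
  have hb : ∀ u v, Birth G.lo G.hi G.kind y u v → G.arc u v :=
    fun u v h => (G.arc_iff u v).2 (Or.inr ⟨y, hy, h⟩)
  unfold Tri Birth G2.ca G2.cb G2.cc at *
  cases hk : G.kind y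
  · simp only [hk] at hb
    exact ⟨hp, hb _ _ (Or.inr ⟨rfl, rfl⟩), hb _ _ (Or.inl ⟨rfl, rfl⟩)⟩
  · simp only [hk] at hb
    exact ⟨hb _ _ (Or.inl ⟨rfl, rfl⟩), hp, hb _ _ (Or.inr ⟨rfl, rfl⟩)⟩
  · simp only [hk] at hb
    exact ⟨hb _ _ (Or.inl ⟨rfl, rfl⟩), hb _ _ (Or.inr ⟨rfl, rfl⟩), hp⟩

theorem ht_ab (y : V) (hy : G.nr y) : G.ht (G.ca y) < G.ht (G.cb y) := G.ht_lt _ _ (tri y hy).1

theorem ht_bc (y : V) (hy : G.nr y) : G.ht (G.cb y) < G.ht (G.cc y) := G.ht_lt _ _ (tri y hy).2.1

/-- the top corner of a contained triangle with the same middle vertex -/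
theorem top_eq (E : Emb G) (y y' : V) (h : E.Sub y y') (hb : G.cb y = G.cb y')
    (hn : ¬ E.In (G.cc y) y') : G.cc y = G.cc y' := by
  obtain ⟨n1, n2⟩ := E.sub_nr y y' h
  have a1 := ht_ab y n1
  have a2 := ht_bc y n1
  have b1 := ht_ab y' n2
  have b2 := ht_bc y' n2
  rcases E.sub_corner y y' (G.cc y) h (Or.inr (Or.inr rfl)) with h3 | h3 | h3 | h3
  · exact absurd h3 hn
  · rw [h3, hb] at a2; exact absurd (lt_trans b1 a2) (lt_irrefl _)
  · rw [h3, hb] at a2; exact absurd a2 (lt_irrefl _)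
  · exact h3

/-- the bottom corner of a contained triangle with the same middle vertex -/
theorem bot_eq (E : Emb G) (y y' : V) (h : E.Sub y y') (hb : G.cb y = G.cb y')
    (hn : ¬ E.In (G.ca y) y') : G.ca y = G.ca y' := by
  obtain ⟨n1, n2⟩ := E.sub_nr y y' h
  have a1 := ht_ab y n1
  have a2 := ht_bc y n1
  have b1 := ht_ab y' n2
  have b2 := ht_bc y' n2
  rcases E.sub_corner y y' (G.ca y) h (Or.inl rfl) with h3 | h3 | h3 | h3
  · exact absurd h3 hn
  · exact h3
  · rw [h3, hb] at a1; exact absurd a1 (lt_irrefl _)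
  · rw [h3, hb] at a1; exact absurd (lt_trans a1 b2) (lt_irrefl _)

/-- the layout property of a skeleton -/
def Lay {K : ℕ} (S : Skel V) (τ : V → ℤ) (c : V → V → Fin K) : Prop :=
  (∀ x y, (S.N x ∨ S.Rt x) → (S.N y ∨ S.Rt y) → τ x = τ y → x = y) ∧
  (∀ u v, S.SArc u v → τ u < τ v) ∧
  (∀ u v u' v', S.SArc u v → S.SArc u' v' → c u v = c u' v' →
    ¬ (τ u < τ u' ∧ τ u' < τ v ∧ τ v < τ v'))

/-- The nest of a drawing, from the components. -/
theorem nest_of_emb [Fintype V] (E : Emb G) {K : ℕ}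
    (hlay : ∀ S : Skel V, S.C1 → ∃ (τ : V → ℤ) (c : V → V → Fin K), Lay S τ c)
    (pc : V → Fin 3) (hpc : ∀ u v, G.arc u v → pc u ≠ pc v)
    (reg : V → Option V)
    (h1 : ∀ x y, reg x = some y ↔ (E.In x y ∧ ∀ y', E.In x y' → E.Sub y y'))
    (h2 : ∀ x, reg x = none ↔ ∀ y, ¬ E.In x y)
    (hcls : ∀ u v, G.arc u v →
      reg u = reg v ∨ (∃ y, reg v = some y ∧ (u = G.ca y ∨ u = G.cb y)) ∨
      (∃ y, reg u = some y ∧ (v = G.cb y ∨ v = G.cc y)))
    (hlev : ∃ lev : V → ℕ,
      (∀ y y', G.nr y → G.nr y' → G.cb y = G.cb y' → lev y = lev y' → y = y') ∧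
      (∀ y y', G.nr y → G.nr y' → G.cb y = G.cb y' → E.side y = E.side y' →
        (E.Sub y y' ↔ lev y ≤ lev y')))
    (hreg : ∀ y0 : V, G.nr y0 → ∃ S : Skel V, S.C1 ∧
      (∀ x, S.N x ↔ reg x = some y0) ∧ (∀ x, S.Rt x ↔ G.corner y0 x) ∧
      (∀ u v, G.arc u v → (reg u = some y0 ∨ reg v = some y0) →
        (reg u = some y0 ∨ G.corner y0 u) → (reg v = some y0 ∨ G.corner y0 v) → S.SArc u v))
    (htop : ∃ S : Skel V, S.C1 ∧
      (∀ x, S.N x ↔ reg x = none ∧ G.nr x) ∧ (∀ x, S.Rt x ↔ x = G.r0 ∨ x = G.r1) ∧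
      (∀ u v, G.arc u v → reg u = none → reg v = none → S.SArc u v)) :
    ∃ Q : Nest V K, Q.arc = G.arc := by
  classical
  obtain ⟨lev, hlev1, hlev2⟩ := hlev
  -- the layouts
  have key : ∀ ρ : Option V, ∃ (τ : V → ℤ) (c : V → V → Fin K),
      (∀ x x', reg x = ρ → reg x' = ρ → τ x = τ x' → x = x') ∧
      (∀ x y, ρ = some y → reg x = ρ → τ x ≠ τ (G.cb y)) ∧
      (∀ u v, G.arc u v → reg u = ρ → reg v = ρ → τ u < τ v) ∧
      (∀ u y, ρ = some y → reg u = ρ → G.arc u (G.cb y) → τ u < τ (G.cb y)) ∧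
      (∀ v y, ρ = some y → reg v = ρ → G.arc (G.cb y) v → τ (G.cb y) < τ v) ∧
      (∀ u v u' v', G.arc u v → G.arc u' v' → reg u = ρ → reg v = ρ → reg u' = ρ → reg v' = ρ →
        c u v = c u' v' → ¬ (τ u < τ u' ∧ τ u' < τ v ∧ τ v < τ v')) := by
    intro ρ
    rcases ρ with _ | y0
    · obtain ⟨S, hC, hN, hR, hA⟩ := htop
      obtain ⟨τ, c, t1, t2, t3⟩ := hlay S hC
      have hmem : ∀ x, reg x = none → (S.N x ∨ S.Rt x) := by
        intro x hx
        by_cases h : G.nr x
        · exact Or.inl ((hN x).2 ⟨hx, h⟩)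
        · right
          rw [hR]
          unfold G2.nr at h
          tauto
      refine ⟨τ, c, ?_, ?_, ?_, ?_, ?_, ?_⟩
      · intro x x' hx hx' h
        exact t1 x x' (hmem x hx) (hmem x' hx') h
      · intro x y h; cases h
      · intro u v h hu hv
        exact t2 u v (hA u v h hu hv)
      · intro x y h; cases h
      · intro x y h; cases h
      · intro u v u' v' h h' hu hv hu' hv' hc
        exact t3 u v u' v' (hA u v h hu hv) (hA u' v' h' hu' hv') hc
    · by_cases hy : G.nr y0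
      · obtain ⟨S, hC, hN, hR, hA⟩ := hreg y0 hy
        obtain ⟨τ, c, t1, t2, t3⟩ := hlay S hC
        have hbc : G.corner y0 (G.cb y0) := Or.inr (Or.inl rfl)
        refine ⟨τ, c, ?_, ?_, ?_, ?_, ?_, ?_⟩
        · intro x x' hx hx' h
          exact t1 x x' (Or.inl ((hN x).2 hx)) (Or.inl ((hN x').2 hx')) h
        · intro x y h hx he
          cases h
          have hxb := t1 x (G.cb y0) (Or.inl ((hN x).2 hx)) (Or.inr ((hR _).2 hbc)) he
          exact E.in_not_corner x y0 ((h1 x y0).1 hx).1 (hxb ▸ hbc)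
        · intro u v h hu hv
          exact t2 u v (hA u v h (Or.inl hu) (Or.inl hu) (Or.inl hv))
        · intro u y h hu ha
          cases h
          exact t2 u _ (hA u _ ha (Or.inl hu) (Or.inl hu) (Or.inr hbc))
        · intro v y h hv ha
          cases h
          exact t2 _ v (hA _ v ha (Or.inr hv) (Or.inr hbc) (Or.inl hv))
        · intro u v u' v' h h' hu hv hu' hv' hc
          exact t3 u v u' v' (hA u v h (Or.inl hu) (Or.inl hu) (Or.inl hv))
            (hA u' v' h' (Or.inl hu') (Or.inl hu') (Or.inl hv')) hc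
      · have hno : ∀ x, reg x ≠ some y0 := by
          intro x hx
          exact hy (E.in_nr x y0 ((h1 x y0).1 hx).1)
        obtain ⟨S, hC, -⟩ := htop
        obtain ⟨τ, c, -⟩ := hlay S hC
        refine ⟨τ, c, ?_, ?_, ?_, ?_, ?_, ?_⟩
        · intro x x' hx; exact absurd hx (hno x)
        · intro x y h hx; exact absurd hx (hno x)
        · intro u v h hx; exact absurd hx (hno u)
        · intro u v h hx; exact absurd hx (hno u)
        · intro u v h hx; exact absurd hx (hno u)
        · intro u v u' v' _ _ hx; exact absurd hx (hno u)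
  choose τ c k1 k2 k3 k4 k5 k6 using key
  have hnr : ∀ x y, reg x = some y → G.nr y := fun x y h => E.in_nr x y ((h1 x y).1 h).1
  have hin : ∀ x y, reg x = some y → E.In x y := fun x y h => ((h1 x y).1 h).1
  have hmin : ∀ x y y', reg x = some y → E.In x y' → E.Sub y y' :=
    fun x y y' h h' => ((h1 x y).1 h).2 y' h'
  -- a vertex in the same region as the middle vertex of a triangle is not inside it
  have notin : ∀ y z, reg z = reg (G.cb y) → ¬ E.In z y := by
    intro y z hz h
    cases hr : reg z with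
    | none => exact (h2 z).1 hr y h
    | some y0 =>
      rw [hr] at hz
      have h4 := E.sub_in y0 y _ (hmin z y0 y hr h) (hin _ _ hz.symm)
      exact E.in_not_corner _ _ h4 (Or.inr (Or.inl rfl))
  refine ⟨{
    arc := G.arc
    reg := reg
    ca := G.ca
    cb := G.cb
    cc := G.cc
    side := E.side
    lev := lev
    rk := fun x => (Finset.univ.filter (fun y => E.In x y)).card
    off := fun x => match reg x with
      | none => τ none x
      | some y => τ (some y) x - τ (some y) (G.cb y)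
    col := fun u v => c (reg u) u v
    pc := pc
    rk_lt := ?_
    cls := hcls
    arcs := ?_
    nomixU := ?_
    nomixD := ?_
    lev_inj := ?_
    uniqU := ?_
    uniqD := ?_
    levU := ?_
    levD := ?_
    levU_lt := ?_
    levD_lt := ?_
    off_ne := ?_
    off_inj := ?_
    off_arc := ?_
    off_neg := ?_
    off_pos := ?_
    col_nc := ?_
    pc_ne := hpc }, rfl⟩
  -- rk_lt
  · intro x y h
    have hlt : ∀ z, G.corner y z → (Finset.univ.filter (fun y => E.In z y)).card <
        (Finset.univ.filter (fun y => E.In x y)).card := by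
      intro z hz
      apply Finset.card_lt_card
      rw [Finset.ssubset_iff_of_subset]
      · refine ⟨y, ?_, ?_⟩
        · simpa using hin x y h
        · simp only [Finset.mem_filter, Finset.mem_univ, true_and]
          intro h3
          exact E.in_not_corner z y h3 hz
      · intro y' hy'
        simp only [Finset.mem_filter, Finset.mem_univ, true_and] at hy' ⊢
        exact E.sub_in y y' x (E.sub_of_in y y' z (hnr x y h) hz hy') (hin x y h)
    exact ⟨hlt _ (Or.inl rfl), hlt _ (Or.inr (Or.inl rfl)), hlt _ (Or.inr (Or.inr rfl))⟩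
  -- arcs
  · intro x y h
    exact ⟨(tri y (hnr x y h)).1, (tri y (hnr x y h)).2.1⟩
  -- nomixU
  · intro x y y' h h' he
    have hs : E.Sub y y' := E.sub_of_in y y' (G.cc y) (hnr x y h) (Or.inr (Or.inr rfl)) (hin _ _ h')
    obtain ⟨n1, n2⟩ := E.sub_nr _ _ hs
    have a1 := ht_ab y n1
    have b1 := ht_ab y' n2
    have b2 := ht_bc y' n2
    rw [he] at a1
    rcases E.sub_corner y y' (G.ca y) hs (Or.inl rfl) with h3 | h3 | h3 | h3
    · exact absurd (E.in_ht _ _ h3).1 (not_lt.2 a1.le)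
    · rw [h3] at a1; exact absurd a1 (lt_irrefl _)
    · rw [h3] at a1; exact absurd (lt_trans a1 b1) (lt_irrefl _)
    · rw [h3] at a1; exact absurd (lt_trans a1 (lt_trans b1 b2)) (lt_irrefl _)
  -- nomixD
  · intro x y y' h h' he
    have hs : E.Sub y y' := E.sub_of_in y y' (G.ca y) (hnr x y h) (Or.inl rfl) (hin _ _ h')
    obtain ⟨n1, n2⟩ := E.sub_nr _ _ hs
    have a2 := ht_bc y n1
    have b1 := ht_ab y' n2
    have b2 := ht_bc y' n2
    rw [he] at a2
    rcases E.sub_corner y y' (G.cc y) hs (Or.inr (Or.inr rfl)) with h3 | h3 | h3 | h3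
    · exact absurd (E.in_ht _ _ h3).2 (not_lt.2 a2.le)
    · rw [h3] at a2; exact absurd (lt_trans a2 (lt_trans b1 b2)) (lt_irrefl _)
    · rw [h3] at a2; exact absurd (lt_trans a2 b2) (lt_irrefl _)
    · rw [h3] at a2; exact absurd a2 (lt_irrefl _)
  -- lev_inj
  · intro x x' y y' h h' hb hl
    exact hlev1 y y' (hnr _ _ h) (hnr _ _ h') hb hl
  -- uniqU
  · intro x x' y y' h h' hb hs r1 r2
    rcases E.mid y y' (hnr _ _ h) (hnr _ _ h') hb hs with h3 | h3
    · exact top_eq E y y' h3 hb (notin y' _ (by rw [r1, hb]))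
    · exact (top_eq E y' y h3 hb.symm (notin y _ r2)).symm
  -- uniqD
  · intro x x' y y' h h' hb hs r1 r2
    rcases E.mid y y' (hnr _ _ h) (hnr _ _ h') hb hs with h3 | h3
    · exact bot_eq E y y' h3 hb (notin y' _ (by rw [r1, hb]))
    · exact (bot_eq E y' y h3 hb.symm (notin y _ r2)).symm
  -- levU
  · intro x x' y y' y'' h h' h'' hb hb' hs l1 l2
    have h3 : E.Sub y y'' :=
      E.sub_of_in y y'' (G.cc y) (hnr x y h) (Or.inr (Or.inr rfl)) (hin _ _ h'')
    have s3 := E.sub_mid y y'' h3 hb'.symm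
    have h4 : E.Sub y y' := (hlev2 y y' (hnr _ _ h) (hnr _ _ h') hb.symm hs.symm).2 l1
    refine (top_eq E y y' h4 hb.symm ?_).symm
    intro h5
    have h6 := hmin _ _ _ h'' h5
    have h7 := (hlev2 y'' y' (hnr _ _ h'') (hnr _ _ h') (by rw [hb, hb']) (by rw [hs, s3])).1 h6
    omega
  -- levD
  · intro x x' y y' y'' h h' h'' hb hb' hs l1 l2
    have h3 : E.Sub y y'' :=
      E.sub_of_in y y'' (G.ca y) (hnr x y h) (Or.inl rfl) (hin _ _ h'')
    have s3 := E.sub_mid y y'' h3 hb'.symm
    have h4 : E.Sub y y' := (hlev2 y y' (hnr _ _ h) (hnr _ _ h') hb.symm hs.symm).2 l1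
    refine (bot_eq E y y' h4 hb.symm ?_).symm
    intro h5
    have h6 := hmin _ _ _ h'' h5
    have h7 := (hlev2 y'' y' (hnr _ _ h'') (hnr _ _ h') (by rw [hb, hb']) (by rw [hs, s3])).1 h6
    omega
  -- levU_lt
  · intro x y y'' h h'' hb
    have h3 : E.Sub y y'' :=
      E.sub_of_in y y'' (G.cc y) (hnr x y h) (Or.inr (Or.inr rfl)) (hin _ _ h'')
    have s3 := E.sub_mid y y'' h3 hb.symm
    have h4 := (hlev2 y y'' (hnr _ _ h) (hnr _ _ h'') hb.symm s3).1 h3
    rcases Nat.lt_or_ge (lev y) (lev y'') with h5 | h5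
    · exact h5
    · have h6 := hlev1 y y'' (hnr _ _ h) (hnr _ _ h'') hb.symm (le_antisymm h4 h5)
      subst h6
      exact absurd (Or.inr (Or.inr rfl)) (E.in_not_corner _ _ (hin _ _ h''))
  -- levD_lt
  · intro x y y'' h h'' hb
    have h3 : E.Sub y y'' :=
      E.sub_of_in y y'' (G.ca y) (hnr x y h) (Or.inl rfl) (hin _ _ h'')
    have s3 := E.sub_mid y y'' h3 hb.symm
    have h4 := (hlev2 y y'' (hnr _ _ h) (hnr _ _ h'') hb.symm s3).1 h3
    rcases Nat.lt_or_ge (lev y) (lev y'') with h5 | h5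
    · exact h5
    · have h6 := hlev1 y y'' (hnr _ _ h) (hnr _ _ h'') hb.symm (le_antisymm h4 h5)
      subst h6
      exact absurd (Or.inl rfl) (E.in_not_corner _ _ (hin _ _ h''))
  -- off_ne
  · intro x y h
    simp only [h]
    have := k2 (some y) x y rfl h
    exact sub_ne_zero.2 this
  -- off_inj
  · intro x x' h he
    cases hr : reg x with
    | none =>
      rw [hr] at h
      simp only [hr, ← h] at he
      exact k1 none x x' hr h.symm he
    | some y =>
      rw [hr] at h
      simp only [hr, ← h] at he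
      exact k1 (some y) x x' hr h.symm (by linarith)
  -- off_arc
  · intro u v ha h
    cases hr : reg u with
    | none =>
      rw [hr] at h
      simp only [← h]
      exact k3 none u v ha hr h.symm
    | some y =>
      rw [hr] at h
      simp only [← h]
      have := k3 (some y) u v ha hr h.symm
      linarith
  -- off_neg
  · intro u y h ha
    simp only [h]
    have := k4 (some y) u y rfl h ha
    linarith
  -- off_pos
  · intro v y h ha
    simp only [h]
    have := k5 (some y) v y rfl h ha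
    linarith
  -- col_nc
  · intro u v u' v' ha ha' e1 e2 e3 hc
    have e4 : reg v' = reg u := by rw [← e2, e3]
    have e5 : reg v = reg u := e1.symm
    have e6 : reg u' = reg u := e3.symm
    rw [e6] at hc
    cases hr : reg u with
    | none =>
      rw [hr] at e4 e5 e6 hc
      simp only [e4, e5, e6]
      exact k6 none u v u' v' ha ha' hr e5 e6 e4 hc
    | some y =>
      rw [hr] at e4 e5 e6 hc
      simp only [e4, e5, e6]
      intro h
      exact k6 (some y) u v u' v' ha ha' hr e5 e6 e4 hc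
        ⟨by linarith [h.1], by linarith [h.2.1], by linarith [h.2.2]⟩

end TreeNest

end UP2
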