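import Pool.Agent.Lib.MP_20105c_co.Defs

set_option autoImplicit false

/-!
# Old corners, and the classification of the arcs
-/

namespace UP2

namespace G2

variable {V : Type} (G : G2 V)

/-- a vertex is a corner of its own triangle -/
theorem self_corner (y : V) : G.corner y y := by
  unfold G2.corner G2.ca G2.cb G2.cc
  cases G.kind y <;> simp

theorem lo_corner (y : V) : G.corner y (G.lo y) := by
  unfold G2.corner G2.ca G2.cb G2.cc
  cases G.kind y <;> simp

theorem hi_corner (y : V) : G.corner y (G.hi y) := by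
  unfold G2.corner G2.ca G2.cb G2.cc
  cases G.kind y <;> simp

theorem corner_cases {y z : V} (h : G.corner y z) : z = y ∨ z = G.lo y ∨ z = G.hi y := by
  unfold G2.corner G2.ca G2.cb G2.cc at h
  cases hk : G.kind y <;> simp only [hk] at h <;> tauto

theorem birth_arc {x u v : V} (hx : G.nr x) (h : Birth G.lo G.hi G.kind x u v) : G.arc u v :=
  (G.arc_iff u v).2 (Or.inr ⟨x, hx, h⟩)

theorem arc_ab {y : V} (h : G.nr y) : G.arc (G.ca y) (G.cb y) := by
  have hp := G.par y h.1 h.2
  unfold G2.ca G2.cb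
  cases hk : G.kind y <;> simp only
  · exact hp
  · exact G.birth_arc h (by simp [Birth, hk])
  · exact G.birth_arc h (by simp [Birth, hk])

theorem arc_bc {y : V} (h : G.nr y) : G.arc (G.cb y) (G.cc y) := by
  have hp := G.par y h.1 h.2
  unfold G2.cb G2.cc
  cases hk : G.kind y <;> simp only
  · exact G.birth_arc h (by simp [Birth, hk])
  · exact hp
  · exact G.birth_arc h (by simp [Birth, hk])

theorem arc_ac {y : V} (h : G.nr y) : G.arc (G.ca y) (G.cc y) := by
  have hp := G.par y h.1 h.2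
  unfold G2.ca G2.cc
  cases hk : G.kind y <;> simp only
  · exact G.birth_arc h (by simp [Birth, hk])
  · exact G.birth_arc h (by simp [Birth, hk])
  · exact hp

theorem tri {y : V} (h : G.nr y) : Tri G.arc (G.ca y) (G.cb y) (G.cc y) :=
  ⟨G.arc_ab h, G.arc_bc h, G.arc_ac h⟩

theorem ht_ab {y : V} (h : G.nr y) : G.ht (G.ca y) < G.ht (G.cb y) := G.ht_lt _ _ (G.arc_ab h)

theorem ht_bc {y : V} (h : G.nr y) : G.ht (G.cb y) < G.ht (G.cc y) := G.ht_lt _ _ (G.arc_bc h)

theorem ht_ac {y : V} (h : G.nr y) : G.ht (G.ca y) < G.ht (G.cc y) := G.ht_lt _ _ (G.arc_ac h)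

theorem adj_symm {u v : V} (h : G.Adj u v) : G.Adj v u := h.symm

theorem adj_ne {u v : V} (h : G.Adj u v) : u ≠ v := by
  rintro rfl
  rcases h with h | h <;> exact lt_irrefl _ (G.ht_lt _ _ h)

/-- two corners of a triangle are adjacent -/
theorem corner_adj {y u v : V} (h : G.nr y) (hu : G.corner y u) (hv : G.corner y v)
    (huv : u ≠ v) : G.Adj u v := by
  have h1 := G.arc_ab h
  have h2 := G.arc_bc h
  have h3 := G.arc_ac h
  unfold G2.Adj
  rcases hu with rfl | rfl | rfl <;> rcases hv with rfl | rfl | rfl <;>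
    first | exact absurd rfl huv | exact Or.inl h1 | exact Or.inl h2 | exact Or.inl h3
          | exact Or.inr h1 | exact Or.inr h2 | exact Or.inr h3

theorem adj_lo {x : V} (h : G.nr x) : G.Adj x (G.lo x) := by
  unfold G2.Adj
  cases hk : G.kind x
  · exact Or.inr (G.birth_arc h (by simp [Birth, hk]))
  · exact Or.inl (G.birth_arc h (by simp [Birth, hk]))
  · exact Or.inr (G.birth_arc h (by simp [Birth, hk]))

theorem adj_hi {x : V} (h : G.nr x) : G.Adj x (G.hi x) := by
  unfold G2.Adj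
  cases hk : G.kind x
  · exact Or.inr (G.birth_arc h (by simp [Birth, hk]))
  · exact Or.inl (G.birth_arc h (by simp [Birth, hk]))
  · exact Or.inl (G.birth_arc h (by simp [Birth, hk]))

theorem lo_ne_hi {x : V} (h : G.nr x) : G.lo x ≠ G.hi x := by
  intro he
  have := G.ht_lt _ _ (G.par x h.1 h.2)
  rw [he] at this
  exact lt_irrefl _ this

/-- an arc consists of the roots or of a vertex and one of its parents -/
theorem arc_par {u v : V} (h : G.arc u v) : (u = G.r0 ∧ v = G.r1) ∨
    (G.nr u ∧ (v = G.lo u ∨ v = G.hi u)) ∨ (G.nr v ∧ (u = G.lo v ∨ u = G.hi v)) := by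
  rcases (G.arc_iff u v).1 h with h | ⟨x, hx, h⟩
  · exact Or.inl h
  · right
    cases hk : G.kind x <;> simp only [Birth, hk] at h <;>
      rcases h with ⟨rfl, rfl⟩ | ⟨rfl, rfl⟩
    all_goals first
      | exact Or.inl ⟨hx, Or.inl rfl⟩
      | exact Or.inl ⟨hx, Or.inr rfl⟩
      | exact Or.inr ⟨hx, Or.inl rfl⟩
      | exact Or.inr ⟨hx, Or.inr rfl⟩

theorem adj_par {u v : V} (h : G.Adj u v) : (¬ G.nr u ∧ ¬ G.nr v) ∨
    (G.nr u ∧ (v = G.lo u ∨ v = G.hi u)) ∨ (G.nr v ∧ (u = G.lo v ∨ u = G.hi v)) := by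
  rcases h with h | h
  · rcases G.arc_par h with ⟨rfl, rfl⟩ | h | h
    · exact Or.inl ⟨fun h => h.1 rfl, fun h => h.2 rfl⟩
    · exact Or.inr (Or.inl h)
    · exact Or.inr (Or.inr h)
  · rcases G.arc_par h with ⟨rfl, rfl⟩ | h | h
    · exact Or.inl ⟨fun h => h.2 rfl, fun h => h.1 rfl⟩
    · exact Or.inr (Or.inr h)
    · exact Or.inr (Or.inl h)

/-- an older neighbour is a parent -/
theorem par_of_adj {w z : V} (h : G.Adj w z) (hlt : G.ix w < G.ix z) (hz : G.nr z) :
    w = G.lo z ∨ w = G.hi z := by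
  rcases G.adj_par h with ⟨-, h2⟩ | ⟨hw, h2⟩ | ⟨-, h2⟩
  · exact absurd hz h2
  · have := G.ix_par w hw.1 hw.2
    rcases h2 with rfl | rfl <;> omega
  · exact h2

theorem ix_nr {x y : V} (hx : ¬ G.nr x) (hy : G.nr y) : G.ix x < G.ix y := by
  have h := G.ix_root y hy.1 hy.2
  unfold G2.nr at hx
  by_cases h0 : x = G.r0
  · rw [h0]; exact h.1
  · by_cases h1 : x = G.r1
    · rw [h1]; exact h.2
    · exact absurd ⟨h0, h1⟩ hx

end G2

namespace Emb

variable {V : Type} {G : G2 V} (E : Emb G)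

/-- vertices inside a triangle are not roots -/
theorem nr_of_in {x y : V} (h : E.In x y) : G.nr x := by
  refine ⟨?_, ?_⟩
  · rintro rfl; exact (E.root_not_in y).1 h
  · rintro rfl; exact (E.root_not_in y).2 h

/-- `y` is the smallest triangle containing `x` -/
def isReg (x y : V) : Prop := E.In x y ∧ ∀ y', E.In x y' → E.Sub y y'

/-- an inside neighbour of a corner is younger -/
theorem old_aux (w z y : V) (hw : E.In w y) (hz : G.corner y z) (ha : G.Adj w z) :
    G.ix z < G.ix w := by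
  by_contra hc
  have hne : w ≠ z := G.adj_ne ha
  have hlt : G.ix w < G.ix z := lt_of_le_of_ne (not_lt.mp hc) (fun h => hne (G.ix_inj h))
  have hwn := E.nr_of_in hw
  have hyn := E.in_nr w y hw
  have hzn : G.nr z := by
    by_contra h
    have := G.ix_nr h hwn
    omega
  have hwz := G.par_of_adj ha hlt hzn
  -- the oldest vertex inside `y`
  obtain ⟨w0, hw0, hmin⟩ : ∃ w0, E.In w0 y ∧ ∀ w', E.In w' y → G.ix w0 ≤ G.ix w' := by
    classical
    have hex : ∃ n, ∃ w0, E.In w0 y ∧ G.ix w0 = n := ⟨_, w, hw, rfl⟩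
    obtain ⟨w0, h1, h2⟩ := Nat.find_spec hex
    refine ⟨w0, h1, fun w' hw' => ?_⟩
    rw [h2]
    exact Nat.find_min' hex ⟨w', hw', rfl⟩
  have hw0n := E.nr_of_in hw0
  have hp := G.ix_par w0 hw0n.1 hw0n.2
  have hl : G.corner y (G.lo w0) := by
    rcases E.adj w0 (G.lo w0) y (G.adj_lo hw0n) hw0 with h | h
    · have := hmin _ h; omega
    · exact h
  have hh : G.corner y (G.hi w0) := by
    rcases E.adj w0 (G.hi w0) y (G.adj_hi hw0n) hw0 with h | h
    · have := hmin _ h; omega
    · exact h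
  have hm := hmin w hw
  have hlz : G.lo w0 ≠ z := by
    rintro rfl; omega
  have hhz : G.hi w0 ≠ z := by
    rintro rfl; omega
  have h1 := G.par_of_adj (G.corner_adj hyn hl hz hlz) (by omega) hzn
  have h2 := G.par_of_adj (G.corner_adj hyn hh hz hhz) (by omega) hzn
  have h3 := G.lo_ne_hi hw0n
  have hwc : w = G.lo w0 ∨ w = G.hi w0 := by
    rcases hwz with rfl | rfl <;> rcases h1 with h1 | h1 <;> rcases h2 with h2 | h2
    · exact Or.inl h1.symm
    · exact Or.inl h1.symm
    · exact Or.inr h2.symm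
    · exact absurd (h1.trans h2.symm) h3
    · exact absurd (h1.trans h2.symm) h3
    · exact Or.inr h2.symm
    · exact Or.inl h1.symm
    · exact Or.inl h1.symm
  rcases hwc with rfl | rfl
  · exact E.in_not_corner _ _ hw hl
  · exact E.in_not_corner _ _ hw hh

variable {reg : V → Option V} (h1 : ∀ x y, reg x = some y ↔ E.isReg x y)
  (h2 : ∀ x, reg x = none ↔ ∀ y, ¬ E.In x y)

include h1 h2

/-- a vertex inside a triangle has a region -/
theorem reg_of_in {x y : V} (h : E.In x y) : ∃ y', reg x = some y' ∧ E.In x y' ∧ E.Sub y' y := by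
  cases hr : reg x with
  | none => exact absurd h ((h2 x).1 hr y)
  | some y' =>
    have := (h1 x y').1 hr
    exact ⟨y', rfl, this.1, this.2 y h⟩

/-- symmetric form of the classification -/
theorem adj_reg (u v : V) (h : G.Adj u v) :
    reg u = reg v ∨ (∃ y, reg v = some y ∧ E.In v y ∧ G.corner y u) ∨
    (∃ y, reg u = some y ∧ E.In u y ∧ G.corner y v) := by
  cases hu : reg u with
  | none =>
    cases hv : reg v with
    | none => exact Or.inl rfl
    | some y' =>
      have hi := ((h1 v y').1 hv).1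
      rcases E.adj v u y' h.symm hi with h' | h'
      · exact absurd h' ((h2 u).1 hu y')
      · exact Or.inr (Or.inl ⟨y', rfl, hi, h'⟩)
  | some y =>
    have hi := (h1 u y).1 hu
    rcases E.adj u v y h hi.1 with h' | h'
    · obtain ⟨y', hv, hvi, hs⟩ := E.reg_of_in h1 h2 h'
      rcases E.adj v u y' h.symm hvi with h'' | h''
      · left
        rw [hv, E.sub_antisymm y y' (hi.2 y' h'') hs]
      · exact Or.inr (Or.inl ⟨y', hv, hvi, h''⟩)
    · exact Or.inr (Or.inr ⟨y, rfl, hi.1, h'⟩)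

/-- task R4: an inside neighbour of a corner is younger -/
theorem old [Finite V] (w z y : V) (hw : E.In w y) (hz : G.corner y z) (ha : G.Adj w z) :
    G.ix z < G.ix w := E.old_aux w z y hw hz ha

/-- classification of the arcs -/
theorem cls [Finite V] (u v : V) (h : G.arc u v) :
    reg u = reg v ∨ (∃ y, reg v = some y ∧ (u = G.ca y ∨ u = G.cb y)) ∨
    (∃ y, reg u = some y ∧ (v = G.cb y ∨ v = G.cc y)) := by
  have hht := G.ht_lt u v h
  rcases E.adj_reg h1 h2 u v (Or.inl h) with h' | ⟨y, hv, hi, hc⟩ | ⟨y, hu, hi, hc⟩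
  · exact Or.inl h'
  · have := (E.in_ht v y hi).2
    rcases hc with hc | hc | hc
    · exact Or.inr (Or.inl ⟨y, hv, Or.inl hc⟩)
    · exact Or.inr (Or.inl ⟨y, hv, Or.inr hc⟩)
    · rw [← hc] at this
      exact absurd this (not_lt.mpr hht.le)
  · have := (E.in_ht u y hi).1
    rcases hc with hc | hc | hc
    · rw [← hc] at this
      exact absurd this (not_lt.mpr hht.le)
    · exact Or.inr (Or.inr ⟨y, hu, Or.inl hc⟩)
    · exact Or.inr (Or.inr ⟨y, hu, Or.inr hc⟩)

theorem older_reg {p x : V} (ha : G.Adj p x) (hlt : G.ix p < G.ix x) :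
    reg p = reg x ∨ ∃ y, reg x = some y ∧ G.corner y p := by
  rcases E.adj_reg h1 h2 p x ha with h' | ⟨y, hv, hi, hc⟩ | ⟨y, hu, hi, hc⟩
  · exact Or.inl h'
  · exact Or.inr ⟨y, hv, hc⟩
  · have := E.old_aux p x y hi hc ha
    omega

/-- parents -/
theorem par_reg [Finite V] (x : V) (hx : G.nr x) :
    (reg (G.lo x) = reg x ∨ ∃ y, reg x = some y ∧ G.corner y (G.lo x)) ∧
    (reg (G.hi x) = reg x ∨ ∃ y, reg x = some y ∧ G.corner y (G.hi x)) := by
  have hp := G.ix_par x hx.1 hx.2
  exact ⟨E.older_reg h1 h2 (G.adj_lo hx).symm hp.1, E.older_reg h1 h2 (G.adj_hi hx).symm hp.2⟩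

/-- vertices with the same smallest triangle are not inside the triangle of one another -/
theorem not_in_of_reg [Finite V] (x y : V) (h : reg x = reg y) : ¬ E.In x y := by
  intro hi
  obtain ⟨y0, hx, -, hs⟩ := E.reg_of_in h1 h2 hi
  rw [hx] at h
  have hy := ((h1 y y0).1 h.symm).1
  exact E.in_not_corner y y (E.sub_in y0 y y hs hy) (G.self_corner y)

end Emb

end UP2
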