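import Pool.Agent.Lib.MP_20105c_co.Defs2
import Pool.Agent.Lib.MP_20105c_co.TreeOld

set_option autoImplicit false

/-!
# Proper colouring, smallest triangles and levels (tasks R2, R3, R5)
-/

namespace UP2

private theorem third_colour (a b : Fin 3) : ∃ c : Fin 3, c ≠ a ∧ c ≠ b := by
  revert a b
  decide

/-- task R2: proper colouring -/
theorem G2.exists_pc {V : Type} (G : G2 V) : ∃ pc : V → Fin 3, ∀ u v, G.arc u v → pc u ≠ pc v := by
  classical
  have hr : G.r0 ≠ G.r1 := by
    intro h
    have h3 := G.ht_lt G.r0 G.r1 ((G.arc_iff _ _).2 (Or.inl ⟨rfl, rfl⟩))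
    rw [h] at h3
    exact lt_irrefl _ h3
  choose t ht1 ht2 using third_colour
  have wf : WellFounded (fun x y : V => G.ix x < G.ix y) := InvImage.wf G.ix Nat.lt_wfRel.wf
  let F : (x : V) → ((y : V) → G.ix y < G.ix x → Fin 3) → Fin 3 := fun x ih =>
    if h0 : x = G.r0 then 0 else if h1 : x = G.r1 then 1 else
      t (ih (G.lo x) (G.ix_par x h0 h1).1) (ih (G.hi x) (G.ix_par x h0 h1).2)
  let pc : V → Fin 3 := wf.fix F
  have hpc : ∀ x, pc x = F x (fun y _ => pc y) := fun x => wf.fix_eq F x
  have p0 : pc G.r0 = 0 := by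
    rw [hpc]
    simp [F]
  have p1 : pc G.r1 = 1 := by
    rw [hpc]
    simp [F, hr.symm]
  have pn : ∀ x, G.nr x → pc x ≠ pc (G.lo x) ∧ pc x ≠ pc (G.hi x) := by
    intro x hx
    have h3 : pc x = t (pc (G.lo x)) (pc (G.hi x)) := by
      rw [hpc]
      simp only [F, dif_neg hx.1, dif_neg hx.2]
    rw [h3]
    exact ⟨ht1 _ _, ht2 _ _⟩
  refine ⟨pc, ?_⟩
  intro u v h
  rcases (G.arc_iff u v).1 h with ⟨rfl, rfl⟩ | ⟨x, hx, hb⟩
  · rw [p0, p1]; decide
  · obtain ⟨a1, a2⟩ := pn x hx
    unfold Birth at hb
    cases hk : G.kind x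
    · simp only [hk] at hb
      rcases hb with ⟨rfl, rfl⟩ | ⟨rfl, rfl⟩
      · exact a1.symm
      · exact a2.symm
    · simp only [hk] at hb
      rcases hb with ⟨rfl, rfl⟩ | ⟨rfl, rfl⟩
      · exact a1
      · exact a2
    · simp only [hk] at hb
      rcases hb with ⟨rfl, rfl⟩ | ⟨rfl, rfl⟩
      · exact a1.symm
      · exact a2

namespace Emb

variable {V : Type} {G : G2 V} (E : Emb G)

/-- task R3 -/
theorem exists_reg [Finite V] : ∃ reg : V → Option V, (∀ x y, reg x = some y ↔ E.isReg x y) ∧
    (∀ x, reg x = none ↔ ∀ y, ¬ E.In x y) := by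
  classical
  have := Fintype.ofFinite V
  have key : ∀ x, (∃ y, E.In x y) → ∃ y, E.isReg x y := by
    intro x hx
    have hne : (Finset.univ.filter (fun y => E.In x y)).Nonempty := by
      obtain ⟨y, hy⟩ := hx
      exact ⟨y, by simpa using hy⟩
    obtain ⟨y, hy, hmin⟩ := Finset.exists_min_image (Finset.univ.filter (fun y => E.In x y))
      (fun y => (Finset.univ.filter (fun y' => E.Sub y' y)).card) hne
    simp only [Finset.mem_filter, Finset.mem_univ, true_and] at hy hmin
    refine ⟨y, hy, fun y' hy' => ?_⟩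
    rcases E.lam x y y' hy hy' with h | h
    · exact h
    · have hsub : Finset.univ.filter (fun y'' => E.Sub y'' y') ⊆
          Finset.univ.filter (fun y'' => E.Sub y'' y) := by
        intro z hz
        simp only [Finset.mem_filter, Finset.mem_univ, true_and] at hz ⊢
        exact E.sub_trans z y' y hz h
      have heq := Finset.eq_of_subset_of_card_le hsub (hmin y' hy')
      have hmem : y ∈ Finset.univ.filter (fun y'' => E.Sub y'' y') := by
        rw [heq]
        simpa using E.sub_refl y (E.in_nr x y hy)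
      simpa using hmem
  have key2 : ∀ x, ∃ o : Option V, (∀ y, o = some y ↔ E.isReg x y) ∧ (o = none ↔ ∀ y, ¬ E.In x y) := by
    intro x
    by_cases hx : ∃ y, E.In x y
    · obtain ⟨y, hy⟩ := key x hx
      refine ⟨some y, fun y' => ⟨?_, ?_⟩, ⟨?_, ?_⟩⟩
      · intro h
        cases h
        exact hy
      · intro h
        rw [E.sub_antisymm y y' (hy.2 y' h.1) (h.2 y hy.1)]
      · intro h; cases h
      · intro h; exact absurd hy.1 (h y)
    · refine ⟨none, fun y' => ⟨?_, ?_⟩, ⟨?_, ?_⟩⟩
      · intro h; cases h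
      · intro h; exact absurd ⟨y', h.1⟩ hx
      · intro _ y hy; exact hx ⟨y, hy⟩
      · intro _; rfl
  choose reg h1 h2 using key2
  exact ⟨reg, h1, h2⟩

variable {reg : V → Option V} (h1 : ∀ x y, reg x = some y ↔ E.isReg x y)
  (h2 : ∀ x, reg x = none ↔ ∀ y, ¬ E.In x y)

include h1 h2

/-- task R5: levels -/
theorem exists_lev [Fintype V] : ∃ lev : V → ℕ,
    (∀ y y', G.nr y → G.nr y' → G.cb y = G.cb y' → lev y = lev y' → y = y') ∧
    (∀ y y', G.nr y → G.nr y' → G.cb y = G.cb y' → E.side y = E.side y' →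
      (E.Sub y y' ↔ lev y ≤ lev y')) := by
  classical
  let n : V → ℕ := fun y => (Finset.univ.filter (fun y' => E.Sub y' y)).card
  have hn : ∀ y, n y ≤ Fintype.card V := fun y => Finset.card_le_univ _
  have hmono : ∀ y y', E.Sub y y' → n y ≤ n y' := by
    intro y y' h
    apply Finset.card_le_card
    intro z hz
    simp only [Finset.mem_filter, Finset.mem_univ, true_and] at hz ⊢
    exact E.sub_trans z y y' hz h
  have heq : ∀ y y', E.Sub y y' → n y' ≤ n y → y = y' := by
    intro y y' h hle
    have hsub : Finset.univ.filter (fun y'' => E.Sub y'' y) ⊆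
        Finset.univ.filter (fun y'' => E.Sub y'' y') := by
      intro z hz
      simp only [Finset.mem_filter, Finset.mem_univ, true_and] at hz ⊢
      exact E.sub_trans z y y' hz h
    have he := Finset.eq_of_subset_of_card_le hsub hle
    have hmem : y' ∈ Finset.univ.filter (fun y'' => E.Sub y'' y) := by
      rw [he]
      simpa using E.sub_refl y' (E.sub_nr y y' h).2
    exact E.sub_antisymm y y' h (by simpa using hmem)
  have hinj : ∀ y y', G.nr y → G.nr y' → G.cb y = G.cb y' →
      n y + (if E.side y then 0 else Fintype.card V + 1) =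
        n y' + (if E.side y' then 0 else Fintype.card V + 1) → y = y' := by
    intro y y' hy hy' hb hl
    have a1 := hn y
    have a2 := hn y'
    have hs : E.side y = E.side y' := by
      cases c1 : E.side y <;> cases c2 : E.side y' <;> simp [c1, c2] at hl ⊢ <;> omega
    rw [hs] at hl
    have hl' : n y = n y' := by omega
    rcases E.mid y y' hy hy' hb hs with h | h
    · exact heq y y' h hl'.ge
    · exact (heq y' y h hl'.le).symm
  refine ⟨fun y => n y + (if E.side y then 0 else Fintype.card V + 1), hinj, ?_⟩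
  intro y y' hy hy' hb hs
  constructor
  · intro h
    have := hmono y y' h
    simp only [hs]
    omega
  · intro h
    simp only [hs] at h
    have h' : n y ≤ n y' := by omega
    rcases E.mid y y' hy hy' hb hs with h3 | h3
    · exact h3
    · rw [← heq y' y h3 h']
      exact E.sub_refl y' hy'

end Emb

end UP2
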