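import Pool.Agent.Lib.MP_20105c_co.Defs

set_option autoImplicit false

/-!
# Task R1: a 2-tree rooted at any of its arcs
-/

namespace UP2

/-- A birth order of the 2-tree on `S` with root edge `r s`. -/
structure TreeRoot_RG {V : Type} (Adj : V → V → Prop) (S : Set V) (r s : V) (ix : V → ℕ) :
    Prop where
  hr : r ∈ S
  hs : s ∈ S
  adj : Adj r s
  inj : ∀ x ∈ S, ∀ y ∈ S, ix x = ix y → x = y
  root : ∀ x ∈ S, x ≠ r → x ≠ s → ix r < ix x ∧ ix s < ix x
  par : ∀ x ∈ S, x ≠ r → x ≠ s → ∃ a ∈ S, ∃ b ∈ S, a ≠ b ∧ Adj a b ∧ ix a < ix x ∧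
    ix b < ix x ∧ ∀ c ∈ S, ix c < ix x → (Adj c x ↔ c = a ∨ c = b)

theorem TreeRoot_swap {V : Type} {Adj : V → V → Prop} (hsym : ∀ a b, Adj a b → Adj b a)
    {S : Set V} {r s : V} {ix : V → ℕ} (h : TreeRoot_RG Adj S r s ix) :
    TreeRoot_RG Adj S s r ix :=
  ⟨h.hs, h.hr, hsym _ _ h.adj, h.inj, fun x hx h1 h2 => ⟨(h.root x hx h2 h1).2,
    (h.root x hx h2 h1).1⟩, fun x hx h1 h2 => h.par x hx h2 h1⟩

/-- Adding the youngest vertex. -/
theorem TreeRoot_add {V : Type} [Finite V] {Adj : V → V → Prop} {S : Set V} {x a b : V}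
    (hx : x ∉ S) (ha : a ∈ S) (hb : b ∈ S) (hab : a ≠ b) (hadj : Adj a b)
    (hc : ∀ c ∈ S, (Adj c x ↔ c = a ∨ c = b)) {r s : V} {ix : V → ℕ}
    (h : TreeRoot_RG Adj S r s ix) : ∃ ix', TreeRoot_RG Adj (insert x S) r s ix' := by
  classical
  have := Fintype.ofFinite V
  set M := ∑ y, ix y with hM
  have hMle : ∀ y, ix y ≤ M := fun y =>
    Finset.single_le_sum (f := ix) (fun _ _ => Nat.zero_le _) (Finset.mem_univ y)
  have hne : ∀ y ∈ S, y ≠ x := fun y hy h' => hx (h' ▸ hy)
  set ix' : V → ℕ := fun y => if y = x then M + 1 else ix y with hix'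
  have e1 : ∀ y ∈ S, ix' y = ix y := fun y hy => by simp only [hix']; rw [if_neg (hne y hy)]
  have e2 : ix' x = M + 1 := by simp [hix']
  refine ⟨ix', Or.inr h.hr, Or.inr h.hs, h.adj, ?_, ?_, ?_⟩
  · rintro y (rfl | hy) z (rfl | hz) hyz
    · rfl
    · rw [e2, e1 z hz] at hyz
      have := hMle z
      omega
    · rw [e2, e1 y hy] at hyz
      have := hMle y
      omega
    · rw [e1 y hy, e1 z hz] at hyz
      exact h.inj y hy z hz hyz
  · rintro y (rfl | hy) h1 h2
    · rw [e2, e1 r h.hr, e1 s h.hs]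
      have := hMle r
      have := hMle s
      omega
    · rw [e1 y hy, e1 r h.hr, e1 s h.hs]
      exact h.root y hy h1 h2
  · rintro y (rfl | hy) h1 h2
    · refine ⟨a, Or.inr ha, b, Or.inr hb, hab, hadj, ?_, ?_, ?_⟩
      · rw [e2, e1 a ha]
        have := hMle a
        omega
      · rw [e2, e1 b hb]
        have := hMle b
        omega
      · rintro c (rfl | hc') hlt
        · exact absurd hlt (lt_irrefl _)
        · exact hc c hc'
    · obtain ⟨a', ha', b', hb', h3, h4, h5, h6, h7⟩ := h.par y hy h1 h2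
      refine ⟨a', Or.inr ha', b', Or.inr hb', h3, h4, ?_, ?_, ?_⟩
      · rw [e1 y hy, e1 a' ha']; exact h5
      · rw [e1 y hy, e1 b' hb']; exact h6
      · rintro c (rfl | hc') hlt
        · rw [e2, e1 y hy] at hlt
          have := hMle y
          omega
        · rw [e1 y hy, e1 c hc'] at hlt
          exact h7 c hc' hlt

/-- Re-rooting at an edge of the new vertex. -/
theorem TreeRoot_new {V : Type} {Adj : V → V → Prop} (hsym : ∀ a b, Adj a b → Adj b a)
    {S : Set V} {x a b : V}
    (hx : x ∉ S) (hab : a ≠ b) (hc : ∀ c ∈ S, (Adj c x ↔ c = a ∨ c = b)) {ix : V → ℕ}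
    (h : TreeRoot_RG Adj S a b ix) : ∃ ix', TreeRoot_RG Adj (insert x S) x a ix' := by
  classical
  have hne : ∀ y ∈ S, y ≠ x := fun y hy h' => hx (h' ▸ hy)
  set ix' : V → ℕ := fun y => if y = x then 0 else if y = a then 1 else if y = b then 2 else
    ix y + 3 with hix'
  have ex : ix' x = 0 := by simp [hix']
  have ea : ix' a = 1 := by simp only [hix']; rw [if_neg (hne a h.hr)]; simp
  have eb : ix' b = 2 := by
    simp only [hix']; rw [if_neg (hne b h.hs), if_neg hab.symm]; simp
  have ey : ∀ y ∈ S, y ≠ a → y ≠ b → ix' y = ix y + 3 := fun y hy h1 h2 => by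
    simp only [hix']; rw [if_neg (hne y hy), if_neg h1, if_neg h2]
  have hxa : Adj x a := hsym _ _ ((hc a h.hr).2 (Or.inl rfl))
  have hxb : Adj x b := hsym _ _ ((hc b h.hs).2 (Or.inr rfl))
  refine ⟨ix', Or.inl rfl, Or.inr h.hr, hxa, ?_, ?_, ?_⟩
  · have key : ∀ y ∈ S, ix' y = if y = a then 1 else if y = b then 2 else ix y + 3 := by
      intro y hy
      simp only [hix']; rw [if_neg (hne y hy)]
    rintro y (rfl | hy) z (rfl | hz) hyz
    · rfl
    · rw [ex, key z hz] at hyz
      split_ifs at hyz
    · rw [ex, key y hy] at hyz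
      split_ifs at hyz
    · rw [key y hy, key z hz] at hyz
      split_ifs at hyz with i1 i2 i3 i4 i5 i6 i7 i8
      · rw [i1, i2]
      all_goals first
        | omega
        | (rw [i4, i6])
        | (exact h.inj y hy z hz (by omega))
  · rintro y (rfl | hy) h1 h2
    · exact absurd rfl h1
    · by_cases hyb : y = b
      · rw [hyb, ex, ea, eb]; omega
      · rw [ex, ea, ey y hy h2 hyb]; omega
  · rintro y (rfl | hy) h1 h2
    · exact absurd rfl h1
    · by_cases hyb : y = b
      · subst hyb
        refine ⟨x, Or.inl rfl, a, Or.inr h.hr, (hne a h.hr).symm, hxa, by rw [ex, eb]; omega,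
          by rw [ea, eb]; omega, ?_⟩
        rintro c (rfl | hc') hlt
        · exact ⟨fun _ => Or.inl rfl, fun _ => hxb⟩
        · by_cases hca : c = a
          · subst hca
            exact ⟨fun _ => Or.inr rfl, fun _ => h.adj⟩
          · by_cases hcb : c = y
            · rw [hcb] at hlt; exact absurd hlt (lt_irrefl _)
            · rw [ey c hc' hca hcb, eb] at hlt; omega
      · obtain ⟨a', ha', b', hb', h3, h4, h5, h6, h7⟩ := h.par y hy h2 hyb
        obtain ⟨k1, k2⟩ := h.root y hy h2 hyb
        have hlow : ∀ c ∈ S, (ix' c < ix' y ↔ ix c < ix y) := by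
          intro c hc'
          rw [ey y hy h2 hyb]
          by_cases hca : c = a
          · rw [hca, ea]
            exact ⟨fun _ => k1, fun _ => by omega⟩
          · by_cases hcb : c = b
            · rw [hcb, eb]
              exact ⟨fun _ => k2, fun _ => by omega⟩
            · rw [ey c hc' hca hcb]; omega
        refine ⟨a', Or.inr ha', b', Or.inr hb', h3, h4, (hlow a' ha').2 h5,
          (hlow b' hb').2 h6, ?_⟩
        rintro c (rfl | hc') hlt
        · constructor
          · intro hadj
            rcases (hc y hy).1 (hsym _ _ hadj) with h' | h'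
            · exact absurd h' h2
            · exact absurd h' hyb
          · rintro (rfl | rfl)
            · exact absurd ha' hx
            · exact absurd hb' hx
        · exact h7 c hc' ((hlow c hc').1 hlt)

/-- One step of the induction. -/
theorem TreeRoot_step {V : Type} [Finite V] {Adj : V → V → Prop}
    (hsym : ∀ a b, Adj a b → Adj b a) (hirr : ∀ a, ¬ Adj a a) {S : Set V} {x a b : V}
    (hx : x ∉ S) (ha : a ∈ S) (hb : b ∈ S) (hab : a ≠ b) (hadj : Adj a b)
    (hc : ∀ c ∈ S, (Adj c x ↔ c = a ∨ c = b))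
    (IH : ∀ u ∈ S, ∀ v ∈ S, Adj u v → ∃ ix, TreeRoot_RG Adj S u v ix) :
    ∀ u ∈ insert x S, ∀ v ∈ insert x S, Adj u v → ∃ ix, TreeRoot_RG Adj (insert x S) u v ix := by
  have hnew : ∀ v ∈ S, Adj v x → ∃ ix, TreeRoot_RG Adj (insert x S) x v ix := by
    intro v hv hvx
    rcases (hc v hv).1 hvx with rfl | rfl
    · obtain ⟨ix, hix⟩ := IH v hv b hb hadj
      exact TreeRoot_new hsym hx hab hc hix
    · obtain ⟨ix, hix⟩ := IH v hv a ha (hsym _ _ hadj)
      exact TreeRoot_new hsym hx hab.symm (fun c hc' => (hc c hc').trans or_comm) hix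
  rintro u (rfl | hu) v (rfl | hv) huv
  · exact absurd huv (hirr _)
  · exact hnew v hv (hsym _ _ huv)
  · obtain ⟨ix, hix⟩ := hnew u hu huv
    exact ⟨ix, TreeRoot_swap hsym hix⟩
  · obtain ⟨ix, hix⟩ := IH u hu v hv huv
    exact TreeRoot_add hx ha hb hab hadj hc hix

/-- task R1: a 2-tree rooted at any of its arcs -/
theorem exists_G2 {n : ℕ} (A : Fin n → Fin n → Prop) (hA : ∀ v, ¬ Relation.TransGen A v v)
    (h : 2 ≤ n ∧ ∃ σ : Equiv.Perm (Fin n),
      (∀ i j : Fin n, i.val = 0 → j.val = 1 → (A (σ i) (σ j) ∨ A (σ j) (σ i))) ∧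
      (∀ i : Fin n, 2 ≤ i.val → ∃ a b : Fin n, a < i ∧ b < i ∧ a ≠ b ∧
        (A (σ a) (σ b) ∨ A (σ b) (σ a)) ∧
        (A (σ a) (σ i) ∨ A (σ i) (σ a)) ∧
        (A (σ b) (σ i) ∨ A (σ i) (σ b)) ∧
        (∀ c : Fin n, c < i → (A (σ c) (σ i) ∨ A (σ i) (σ c)) → c = a ∨ c = b)))
    (ht : Fin n → ℝ) (hht : ∀ u v, A u v → ht u < ht v) (u v : Fin n) (huv : A u v) :
    ∃ G : G2 (Fin n), G.r0 = u ∧ G.r1 = v ∧ G.arc = A ∧ G.ht = ht := by
  classical
  obtain ⟨hn, σ, hσ0, hσ⟩ := h
  set Adj : Fin n → Fin n → Prop := fun a b => A a b ∨ A b a with hAdj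
  have hsym : ∀ a b, Adj a b → Adj b a := fun a b h => h.symm
  have hirrA : ∀ a, ¬ A a a := fun a h => hA a (Relation.TransGen.single h)
  have hirr : ∀ a, ¬ Adj a a := fun a h => h.elim (hirrA a) (hirrA a)
  have h2c : ∀ a b, A a b → ¬ A b a := fun a b h1 h2 =>
    hA a ((Relation.TransGen.single h1).tail h2)
  have h3c : ∀ a b c, A a b → A b c → ¬ A c a := fun a b c h1 h2 h3 =>
    hA a (((Relation.TransGen.single h1).tail h2).tail h3)
  -- the sets
  set S : ℕ → Set (Fin n) := fun m => {x | ((σ.symm x : Fin n) : ℕ) < m} with hS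
  have hind : ∀ m, 2 ≤ m → m ≤ n → ∀ u ∈ S m, ∀ v ∈ S m, Adj u v →
      ∃ ix, TreeRoot_RG Adj (S m) u v ix := by
    intro m hm
    induction m, hm using Nat.le_induction with
    | base =>
      intro _ u hu v hv huv
      have hne : u ≠ v := fun h => hirr u (h ▸ huv)
      have huv2 : ∀ x ∈ S 2, x = u ∨ x = v := by
        intro x hx
        simp only [hS, Set.mem_ofPred_eq] at hx hu hv
        have h1 : ((σ.symm u : Fin n) : ℕ) ≠ ((σ.symm v : Fin n) : ℕ) := by
          intro h
          exact hne (σ.symm.injective (Fin.ext h))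
        have h2 : ((σ.symm x : Fin n) : ℕ) = ((σ.symm u : Fin n) : ℕ) ∨
            ((σ.symm x : Fin n) : ℕ) = ((σ.symm v : Fin n) : ℕ) := by omega
        rcases h2 with h | h
        · exact Or.inl (σ.symm.injective (Fin.ext h))
        · exact Or.inr (σ.symm.injective (Fin.ext h))
      refine ⟨fun x => if x = u then 0 else 1, hu, hv, huv, ?_, ?_, ?_⟩
      · intro x hx y hy hxy
        rcases huv2 x hx with rfl | rfl <;> rcases huv2 y hy with h | h
        · exact h.symm
        · rw [if_pos rfl, if_neg (by rw [h]; exact hne.symm)] at hxy; omega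
        · rw [if_neg hne.symm, if_pos h] at hxy; omega
        · exact h.symm
      · intro x hx h1 h2
        rcases huv2 x hx with h | h
        · exact absurd h h1
        · exact absurd h h2
      · intro x hx h1 h2
        rcases huv2 x hx with h | h
        · exact absurd h h1
        · exact absurd h h2
    | succ m hm ih =>
      intro hmn
      have hlt : m < n := by omega
      set i : Fin n := ⟨m, hlt⟩ with hi
      obtain ⟨a, b, ha, hb, hab, h1, h2, h3, h4⟩ := hσ i hm
      have hSS : S (m + 1) = insert (σ i) (S m) := by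
        ext x
        simp only [hS, Set.mem_ofPred_eq, Set.mem_insert_iff]
        constructor
        · intro hx
          rcases Nat.lt_succ_iff_lt_or_eq.1 hx with h | h
          · exact Or.inr h
          · left
            rw [← Equiv.symm_apply_eq]
            exact Fin.ext h
        · rintro (rfl | h)
          · rw [Equiv.symm_apply_apply]; simp [hi]
          · omega
      have hmem : ∀ c : Fin n, c < i → σ c ∈ S m := by
        intro c hc
        simp only [hS, Set.mem_ofPred_eq, Equiv.symm_apply_apply]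
        exact hc
      rw [hSS]
      refine TreeRoot_step hsym hirr (a := σ a) (b := σ b) ?_ (hmem a ha) (hmem b hb)
        (fun h => hab (σ.injective h)) h1 ?_ (ih (by omega))
      · simp only [hS, Set.mem_ofPred_eq, Equiv.symm_apply_apply, hi]
        exact lt_irrefl _
      · intro c hc
        have hc' : σ.symm c < i := hc
        constructor
        · intro hadj
          have := h4 (σ.symm c) hc' (by rw [Equiv.apply_symm_apply]; exact hadj)
          rcases this with h | h
          · left; rw [← h, Equiv.apply_symm_apply]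
          · right; rw [← h, Equiv.apply_symm_apply]
        · rintro (rfl | rfl)
          · exact h2
          · exact h3
  have hSn : ∀ x, x ∈ S n := fun x => (σ.symm x).isLt
  obtain ⟨ix, hix⟩ := hind n hn le_rfl u (hSn u) v (hSn v) (Or.inl huv)
  -- orientation
  have hor : ∀ x, ∃ (lo hi : Fin n) (kind : Kind), x ≠ u → x ≠ v → A lo hi ∧ ix lo < ix x ∧
      ix hi < ix x ∧ (∀ c, ix c < ix x → (Adj c x ↔ c = lo ∨ c = hi)) ∧
      (kind = Kind.A → A lo x ∧ A hi x) ∧ (kind = Kind.B → A x lo ∧ A x hi) ∧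
      (kind = Kind.T → A lo x ∧ A x hi) := by
    intro x
    by_cases hxu : x = u
    · exact ⟨u, v, Kind.A, fun h => absurd hxu h⟩
    · by_cases hxv : x = v
      · exact ⟨u, v, Kind.A, fun _ h => absurd hxv h⟩
      · obtain ⟨a, -, b, -, hab, hadj, h1, h2, h3⟩ := hix.par x (hSn x) hxu hxv
        have h3' : ∀ c, ix c < ix x → (Adj c x ↔ c = a ∨ c = b) := fun c => h3 c (hSn c)
        have key : ∀ a b, A a b → ix a < ix x → ix b < ix x →
            (∀ c, ix c < ix x → (Adj c x ↔ c = a ∨ c = b)) →
            ∃ (lo hi : Fin n) (kind : Kind), x ≠ u → x ≠ v → A lo hi ∧ ix lo < ix x ∧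
            ix hi < ix x ∧ (∀ c, ix c < ix x → (Adj c x ↔ c = lo ∨ c = hi)) ∧
            (kind = Kind.A → A lo x ∧ A hi x) ∧ (kind = Kind.B → A x lo ∧ A x hi) ∧
            (kind = Kind.T → A lo x ∧ A x hi) := by
          intro a b hab h1 h2 h3
          rcases (h3 a h1).2 (Or.inl rfl) with h4 | h4
          · rcases (h3 b h2).2 (Or.inr rfl) with h5 | h5
            · exact ⟨a, b, Kind.A, fun _ _ => ⟨hab, h1, h2, h3, fun _ => ⟨h4, h5⟩,
                fun h => by simp at h, fun h => by simp at h⟩⟩
            · exact ⟨a, b, Kind.T, fun _ _ => ⟨hab, h1, h2, h3, fun h => by simp at h,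
                fun h => by simp at h, fun _ => ⟨h4, h5⟩⟩⟩
          · rcases (h3 b h2).2 (Or.inr rfl) with h5 | h5
            · exact absurd h4 (h3c a b x hab h5)
            · exact ⟨a, b, Kind.B, fun _ _ => ⟨hab, h1, h2, h3, fun h => by simp at h,
                fun _ => ⟨h4, h5⟩, fun h => by simp at h⟩⟩
        rcases hadj with h4 | h4
        · exact key a b h4 h1 h2 h3'
        · exact key b a h4 h2 h1 (fun c hc => (h3' c hc).trans or_comm)
  choose lo hi kind hk using hor
  have hixinj : ∀ x y, ix x = ix y → x = y := fun x y h => hix.inj x (hSn x) y (hSn y) h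
  have hroot : ∀ x, x ≠ u → x ≠ v → ix u < ix x ∧ ix v < ix x :=
    fun x h1 h2 => hix.root x (hSn x) h1 h2
  refine ⟨⟨u, v, ix, lo, hi, kind, A, ht, fun x y h => hixinj x y h, hroot,
    fun x h1 h2 => ⟨(hk x h1 h2).2.1, (hk x h1 h2).2.2.1⟩, fun x h1 h2 => (hk x h1 h2).1,
    ?_, hht⟩, rfl, rfl, rfl, rfl⟩
  intro p q
  constructor
  · intro hpq
    have hne : ix p ≠ ix q := fun h => by
      have := hixinj p q h
      rw [this] at hpq
      exact hirrA q hpq
    rcases Nat.lt_or_gt_of_ne hne with hlt | hlt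
    · by_cases hqu : q = u
      · exfalso
        subst hqu
        by_cases hpv : p = v
        · rw [hpv] at hpq; exact h2c _ _ huv hpq
        · have := (hroot p (fun h => hne (by rw [h])) hpv).1
          omega
      · by_cases hqv : q = v
        · left
          refine ⟨?_, hqv⟩
          by_contra hpu
          have := (hroot p hpu (fun h => hne (by rw [h, hqv]))).2
          rw [hqv] at hlt
          omega
        · right
          refine ⟨q, ⟨hqu, hqv⟩, ?_⟩
          obtain ⟨-, -, -, h4, h5, h6, h7⟩ := hk q hqu hqv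
          unfold Birth
          rcases hkind : kind q with _ | _ | _
          · rcases (h4 p hlt).1 (Or.inl hpq) with h | h
            · exact Or.inl ⟨h, rfl⟩
            · exact Or.inr ⟨h, rfl⟩
          · exfalso
            obtain ⟨h8, h9⟩ := h6 hkind
            rcases (h4 p hlt).1 (Or.inl hpq) with h | h
            · exact h2c _ _ hpq (h ▸ h8)
            · exact h2c _ _ hpq (h ▸ h9)
          · obtain ⟨h8, h9⟩ := h7 hkind
            rcases (h4 p hlt).1 (Or.inl hpq) with h | h
            · exact Or.inl ⟨h, rfl⟩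
            · exact absurd (h ▸ h9) (h2c _ _ hpq)
    · by_cases hpu : p = u
      · left
        refine ⟨hpu, ?_⟩
        by_contra hqv
        have := (hroot q (fun h => hne (by rw [h, hpu])) hqv).1
        rw [hpu] at hlt
        omega
      · by_cases hpv : p = v
        · exfalso
          subst hpv
          by_cases hqu : q = u
          · rw [hqu] at hpq; exact h2c _ _ huv hpq
          · have := (hroot q hqu (fun h => hne (by rw [h]))).2
            omega
        · right
          refine ⟨p, ⟨hpu, hpv⟩, ?_⟩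
          obtain ⟨-, -, -, h4, h5, h6, h7⟩ := hk p hpu hpv
          unfold Birth
          rcases hkind : kind p with _ | _ | _
          · exfalso
            obtain ⟨h8, h9⟩ := h5 hkind
            rcases (h4 q hlt).1 (Or.inr hpq) with h | h
            · exact h2c _ _ hpq (h ▸ h8)
            · exact h2c _ _ hpq (h ▸ h9)
          · rcases (h4 q hlt).1 (Or.inr hpq) with h | h
            · exact Or.inl ⟨rfl, h⟩
            · exact Or.inr ⟨rfl, h⟩
          · obtain ⟨h8, h9⟩ := h7 hkind
            rcases (h4 q hlt).1 (Or.inr hpq) with h | h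
            · exact absurd (h ▸ h8) (h2c _ _ hpq)
            · exact Or.inr ⟨rfl, h⟩
  · rintro (⟨rfl, rfl⟩ | ⟨x, ⟨hxu, hxv⟩, hb⟩)
    · exact huv
    · obtain ⟨-, -, -, -, h5, h6, h7⟩ := hk x hxu hxv
      unfold Birth at hb
      rcases hkind : kind x with _ | _ | _
      · rw [hkind] at hb
        simp only at hb
        rcases hb with ⟨rfl, rfl⟩ | ⟨rfl, rfl⟩
        · exact (h5 hkind).1
        · exact (h5 hkind).2
      · rw [hkind] at hb
        simp only at hb
        rcases hb with ⟨rfl, rfl⟩ | ⟨rfl, rfl⟩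
        · exact (h6 hkind).1
        · exact (h6 hkind).2
      · rw [hkind] at hb
        simp only at hb
        rcases hb with ⟨rfl, rfl⟩ | ⟨rfl, rfl⟩
        · exact (h7 hkind).1
        · exact (h7 hkind).2

end UP2
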