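import Pool.Agent.Lib.MP_20105c_co.Defs2
import Pool.Agent.Lib.MP_20105c_co.TreeOld

set_option autoImplicit false

/-!
# Skeletons of an embedded 2-tree (task R6)
-/

namespace UP2

namespace TreeSkel

variable {V : Type} {G : G2 V}

theorem ix_lo {x : V} (h : G.nr x) : G.ix (G.lo x) < G.ix x := (G.ix_par x h.1 h.2).1

theorem ix_hi {x : V} (h : G.nr x) : G.ix (G.hi x) < G.ix x := (G.ix_par x h.1 h.2).2

theorem lo_ne {x : V} (h : G.nr x) : G.lo x ≠ x := fun e => by
  have := ix_lo h
  rw [e] at this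
  exact lt_irrefl _ this

theorem hi_ne {x : V} (h : G.nr x) : G.hi x ≠ x := fun e => by
  have := ix_hi h
  rw [e] at this
  exact lt_irrefl _ this

theorem arc_ne {u v : V} (h : G.arc u v) : u ≠ v := fun e => by
  have := G.ht_lt u v h
  rw [e] at this
  exact lt_irrefl _ this

theorem par {x : V} (h : G.nr x) : G.arc (G.lo x) (G.hi x) := G.par x h.1 h.2

theorem lo_ne_hi {x : V} (h : G.nr x) : G.lo x ≠ G.hi x := arc_ne (par h)

theorem corner_iff (y z : V) : G.corner y z ↔ z = G.lo y ∨ z = G.hi y ∨ z = y := by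
  unfold G2.corner G2.ca G2.cb G2.cc
  cases G.kind y <;> simp only <;> tauto

theorem hasArc_par (y : V) : G.HasArc y (G.lo y) (G.hi y) := by
  unfold G2.HasArc G2.ca G2.cb G2.cc
  cases G.kind y <;> simp

theorem hasArc_ends (y : V) (b : Bool) :
    G.HasArc y (ends G.lo G.hi G.kind y b).1 (ends G.lo G.hi G.kind y b).2 := by
  unfold G2.HasArc G2.ca G2.cb G2.cc ends
  cases b <;> cases G.kind y <;> simp

theorem birth_iff (x u v : V) : Birth G.lo G.hi G.kind x u v ↔
    ∃ b, (u, v) = ends G.lo G.hi G.kind x b := by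
  unfold Birth ends
  constructor
  · intro h
    cases hk : G.kind x <;> rw [hk] at h <;> simp only at h
    · rcases h with ⟨h1, h2⟩ | ⟨h1, h2⟩
      · exact ⟨false, by rw [h1, h2]⟩
      · exact ⟨true, by rw [h1, h2]⟩
    · rcases h with ⟨h1, h2⟩ | ⟨h1, h2⟩
      · exact ⟨false, by rw [h1, h2]⟩
      · exact ⟨true, by rw [h1, h2]⟩
    · rcases h with ⟨h1, h2⟩ | ⟨h1, h2⟩
      · exact ⟨false, by rw [h1, h2]⟩
      · exact ⟨true, by rw [h1, h2]⟩
  · rintro ⟨b, h⟩
    cases hk : G.kind x <;> cases b <;> rw [hk] at h <;> simp only [Prod.mk.injEq] at h ⊢ <;> tauto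

theorem arc_ends {x : V} (h : G.nr x) (b : Bool) :
    G.arc (ends G.lo G.hi G.kind x b).1 (ends G.lo G.hi G.kind x b).2 :=
  (G.arc_iff _ _).2 (Or.inr ⟨x, h, (birth_iff x _ _).2 ⟨b, rfl⟩⟩)

/-- the ends of a birth arc -/
theorem ends_mem (x : V) (b : Bool) {u v : V} (h : (u, v) = ends G.lo G.hi G.kind x b) :
    (u = x ∧ (v = G.lo x ∨ v = G.hi x)) ∨ (v = x ∧ (u = G.lo x ∨ u = G.hi x)) := by
  unfold ends at h
  cases hk : G.kind x <;> cases b <;> rw [hk] at h <;> simp only [Prod.mk.injEq] at h <;> tauto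

/-- the adjacency to the third corner -/
theorem adj_lo {x : V} (h : G.nr x) : G.Adj (G.lo x) x := by
  have h1 := arc_ends h false
  unfold ends at h1
  cases hk : G.kind x <;> rw [hk] at h1
  · exact Or.inl h1
  · exact Or.inr h1
  · exact Or.inl h1

theorem adj_hi {x : V} (h : G.nr x) : G.Adj (G.hi x) x := by
  have h1 := arc_ends h true
  unfold ends at h1
  cases hk : G.kind x <;> rw [hk] at h1
  · exact Or.inl h1
  · exact Or.inr h1
  · exact Or.inr h1

section side

variable (side : V → Bool)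

theorem sideAt_par_A {y : V} (hy : G.nr y) (hk : G.kind y = Kind.A) :
    sideAt G side y (G.lo y) (G.hi y) = !(side y) := by
  unfold sideAt
  rw [if_neg]
  unfold G2.cc
  rw [hk]
  exact fun h => hi_ne hy h.2

theorem sideAt_par_B {y : V} (hy : G.nr y) (hk : G.kind y = Kind.B) :
    sideAt G side y (G.lo y) (G.hi y) = !(side y) := by
  unfold sideAt
  rw [if_neg]
  unfold G2.ca
  rw [hk]
  exact fun h => lo_ne hy h.1

theorem sideAt_par_T {y : V} (hk : G.kind y = Kind.T) :
    sideAt G side y (G.lo y) (G.hi y) = side y := by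
  unfold sideAt
  rw [if_pos]
  unfold G2.ca G2.cc
  rw [hk]
  exact ⟨rfl, rfl⟩

theorem sideAt_lo_A {y : V} (hk : G.kind y = Kind.A) :
    sideAt G side y (G.lo y) y = side y := by
  unfold sideAt
  rw [if_pos]
  unfold G2.ca G2.cc
  rw [hk]
  exact ⟨rfl, rfl⟩

theorem sideAt_hi_A {y : V} (hy : G.nr y) (hk : G.kind y = Kind.A) :
    sideAt G side y (G.hi y) y = !(side y) := by
  unfold sideAt
  rw [if_neg]
  unfold G2.ca
  rw [hk]
  exact fun h => lo_ne_hi hy h.1.symm

theorem sideAt_lo_B {y : V} (hy : G.nr y) (hk : G.kind y = Kind.B) :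
    sideAt G side y y (G.lo y) = !(side y) := by
  unfold sideAt
  rw [if_neg]
  unfold G2.cc
  rw [hk]
  exact fun h => lo_ne_hi hy h.2

theorem sideAt_hi_B {y : V} (hk : G.kind y = Kind.B) :
    sideAt G side y y (G.hi y) = side y := by
  unfold sideAt
  rw [if_pos]
  unfold G2.ca G2.cc
  rw [hk]
  exact ⟨rfl, rfl⟩

theorem sideAt_lo_T {y : V} (hy : G.nr y) (hk : G.kind y = Kind.T) :
    sideAt G side y (G.lo y) y = !(side y) := by
  unfold sideAt
  rw [if_neg]
  unfold G2.cc
  rw [hk]
  exact fun h => hi_ne hy h.2.symm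

theorem sideAt_hi_T {y : V} (hy : G.nr y) (hk : G.kind y = Kind.T) :
    sideAt G side y y (G.hi y) = !(side y) := by
  unfold sideAt
  rw [if_neg]
  unfold G2.ca
  rw [hk]
  exact fun h => lo_ne hy h.1.symm

end side

variable (E : Emb G)

/-- the new vertex on a birth arc of `w` lies on the side opposite to the triangle of `w` -/
theorem opposite (hold : ∀ w z y : V, E.In w y → G.corner y z → G.Adj w z → G.ix z < G.ix w)
    {x w : V} {b : Bool} (hx : G.nr x) (hw : G.nr w) (hin : ¬ E.In x w)
    (he : (G.lo x, G.hi x) = ends G.lo G.hi G.kind w b) :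
    sideAt G E.side x (G.lo x) (G.hi x) = !(sideAt G E.side w (G.lo x) (G.hi x)) := by
  have hix : G.ix w < G.ix x := by
    rcases ends_mem w b he with ⟨h, _⟩ | ⟨h, _⟩
    · rw [← h]; exact ix_lo hx
    · rw [← h]; exact ix_hi hx
  by_contra hne
  have heq : sideAt G E.side x (G.lo x) (G.hi x) = sideAt G E.side w (G.lo x) (G.hi x) := by
    revert hne
    cases sideAt G E.side x (G.lo x) (G.hi x) <;> cases sideAt G E.side w (G.lo x) (G.hi x) <;>
      simp
  have hwarc : G.HasArc w (G.lo x) (G.hi x) := by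
    have := hasArc_ends (G := G) w b
    rw [← he] at this
    exact this
  rcases E.arcside x w _ _ hx hw (hasArc_par x) hwarc heq with h | h
  · rcases E.sub_corner x w x h ((corner_iff x x).2 (Or.inr (Or.inr rfl))) with h1 | h1
    · exact hin h1
    · rcases (corner_iff w x).1 h1 with h2 | h2 | h2
      · have := ix_lo hw
        rw [← h2] at this
        omega
      · have := ix_hi hw
        rw [← h2] at this
        omega
      · rw [h2] at hix
        exact lt_irrefl _ hix
  · -- the third corner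
    obtain ⟨t, ht1, ht2, ht3, ht4, ht5⟩ : ∃ t, G.corner w t ∧ t ≠ G.lo x ∧ t ≠ G.hi x ∧
        G.Adj t w ∧ G.ix t < G.ix w := by
      have hl : G.lo w ≠ G.hi w := lo_ne_hi hw
      have h1 := lo_ne hw
      have h2 := hi_ne hw
      have e1 : G.lo x = (ends G.lo G.hi G.kind w b).1 := congrArg Prod.fst he
      have e2 : G.hi x = (ends G.lo G.hi G.kind w b).2 := congrArg Prod.snd he
      rw [e1, e2]
      unfold ends
      cases b <;> cases hk : G.kind w <;> simp only
      · exact ⟨G.hi w, (corner_iff _ _).2 (Or.inr (Or.inl rfl)), hl.symm, h2, adj_hi hw, ix_hi hw⟩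
      · exact ⟨G.hi w, (corner_iff _ _).2 (Or.inr (Or.inl rfl)), h2, hl.symm, adj_hi hw, ix_hi hw⟩
      · exact ⟨G.hi w, (corner_iff _ _).2 (Or.inr (Or.inl rfl)), hl.symm, h2, adj_hi hw, ix_hi hw⟩
      · exact ⟨G.lo w, (corner_iff _ _).2 (Or.inl rfl), hl, h1, adj_lo hw, ix_lo hw⟩
      · exact ⟨G.lo w, (corner_iff _ _).2 (Or.inl rfl), h1, hl, adj_lo hw, ix_lo hw⟩
      · exact ⟨G.lo w, (corner_iff _ _).2 (Or.inl rfl), h1, hl, adj_lo hw, ix_lo hw⟩
    have hwx : G.corner x w := by
      rw [corner_iff]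
      rcases ends_mem w b he with ⟨h, _⟩ | ⟨h, _⟩
      · exact Or.inl h.symm
      · exact Or.inr (Or.inl h.symm)
    rcases E.sub_corner w x t h ht1 with h1 | h1
    · have := hold t w x h1 hwx ht4
      omega
    · rcases (corner_iff x t).1 h1 with h2 | h2 | h2
      · exact ht2 h2
      · exact ht3 h2
      · rw [h2] at ht5
        omega

/-- two vertices on the same side of the same arc -/
theorem same_side {x x' : V} (hx : G.nr x) (hx' : G.nr x') (h1 : ¬ E.In x x') (h2 : ¬ E.In x' x)
    (hlo : G.lo x = G.lo x') (hhi : G.hi x = G.hi x')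
    (hs : sideAt G E.side x (G.lo x) (G.hi x) = sideAt G E.side x' (G.lo x) (G.hi x)) :
    x = x' := by
  by_contra hne
  have ha : G.HasArc x' (G.lo x) (G.hi x) := by
    rw [hlo, hhi]
    exact hasArc_par x'
  rcases E.arcside x x' _ _ hx hx' (hasArc_par x) ha hs with h | h
  · rcases E.sub_corner x x' x h ((corner_iff x x).2 (Or.inr (Or.inr rfl))) with h3 | h3
    · exact h1 h3
    · rcases (corner_iff x' x).1 h3 with h4 | h4 | h4
      · rw [← hlo] at h4
        exact lo_ne hx h4.symm
      · rw [← hhi] at h4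
        exact hi_ne hx h4.symm
      · exact hne h4
  · rcases E.sub_corner x' x x' h ((corner_iff x' x').2 (Or.inr (Or.inr rfl))) with h3 | h3
    · exact h2 h3
    · rcases (corner_iff x x').1 h3 with h4 | h4 | h4
      · rw [hlo] at h4
        exact lo_ne hx' h4.symm
      · rw [hhi] at h4
        exact hi_ne hx' h4.symm
      · exact hne h4.symm

/-- the sides along a fan -/
theorem fan_side (hold : ∀ w z y : V, E.In w y → G.corner y z → G.Adj w z → G.ix z < G.ix w)
    {S : Skel V} (hlo : S.lo = G.lo) (hhi : S.hi = G.hi) (hkind : S.kind = G.kind)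
    (hN : ∀ x, S.N x → G.nr x) (hNI : ∀ x y, S.N x → S.N y → ¬ E.In x y)
    {x y : V} {b : Bool} (hx : S.N x) (hk : G.kind x = Kind.T) (h : S.Fan x b y) :
    S.N y ∧ (G.lo y = x → sideAt G E.side y (G.lo y) (G.hi y) = (if b then E.side x
      else !(E.side x))) ∧
    (G.hi y = x → sideAt G E.side y (G.lo y) (G.hi y) = (if b then !(E.side x) else E.side x)) ∧
    (G.lo y = x ∨ G.hi y = x) := by
  have hnx := hN x hx
  induction h with
  | base y hy hps =>
    have hny := hN y hy
    have h1 := (S.ps_new y x b hy hps).2.2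
    rw [hlo, hhi, hkind] at h1
    have h2 := opposite E hold hny hnx (hNI y x hy hx) h1
    have e1 : G.lo y = (ends G.lo G.hi G.kind x b).1 := congrArg Prod.fst h1
    have e2 : G.hi y = (ends G.lo G.hi G.kind x b).2 := congrArg Prod.snd h1
    refine ⟨hy, ?_, ?_, ?_⟩
    · intro h3
      rw [h2]
      cases b
      · exfalso
        rw [h3] at e1
        unfold ends at e1
        rw [hk] at e1
        exact lo_ne hnx e1.symm
      · rw [e1, e2]
        unfold ends
        rw [hk]
        simp only [if_true]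
        rw [sideAt_hi_T E.side hnx hk, Bool.not_not]
    · intro h3
      rw [h2]
      cases b
      · rw [e1, e2]
        unfold ends
        rw [hk]
        simp only
        rw [sideAt_lo_T E.side hnx hk, Bool.not_not]
        simp
      · exfalso
        rw [h3] at e2
        unfold ends at e2
        rw [hk] at e2
        exact hi_ne hnx e2.symm
    · cases b
      · right
        rw [e2]
        unfold ends
        rw [hk]
      · left
        rw [e1]
        unfold ends
        rw [hk]
  | step y z c hfan hz hps hc0 hc1 ih =>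
    obtain ⟨hy, ih1, ih2, ih3⟩ := ih
    have hny := hN y hy
    have hnz := hN z hz
    have h1 := (S.ps_new z y c hz hps).2.2
    rw [hlo] at hc0
    rw [hhi] at hc1
    rw [hlo, hhi, hkind] at h1
    have h2 := opposite E hold hnz hny (hNI z y hz hy) h1
    have e1 : G.lo z = (ends G.lo G.hi G.kind y c).1 := congrArg Prod.fst h1
    have e2 : G.hi z = (ends G.lo G.hi G.kind y c).2 := congrArg Prod.snd h1
    have hlh := lo_ne_hi hny
    have hl := lo_ne hny
    have hh := hi_ne hny
    rw [h2, e1, e2]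
    refine ⟨hz, ?_⟩
    cases c
    · have hyx := hc0 rfl
      have hs := ih1 hyx
      have hxy : y ≠ x := fun h => hl (hyx.trans h.symm)
      unfold ends
      cases hky : G.kind y <;> simp only
      · rw [sideAt_par_A E.side hny hky] at hs
        rw [sideAt_lo_A E.side hky]
        refine ⟨fun _ => ?_, fun h => absurd h hxy, Or.inl hyx⟩
        exact hs
      · rw [sideAt_par_B E.side hny hky] at hs
        rw [sideAt_lo_B E.side hny hky]
        refine ⟨fun h => absurd h hxy, fun _ => ?_, Or.inr hyx⟩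
        rw [hs]
        cases b <;> simp
      · rw [sideAt_par_T E.side hky] at hs
        rw [sideAt_lo_T E.side hny hky]
        refine ⟨fun _ => ?_, fun h => absurd h hxy, Or.inl hyx⟩
        rw [Bool.not_not]
        exact hs
    · have hyx := hc1 rfl
      have hs := ih2 hyx
      have hxy : y ≠ x := fun h => hh (hyx.trans h.symm)
      unfold ends
      cases hky : G.kind y <;> simp only
      · rw [sideAt_par_A E.side hny hky] at hs
        rw [sideAt_hi_A E.side hny hky]
        refine ⟨fun _ => ?_, fun h => absurd h hxy, Or.inl hyx⟩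
        rw [hs]
        cases b <;> simp
      · rw [sideAt_par_B E.side hny hky] at hs
        rw [sideAt_hi_B E.side hky]
        refine ⟨fun h => absurd h hxy, fun _ => ?_, Or.inr hyx⟩
        exact hs
      · rw [sideAt_par_T E.side hky] at hs
        rw [sideAt_hi_T E.side hny hky]
        refine ⟨fun h => absurd h hxy, fun _ => ?_, Or.inr hyx⟩
        rw [Bool.not_not]
        exact hs

/-- the two growths at a vertex between its parents do not both bypass it -/
theorem c1 (hold : ∀ w z y : V, E.In w y → G.corner y z → G.Adj w z → G.ix z < G.ix w)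
    {S : Skel V} (hlo : S.lo = G.lo) (hhi : S.hi = G.hi) (hkind : S.kind = G.kind)
    (hN : ∀ x, S.N x → G.nr x) (hNI : ∀ x y, S.N x → S.N y → ¬ E.In x y) : S.C1 := by
  intro x hx hk
  rw [hkind] at hk
  rintro ⟨⟨y, hy, hky, hyx, hfy⟩, ⟨y', hy', hky', hyx', hfy'⟩⟩
  rw [hkind] at hky hky'
  rw [hlo] at hyx
  rw [hhi] at hyx'
  have hny := hN y hy
  have hny' := hN y' hy'
  have h1 := (fan_side E hold hlo hhi hkind hN hNI hx hk hfy).2.1 hyx
  have h2 := (fan_side E hold hlo hhi hkind hN hNI hx hk hfy').2.2.1 hyx'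
  rw [sideAt_par_B E.side hny hky] at h1
  rw [sideAt_par_A E.side hny' hky'] at h2
  simp only [if_true] at h1
  simp only [Bool.false_eq_true, if_false] at h2
  have hss : E.side y = E.side y' := by
    rw [← h2] at h1
    exact Bool.not_inj h1
  have hcb : G.cb y = x := by
    unfold G2.cb
    rw [hky]
    exact hyx
  have hcb' : G.cb y' = x := by
    unfold G2.cb
    rw [hky']
    exact hyx'
  rcases E.mid y y' hny hny' (hcb.trans hcb'.symm) hss with h | h
  · rcases E.sub_corner y y' y h ((corner_iff y y).2 (Or.inr (Or.inr rfl))) with h3 | h3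
    · exact hNI y y' hy hy' h3
    · rcases (corner_iff y' y).1 h3 with h4 | h4 | h4
      · -- `y'` is born on the arc `y → x`
        have he : (G.lo y', G.hi y') = ends G.lo G.hi G.kind y false := by
          unfold ends
          rw [hky, ← h4, hyx', hyx]
        have h5 := opposite E hold hny' hny (hNI y' y hy' hy) he
        rw [sideAt_par_A E.side hny' hky', ← h4, hyx'] at h5
        have h6 := sideAt_lo_B E.side hny hky
        rw [hyx] at h6
        rw [h6, hss] at h5
        revert h5
        cases E.side y' <;> simp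
      · rw [hyx'] at h4
        exact lo_ne hny (hyx.trans h4.symm)
      · rw [h4, hky'] at hky
        cases hky
  · rcases E.sub_corner y' y y' h ((corner_iff y' y').2 (Or.inr (Or.inr rfl))) with h3 | h3
    · exact hNI y' y hy' hy h3
    · rcases (corner_iff y y').1 h3 with h4 | h4 | h4
      · rw [hyx] at h4
        exact hi_ne hny' (hyx'.trans h4.symm)
      · have he : (G.lo y, G.hi y) = ends G.lo G.hi G.kind y' true := by
          unfold ends
          rw [hky', ← h4, hyx', hyx]
        have h5 := opposite E hold hny hny' (hNI y y' hy hy') he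
        rw [sideAt_par_B E.side hny hky, ← h4, hyx] at h5
        have h6 := sideAt_hi_A E.side hny' hky'
        rw [hyx'] at h6
        rw [h6, hss] at h5
        revert h5
        cases E.side y' <;> simp
      · rw [← h4, hky'] at hky
        cases hky

/-- the general construction -/
theorem mk_skel (hold : ∀ w z y : V, E.In w y → G.corner y z → G.Adj w z → G.ix z < G.ix w)
    (N Rt : V → Prop) (rpos : V → ℤ) (e0 e1 : Fin 3 → V) (good : V → Fin 3 → Prop)
    (hN : ∀ x, N x → G.nr x) (hNI : ∀ x y, N x → N y → ¬ E.In x y)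
    (disj : ∀ x, N x → ¬ Rt x) (e_rt : ∀ j, Rt (e0 j) ∧ Rt (e1 j))
    (rpos_lt : ∀ j, rpos (e0 j) < rpos (e1 j))
    (rpos_inj : ∀ x y, Rt x → Rt y → rpos x = rpos y → x = y)
    (root_nc : ∀ i j, ¬ (rpos (e0 i) < rpos (e0 j) ∧ rpos (e0 j) < rpos (e1 i) ∧
      rpos (e1 i) < rpos (e1 j)))
    (hps : ∀ x, N x → (∃ j, G.lo x = e0 j ∧ G.hi x = e1 j ∧ good x j) ∨
      (∃ w b, N w ∧ (G.lo x, G.hi x) = ends G.lo G.hi G.kind w b))
    (hgood : ∀ x x' j, N x → N x' → G.lo x = G.lo x' → G.hi x = G.hi x' → good x j → good x' j →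
      sideAt G E.side x (G.lo x) (G.hi x) = sideAt G E.side x' (G.lo x) (G.hi x)) :
    ∃ S : Skel V, S.C1 ∧ (∀ x, S.N x ↔ N x) ∧ (∀ x, S.Rt x ↔ Rt x) ∧ S.e0 = e0 ∧ S.e1 = e1 ∧
      S.lo = G.lo ∧ S.hi = G.hi ∧ S.kind = G.kind := by
  classical
  have hex : ∀ x, ∃ s : Fin 3 ⊕ (V × Bool), N x →
      (∀ j, s = Sum.inl j → G.lo x = e0 j ∧ G.hi x = e1 j ∧ good x j) ∧
      (∀ w b, s = Sum.inr (w, b) → N w ∧ (G.lo x, G.hi x) = ends G.lo G.hi G.kind w b) := by
    intro x
    by_cases hx : N x
    · rcases hps x hx with ⟨j, h1, h2, h3⟩ | ⟨w, b, h1, h2⟩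
      · refine ⟨Sum.inl j, fun _ => ⟨?_, ?_⟩⟩
        · intro j' hj'
          cases hj'
          exact ⟨h1, h2, h3⟩
        · intro w b h
          cases h
      · refine ⟨Sum.inr (w, b), fun _ => ⟨?_, ?_⟩⟩
        · intro j' hj'
          cases hj'
        · intro w' b' h
          cases h
          exact ⟨h1, h2⟩
    · exact ⟨Sum.inl 0, fun h => absurd h hx⟩
  choose ps hps' using hex
  have ps_new : ∀ x y b, N x → ps x = Sum.inr (y, b) →
      N y ∧ G.ix y < G.ix x ∧ (G.lo x, G.hi x) = ends G.lo G.hi G.kind y b := by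
    intro x y b hx h
    obtain ⟨h1, h2⟩ := (hps' x hx).2 y b h
    refine ⟨h1, ?_, h2⟩
    rcases ends_mem y b h2 with ⟨h3, _⟩ | ⟨h3, _⟩
    · rw [← h3]; exact ix_lo (hN x hx)
    · rw [← h3]; exact ix_hi (hN x hx)
  let S : Skel V :=
    { N := N
      Rt := Rt
      rpos := rpos
      e0 := e0
      e1 := e1
      ix := G.ix
      lo := G.lo
      hi := G.hi
      kind := G.kind
      ps := ps
      disj := disj
      e_rt := e_rt
      rpos_lt := rpos_lt
      rpos_inj := rpos_inj
      root_nc := root_nc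
      ix_inj := fun x y _ _ h => G.ix_inj h
      ps_root := fun x j hx h => ⟨((hps' x hx).1 j h).1, ((hps' x hx).1 j h).2.1⟩
      ps_new := ps_new
      ps_inj := by
        intro x x' hx hx' h
        rcases hs : ps x with j | ⟨w, b⟩
        · have h1 := (hps' x hx).1 j hs
          have h2 := (hps' x' hx').1 j (h ▸ hs)
          have hlo : G.lo x = G.lo x' := h1.1.trans h2.1.symm
          have hhi : G.hi x = G.hi x' := h1.2.1.trans h2.2.1.symm
          exact same_side E (hN x hx) (hN x' hx') (hNI x x' hx hx') (hNI x' x hx' hx) hlo hhi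
            (hgood x x' j hx hx' hlo hhi h1.2.2 h2.2.2)
        · have h1 := ps_new x w b hx hs
          have h2 := ps_new x' w b hx' (h ▸ hs)
          have hlo : G.lo x = G.lo x' := congrArg Prod.fst (h1.2.2.trans h2.2.2.symm)
          have hhi : G.hi x = G.hi x' := congrArg Prod.snd (h1.2.2.trans h2.2.2.symm)
          refine same_side E (hN x hx) (hN x' hx') (hNI x x' hx hx') (hNI x' x hx' hx) hlo hhi ?_
          have h3 := opposite E hold (hN x hx) (hN w h1.1) (hNI x w hx h1.1) h1.2.2
          have h4 := opposite E hold (hN x' hx') (hN w h1.1) (hNI x' w hx' h1.1) h2.2.2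
          rw [← hlo, ← hhi] at h4
          rw [h3, h4] }
  exact ⟨S, c1 E hold (S := S) rfl rfl rfl hN hNI, fun _ => Iff.rfl, fun _ => Iff.rfl, rfl, rfl,
    rfl, rfl, rfl⟩

theorem tri_arcs {y : V} (h : G.nr y) : G.arc (G.ca y) (G.cb y) ∧ G.arc (G.cb y) (G.cc y) ∧
    G.arc (G.ca y) (G.cc y) := by
  have h1 := arc_ends h false
  have h2 := arc_ends h true
  have h3 := par h
  unfold ends at h1 h2
  unfold G2.ca G2.cb G2.cc
  cases hk : G.kind y <;> rw [hk] at h1 h2 <;> exact ⟨by assumption, by assumption, by assumption⟩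

theorem root_arc : G.arc G.r0 G.r1 := (G.arc_iff _ _).2 (Or.inl ⟨rfl, rfl⟩)

theorem ix_end {x u : V} (h : G.nr x) (hu : u = G.lo x ∨ u = G.hi x) : G.ix u < G.ix x := by
  rcases hu with h1 | h1
  · rw [h1]; exact ix_lo h
  · rw [h1]; exact ix_hi h

theorem adj_end {x u : V} (h : G.nr x) (hu : u = G.lo x ∨ u = G.hi x) : G.Adj u x := by
  rcases hu with h1 | h1
  · rw [h1]; exact adj_lo h
  · rw [h1]; exact adj_hi h

end TreeSkel

namespace Emb

variable {V : Type} {G : G2 V} (E : Emb G)

variable {reg : V → Option V} (h1 : ∀ x y, reg x = some y ↔ E.isReg x y)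
  (h2 : ∀ x, reg x = none ↔ ∀ y, ¬ E.In x y)

include h1 h2

open TreeSkel in
/-- task R6: the skeleton of the inside of a triangle -/
theorem exists_skel_reg [Finite V] (y0 : V) (hy : G.nr y0) : ∃ S : Skel V, S.C1 ∧
    (∀ x, S.N x ↔ reg x = some y0) ∧ (∀ x, S.Rt x ↔ G.corner y0 x) ∧
    (∀ u v, G.arc u v → (reg u = some y0 ∨ reg v = some y0) →
      (reg u = some y0 ∨ G.corner y0 u) → (reg v = some y0 ∨ G.corner y0 v) → S.SArc u v) := by
  classical
  have hold : ∀ w z y : V, E.In w y → G.corner y z → G.Adj w z → G.ix z < G.ix w :=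
    fun w z y => E.old h1 h2 w z y
  obtain ⟨t1, t2, t3⟩ := tri_arcs hy
  have t1h := G.ht_lt _ _ t1
  have t2h := G.ht_lt _ _ t2
  have hab : G.ca y0 ≠ G.cb y0 := arc_ne t1
  have hbc : G.cb y0 ≠ G.cc y0 := arc_ne t2
  have hac : G.ca y0 ≠ G.cc y0 := arc_ne t3
  have hIn : ∀ x, reg x = some y0 → E.In x y0 := fun x hx => ((h1 x y0).1 hx).1
  have hnr : ∀ x, reg x = some y0 → G.nr x := by
    intro x hx
    have := hIn x hx
    constructor
    · rintro rfl
      exact (E.root_not_in y0).1 this
    · rintro rfl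
      exact (E.root_not_in y0).2 this
  have hNI : ∀ x y, reg x = some y0 → reg y = some y0 → ¬ E.In x y := fun x y hx hy' =>
    E.not_in_of_reg h1 h2 x y (hx.trans hy'.symm)
  set e0 : Fin 3 → V := ![G.ca y0, G.cb y0, G.ca y0] with he0
  set e1 : Fin 3 → V := ![G.cb y0, G.cc y0, G.cc y0] with he1
  have hAe : ∀ j, G.HasArc y0 (e0 j) (e1 j) := by
    intro j
    fin_cases j
    · exact Or.inl ⟨rfl, rfl⟩
    · exact Or.inr (Or.inl ⟨rfl, rfl⟩)
    · exact Or.inr (Or.inr ⟨rfl, rfl⟩)
  set rpos : V → ℤ := fun x => if x = G.ca y0 then 0 else if x = G.cb y0 then 1 else 2 with hrpos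
  have ra : rpos (G.ca y0) = 0 := by simp [hrpos]
  have rb : rpos (G.cb y0) = 1 := by simp [hrpos, hab.symm]
  have rc : rpos (G.cc y0) = 2 := by simp [hrpos, hac.symm, hbc.symm]
  -- new vertex of an arc
  have hbirth : ∀ x u v, G.nr x → Birth G.lo G.hi G.kind x u v →
      (reg u = some y0 ∨ reg v = some y0) → (reg u = some y0 ∨ G.corner y0 u) →
      (reg v = some y0 ∨ G.corner y0 v) → reg x = some y0 := by
    intro x u v hx hb h3 h4 h5
    obtain ⟨b, hb⟩ := (birth_iff x u v).1 hb
    rcases ends_mem x b hb with ⟨h6, h7⟩ | ⟨h6, h7⟩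
    · subst h6
      rcases h4 with h4 | h4
      · exact h4
      · rcases h3 with h3 | h3
        · exact h3
        · have a1 := hold v u y0 (hIn v h3) h4 (adj_end hx h7)
          have a2 := ix_end hx h7
          omega
    · subst h6
      rcases h5 with h5 | h5
      · exact h5
      · rcases h3 with h3 | h3
        · have a1 := hold u v y0 (hIn u h3) h5 (adj_end hx h7)
          have a2 := ix_end hx h7
          omega
        · exact h3
  have hroot : ∀ u, (u = G.r0 ∨ u = G.r1) → reg u ≠ some y0 := by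
    rintro u (rfl | rfl) h
    · exact (E.root_not_in y0).1 (hIn _ h)
    · exact (E.root_not_in y0).2 (hIn _ h)
  obtain ⟨S, hC, hSN, hSR, -, -, hlo, hhi, hkind⟩ := mk_skel E hold (fun x => reg x = some y0)
    (fun x => G.corner y0 x) rpos e0 e1 (fun x j => G.lo x = e0 j ∧ G.hi x = e1 j)
    hnr hNI (fun x hx => E.in_not_corner x y0 (hIn x hx))
    (by
      intro j
      fin_cases j
      · exact ⟨Or.inl rfl, Or.inr (Or.inl rfl)⟩
      · exact ⟨Or.inr (Or.inl rfl), Or.inr (Or.inr rfl)⟩
      · exact ⟨Or.inl rfl, Or.inr (Or.inr rfl)⟩)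
    (by
      intro j
      fin_cases j
      · show rpos (G.ca y0) < rpos (G.cb y0)
        rw [ra, rb]; norm_num
      · show rpos (G.cb y0) < rpos (G.cc y0)
        rw [rb, rc]; norm_num
      · show rpos (G.ca y0) < rpos (G.cc y0)
        rw [ra, rc]; norm_num)
    (by
      rintro x y (rfl | rfl | rfl) (rfl | rfl | rfl) h
      · rfl
      · rw [ra, rb] at h; norm_num at h
      · rw [ra, rc] at h; norm_num at h
      · rw [ra, rb] at h; norm_num at h
      · rfl
      · rw [rb, rc] at h; norm_num at h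
      · rw [ra, rc] at h; norm_num at h
      · rw [rb, rc] at h; norm_num at h
      · rfl)
    (by
      intro i j
      have f0 : ∀ j, rpos (e0 j) = ![0, 1, 0] j := by
        intro j
        fin_cases j
        · exact ra
        · exact rb
        · exact ra
      have f1 : ∀ j, rpos (e1 j) = ![1, 2, 2] j := by
        intro j
        fin_cases j
        · exact rb
        · exact rc
        · exact rc
      rw [f0, f0, f1, f1]
      revert i j
      decide)
    (by
      intro x hx
      have hx' := hnr x hx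
      obtain ⟨p1, p2⟩ := E.par_reg h1 h2 x hx'
      have q1 : reg (G.lo x) = some y0 ∨ G.corner y0 (G.lo x) := by
        rcases p1 with p1 | ⟨y, p1, p3⟩
        · left; rw [p1, hx]
        · right
          rw [hx] at p1
          cases p1
          exact p3
      have q2 : reg (G.hi x) = some y0 ∨ G.corner y0 (G.hi x) := by
        rcases p2 with p1 | ⟨y, p1, p3⟩
        · left; rw [p1, hx]
        · right
          rw [hx] at p1
          cases p1
          exact p3
      have hpar := par hx'
      by_cases hboth : G.corner y0 (G.lo x) ∧ G.corner y0 (G.hi x)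
      · left
        have hlt := G.ht_lt _ _ hpar
        have : ∃ j, G.lo x = e0 j ∧ G.hi x = e1 j := by
          rcases hboth with ⟨g1 | g1 | g1, g2 | g2 | g2⟩
          · rw [g1, g2] at hlt; exact absurd hlt (lt_irrefl _)
          · exact ⟨0, g1, g2⟩
          · exact ⟨2, g1, g2⟩
          · rw [g1, g2] at hlt; exact absurd (hlt.trans t1h) (lt_irrefl _)
          · rw [g1, g2] at hlt; exact absurd hlt (lt_irrefl _)
          · exact ⟨1, g1, g2⟩
          · rw [g1, g2] at hlt; exact absurd ((hlt.trans t1h).trans t2h) (lt_irrefl _)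
          · rw [g1, g2] at hlt; exact absurd (hlt.trans t2h) (lt_irrefl _)
          · rw [g1, g2] at hlt; exact absurd hlt (lt_irrefl _)
        obtain ⟨j, g1, g2⟩ := this
        exact ⟨j, g1, g2, g1, g2⟩
      · right
        have q3 : reg (G.lo x) = some y0 ∨ reg (G.hi x) = some y0 := by
          by_contra hcon
          push Not at hcon
          exact hboth ⟨q1.resolve_left hcon.1, q2.resolve_left hcon.2⟩
        rcases (G.arc_iff _ _).1 hpar with ⟨g1, g2⟩ | ⟨w, hw, hb⟩
        · rcases q3 with q3 | q3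
          · exact absurd q3 (hroot _ (Or.inl g1))
          · exact absurd q3 (hroot _ (Or.inr g2))
        · obtain ⟨b, hb'⟩ := (birth_iff w _ _).1 hb
          exact ⟨w, b, hbirth w _ _ hw hb q3 q1 q2, hb'⟩)
    (by
      intro x x' j hx hx' hlo hhi hg hg'
      have key : ∀ z, reg z = some y0 → G.lo z = e0 j → G.hi z = e1 j →
          sideAt G E.side z (e0 j) (e1 j) = sideAt G E.side y0 (e0 j) (e1 j) := by
        intro z hz g1 g2
        have hs : E.Sub z y0 := E.sub_of_in z y0 z (hnr z hz)
          ((corner_iff z z).2 (Or.inr (Or.inr rfl))) (hIn z hz)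
        refine E.sub_arcside z y0 _ _ hs ?_ (hAe j)
        rw [← g1, ← g2]
        exact hasArc_par z
      rw [hg.1, hg.2, key x hx hg.1 hg.2, key x' hx' hg'.1 hg'.2])
  refine ⟨S, hC, hSN, hSR, ?_⟩
  intro u v huv h3 h4 h5
  rcases (G.arc_iff u v).1 huv with ⟨g1, g2⟩ | ⟨x, hx, hb⟩
  · rcases h3 with h3 | h3
    · exact absurd h3 (hroot _ (Or.inl g1))
    · exact absurd h3 (hroot _ (Or.inr g2))
  · refine Or.inr ⟨x, (hSN x).2 (hbirth x u v hx hb h3 h4 h5), ?_⟩
    rw [hlo, hhi, hkind]
    exact hb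

open TreeSkel in
/-- task R6: the skeleton of the outside -/
theorem exists_skel_top [Finite V] : ∃ S : Skel V, S.C1 ∧
    (∀ x, S.N x ↔ reg x = none ∧ G.nr x) ∧ (∀ x, S.Rt x ↔ x = G.r0 ∨ x = G.r1) ∧
    (∀ u v, G.arc u v → reg u = none → reg v = none → S.SArc u v) := by
  classical
  have hold : ∀ w z y : V, E.In w y → G.corner y z → G.Adj w z → G.ix z < G.ix w :=
    fun w z y => E.old h1 h2 w z y
  have hr : G.r0 ≠ G.r1 := arc_ne root_arc
  set rpos : V → ℤ := fun x => if x = G.r0 then 0 else 1 with hrpos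
  have r0 : rpos G.r0 = 0 := by simp [hrpos]
  have r1 : rpos G.r1 = 1 := by simp [hrpos, hr.symm]
  obtain ⟨S, hC, hSN, hSR, hSe0, hSe1, hlo, hhi, hkind⟩ := mk_skel E hold
    (fun x => reg x = none ∧ G.nr x) (fun x => x = G.r0 ∨ x = G.r1) rpos (fun _ => G.r0)
    (fun _ => G.r1) (fun x j => sideAt G E.side x (G.lo x) (G.hi x) = decide (j = 1))
    (fun x hx => hx.2) (fun x y hx _ => (h2 x).1 hx.1 y)
    (fun x hx h => h.elim hx.2.1 hx.2.2)
    (fun _ => ⟨Or.inl rfl, Or.inr rfl⟩)
    (fun _ => by rw [r0, r1]; norm_num)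
    (by
      rintro x y (rfl | rfl) (rfl | rfl) h
      · rfl
      · rw [r0, r1] at h; norm_num at h
      · rw [r0, r1] at h; norm_num at h
      · rfl)
    (by
      intro i j h
      exact lt_irrefl _ h.1)
    (by
      intro x hx
      have hpar := par hx.2
      obtain ⟨p1, p2⟩ := E.par_reg h1 h2 x hx.2
      have q1 : reg (G.lo x) = none := by
        rcases p1 with p1 | ⟨y, p1, _⟩
        · rw [p1, hx.1]
        · rw [hx.1] at p1
          cases p1
      have q2 : reg (G.hi x) = none := by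
        rcases p2 with p1 | ⟨y, p1, _⟩
        · rw [p1, hx.1]
        · rw [hx.1] at p1
          cases p1
      rcases (G.arc_iff _ _).1 hpar with ⟨g1, g2⟩ | ⟨w, hw, hb⟩
      · left
        cases hs : sideAt G E.side x (G.lo x) (G.hi x)
        · exact ⟨0, g1, g2, by simp⟩
        · exact ⟨1, g1, g2, by simp⟩
      · right
        obtain ⟨b, hb'⟩ := (birth_iff w _ _).1 hb
        refine ⟨w, b, ⟨?_, hw⟩, hb'⟩
        rcases ends_mem w b hb' with ⟨h6, _⟩ | ⟨h6, _⟩
        · rw [← h6]; exact q1
        · rw [← h6]; exact q2)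
    (by
      intro x x' j _ _ hlo hhi hg hg'
      rw [hg, hlo, hhi, hg'])
  refine ⟨S, hC, hSN, hSR, ?_⟩
  intro u v huv hu hv
  rcases (G.arc_iff u v).1 huv with ⟨g1, g2⟩ | ⟨x, hx, hb⟩
  · exact Or.inl ⟨0, by rw [hSe0]; exact g1, by rw [hSe1]; exact g2⟩
  · refine Or.inr ⟨x, (hSN x).2 ⟨?_, hx⟩, ?_⟩
    · obtain ⟨b, hb'⟩ := (birth_iff x u v).1 hb
      rcases ends_mem x b hb' with ⟨h6, _⟩ | ⟨h6, _⟩
      · rw [← h6]; exact hu
      · rw [← h6]; exact hv
    · rw [hlo, hhi, hkind]
      exact hb

end Emb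

end UP2
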