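import Pool.Agent.Lib.MP_20105c_co.GeoDraw
import Pool.Agent.Lib.MP_20105c_co.GeoEmb
import Pool.Agent.Lib.MP_20105c_co.GeoRoot
import Pool.Agent.Lib.MP_20105c_co.TreeRoot
import Pool.Agent.Lib.MP_20105c_co.TreeReg
import Pool.Agent.Lib.MP_20105c_co.TreeNest
import Pool.Agent.Lib.MP_20105c_co.Homes
import Pool.Agent.Lib.MP_20105c_co.TreeSkel
import Pool.Agent.Lib.MP_20105c_co.SkelLayout
import Pool.Agent.Lib.MP_20105c_co.NestFin

set_option autoImplicit false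

/-!
# Upward planar 2-trees have bounded stack number
-/

namespace UP2

/-- the nest of a drawing -/
theorem exists_nest : ∃ k : ℕ, ∀ (V : Type) [Fintype V] (G : G2 V), Nonempty (Emb G) →
    ∃ Q : Nest V k, Q.arc = G.arc := by
  obtain ⟨K, hK⟩ := skel_layout
  refine ⟨K, fun V _ G ⟨E⟩ => ?_⟩
  obtain ⟨pc, hpc⟩ := G.exists_pc
  obtain ⟨reg, h1, h2⟩ := E.exists_reg
  exact TreeNest.nest_of_emb E (fun S hS => hK V S (exists_homes S hS)) pc hpc reg h1 h2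
    (fun u v h => E.cls h1 h2 u v h) (E.exists_lev h1 h2)
    (fun y0 hy => E.exists_skel_reg h1 h2 y0 hy) (E.exists_skel_top h1 h2)

theorem final : ∃ k : ℕ, ∀ (n : ℕ) (A : Fin n → Fin n → Prop),
    (∀ v, ¬ Relation.TransGen A v v) →
    (2 ≤ n ∧ ∃ σ : Equiv.Perm (Fin n),
      (∀ i j : Fin n, i.val = 0 → j.val = 1 → (A (σ i) (σ j) ∨ A (σ j) (σ i))) ∧
      (∀ i : Fin n, 2 ≤ i.val → ∃ a b : Fin n, a < i ∧ b < i ∧ a ≠ b ∧
        (A (σ a) (σ b) ∨ A (σ b) (σ a)) ∧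
        (A (σ a) (σ i) ∨ A (σ i) (σ a)) ∧
        (A (σ b) (σ i) ∨ A (σ i) (σ b)) ∧
        (∀ c : Fin n, c < i → (A (σ c) (σ i) ∨ A (σ i) (σ c)) → c = a ∨ c = b))) →
    (∃ p : Fin n → ℝ × ℝ, Function.Injective p ∧
      ∃ γ : Fin n → Fin n → unitInterval → ℝ × ℝ,
        (∀ u v, A u v → Continuous (γ u v) ∧ γ u v (0 : unitInterval) = p u ∧
          γ u v (1 : unitInterval) = p v ∧ StrictMono (fun t => (γ u v t).2)) ∧
        (∀ u v w t, A u v → γ u v t = p w → w = u ∨ w = v) ∧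
        (∀ u v x y t s, A u v → A x y → γ u v t = γ x y s →
          (u = x ∧ v = y ∧ t = s) ∨
          ∃ w, γ u v t = p w ∧ (w = u ∨ w = v) ∧ (w = x ∨ w = y))) →
    ∃ τ : Fin n → ℕ, Function.Injective τ ∧ (∀ u v, A u v → τ u < τ v) ∧
      ∃ c : Fin n → Fin n → Fin k, ∀ u v x y, A u v → A x y → c u v = c x y →
        ¬ (τ u < τ x ∧ τ x < τ v ∧ τ v < τ y) := by
  obtain ⟨k, hk⟩ := exists_nest
  obtain ⟨K, hK⟩ := nest_layout k
  refine ⟨K, fun n A hA h2 hdraw => ?_⟩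
  obtain ⟨p, hp, γ, g1, g2, g3⟩ := hdraw
  obtain ⟨D⟩ := exists_draw A p hp γ g1 g2 g3
  have harc : ∃ u v, A u v := by
    obtain ⟨hn, σ, hσ, -⟩ := h2
    rcases hσ ⟨0, by omega⟩ ⟨1, by omega⟩ rfl rfl with h | h
    · exact ⟨_, _, h⟩
    · exact ⟨_, _, h⟩
  obtain ⟨u, v, huv, hroot⟩ := D.exists_root harc
  obtain ⟨G, hG0, hG1, hGa, hGh⟩ := exists_G2 A hA h2 (fun v => (p v).2) D.ht_lt u v huv
  subst hGa hG0 hG1
  have hE : Nonempty (Emb G) := by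
    have : ∀ ht : Fin n → ℝ, ∀ D : Draw G.arc ht, G.ht = ht →
        (∀ a b c, Tri G.arc a b c → (D.x G.r0, ht G.r0) ∉ D.region a b c ∧
          (D.x G.r1, ht G.r1) ∉ D.region a b c) → Nonempty (Emb G) := by
      intro ht D h hr
      subst h
      exact exists_emb G D hr
    exact this _ D hGh hroot
  obtain ⟨Q, hQ⟩ := hk (Fin n) G hE
  obtain ⟨τ, c, hinj, hlt, hnc⟩ := hK (Fin n) Q
  rw [hQ] at hlt hnc
  obtain ⟨M, hM⟩ : ∃ M : ℤ, ∀ v, 0 ≤ τ v + M := by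
    refine ⟨∑ v, |τ v|, fun v => ?_⟩
    have h1 : |τ v| ≤ ∑ v, |τ v| := Finset.single_le_sum (f := fun v => |τ v|)
      (fun i _ => abs_nonneg _) (Finset.mem_univ v)
    have h2 := neg_abs_le (τ v)
    linarith
  have hlt' : ∀ u v, ((τ u + M).toNat < (τ v + M).toNat ↔ τ u < τ v) := by
    intro u v
    have := hM u
    have := hM v
    omega
  refine ⟨fun v => (τ v + M).toNat, ?_, fun u v h => (hlt' u v).2 (hlt u v h), c, ?_⟩
  · intro u v h
    apply hinj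
    have := hM u
    have := hM v
    simp only at h
    omega
  · intro u v x y h1 h2 h3 h4
    simp only [hlt'] at h4
    exact hnc u v x y h1 h2 h3 h4

end UP2
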