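import Pool.Agent.Lib.MP_20105c_co.Defs

set_option autoImplicit false

namespace UP2

/-! ## Blocks -/

/-- blocks are intervals -/
theorem FOrd.conv {V : Type} {M : V → Prop} {h : V → Option V} {r τ : V → ℤ}
    (H : FOrd M h r τ) {z x y w : V} (hz : M z) (hx : M x) (hy : M y) (hw : M w)
    (h1 : Desc h z x) (h2 : Desc h z y) (h3 : τ x < τ w) (h4 : τ w < τ y) : Desc h z w := by
  by_contra hcon
  have a1 := (H.blk z x w hz hx hw h1 hcon).1.1 h3
  have a2 := (H.blk z y w hz hy hw h2 hcon).2.1 h4
  omega

/-- two blocks are nested or disjoint -/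
theorem desc_or {V : Type} {h : V → Option V} {z z' x : V} (h1 : Desc h z x) (h2 : Desc h z' x) :
    Desc h z z' ∨ Desc h z' z := by
  induction h1 with
  | refl => exact Or.inr h2
  | @tail b c hzb hbc ih =>
    rcases Relation.ReflTransGen.cases_tail h2 with heq | ⟨b', hzb', hb'c⟩
    · subst heq
      exact Or.inl (Relation.ReflTransGen.tail hzb hbc)
    · have hbb : b' = b := by
        have h3 : some b' = some b := hb'c.symm.trans hbc
        exact Option.some.inj h3
      subst hbb
      exact ih hzb'

/-! ## Greedy colouring -/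

/-- greedy colouring -/
theorem exists_greedy {V : Type} (rk : V → ℕ) (n : ℕ) (bad : V → Finset V)
    (hcard : ∀ x, (bad x).card ≤ n) (hrk : ∀ x, ∀ y ∈ bad x, rk y < rk x) :
    ∃ c : V → Fin (n + 1), ∀ x, ∀ y ∈ bad x, c x ≠ c y := by
  classical
  let F : (x : V) → ((y : V) → rk y < rk x → Fin (n + 1)) → Fin (n + 1) := fun x rec =>
    if h : ∃ a : Fin (n + 1), ∀ (y : V) (hy : y ∈ bad x), a ≠ rec y (hrk x y hy) then h.choose
    else 0
  let wf : WellFounded (fun y x : V => rk y < rk x) := InvImage.wf rk Nat.lt_wfRel.wf
  let c : V → Fin (n + 1) := wf.fix F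
  have hc : ∀ x, c x = F x (fun y _ => c y) := fun x => wf.fix_eq F x
  refine ⟨c, fun x y hy => ?_⟩
  have hex : ∃ a : Fin (n + 1), ∀ (y : V) (_ : y ∈ bad x), a ≠ c y := by
    have hlt : ((bad x).image c).card < (Finset.univ : Finset (Fin (n + 1))).card := by
      rw [Finset.card_univ, Fintype.card_fin]
      exact Nat.lt_succ_of_le (Finset.card_image_le.trans (hcard x))
    obtain ⟨a, -, ha⟩ := Finset.exists_mem_notMem_of_card_lt_card hlt
    exact ⟨a, fun y hy h => ha (Finset.mem_image.2 ⟨y, hy, h.symm⟩)⟩
  have hx : c x = hex.choose := by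
    rw [hc x]
    exact dif_pos hex
  rw [hx]
  exact hex.choose_spec y hy

/-! ## Existence of the order -/

section Ford

variable {V : Type} (M : V → Prop) (h : V → Option V) (rk : V → ℕ) (r : V → ℤ) (B : ℕ)

/-- position and radius -/
noncomputable def forestPos (x : V) : ℚ × ℚ :=
  match h x with
  | none => ((r x : ℚ), 1 / 4)
  | some m => if hm : rk m < rk x then
      ((forestPos m).1 + (r x : ℚ) * ((forestPos m).2 / (B + 1)),
        (forestPos m).2 / (B + 1) / 4)
    else ((r x : ℚ), 1 / 4)
termination_by rk x
decreasing_by all_goals exact hm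

private theorem forestPos_none {x : V} (hx : h x = none) :
    forestPos h rk r B x = ((r x : ℚ), 1 / 4) := by
  rw [forestPos]
  rw [hx]

private theorem forestPos_some {x m : V} (hx : h x = some m) (hm : rk m < rk x) :
    forestPos h rk r B x = ((forestPos h rk r B m).1 +
      (r x : ℚ) * ((forestPos h rk r B m).2 / (B + 1)),
      (forestPos h rk r B m).2 / (B + 1) / 4) := by
  rw [forestPos]
  simp only [hx, hm, dif_pos]

end Ford

private theorem forest_rank {V : Type} [Fintype V] (p : V → ℚ) :
    ∃ τ : V → ℤ, ∀ x y, (τ x < τ y ↔ p x < p y) := by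
  classical
  refine ⟨fun x => ((Finset.univ.filter fun y => p y < p x).card : ℤ), fun x y => ?_⟩
  constructor
  · intro hlt
    by_contra hcon
    rw [not_lt] at hcon
    have hsub : (Finset.univ.filter fun w => p w < p y) ⊆
        (Finset.univ.filter fun w => p w < p x) := by
      intro w hw
      rw [Finset.mem_filter] at hw ⊢
      exact ⟨hw.1, lt_of_lt_of_le hw.2 hcon⟩
    have h1 := Finset.card_le_card hsub
    have h2 : ((Finset.univ.filter fun w => p w < p x).card : ℤ) <
      ((Finset.univ.filter fun w => p w < p y).card : ℤ) := hlt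
    omega
  · intro hlt
    have hsub : (Finset.univ.filter fun w => p w < p x) ⊂
        (Finset.univ.filter fun w => p w < p y) := by
      rw [Finset.ssubset_iff_of_subset]
      · refine ⟨x, ?_, ?_⟩
        · rw [Finset.mem_filter]
          exact ⟨Finset.mem_univ _, hlt⟩
        · rw [Finset.mem_filter]
          exact fun h => lt_irrefl _ h.2
      · intro w hw
        rw [Finset.mem_filter] at hw ⊢
        exact ⟨hw.1, hw.2.trans hlt⟩
    have := Finset.card_lt_card hsub
    show ((Finset.univ.filter fun w => p w < p x).card : ℤ) <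
      ((Finset.univ.filter fun w => p w < p y).card : ℤ)
    exact_mod_cast this

theorem exists_ford {V : Type} [Fintype V] (M : V → Prop) (h : V → Option V) (rk : V → ℕ)
    (r : V → ℤ) (hM : ∀ x m, M x → h x = some m → M m)
    (hrk : ∀ x m, M x → h x = some m → rk m < rk x)
    (hr : ∀ x m, M x → h x = some m → r x ≠ 0)
    (hinj : ∀ x y, M x → M y → h x = h y → r x = r y → x = y) :
    ∃ τ : V → ℤ, FOrd M h r τ := by
  classical
  obtain ⟨B, hB⟩ : ∃ B : ℕ, ∀ x, |(r x : ℚ)| ≤ B := by
    refine ⟨∑ x, (r x).natAbs, fun x => ?_⟩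
    have h1 : (r x).natAbs ≤ ∑ x, (r x).natAbs :=
      Finset.single_le_sum (f := fun x => (r x).natAbs) (fun _ _ => Nat.zero_le _)
        (Finset.mem_univ x)
    have h2 : |(r x : ℚ)| = ((r x).natAbs : ℚ) := by
      rw [Nat.cast_natAbs, Int.cast_abs]
    rw [h2]
    exact_mod_cast h1
  set p : V → ℚ := fun x => (forestPos h rk r B x).1 with hp
  set d : V → ℚ := fun x => (forestPos h rk r B x).2 with hd
  have hB1 : (0 : ℚ) < B + 1 := by positivity
  -- equations
  have pn : ∀ x, h x = none → p x = r x ∧ d x = 1 / 4 := by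
    intro x hx
    have := forestPos_none h rk r B hx
    exact ⟨congrArg Prod.fst this, congrArg Prod.snd this⟩
  have ps : ∀ x m, M x → h x = some m → p x = p m + r x * (d m / (B + 1)) ∧
      d x = d m / (B + 1) / 4 := by
    intro x m hx hxm
    have := forestPos_some h rk r B hxm (hrk x m hx hxm)
    exact ⟨congrArg Prod.fst this, congrArg Prod.snd this⟩
  -- radii are positive
  have dpos : ∀ k x, M x → rk x = k → 0 < d x := by
    intro k
    induction k using Nat.strong_induction_on with
    | _ k ih =>
      intro x hx hk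
      rcases hxm : h x with _ | m
      · rw [(pn x hxm).2]
        norm_num
      · rw [(ps x m hx hxm).2]
        have := ih (rk m) (hk ▸ hrk x m hx hxm) m (hM x m hx hxm) rfl
        positivity
  have dpos' : ∀ x, M x → 0 < d x := fun x hx => dpos _ x hx rfl
  -- ancestors are members
  have descM : ∀ z x, M x → Desc h z x → M z := by
    intro z x hx hzx
    induction hzx with
    | refl => exact hx
    | @tail b c _ hbc ih => exact ih (hM c b hx hbc)
  have descRk : ∀ z x, M x → Desc h z x → z = x ∨ rk z < rk x := by
    intro z x hx hzx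
    induction hzx with
    | refl => exact Or.inl rfl
    | @tail b c _ hbc ih =>
      have h1 := hrk c b hx hbc
      rcases ih (hM c b hx hbc) with h2 | h2
      · exact Or.inr (h2 ▸ h1)
      · exact Or.inr (h2.trans h1)
  -- blocks are contained in the intervals
  have inside : ∀ z x, M x → Desc h z x → |p x - p z| + d x ≤ d z := by
    intro z x hx hzx
    induction hzx with
    | refl => rw [sub_self, abs_zero, zero_add]
    | @tail b c _ hbc ih =>
      have hb := hM c b hx hbc
      have h1 := ih hb
      obtain ⟨h2, h3⟩ := ps c b hx hbc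
      have hdb := dpos' b hb
      have h4 : |p c - p b| ≤ B * (d b / (B + 1)) := by
        rw [h2, add_sub_cancel_left, abs_mul, abs_of_pos (div_pos hdb hB1)]
        exact mul_le_mul_of_nonneg_right (hB c) (div_pos hdb hB1).le
      have h5 : |p c - p z| ≤ |p c - p b| + |p b - p z| := abs_sub_le _ _ _
      have h6 : B * (d b / (B + 1)) + d b / (B + 1) = d b := by
        field_simp
      have h7 : 0 < d b / (B + 1) := div_pos hdb hB1
      rw [h3]
      linarith
  -- siblings are far apart
  have apart : ∀ x y m, M x → M y → h x = some m → h y = some m → x ≠ y →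
      d m / (B + 1) ≤ |p x - p y| := by
    intro x y m hx hy hxm hym hne
    have hdm := dpos' m (hM x m hx hxm)
    rw [(ps x m hx hxm).1, (ps y m hy hym).1, add_sub_add_left_eq_sub, ← sub_mul, abs_mul,
      abs_of_pos (div_pos hdm hB1)]
    have h1 : r x - r y ≠ 0 := by
      intro h0
      exact hne (hinj x y hx hy (hxm.trans hym.symm) (by omega))
    have h2 : (1 : ℤ) ≤ |r x - r y| := Int.one_le_abs h1
    have h3 : (1 : ℚ) ≤ |(r x : ℚ) - r y| := by exact_mod_cast h2
    exact le_mul_of_one_le_left (div_pos hdm hB1).le h3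
  have apart0 : ∀ x y, M x → M y → h x = none → h y = none → x ≠ y → 1 ≤ |p x - p y| := by
    intro x y hx hy hxm hym hne
    rw [(pn x hxm).1, (pn y hym).1]
    have h1 : r x - r y ≠ 0 := by
      intro h0
      exact hne (hinj x y hx hy (hxm.trans hym.symm) (by omega))
    have h2 : (1 : ℤ) ≤ |r x - r y| := Int.one_le_abs h1
    exact_mod_cast h2
  -- every member has a root
  have hroot : ∀ k x, M x → rk x = k → ∃ z, h z = none ∧ Desc h z x := by
    intro k
    induction k using Nat.strong_induction_on with
    | _ k ih =>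
      intro x hx hk
      rcases hxm : h x with _ | m
      · exact ⟨x, hxm, Relation.ReflTransGen.refl⟩
      · obtain ⟨z, hz, hzm⟩ := ih (rk m) (hk ▸ hrk x m hx hxm) m (hM x m hx hxm) rfl
        exact ⟨z, hz, Relation.ReflTransGen.tail hzm hxm⟩
  -- points outside a block are outside the interval
  have outside : ∀ k z, M z → rk z = k → ∀ y, M y → ¬ Desc h z y → d z < |p y - p z| := by
    intro k
    induction k using Nat.strong_induction_on with
    | _ k ih =>
      intro z hz hk y hy hzy
      rcases hzm : h z with _ | m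
      · obtain ⟨y0, hy0, hy0y⟩ := hroot _ y hy rfl
        have hne : y0 ≠ z := fun h0 => hzy (h0 ▸ hy0y)
        have h1 := apart0 y0 z (descM y0 y hy hy0y) hz hy0 hzm hne
        have h2 := inside y0 y hy hy0y
        have h3 := (pn y0 hy0).2
        have h4 := (pn z hzm).2
        have h5 : |p y0 - p z| ≤ |p y0 - p y| + |p y - p z| := abs_sub_le _ _ _
        have h6 : |p y0 - p y| = |p y - p y0| := abs_sub_comm _ _
        have h7 := dpos' y hy
        rw [h4]
        rw [h3] at h2
        linarith
      · have hmM := hM z m hz hzm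
        have hdm := dpos' m hmM
        have h7 : 0 < d m / (B + 1) := div_pos hdm hB1
        obtain ⟨e1, e2⟩ := ps z m hz hzm
        by_cases hmy : Desc h m y
        · rcases Relation.ReflTransGen.cases_head hmy with heq | ⟨z', hmz', hz'y⟩
          · rw [← heq, e1, e2, sub_add_cancel_left, abs_neg, abs_mul, abs_of_pos h7]
            have h1 := hr z m hz hzm
            have h2 : (1 : ℤ) ≤ |r z| := Int.one_le_abs h1
            have h3 : (1 : ℚ) ≤ |(r z : ℚ)| := by exact_mod_cast h2
            have h4 : d m / (B + 1) ≤ |(r z : ℚ)| * (d m / (B + 1)) :=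
              le_mul_of_one_le_left h7.le h3
            linarith
          · have hz'M := descM z' y hy hz'y
            have hne : z' ≠ z := fun h0 => hzy (h0 ▸ hz'y)
            have h1 := apart z' z m hz'M hz hmz' hzm hne
            have h2 := inside z' y hy hz'y
            have h3 := (ps z' m hz'M hmz').2
            have h5 : |p z' - p z| ≤ |p z' - p y| + |p y - p z| := abs_sub_le _ _ _
            have h6 : |p z' - p y| = |p y - p z'| := abs_sub_comm _ _
            have h8 := dpos' y hy
            rw [e2]
            rw [h3] at h2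
            linarith
        · have h1 := ih (rk m) (hk ▸ hrk z m hz hzm) m hmM rfl y hy hmy
          have h2 := inside m z hz (Relation.ReflTransGen.single hzm)
          have h5 : |p y - p m| ≤ |p y - p z| + |p z - p m| := abs_sub_le _ _ _
          linarith
  obtain ⟨τ, hτ⟩ := forest_rank p
  have hτe : ∀ x y, τ x = τ y → p x = p y := by
    intro x y hxy
    have h1 := hτ x y
    have h2 := hτ y x
    rcases lt_trichotomy (p x) (p y) with h3 | h3 | h3
    · have := h1.2 h3
      omega
    · exact h3
    · have := h2.2 h3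
      omega
  refine ⟨τ, ?_, ?_, ?_, ?_, ?_⟩
  · intro x y hx hy hxy
    by_contra hne
    have hpe := hτe x y hxy
    have hnd : ¬ Desc h x y ∨ ¬ Desc h y x := by
      by_contra hcon
      push Not at hcon
      rcases descRk x y hy hcon.1 with h1 | h1
      · exact hne h1
      · rcases descRk y x hx hcon.2 with h2 | h2
        · exact hne h2.symm
        · omega
    rcases hnd with h1 | h1
    · have h2 := outside _ x hx rfl y hy h1
      rw [hpe, sub_self, abs_zero] at h2
      exact absurd (dpos' x hx) (not_lt.2 h2.le)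
    · have h2 := outside _ y hy rfl x hx h1
      rw [hpe, sub_self, abs_zero] at h2
      exact absurd (dpos' y hy) (not_lt.2 h2.le)
  · intro z x y hz hx hy hzx hzy
    have h1 := inside z x hx hzx
    have h2 := outside _ z hz rfl y hy hzy
    have h3 := dpos' x hx
    have h4 := abs_le.1 (show |p x - p z| ≤ d z by linarith)
    rw [hτ, hτ, hτ, hτ]
    rcases lt_abs.1 h2 with h5 | h5
    · refine ⟨⟨fun _ => by linarith [dpos' z hz], fun _ => by linarith [h4.2]⟩,
        ⟨fun h6 => by linarith [h4.2], fun h6 => by linarith [dpos' z hz]⟩⟩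
    · refine ⟨⟨fun h6 => by linarith [h4.1], fun h6 => by linarith [dpos' z hz]⟩,
        ⟨fun _ => by linarith [dpos' z hz], fun _ => by linarith [h4.1]⟩⟩
  · intro x y hx hy hxy hlt
    rw [hτ]
    have hlt' : (r x : ℚ) < r y := by exact_mod_cast hlt
    rcases hxm : h x with _ | m
    · rw [(pn x hxm).1, (pn y (hxy ▸ hxm)).1]
      exact hlt'
    · have hym : h y = some m := hxy ▸ hxm
      rw [(ps x m hx hxm).1, (ps y m hy hym).1]
      have h7 : 0 < d m / (B + 1) := div_pos (dpos' m (hM x m hx hxm)) hB1
      have := mul_lt_mul_of_pos_right hlt' h7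
      linarith
  · intro x m hx hxm hneg
    rw [hτ, (ps x m hx hxm).1]
    have h7 : 0 < d m / (B + 1) := div_pos (dpos' m (hM x m hx hxm)) hB1
    have hlt' : (r x : ℚ) < 0 := by exact_mod_cast hneg
    have := mul_neg_of_neg_of_pos hlt' h7
    linarith
  · intro x m hx hxm hpos
    rw [hτ, (ps x m hx hxm).1]
    have h7 : 0 < d m / (B + 1) := div_pos (dpos' m (hM x m hx hxm)) hB1
    have hlt' : (0 : ℚ) < r x := by exact_mod_cast hpos
    have := mul_pos hlt' h7
    linarith

end UP2
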