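import Mathlib
import Pool.Agent.Lib.MP_20105c_co.Defs

/-!
# Arcs and regions in an upward drawing

`side_const`: the middle vertex of a triangle is on one side of the long arc; `arc_region`: an arc
with a point in the region of a triangle stays in it.
-/

set_option autoImplicit false

namespace UP2

private theorem GeoArc_sign {s : Set ℝ} (hs : IsPreconnected s) {f g : ℝ → ℝ}
    (hf : ContinuousOn f s) (hg : ContinuousOn g s) (hne : ∀ t ∈ s, f t ≠ g t) :
    (∀ t ∈ s, f t < g t) ∨ (∀ t ∈ s, g t < f t) := by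
  by_contra hcon
  rw [not_or] at hcon
  obtain ⟨h1, h2⟩ := hcon
  push Not at h1 h2
  obtain ⟨t1, ht1, h1⟩ := h1
  obtain ⟨t2, ht2, h2⟩ := h2
  obtain ⟨x, hx, he⟩ := hs.intermediate_value₂ ht2 ht1 hf hg h2 h1
  exact hne x hx he

namespace Draw

variable {V : Type} {arc : V → V → Prop} {ht : V → ℝ} (D : Draw arc ht)

private theorem GeoArc_path_le {a b c : V} {t : ℝ} (h : t ≤ ht b) : D.path a b c t = D.X a b t :=
  if_pos h

private theorem GeoArc_path_ge {a b c : V} (hT : Tri arc a b c) {t : ℝ} (h : ht b ≤ t) :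
    D.path a b c t = D.X b c t := by
  rcases h.eq_or_lt with h1 | h1
  · subst h1
    rw [GeoArc_path_le D le_rfl, D.X1 a b hT.1, D.X0 b c hT.2.1]
  · exact if_neg (not_le.2 h1)

private theorem GeoArc_path_a {a b c : V} (hT : Tri arc a b c) : D.path a b c (ht a) = D.x a := by
  rw [GeoArc_path_le D (D.ht_lt a b hT.1).le, D.X0 a b hT.1]

private theorem GeoArc_path_c {a b c : V} (hT : Tri arc a b c) : D.path a b c (ht c) = D.x c := by
  rw [GeoArc_path_ge D hT (D.ht_lt b c hT.2.1).le, D.X1 b c hT.2.1]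

theorem path_cont {a b c : V} (h : Tri arc a b c) :
    ContinuousOn (D.path a b c) (Set.Icc (ht a) (ht c)) := by
  have hab := D.ht_lt a b h.1
  have hbc := D.ht_lt b c h.2.1
  rw [← Set.Icc_union_Icc_eq_Icc hab.le hbc.le]
  refine ContinuousOn.union_of_isClosed ?_ ?_ isClosed_Icc isClosed_Icc
  · exact (D.cont a b h.1).congr fun t ht => GeoArc_path_le D ht.2
  · exact (D.cont b c h.2.1).congr fun t ht => GeoArc_path_ge D h ht.1

private theorem GeoArc_path_ne {a b c : V} (h : Tri arc a b c) {t : ℝ}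
    (ht0 : t ∈ Set.Ioo (ht a) (ht c)) : D.path a b c t ≠ D.X a c t := by
  have hab := D.ht_lt a b h.1
  have hbc := D.ht_lt b c h.2.1
  intro he
  rcases le_total t (ht b) with hb | hb
  · rw [GeoArc_path_le D hb] at he
    obtain ⟨w, hw, h1, h2⟩ := D.cross a b a c t h.1 h.2.2
      (fun h' => by rw [h'.2] at hbc; exact lt_irrefl _ hbc) ⟨ht0.1.le, hb⟩ ⟨ht0.1.le, ht0.2.le⟩ he
    rcases h2 with h2 | h2
    · rw [hw, h2] at ht0; exact lt_irrefl _ ht0.1
    · rw [hw, h2] at ht0; exact lt_irrefl _ ht0.2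
  · rw [GeoArc_path_ge D h hb] at he
    obtain ⟨w, hw, h1, h2⟩ := D.cross b c a c t h.2.1 h.2.2
      (fun h' => by rw [h'.1] at hab; exact lt_irrefl _ hab) ⟨hb, ht0.2.le⟩ ⟨ht0.1.le, ht0.2.le⟩ he
    rcases h2 with h2 | h2
    · rw [hw, h2] at ht0; exact lt_irrefl _ ht0.1
    · rw [hw, h2] at ht0; exact lt_irrefl _ ht0.2

/-- task G2: the middle vertex is on one side of the long arc -/
theorem side_const {a b c : V} (h : Tri arc a b c) :
    (∀ t ∈ Set.Ioo (ht a) (ht c), D.path a b c t < D.X a c t) ∨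
    (∀ t ∈ Set.Ioo (ht a) (ht c), D.X a c t < D.path a b c t) :=
  GeoArc_sign isPreconnected_Ioo ((D.path_cont h).mono Set.Ioo_subset_Icc_self)
    ((D.cont a c h.2.2).mono Set.Ioo_subset_Icc_self) fun _ ht0 => GeoArc_path_ne D h ht0

/-- the weak inequalities of a region at the boundary -/
private theorem GeoArc_squeeze {a b c u v : V} (h : Tri arc a b c) (huv : arc u v) {s : Set ℝ}
    {p : ℝ} (hp : p ∈ closure s) (hp1 : p ∈ Set.Icc (ht a) (ht c)) (hp2 : p ∈ Set.Icc (ht u) (ht v))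
    (hs1 : s ⊆ Set.Icc (ht a) (ht c)) (hs2 : s ⊆ Set.Icc (ht u) (ht v))
    (hin : ∀ t ∈ s, (D.X u v t, t) ∈ D.region a b c) (he : D.path a b c p = D.X a c p) :
    D.X u v p = D.X a c p := by
  have c1 : ContinuousWithinAt (D.path a b c) s p := (D.path_cont h p hp1).mono hs1
  have c2 : ContinuousWithinAt (D.X a c) s p := (D.cont a c h.2.2 p hp1).mono hs1
  have c3 : ContinuousWithinAt (D.X u v) s p := (D.cont u v huv p hp2).mono hs2
  have hmem : ∀ t ∈ s, t ∈ Set.Ioo (ht a) (ht c) := fun t ht0 => ⟨(hin t ht0).1, (hin t ht0).2.1⟩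
  rcases D.side_const h with hl | hl
  · have h1 : ∀ t ∈ s, D.path a b c t ≤ D.X u v t := by
      intro t ht0
      rcases (hin t ht0).2.2 with h2 | h2
      · exact h2.1.le
      · have h3 := hl t (hmem t ht0)
        have h4 := h2.1
        have h5 := h2.2
        simp only at h4 h5
        linarith
    have h2 : ∀ t ∈ s, D.X u v t ≤ D.X a c t := by
      intro t ht0
      rcases (hin t ht0).2.2 with h2 | h2
      · exact h2.2.le
      · have h3 := hl t (hmem t ht0)
        have h4 := h2.1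
        have h5 := h2.2
        simp only at h4 h5
        linarith
    have e1 := ContinuousWithinAt.closure_le hp c1 c3 h1
    have e2 := ContinuousWithinAt.closure_le hp c3 c2 h2
    rw [he] at e1
    exact le_antisymm e2 e1
  · have h1 : ∀ t ∈ s, D.X u v t ≤ D.path a b c t := by
      intro t ht0
      rcases (hin t ht0).2.2 with h2 | h2
      · have h3 := hl t (hmem t ht0)
        have h4 := h2.1
        have h5 := h2.2
        simp only at h4 h5
        linarith
      · exact h2.2.le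
    have h2 : ∀ t ∈ s, D.X a c t ≤ D.X u v t := by
      intro t ht0
      rcases (hin t ht0).2.2 with h2 | h2
      · have h3 := hl t (hmem t ht0)
        have h4 := h2.1
        have h5 := h2.2
        simp only at h4 h5
        linarith
      · exact h2.1.le
    have e1 := ContinuousWithinAt.closure_le hp c3 c1 h1
    have e2 := ContinuousWithinAt.closure_le hp c2 c3 h2
    rw [he] at e1
    exact le_antisymm e1 e2

/-- task G3: an arc with a point in a region stays in it -/
theorem arc_region {a b c u v : V} (h : Tri arc a b c) (huv : arc u v) (t : ℝ)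
    (ht0 : t ∈ Set.Icc (ht u) (ht v)) (hin : (D.X u v t, t) ∈ D.region a b c) :
    (∀ s ∈ Set.Ioo (ht u) (ht v), (D.X u v s, s) ∈ D.region a b c) ∧
    ((D.x u, ht u) ∈ D.region a b c ∨ u = a ∨ u = b ∨ u = c) ∧
    ((D.x v, ht v) ∈ D.region a b c ∨ v = a ∨ v = b ∨ v = c) := by
  have hab := D.ht_lt a b h.1
  have hbc := D.ht_lt b c h.2.1
  have hac := D.ht_lt a c h.2.2
  have huv' := D.ht_lt u v huv
  obtain ⟨hta, htc, hbet⟩ := hin
  simp only at hta htc hbet
  have hXp : D.X u v t ≠ D.path a b c t := by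
    rcases hbet with h1 | h1
    · exact h1.1.ne'
    · exact h1.2.ne
  have hXl : D.X u v t ≠ D.X a c t := by
    rcases hbet with h1 | h1
    · exact h1.2.ne
    · exact h1.1.ne'
  -- the interval
  set I : Set ℝ := {s | s ∈ Set.Icc (ht u) (ht v) ∧ s ∈ Set.Ioo (ht a) (ht c) ∧
    (s = ht u → u ≠ b) ∧ (s = ht v → v ≠ b)} with hI
  have htI : t ∈ I := by
    refine ⟨ht0, ⟨hta, htc⟩, fun h1 h2 => hXp ?_, fun h1 h2 => hXp ?_⟩
    · rw [h1, D.X0 u v huv, h2, GeoArc_path_le D le_rfl, D.X1 a b h.1]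
    · rw [h1, D.X1 u v huv, h2, GeoArc_path_le D le_rfl, D.X1 a b h.1]
  have hpre : IsPreconnected I := by
    refine Set.OrdConnected.isPreconnected ⟨?_⟩
    rintro s1 ⟨⟨i1, i2⟩, ⟨i3, i4⟩, i5, i6⟩ s2 ⟨⟨j1, j2⟩, ⟨j3, j4⟩, j5, j6⟩ s ⟨k1, k2⟩
    refine ⟨⟨i1.trans k1, k2.trans j2⟩, ⟨i3.trans_le k1, k2.trans_lt j4⟩, fun h1 => i5 ?_,
      fun h1 => j6 ?_⟩
    · exact le_antisymm (h1 ▸ k1) i1
    · exact le_antisymm j2 (h1 ▸ k2)
  have hc1 : ContinuousOn (D.X u v) I := (D.cont u v huv).mono fun s hs => hs.1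
  have hc2 : ContinuousOn (D.path a b c) I :=
    (D.path_cont h).mono fun s hs => Set.Ioo_subset_Icc_self hs.2.1
  have hc3 : ContinuousOn (D.X a c) I :=
    (D.cont a c h.2.2).mono fun s hs => Set.Ioo_subset_Icc_self hs.2.1
  have hne1 : ∀ s ∈ I, D.X u v s ≠ D.X a c s := by
    intro s hs he
    by_cases hcase : u = a ∧ v = c
    · obtain ⟨rfl, rfl⟩ := hcase
      exact hXl rfl
    · obtain ⟨w, hw, -, h2⟩ := D.cross u v a c s huv h.2.2 hcase hs.1
        (Set.Ioo_subset_Icc_self hs.2.1) he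
      rcases h2 with h2 | h2
      · have := hs.2.1.1; rw [hw, h2] at this; exact lt_irrefl _ this
      · have := hs.2.1.2; rw [hw, h2] at this; exact lt_irrefl _ this
  have hne2 : ∀ s ∈ I, D.X u v s ≠ D.path a b c s := by
    intro s hs he
    rcases le_or_gt s (ht b) with hb | hb
    · rw [GeoArc_path_le D hb] at he
      by_cases hcase : u = a ∧ v = b
      · obtain ⟨rfl, rfl⟩ := hcase
        exact hXp (GeoArc_path_le D ht0.2).symm
      · obtain ⟨w, hw, h1, h2⟩ := D.cross u v a b s huv h.1 hcase hs.1 ⟨hs.2.1.1.le, hb⟩ he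
        rcases h2 with h2 | h2
        · have := hs.2.1.1; rw [hw, h2] at this; exact lt_irrefl _ this
        · rcases h1 with h1 | h1
          · exact hs.2.2.1 (by rw [hw, h1]) (by rw [← h1, h2])
          · exact hs.2.2.2 (by rw [hw, h1]) (by rw [← h1, h2])
    · rw [GeoArc_path_ge D h hb.le] at he
      by_cases hcase : u = b ∧ v = c
      · obtain ⟨rfl, rfl⟩ := hcase
        exact hXp (GeoArc_path_ge D h ht0.1).symm
      · obtain ⟨w, hw, h1, h2⟩ := D.cross u v b c s huv h.2.1 hcase hs.1 ⟨hb.le, hs.2.1.2.le⟩ he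
        rcases h2 with h2 | h2
        · rw [hw, h2] at hb; exact lt_irrefl _ hb
        · have := hs.2.1.2; rw [hw, h2] at this; exact lt_irrefl _ this
  have hreg : ∀ s ∈ I, (D.X u v s, s) ∈ D.region a b c := by
    intro s hs
    refine ⟨hs.2.1.1, hs.2.1.2, ?_⟩
    show (D.path a b c s < D.X u v s ∧ D.X u v s < D.X a c s) ∨
      (D.X a c s < D.X u v s ∧ D.X u v s < D.path a b c s)
    rcases GeoArc_sign hpre hc1 hc3 hne1 with g1 | g1 <;>
      rcases GeoArc_sign hpre hc1 hc2 hne2 with g2 | g2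
    · have e1 := g1 t htI
      have e2 := g2 t htI
      rcases hbet with h1 | h1
      · linarith [h1.1]
      · linarith [h1.1]
    · exact Or.inl ⟨g2 s hs, g1 s hs⟩
    · exact Or.inr ⟨g1 s hs, g2 s hs⟩
    · have e1 := g1 t htI
      have e2 := g2 t htI
      rcases hbet with h1 | h1
      · linarith [h1.2]
      · linarith [h1.2]
  have hpa : D.path a b c (ht a) = D.X a c (ht a) := by
    rw [GeoArc_path_a D h, D.X0 a c h.2.2]
  have hpc : D.path a b c (ht c) = D.X a c (ht c) := by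
    rw [GeoArc_path_c D h, D.X1 a c h.2.2]
  -- bottom
  have hbot : ht u ≤ ht a → u = a := by
    intro hle
    have hsub : ∀ s ∈ Set.Ioo (ht a) t, s ∈ I := by
      intro s hs
      refine ⟨⟨hle.trans hs.1.le, hs.2.le.trans ht0.2⟩, ⟨hs.1, hs.2.trans htc⟩, fun h1 => ?_,
        fun h1 => ?_⟩
      · exact absurd (h1 ▸ hs.1) (not_lt.2 hle)
      · exact absurd (h1 ▸ hs.2) (not_lt.2 ht0.2)
    have hX : D.X u v (ht a) = D.X a c (ht a) := by
      refine D.GeoArc_squeeze h huv (s := Set.Ioo (ht a) t) ?_ ⟨le_rfl, hac.le⟩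
        ⟨hle, hta.le.trans ht0.2⟩ (fun s hs => Set.Ioo_subset_Icc_self (hsub s hs).2.1)
        (fun s hs => (hsub s hs).1) (fun s hs => hreg s (hsub s hs)) hpa
      rw [closure_Ioo hta.ne]
      exact ⟨le_rfl, hta.le⟩
    rw [D.X0 a c h.2.2] at hX
    rcases D.avoid u v a huv hle (hta.le.trans ht0.2) hX with h1 | h1
    · exact h1.symm
    · exact absurd (h1 ▸ hta) (not_lt.2 ht0.2)
  have htop : ht c ≤ ht v → v = c := by
    intro hle
    have hsub : ∀ s ∈ Set.Ioo t (ht c), s ∈ I := by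
      intro s hs
      refine ⟨⟨ht0.1.trans hs.1.le, hs.2.le.trans hle⟩, ⟨hta.trans hs.1, hs.2⟩, fun h1 => ?_,
        fun h1 => ?_⟩
      · exact absurd (h1 ▸ hs.1) (not_lt.2 ht0.1)
      · exact absurd (h1 ▸ hs.2) (not_lt.2 hle)
    have hX : D.X u v (ht c) = D.X a c (ht c) := by
      refine D.GeoArc_squeeze h huv (s := Set.Ioo t (ht c)) ?_ ⟨hac.le, le_rfl⟩
        ⟨ht0.1.trans htc.le, hle⟩ (fun s hs => Set.Ioo_subset_Icc_self (hsub s hs).2.1)
        (fun s hs => (hsub s hs).1) (fun s hs => hreg s (hsub s hs)) hpc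
      rw [closure_Ioo htc.ne]
      exact ⟨htc.le, le_rfl⟩
    rw [D.X1 a c h.2.2] at hX
    rcases D.avoid u v c huv (ht0.1.trans htc.le) hle hX with h1 | h1
    · exact absurd (h1 ▸ htc) (not_lt.2 ht0.1)
    · exact h1.symm
  have hau : ht a ≤ ht u := by
    by_contra hcon
    have := hbot (not_le.1 hcon).le
    rw [this] at hcon
    exact hcon le_rfl
  have hvc : ht v ≤ ht c := by
    by_contra hcon
    have := htop (not_le.1 hcon).le
    rw [this] at hcon
    exact hcon le_rfl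
  refine ⟨fun s hs => hreg s ⟨Set.Ioo_subset_Icc_self hs, ⟨hau.trans_lt hs.1, hs.2.trans_le hvc⟩,
    fun h1 => absurd h1 hs.1.ne', fun h1 => absurd h1 hs.2.ne⟩, ?_, ?_⟩
  · rcases hau.eq_or_lt with h1 | h1
    · exact Or.inr (Or.inl (hbot h1.ge))
    · by_cases hub : u = b
      · exact Or.inr (Or.inr (Or.inl hub))
      · left
        have := hreg (ht u) ⟨⟨le_rfl, huv'.le⟩, ⟨h1, huv'.trans_le hvc⟩, fun _ => hub,
          fun h2 => absurd h2 huv'.ne⟩
        rwa [D.X0 u v huv] at this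
  · rcases hvc.eq_or_lt with h1 | h1
    · exact Or.inr (Or.inr (Or.inr (htop h1.ge)))
    · by_cases hvb : v = b
      · exact Or.inr (Or.inr (Or.inl hvb))
      · left
        have := hreg (ht v) ⟨⟨huv'.le, le_rfl⟩, ⟨hau.trans_lt huv', h1⟩,
          fun h2 => absurd h2 huv'.ne', fun _ => hvb⟩
        rwa [D.X1 u v huv] at this

end Draw

end UP2
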