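import Pool.Agent.Lib.MP_20105c_co.Defs

set_option autoImplicit false

/-!
# The curves of an upward drawing as functions of the height
-/

namespace UP2

open Set

/-- a continuous strictly increasing function on the unit interval takes all values between its
values at the ends -/
theorem GeoDraw_surj (Y : unitInterval → ℝ) (hc : Continuous Y) (h : ℝ)
    (h0 : Y 0 ≤ h) (h1 : h ≤ Y 1) : ∃ t, Y t = h := by
  have := mem_range_of_exists_le_of_exists_ge hc ⟨0, h0⟩ ⟨1, h1⟩
  exact this

/-- the inverse function is continuous -/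
theorem GeoDraw_inv (Y : unitInterval → ℝ) (hc : Continuous Y) (hm : StrictMono Y)
    (inv : ℝ → unitInterval) (hinv : ∀ h, Y 0 ≤ h → h ≤ Y 1 → Y (inv h) = h) :
    ContinuousOn inv (Icc (Y 0) (Y 1)) := by
  have hmem : ∀ t, Y t ∈ Icc (Y 0) (Y 1) := fun t =>
    ⟨hm.monotone unitInterval.nonneg', hm.monotone unitInterval.le_one'⟩
  let e : unitInterval ≃ Icc (Y 0) (Y 1) :=
    { toFun := fun t => ⟨Y t, hmem t⟩
      invFun := fun h => inv h.1
      left_inv := fun t => hm.injective (hinv _ (hmem t).1 (hmem t).2)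
      right_inv := fun h => Subtype.ext (hinv _ h.2.1 h.2.2) }
  have he : Continuous e := Continuous.subtype_mk hc _
  rw [continuousOn_iff_continuous_domRestrict]
  exact (Continuous.homeoOfEquivCompactToT2 he).symm.continuous

/-- task G1: the frozen hypothesis gives a `Draw` -/
theorem exists_draw {n : ℕ} (A : Fin n → Fin n → Prop) (p : Fin n → ℝ × ℝ)
    (hp : Function.Injective p) (γ : Fin n → Fin n → unitInterval → ℝ × ℝ)
    (h1 : ∀ u v, A u v → Continuous (γ u v) ∧ γ u v (0 : unitInterval) = p u ∧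
          γ u v (1 : unitInterval) = p v ∧ StrictMono (fun t => (γ u v t).2))
    (h2 : ∀ u v w t, A u v → γ u v t = p w → w = u ∨ w = v)
    (h3 : ∀ u v x y t s, A u v → A x y → γ u v t = γ x y s →
          (u = x ∧ v = y ∧ t = s) ∨
          ∃ w, γ u v t = p w ∧ (w = u ∨ w = v) ∧ (w = x ∨ w = y)) :
    Nonempty (Draw A (fun v => (p v).2)) := by
  classical
  let inv : Fin n → Fin n → ℝ → unitInterval := fun u v h =>
    if hx : ∃ t, (γ u v t).2 = h then hx.choose else 0
  have hinv : ∀ u v h, A u v → (p u).2 ≤ h → h ≤ (p v).2 → (γ u v (inv u v h)).2 = h := by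
    intro u v h hA ha hb
    obtain ⟨c1, c2, c3, c4⟩ := h1 u v hA
    have hx : ∃ t, (γ u v t).2 = h := by
      apply GeoDraw_surj (fun t => (γ u v t).2) (continuous_snd.comp c1) h
      · simp only [c2]; exact ha
      · simp only [c3]; exact hb
    simp only [inv, dif_pos hx]
    exact hx.choose_spec
  have hlt : ∀ u v, A u v → (p u).2 < (p v).2 := by
    intro u v hA
    obtain ⟨c1, c2, c3, c4⟩ := h1 u v hA
    have := c4 (show (0 : unitInterval) < 1 from zero_lt_one)
    simp only [c2, c3] at this
    exact this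
  have hpt : ∀ u v h, A u v → (p u).2 ≤ h → h ≤ (p v).2 →
      γ u v (inv u v h) = ((γ u v (inv u v h)).1, h) := by
    intro u v h hA ha hb
    exact Prod.ext rfl (hinv u v h hA ha hb)
  refine ⟨{
    x := fun v => (p v).1
    X := fun u v h => (γ u v (inv u v h)).1
    ht_lt := hlt
    cont := ?_
    X0 := ?_
    X1 := ?_
    pinj := ?_
    avoid := ?_
    cross := ?_ }⟩
  · intro u v hA
    obtain ⟨c1, c2, c3, c4⟩ := h1 u v hA
    have hc := GeoDraw_inv (fun t => (γ u v t).2) (continuous_snd.comp c1) c4 (inv u v)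
      (by simp only [c2, c3]; exact fun h ha hb => hinv u v h hA ha hb)
    simp only [c2, c3] at hc
    exact (continuous_fst.comp c1).comp_continuousOn hc
  · intro u v hA
    obtain ⟨c1, c2, c3, c4⟩ := h1 u v hA
    have h := hinv u v (p u).2 hA le_rfl (hlt u v hA).le
    have h0 : inv u v (p u).2 = 0 := c4.injective (by simp only [c2]; exact h)
    simp only [h0, c2]
  · intro u v hA
    obtain ⟨c1, c2, c3, c4⟩ := h1 u v hA
    have h := hinv u v (p v).2 hA (hlt u v hA).le le_rfl
    have h0 : inv u v (p v).2 = 1 := c4.injective (by simp only [c3]; exact h)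
    simp only [h0, c3]
  · intro u v ha hb
    exact hp (Prod.ext hb ha)
  · intro u v w hA ha hb hx
    apply h2 u v w (inv u v (p w).2) hA
    rw [hpt u v _ hA ha hb]
    exact Prod.ext hx rfl
  · intro u v u' v' h hA hA' hne hh hh' hx
    have he : γ u v (inv u v h) = γ u' v' (inv u' v' h) := by
      rw [hpt u v _ hA hh.1 hh.2, hpt u' v' _ hA' hh'.1 hh'.2]
      exact Prod.ext hx rfl
    rcases h3 u v u' v' _ _ hA hA' he with ⟨e1, e2, -⟩ | ⟨w, e1, e2, e3⟩
    · exact absurd ⟨e1, e2⟩ hne
    · refine ⟨w, ?_, e2, e3⟩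
      have := hinv u v h hA hh.1 hh.2
      rw [e1] at this
      exact this.symm

end UP2
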