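import Pool.Agent.Lib.MP_20105c_co.Defs2
import Pool.Agent.Lib.MP_20105c_co.Forest

set_option autoImplicit false

/-!
# The order of the vertices of a nest: existence, roots of U-arcs, arcs go forward
-/

namespace UP2

namespace Nest

variable {V : Type} {k : ℕ} (Q : Nest V k)

/-- the home in terms of the smallest triangle -/
theorem nestOrd_hm (x m : V) : Q.hm x = some m ↔ ∃ y, Q.reg x = some y ∧ Q.cb y = m := by
  unfold hm
  rw [Option.map_eq_some_iff]

theorem nestOrd_hm_none (x : V) : Q.hm x = none ↔ Q.reg x = none := by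
  unfold hm
  rw [Option.map_eq_none_iff]

/-- homes have smaller rank -/
theorem nestOrd_rk (x m : V) (h : Q.hm x = some m) : Q.rk m < Q.rk x := by
  obtain ⟨y, hy, rfl⟩ := (Q.nestOrd_hm x m).1 h
  exact (Q.rk_lt x y hy).2.1

/-- ranks along the forest -/
theorem nestOrd_desc_rk (a b : V) (h : Desc Q.hm a b) : a = b ∨ Q.rk a < Q.rk b := by
  induction h with
  | refl => exact Or.inl rfl
  | tail _ hbc ih =>
    have := Q.nestOrd_rk _ _ hbc
    rcases ih with ih | ih
    · right; rw [ih]; exact this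
    · right; omega

/-- descending to a child -/
theorem nestOrd_desc_child (a x m : V) (hx : Q.hm x = some m) (h : Desc Q.hm a x) :
    a = x ∨ Desc Q.hm a m := by
  rcases Relation.ReflTransGen.cases_tail h with h1 | ⟨c, hc, hcx⟩
  · exact Or.inl h1.symm
  · right
    rw [hx] at hcx
    cases hcx
    exact hc

/-- siblings are not descendants of one another -/
theorem nestOrd_sib (a b : V) (h : Q.hm a = Q.hm b) (hd : Desc Q.hm a b) : a = b := by
  rcases Relation.ReflTransGen.cases_tail hd with h1 | ⟨c, hc, hcx⟩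
  · exact h1.symm
  · exfalso
    have h2 : Q.rk c < Q.rk a := Q.nestOrd_rk _ _ (h.trans hcx)
    rcases Q.nestOrd_desc_rk a c hc with h3 | h3
    · rw [h3] at h2; omega
    · omega

theorem nestOrd_pos_none {B : ℕ} {x : V} (h : Q.reg x = none) : Q.pos B x = Q.off x := by
  unfold pos; rw [h]

theorem nestOrd_pos_neg {B : ℕ} {x y : V} (h : Q.reg x = some y) (h0 : Q.off x < 0) :
    Q.pos B x = Q.off x - (Q.lev y * B : ℕ) := by
  unfold pos; rw [h]; simp only [if_pos h0]

theorem nestOrd_pos_pos {B : ℕ} {x y : V} (h : Q.reg x = some y) (h0 : ¬ Q.off x < 0) :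
    Q.pos B x = Q.off x + (Q.lev y * B : ℕ) := by
  unfold pos; rw [h]; simp only [if_neg h0]

/-- arithmetic of the positions -/
theorem nestOrd_arith {B : ℕ} {a b l l' : ℤ} (ha : 0 ≤ a) (ha' : a < B) (hb : 0 ≤ b)
    (hb' : b < B) (h : a + l * B = b + l' * B) : l = l' ∧ a = b := by
  have h1 : l = l' := by
    by_contra hne
    rcases lt_or_gt_of_ne hne with hlt | hlt
    · have : (l' - l) * (B : ℤ) ≥ 1 * B :=
        mul_le_mul_of_nonneg_right (by omega) (by positivity)
      have e : (l' - l) * (B : ℤ) = a - b := by ring_nf; linarith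
      linarith
    · have : (l - l') * (B : ℤ) ≥ 1 * B :=
        mul_le_mul_of_nonneg_right (by omega) (by positivity)
      have e : (l - l') * (B : ℤ) = b - a := by ring_nf; linarith
      linarith
  refine ⟨h1, ?_⟩
  rw [h1] at h
  linarith

theorem nestOrd_pos_ne (B : ℕ) (x m : V) (h : Q.hm x = some m) : Q.pos B x ≠ 0 := by
  obtain ⟨y, hy, -⟩ := (Q.nestOrd_hm x m).1 h
  have h0 := Q.off_ne x y hy
  have h1 : (0 : ℤ) ≤ (Q.lev y * B : ℕ) := by positivity
  by_cases hneg : Q.off x < 0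
  · rw [Q.nestOrd_pos_neg hy hneg]; omega
  · rw [Q.nestOrd_pos_pos hy hneg]; omega

theorem nestOrd_pos_inj (B : ℕ) (hB : ∀ x, |Q.off x| < B) (x x' : V) (h : Q.hm x = Q.hm x')
    (hp : Q.pos B x = Q.pos B x') : x = x' := by
  cases hx : Q.reg x with
  | none =>
    have h1 : Q.hm x = none := (Q.nestOrd_hm_none x).2 hx
    have h2 : Q.reg x' = none := (Q.nestOrd_hm_none x').1 (h ▸ h1)
    rw [Q.nestOrd_pos_none hx, Q.nestOrd_pos_none h2] at hp
    exact Q.off_inj x x' (hx.trans h2.symm) hp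
  | some y =>
    have h1 : Q.hm x = some (Q.cb y) := (Q.nestOrd_hm x _).2 ⟨y, hx, rfl⟩
    obtain ⟨y', hy', hcb⟩ := (Q.nestOrd_hm x' (Q.cb y)).1 (h ▸ h1)
    have hne := Q.off_ne x y hx
    have hne' := Q.off_ne x' y' hy'
    have hb := hB x
    have hb' := hB x'
    rw [abs_lt] at hb hb'
    have e0 : (0 : ℤ) ≤ (Q.lev y * B : ℕ) := by positivity
    have e0' : (0 : ℤ) ≤ (Q.lev y' * B : ℕ) := by positivity
    have e1 : ((Q.lev y * B : ℕ) : ℤ) = (Q.lev y : ℤ) * B := by push_cast; ring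
    have e1' : ((Q.lev y' * B : ℕ) : ℤ) = (Q.lev y' : ℤ) * B := by push_cast; ring
    have key : Q.lev y = Q.lev y' ∧ Q.off x = Q.off x' := by
      by_cases hneg : Q.off x < 0
      · rw [Q.nestOrd_pos_neg hx hneg] at hp
        by_cases hneg' : Q.off x' < 0
        · rw [Q.nestOrd_pos_neg hy' hneg'] at hp
          have := nestOrd_arith (B := B) (a := - Q.off x) (b := - Q.off x') (l := Q.lev y)
            (l' := Q.lev y') (by omega) (by omega) (by omega) (by omega)
            (by rw [← e1, ← e1']; linarith)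
          exact ⟨by exact_mod_cast this.1, by linarith [this.2]⟩
        · rw [Q.nestOrd_pos_pos hy' hneg'] at hp
          omega
      · rw [Q.nestOrd_pos_pos hx hneg] at hp
        by_cases hneg' : Q.off x' < 0
        · rw [Q.nestOrd_pos_neg hy' hneg'] at hp
          omega
        · rw [Q.nestOrd_pos_pos hy' hneg'] at hp
          have := nestOrd_arith (B := B) (a := Q.off x) (b := Q.off x') (l := Q.lev y)
            (l' := Q.lev y') (by omega) (by omega) (by omega) (by omega)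
            (by rw [← e1, ← e1']; exact hp)
          exact ⟨by exact_mod_cast this.1, this.2⟩
    have hyy : y = y' := Q.lev_inj x x' y y' hx hy' hcb.symm key.1
    exact Q.off_inj x x' (by rw [hx, hy', hyy]) key.2

/-- task P0 -/
theorem exists_tau [Fintype V] (B : ℕ) (hB : ∀ x, |Q.off x| < B) :
    ∃ τ : V → ℤ, FOrd (fun _ => True) Q.hm (Q.pos B) τ := by
  refine exists_ford (fun _ => True) Q.hm Q.rk (Q.pos B) (fun _ _ _ _ => trivial)
    (fun x m _ h => Q.nestOrd_rk x m h) (fun x m _ h => Q.nestOrd_pos_ne B x m h)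
    (fun x y _ _ h hp => Q.nestOrd_pos_inj B hB x y h hp)

/-- task P1: the root of a U-arc -/
theorem rootU (x v : V) (h : Q.isU x v) : ∃ p z yz, Q.hm z = some p ∧ Q.reg z = some yz ∧
    Q.cc yz = v ∧ Desc Q.hm z x ∧ Q.arc p v ∧ ¬ Q.isU p v ∧ Q.isI p v ∧
    ∀ w, Desc Q.hm w x → Desc Q.hm z w → Q.isU w v := by
  induction hn : Q.rk x using Nat.strong_induction_on generalizing x with
  | _ n ih =>
    obtain ⟨y, hy, hv⟩ := id h
    have hx : Q.hm x = some (Q.cb y) := (Q.nestOrd_hm x _).2 ⟨y, hy, rfl⟩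
    have harc : Q.arc (Q.cb y) v := by rw [hv]; exact (Q.arcs x y hy).2
    by_cases hU : Q.isU (Q.cb y) v
    · obtain ⟨p, z, yz, h1, h2, h3, h4, h5, h6, h7, h8⟩ :=
        ih (Q.rk (Q.cb y)) (by rw [← hn]; exact Q.nestOrd_rk _ _ hx) (Q.cb y) hU rfl
      refine ⟨p, z, yz, h1, h2, h3, h4.tail hx, h5, h6, h7, fun w hw hz => ?_⟩
      rcases Q.nestOrd_desc_child w x _ hx hw with h9 | h9
      · rw [h9]; exact h
      · exact h8 w h9 hz
    · refine ⟨Q.cb y, x, y, hx, hy, hv.symm, Relation.ReflTransGen.refl, harc, hU, ?_, ?_⟩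
      · rcases Q.cls _ _ harc with h1 | ⟨y', h1, h2⟩ | ⟨y', h1, h2⟩
        · exact Or.inl h1
        · rcases h2 with h2 | h2
          · exfalso
            rw [hv] at h1
            exact Q.nomixU x y y' hy h1 h2
          · exact Or.inr (Or.inl ⟨y', h1, h2⟩)
        · rcases h2 with h2 | h2
          · exact Or.inr (Or.inr ⟨y', h1, h2⟩)
          · exact absurd ⟨y', h1, h2⟩ hU
      · intro w hw hz
        have : w = x := by
          rcases Q.nestOrd_desc_rk _ _ hw with h1 | h1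
          · exact h1
          · rcases Q.nestOrd_desc_rk _ _ hz with h2 | h2
            · exact h2.symm
            · omega
        rw [this]; exact h

/-- internal arcs go forward -/
theorem nestOrd_lt_I (B : ℕ) (τ : V → ℤ) (hτ : FOrd (fun _ => True) Q.hm (Q.pos B) τ) (u v : V)
    (h : Q.arc u v) (hI : Q.isI u v) : τ u < τ v := by
  rcases hI with hI | ⟨y, hy, hu⟩ | ⟨y, hy, hv⟩
  · have hoff := Q.off_arc u v h hI
    refine hτ.sib u v trivial trivial (by unfold hm; rw [hI]) ?_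
    cases hr : Q.reg u with
    | none =>
      rw [Q.nestOrd_pos_none hr, Q.nestOrd_pos_none (hI ▸ hr)]
      exact hoff
    | some y =>
      have hr' : Q.reg v = some y := hI ▸ hr
      have e0 : (0 : ℤ) ≤ (Q.lev y * B : ℕ) := by positivity
      by_cases h1 : Q.off u < 0
      · rw [Q.nestOrd_pos_neg hr h1]
        by_cases h2 : Q.off v < 0
        · rw [Q.nestOrd_pos_neg hr' h2]; omega
        · rw [Q.nestOrd_pos_pos hr' h2]; omega
      · rw [Q.nestOrd_pos_pos hr h1]
        by_cases h2 : Q.off v < 0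
        · omega
        · rw [Q.nestOrd_pos_pos hr' h2]; omega
  · have hoff : 0 < Q.off v := Q.off_pos v y hy (hu ▸ h)
    refine hτ.pos v u trivial ((Q.nestOrd_hm v u).2 ⟨y, hy, hu.symm⟩) ?_
    have e0 : (0 : ℤ) ≤ (Q.lev y * B : ℕ) := by positivity
    rw [Q.nestOrd_pos_pos hy (by omega)]
    omega
  · have hoff : Q.off u < 0 := Q.off_neg u y hy (hv ▸ h)
    refine hτ.neg u v trivial ((Q.nestOrd_hm u v).2 ⟨y, hy, hv.symm⟩) ?_
    have e0 : (0 : ℤ) ≤ (Q.lev y * B : ℕ) := by positivity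
    rw [Q.nestOrd_pos_neg hy (by omega)]
    omega

/-- U-arcs go forward -/
theorem nestOrd_lt_U (B : ℕ) (hB : ∀ x, |Q.off x| < B) (τ : V → ℤ)
    (hτ : FOrd (fun _ => True) Q.hm (Q.pos B) τ) (u v : V) (hU : Q.isU u v) : τ u < τ v := by
  obtain ⟨p, z, yz, h1, h2, h3, h4, h5, -, h7, -⟩ := Q.rootU u v hU
  have hpv : τ p < τ v := Q.nestOrd_lt_I B τ hτ p v h5 h7
  have hne : p ≠ v := fun h => by rw [h] at hpv; exact lt_irrefl _ hpv
  have hpz : Desc Q.hm p z := Relation.ReflTransGen.tail Relation.ReflTransGen.refl h1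
  have hpu : Desc Q.hm p u := Relation.ReflTransGen.trans hpz h4
  rcases h7 with hI | ⟨y, hy, hp⟩ | ⟨y, hy, hv⟩
  · have hnd : ¬ Desc Q.hm p v := fun hd => hne (Q.nestOrd_sib p v (by unfold hm; rw [hI]) hd)
    exact (hτ.blk p u v trivial trivial trivial hpu hnd).1.2 hpv
  · have hv1 : Q.hm v = some p := (Q.nestOrd_hm v p).2 ⟨y, hy, hp.symm⟩
    obtain ⟨yz', hyz', hcb⟩ := (Q.nestOrd_hm z p).1 h1
    have hyy : yz' = yz := by rw [h2] at hyz'; exact (Option.some.inj hyz').symm
    subst hyy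
    have hlev : Q.lev yz' < Q.lev y := by
      refine Q.levU_lt z yz' y h2 (by rw [h3]; exact hy) ?_
      rw [hcb, hp]
    have hoff : 0 < Q.off v := Q.off_pos v y hy (hp ▸ h5)
    have hpos : Q.pos B z < Q.pos B v := by
      rw [Q.nestOrd_pos_pos hy (by omega)]
      have hb := hB z
      rw [abs_lt] at hb
      have e0 : (0 : ℤ) ≤ (Q.lev yz' * B : ℕ) := by positivity
      have e1 : (0 : ℤ) ≤ (Q.lev y * B : ℕ) := by positivity
      by_cases hz : Q.off z < 0
      · rw [Q.nestOrd_pos_neg h2 hz]; omega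
      · rw [Q.nestOrd_pos_pos h2 hz]
        have e2 : (Q.lev yz' + 1) * B ≤ Q.lev y * B := Nat.mul_le_mul_right _ hlev
        have e3 : (((Q.lev yz' + 1) * B : ℕ) : ℤ) ≤ (Q.lev y * B : ℕ) := by exact_mod_cast e2
        have e4 : (((Q.lev yz' + 1) * B : ℕ) : ℤ) = (Q.lev yz' * B : ℕ) + (B : ℤ) := by
          push_cast; ring
        omega
    have hzv : τ z < τ v := hτ.sib z v trivial trivial (h1.trans hv1.symm) hpos
    have hne2 : z ≠ v := fun h => by rw [h] at hzv; exact lt_irrefl _ hzv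
    have hnd : ¬ Desc Q.hm z v := fun hd => hne2 (Q.nestOrd_sib z v (h1.trans hv1.symm) hd)
    exact (hτ.blk z u v trivial trivial trivial h4 hnd).1.2 hzv
  · have hp1 : Q.hm p = some v := (Q.nestOrd_hm p v).2 ⟨y, hy, hv.symm⟩
    have hrk := Q.nestOrd_rk _ _ hp1
    have hnd : ¬ Desc Q.hm p v := fun hd => by
      rcases Q.nestOrd_desc_rk _ _ hd with h | h
      · exact hne h
      · omega
    exact (hτ.blk p u v trivial trivial trivial hpu hnd).1.2 hpv

/-- positions in the reversed structure -/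
theorem nestOrd_rev_pos (B : ℕ) (x : V) : Q.rev.pos B x = - Q.pos B x := by
  have e : ∀ y, Q.rev.reg y = Q.reg y := fun _ => rfl
  have e' : ∀ y, Q.rev.off y = - Q.off y := fun _ => rfl
  have e'' : ∀ y, Q.rev.lev y = Q.lev y := fun _ => rfl
  cases hr : Q.reg x with
  | none =>
    rw [Q.nestOrd_pos_none hr, Q.rev.nestOrd_pos_none (x := x) hr, e']
  | some y =>
    have h0 := Q.off_ne x y hr
    by_cases h1 : Q.off x < 0
    · rw [Q.nestOrd_pos_neg hr h1, Q.rev.nestOrd_pos_pos (x := x) (y := y) hr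
        (by rw [e']; omega), e', e'']
      ring
    · rw [Q.nestOrd_pos_pos hr h1, Q.rev.nestOrd_pos_neg (x := x) (y := y) hr
        (by rw [e']; omega), e', e'']
      ring

/-- the order of the reversed structure -/
theorem nestOrd_rev_ford (B : ℕ) (τ : V → ℤ) (hτ : FOrd (fun _ => True) Q.hm (Q.pos B) τ) :
    FOrd (fun _ => True) Q.rev.hm (Q.rev.pos B) (fun x => - τ x) := by
  have hhm : Q.rev.hm = Q.hm := rfl
  rw [hhm]
  refine ⟨?_, ?_, ?_, ?_, ?_⟩
  · intro x y hx hy h
    exact hτ.inj x y hx hy (by linarith)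
  · intro z x y hz hx hy h1 h2
    have := hτ.blk z x y hz hx hy h1 h2
    refine ⟨?_, ?_⟩
    · rw [neg_lt_neg_iff, neg_lt_neg_iff]; exact this.2
    · rw [neg_lt_neg_iff, neg_lt_neg_iff]; exact this.1
  · intro x y hx hy h1 h2
    rw [Q.nestOrd_rev_pos, Q.nestOrd_rev_pos] at h2
    have := hτ.sib y x hy hx h1.symm (by linarith)
    linarith
  · intro x m hx h1 h2
    rw [Q.nestOrd_rev_pos] at h2
    have := hτ.pos x m hx h1 (by linarith)
    linarith
  · intro x m hx h1 h2
    rw [Q.nestOrd_rev_pos] at h2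
    have := hτ.neg x m hx h1 (by linarith)
    linarith

/-- task P2: arcs go forward -/
theorem arc_lt (B : ℕ) (hB : ∀ x, |Q.off x| < B) (τ : V → ℤ)
    (hτ : FOrd (fun _ => True) Q.hm (Q.pos B) τ) (u v : V) (h : Q.arc u v) : τ u < τ v := by
  rcases Q.cls u v h with h1 | ⟨y, h1, h2⟩ | ⟨y, h1, h2⟩
  · exact Q.nestOrd_lt_I B τ hτ u v h (Or.inl h1)
  · rcases h2 with h2 | h2
    · have hU : Q.rev.isU v u := ⟨y, h1, h2⟩
      have hB' : ∀ x, |Q.rev.off x| < B := fun x => by
        have : Q.rev.off x = - Q.off x := rfl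
        rw [this, abs_neg]; exact hB x
      have := Q.rev.nestOrd_lt_U B hB' (fun x => - τ x) (Q.nestOrd_rev_ford B τ hτ) v u hU
      simpa using this
    · exact Q.nestOrd_lt_I B τ hτ u v h (Or.inr (Or.inl ⟨y, h1, h2⟩))
  · rcases h2 with h2 | h2
    · exact Q.nestOrd_lt_I B τ hτ u v h (Or.inr (Or.inr ⟨y, h1, h2⟩))
    · exact Q.nestOrd_lt_U B hB τ hτ u v ⟨y, h1, h2⟩

end Nest

end UP2
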