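import Pool.Agent.Lib.MP_20105c_co.Defs2
import Pool.Agent.Lib.MP_20105c_co.Forest
import Pool.Agent.Lib.MP_20105c_co.NestOrd

set_option autoImplicit false

namespace UP2

/-! General facts on forests. -/

theorem NestU_desc_rk {V : Type} {h : V → Option V} {rk : V → ℕ}
    (hrk : ∀ x m, h x = some m → rk m < rk x) {a b : V} (hab : Desc h a b) :
    a = b ∨ rk a < rk b := by
  induction hab with
  | refl => exact Or.inl rfl
  | tail h1 h2 ih =>
    right
    have := hrk _ _ h2
    rcases ih with h | h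
    · rw [h]; exact this
    · omega

theorem NestU_antisymm {V : Type} {h : V → Option V} {rk : V → ℕ}
    (hrk : ∀ x m, h x = some m → rk m < rk x) {a b : V} (hab : Desc h a b) (hba : Desc h b a) :
    a = b := by
  rcases NestU_desc_rk hrk hab with h1 | h1
  · exact h1
  · rcases NestU_desc_rk hrk hba with h2 | h2
    · exact h2.symm
    · omega

/-- `Desc h a b` with `a ≠ b` factors through the parent of `b`. -/
theorem NestU_cases {V : Type} {h : V → Option V} {a b : V} (hab : Desc h a b) :
    a = b ∨ ∃ m, h b = some m ∧ Desc h a m := by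
  rcases Relation.ReflTransGen.cases_tail hab with h1 | ⟨c, h1, h2⟩
  · exact Or.inl h1.symm
  · exact Or.inr ⟨c, h2, h1⟩

theorem NestU_step {V : Type} {h : V → Option V} {a b : V} (hb : h b = some a) : Desc h a b :=
  Relation.ReflTransGen.single hb

theorem NestU_sib_disj {V : Type} {h : V → Option V} {rk : V → ℕ}
    (hrk : ∀ x m, h x = some m → rk m < rk x) {a b w : V} (hab : h a = h b) (hne : a ≠ b)
    (h1 : Desc h a w) (h2 : Desc h b w) : False := by
  have key : ∀ a b : V, h a = h b → a ≠ b → Desc h a b → False := by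
    intro a b hab hne hd
    rcases NestU_cases hd with h3 | ⟨m, h3, h4⟩
    · exact hne h3
    · rw [← hab] at h3
      have h5 := NestU_antisymm hrk h4 (NestU_step h3)
      rw [← h5] at h3
      exact lt_irrefl _ (hrk _ _ h3)
  rcases desc_or h1 h2 with h3 | h3
  · exact key a b hab hne h3
  · exact key b a hab.symm (Ne.symm hne) h3

theorem NestU_sib_lt {V : Type} {h : V → Option V} {rk : V → ℕ} {r τ : V → ℤ}
    (hτ : FOrd (fun _ => True) h r τ)
    (hrk : ∀ x m, h x = some m → rk m < rk x) {a b u w : V} (hab : h a = h b) (hne : a ≠ b)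
    (h1 : Desc h a u) (h2 : Desc h b w) : (τ u < τ w ↔ τ a < τ b) := by
  have e1 := (hτ.blk a u w trivial trivial trivial h1
    (fun h3 => NestU_sib_disj hrk hab hne h3 h2)).1
  have e2 := (hτ.blk b w a trivial trivial trivial h2
    (fun h3 => NestU_sib_disj hrk hab hne Relation.ReflTransGen.refl h3)).2
  rw [e1, ← e2]

theorem NestU_sib_le {V : Type} {h : V → Option V} {r τ : V → ℤ}
    (hτ : FOrd (fun _ => True) h r τ) {a b : V} (hab : h a = h b) (hlt : τ a < τ b) :
    r a ≤ r b := by
  by_contra hc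
  push Not at hc
  have := hτ.sib b a trivial trivial hab.symm hc
  omega

namespace Nest

variable {V : Type} {k : ℕ} (Q : Nest V k)

theorem NestU_hm_some {x m : V} (h : Q.hm x = some m) : ∃ y, Q.reg x = some y ∧ Q.cb y = m := by
  unfold hm at h
  rw [Option.map_eq_some_iff] at h
  exact h

theorem NestU_hm_of_reg {x y : V} (h : Q.reg x = some y) : Q.hm x = some (Q.cb y) := by
  unfold hm; rw [h]; rfl

theorem NestU_hm_none {x : V} (h : Q.hm x = none) : Q.reg x = none := by
  unfold hm at h
  rwa [Option.map_eq_none_iff] at h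

theorem NestU_hrk (x m : V) (h : Q.hm x = some m) : Q.rk m < Q.rk x := by
  obtain ⟨y, hy, rfl⟩ := Q.NestU_hm_some h
  exact (Q.rk_lt x y hy).2.1

/-- The data of a U-arc. -/
structure UD (x v : V) (t : Fin 3) (M : Option V) (p z yz : V) : Prop where
  hz : Q.hm z = some p
  rz : Q.reg z = some yz
  cb : Q.cb yz = p
  cc : Q.cc yz = v
  dz : Desc Q.hm z x
  arc : Q.arc p v
  path : ∀ w, Desc Q.hm w x → Desc Q.hm z w → Q.isU w v
  t0 : t = 0 → Q.reg p = Q.reg v ∧ M = Q.hm p ∧ M = Q.hm v
  t1 : t = 1 → M = some v ∧ M = Q.hm p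
  t2 : t = 2 → ∃ y, Q.reg v = some y ∧ Q.cb y = p ∧ M = some p ∧ M = Q.hm v

theorem NestU_exists (x v : V) (h : Q.isU x v) : ∃ t M p z yz, UD Q x v t M p z yz := by
  obtain ⟨p, z, yz, h1, h2, h3, h4, h5, -, h6, h7⟩ := Q.rootU x v h
  have hcb : Q.cb yz = p := by
    have := Q.NestU_hm_of_reg h2
    rw [h1] at this
    exact (Option.some.inj this).symm
  rcases h6 with h6 | ⟨y, h8, h9⟩ | ⟨y, h8, h9⟩
  · refine ⟨0, Q.hm p, p, z, yz, ⟨h1, h2, hcb, h3, h4, h5, h7, fun _ => ⟨h6, rfl, ?_⟩, ?_, ?_⟩⟩
    · unfold hm; rw [h6]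
    · intro h; exact absurd h (by decide)
    · intro h; exact absurd h (by decide)
  · refine ⟨2, some p, p, z, yz, ⟨h1, h2, hcb, h3, h4, h5, h7, ?_, ?_, fun _ => ⟨y, h8, h9.symm, rfl, ?_⟩⟩⟩
    · intro h; exact absurd h (by decide)
    · intro h; exact absurd h (by decide)
    · rw [Q.NestU_hm_of_reg h8, ← h9]
  · refine ⟨1, some v, p, z, yz, ⟨h1, h2, hcb, h3, h4, h5, h7, ?_, fun _ => ⟨rfl, ?_⟩, ?_⟩⟩
    · intro h; exact absurd h (by decide)
    · rw [Q.NestU_hm_of_reg h8, ← h9]
    · intro h; exact absurd h (by decide)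

variable {Q}

theorem NestU_t012 (t : Fin 3) : t = 0 ∨ t = 1 ∨ t = 2 := by
  fin_cases t <;> simp

/-- A U-arc is inside the block of its centre. -/
theorem UD.inC {x v : V} {t : Fin 3} {M : Option V} {p z yz : V} (H : UD Q x v t M p z yz)
    {m : V} (hM : M = some m) : Desc Q.hm m x ∧ Desc Q.hm m v := by
  have hpx : Desc Q.hm p x := (NestU_step H.hz).trans H.dz
  rcases NestU_t012 t with h | h | h
  · obtain ⟨-, h2, h3⟩ := H.t0 h
    rw [hM] at h2 h3
    exact ⟨(NestU_step h2.symm).trans hpx, NestU_step h3.symm⟩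
  · obtain ⟨h2, h3⟩ := H.t1 h
    rw [hM] at h2 h3
    rw [Option.some.injEq] at h2
    subst h2
    exact ⟨(NestU_step h3.symm).trans hpx, Relation.ReflTransGen.refl⟩
  · obtain ⟨y, h1, h2, h3, h4⟩ := H.t2 h
    rw [hM] at h3 h4
    rw [Option.some.injEq] at h3
    subst h3
    exact ⟨hpx, NestU_step h4.symm⟩

/-- Greedy colours. -/
theorem NestU_lam [Finite V] (Q : Nest V k) : ∃ lam : V → Fin 3,
    (∀ v y, Q.reg v = some y → lam v ≠ lam (Q.cc y)) ∧
    (∀ v y y', Q.reg v = some y → Q.reg (Q.cb y) = some y' → lam v ≠ lam (Q.cc y')) := by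
  classical
  let bad : V → Finset V := fun v => match Q.reg v with
    | none => ∅
    | some y => match Q.reg (Q.cb y) with
      | none => {Q.cc y}
      | some y' => {Q.cc y, Q.cc y'}
  have hex := exists_greedy Q.rk 2 bad ?_ ?_
  · obtain ⟨c, hc⟩ := hex
    refine ⟨c, ?_, ?_⟩
    · intro v y hy
      refine hc v _ ?_
      simp only [bad, hy]
      split <;> simp
    · intro v y y' hy hy'
      refine hc v _ ?_
      simp only [bad, hy, hy']
      simp
  · intro v
    simp only [bad]
    split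
    · simp
    · split
      · simp
      · exact Finset.card_le_two
  · intro v w hw
    simp only [bad] at hw
    split at hw
    · simp at hw
    · rename_i y hy
      split at hw
      · simp only [Finset.mem_singleton] at hw
        subst hw
        exact (Q.rk_lt _ _ hy).2.2
      · rename_i y' hy'
        simp only [Finset.mem_insert, Finset.mem_singleton] at hw
        rcases hw with rfl | rfl
        · exact (Q.rk_lt _ _ hy).2.2
        · exact ((Q.rk_lt _ _ hy').2.2).trans (Q.rk_lt _ _ hy).2.1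

/-- Parity of the depth. -/
theorem NestU_par (Q : Nest V k) : ∃ par : Option V → Fin 2, ∀ x, par (some x) ≠ par (Q.hm x) := by
  classical
  have hex := exists_greedy (V := Option V) (fun o => o.elim 0 (fun x => Q.rk x + 1)) 1
    (fun o => o.elim ∅ (fun x => {Q.hm x})) ?_ ?_
  · obtain ⟨c, hc⟩ := hex
    exact ⟨c, fun x => hc (some x) _ (by simp)⟩
  · intro o
    cases o <;> simp
  · intro o o' ho
    cases o with
    | none => simp at ho
    | some x =>
      simp only [Option.elim_some, Finset.mem_singleton] at ho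
      subst ho
      cases hx : Q.hm x with
      | none => simp
      | some m =>
        simp only [Option.elim_some]
        have := Q.NestU_hrk x m hx
        omega

/-- (B) the centre of `f` strictly below the centre of `e` -/
theorem NestU_caseB {par : Option V → Fin 2} (hpar : ∀ x, par (some x) ≠ par (Q.hm x))
    {x v x' v' : V} {t t' : Fin 3} {M M' : Option V} {p z yz p' z' yz' : V} {r τ : V → ℤ}
    (hτ : FOrd (fun _ => True) Q.hm r τ)
    (H : UD Q x v t M p z yz) (H' : UD Q x' v' t' M' p' z' yz') (hpe : par M = par M')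
    (h2 : τ x' < τ v) (h3 : τ v < τ v') {m' : V} (hM' : M' = some m')
    (hin : ∀ m, M = some m → Desc Q.hm m m') (hne : M ≠ some m') : False := by
  obtain ⟨a1, a2⟩ := H'.inC hM'
  have hv : Desc Q.hm m' v := hτ.conv trivial trivial trivial trivial a1 a2 h2 h3
  have key : M = Q.hm v → False := by
    intro hMv
    rcases NestU_cases hv with h4 | ⟨m, h4, h5⟩
    · subst h4
      exact hpar m' (by rw [← hM', ← hMv, hpe])
    · rw [← hMv] at h4
      have h6 := hin m h4
      have := NestU_antisymm Q.NestU_hrk h5 h6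
      exact hne (by rw [h4, this])
  rcases NestU_t012 t with h | h | h
  · exact key (H.t0 h).2.2
  · obtain ⟨h4, -⟩ := H.t1 h
    have := NestU_antisymm Q.NestU_hrk hv (hin v h4)
    exact hne (by rw [h4, this])
  · obtain ⟨y, -, -, -, h4⟩ := H.t2 h
    exact key h4

/-- (C) the centre of `e` strictly below the centre of `f` -/
theorem NestU_caseC {par : Option V → Fin 2} (hpar : ∀ x, par (some x) ≠ par (Q.hm x))
    {lam : V → Fin 3} (hl1 : ∀ v y, Q.reg v = some y → lam v ≠ lam (Q.cc y))
    (hl2 : ∀ v y y', Q.reg v = some y → Q.reg (Q.cb y) = some y' → lam v ≠ lam (Q.cc y'))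
    {x v x' v' : V} {t t' : Fin 3} {M M' : Option V} {p z yz p' z' yz' : V} {r τ : V → ℤ}
    (hτ : FOrd (fun _ => True) Q.hm r τ)
    (H : UD Q x v t M p z yz) (H' : UD Q x' v' t' M' p' z' yz') (hpe : par M = par M')
    (hlam : lam v = lam v')
    (h1 : τ x < τ x') (h2 : τ x' < τ v) {m : V} (hM : M = some m)
    (hin : ∀ m', M' = some m' → Desc Q.hm m' m) (hne : M' ≠ some m) : False := by
  obtain ⟨a1, a2⟩ := H.inC hM
  have hx' : Desc Q.hm m x' := hτ.conv trivial trivial trivial trivial a1 a2 h1 h2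
  have key : Desc Q.hm z' m → False := by
    intro hzm
    obtain ⟨y3, h3, h4⟩ := H'.path m hx' hzm
    have keyv : M = Q.hm v → False := by
      intro hMv
      rw [hM] at hMv
      obtain ⟨yv, h5, h6⟩ := Q.NestU_hm_some hMv.symm
      refine hl2 v yv y3 h5 (by rw [h6]; exact h3) ?_
      rw [hlam, h4]
    rcases NestU_t012 t with h | h | h
    · exact keyv (H.t0 h).2.2
    · obtain ⟨h5, -⟩ := H.t1 h
      rw [hM, Option.some.injEq] at h5
      subst h5
      refine hl1 m y3 h3 ?_
      rw [hlam, h4]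
    · obtain ⟨y, -, -, -, h5⟩ := H.t2 h
      exact keyv h5
  rcases desc_or hx' H'.dz with h3 | h3
  · rcases NestU_cases h3 with h4 | ⟨p1, h4, h5⟩
    · exact key (by rw [h4]; exact Relation.ReflTransGen.refl)
    · rw [H'.hz, Option.some.injEq] at h4
      subst h4
      have keyp : M' = Q.hm p' → False := by
        intro hMp
        rcases NestU_cases h5 with h6 | ⟨m2, h6, h7⟩
        · subst h6
          exact hpar m (by rw [← hM, ← hMp, hpe])
        · rw [← hMp] at h6
          have := NestU_antisymm Q.NestU_hrk h7 (hin m2 h6)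
          exact hne (by rw [h6, this])
      rcases NestU_t012 t' with h | h | h
      · exact keyp (H'.t0 h).2.1
      · exact keyp (H'.t1 h).2
      · obtain ⟨y, -, -, h6, -⟩ := H'.t2 h
        have := NestU_antisymm Q.NestU_hrk h5 (hin p' h6)
        exact hne (by rw [h6, this])
  · exact key h3

/-- Positions with respect to the levels. -/
theorem NestU_pos_some {B : ℕ} {x y : V} (h : Q.reg x = some y) :
    Q.pos B x = if Q.off x < 0 then Q.off x - ((Q.lev y * B : ℕ) : ℤ) else
      Q.off x + ((Q.lev y * B : ℕ) : ℤ) := by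
  unfold pos; rw [h]

theorem NestU_mul {a b B : ℕ} (h : a < b) : ((a * B : ℕ) : ℤ) + B ≤ ((b * B : ℕ) : ℤ) := by
  have : a * B + B ≤ b * B := by
    calc a * B + B = (a + 1) * B := by ring
      _ ≤ b * B := Nat.mul_le_mul_right B h
  exact_mod_cast this

/-- (A), type 0 -/
theorem NestU_caseA0 {B : ℕ} (hB : ∀ x, |Q.off x| < B) {τ : V → ℤ}
    (hτ : FOrd (fun _ => True) Q.hm (Q.pos B) τ)
    {x v x' v' : V} {M M' : Option V} {p z yz p' z' yz' : V}
    (H : UD Q x v 0 M p z yz) (H' : UD Q x' v' 0 M' p' z' yz') (hMM : M = M')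
    (hside : Q.side yz = Q.side yz') (hpc : Q.pc v = Q.pc v') (hcol : Q.col p v = Q.col p' v')
    (h1 : τ x < τ x') (h2 : τ x' < τ v) (h3 : τ v < τ v') : False := by
  have hrk := Q.NestU_hrk
  obtain ⟨a1, a2, a3⟩ := H.t0 rfl
  obtain ⟨b1, b2, b3⟩ := H'.t0 rfl
  subst hMM
  have hpx : Desc Q.hm p x := (NestU_step H.hz).trans H.dz
  have hpx' : Desc Q.hm p' x' := (NestU_step H'.hz).trans H'.dz
  have hpp : Q.hm p = Q.hm p' := by rw [← a2, ← b2]
  have hpv : Q.hm p' = Q.hm v := by rw [← b2, ← a3]
  have hvv : Q.hm v = Q.hm v' := by rw [← a3, ← b3]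
  by_cases hp : p = p'
  · subst hp
    have := Q.uniqU z z' yz yz' H.rz H'.rz (by rw [H.cb, H'.cb]) hside
      (by rw [H.cc, H.cb]; exact a1.symm) (by rw [H'.cc, H.cb]; exact b1.symm)
    rw [H.cc, H'.cc] at this
    rw [this] at h3
    exact lt_irrefl _ h3
  · by_cases hpv' : p' = v
    · exact Q.pc_ne v v' (hpv' ▸ H'.arc) hpc
    · have o1 : τ p < τ p' := (NestU_sib_lt hτ hrk hpp hp hpx hpx').1 h1
      have o2 : τ p' < τ v :=
        (NestU_sib_lt hτ hrk hpv hpv' hpx' Relation.ReflTransGen.refl).1 h2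
      have q1 := NestU_sib_le hτ hpp o1
      have q2 := NestU_sib_le hτ hpv o2
      have q3 := NestU_sib_le hτ hvv h3
      have hfin : Q.reg p = Q.reg p' → False := by
        intro hreg
        -- strictly increasing offsets
        have hmono : ∀ a b, Q.reg a = Q.reg b → τ a < τ b → Q.pos B a ≤ Q.pos B b →
            Q.off a < Q.off b := by
          intro a b hab hlt hle
          have hne : Q.off a ≠ Q.off b := by
            intro h
            have := Q.off_inj a b hab h
            rw [this] at hlt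
            exact lt_irrefl _ hlt
          rcases hra : Q.reg a with _ | y
          · have hrb : Q.reg b = none := by rw [← hab, hra]
            unfold pos at hle
            rw [hra, hrb] at hle
            simp only at hle
            omega
          · have hrb : Q.reg b = some y := by rw [← hab, hra]
            rw [NestU_pos_some hra, NestU_pos_some hrb] at hle
            have hna := Q.off_ne a y hra
            have hnb := Q.off_ne b y hrb
            split_ifs at hle with i1 i2 i2 <;> omega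
        have r1 := hmono p p' hreg o1 q1
        have r2 := hmono p' v (by rw [← hreg, a1]) o2 q2
        have r3 := hmono v v' (by rw [← a1, hreg, b1]) h3 q3
        exact Q.col_nc p v p' v' H.arc H'.arc a1 b1 hreg hcol ⟨r1, r2, r3⟩
      rcases hM : M with _ | m
      · apply hfin
        rw [Q.NestU_hm_none (by rw [← a2, hM]), Q.NestU_hm_none (by rw [← b2, hM])]
      · obtain ⟨y1, c1, c2⟩ := Q.NestU_hm_some (by rw [← a2, hM] : Q.hm p = some m)
        obtain ⟨y2, c3, c4⟩ := Q.NestU_hm_some (by rw [← b2, hM] : Q.hm p' = some m)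
        by_cases hl : Q.lev y1 = Q.lev y2
        · apply hfin
          rw [c1, c3, Q.lev_inj p p' y1 y2 c1 c3 (by rw [c2, c4]) hl]
        · have hv1 : Q.reg v = some y1 := by rw [← a1, c1]
          have hv2 : Q.reg v' = some y2 := by rw [← b1, c3]
          rw [NestU_pos_some c1, NestU_pos_some c3] at q1
          rw [NestU_pos_some c3, NestU_pos_some hv1] at q2
          rw [NestU_pos_some hv1, NestU_pos_some hv2] at q3
          have B1 := abs_lt.1 (hB p)
          have B2 := abs_lt.1 (hB p')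
          have B3 := abs_lt.1 (hB v)
          have B4 := abs_lt.1 (hB v')
          have n1 := Q.off_ne p y1 c1
          have n2 := Q.off_ne p' y2 c3
          have n3 := Q.off_ne v y1 hv1
          have n4 := Q.off_ne v' y2 hv2
          rcases Nat.lt_or_gt_of_ne hl with h | h
          · have := NestU_mul (B := B) h
            split_ifs at q1 q2 q3 <;> omega
          · have := NestU_mul (B := B) h
            split_ifs at q1 q2 q3 <;> omega

/-- (A), type 2 -/
theorem NestU_caseA2 {lam : V → Fin 3} (hl1 : ∀ v y, Q.reg v = some y → lam v ≠ lam (Q.cc y))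
    {B : ℕ} (hB : ∀ x, |Q.off x| < B) {τ : V → ℤ}
    (hτ : FOrd (fun _ => True) Q.hm (Q.pos B) τ)
    {x v x' v' : V} {M M' : Option V} {p z yz p' z' yz' : V}
    (H : UD Q x v 2 M p z yz) (H' : UD Q x' v' 2 M' p' z' yz') (hMM : M = M')
    (hside : Q.side yz = Q.side yz') (hlam : lam v = lam v')
    (h1 : τ x < τ x') (h2 : τ x' < τ v) (h3 : τ v < τ v') : False := by
  have hrk := Q.NestU_hrk
  obtain ⟨yv, a1, a2, a3, a4⟩ := H.t2 rfl
  obtain ⟨yv', b1, b2, b3, b4⟩ := H'.t2 rfl
  have hpp : p = p' := by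
    rw [hMM, b3] at a3
    exact (Option.some.inj a3).symm
  subst hpp
  have hv : 0 < Q.off v := Q.off_pos v yv a1 (by rw [a2]; exact H.arc)
  have hv' : 0 < Q.off v' := Q.off_pos v' yv' b1 (by rw [b2]; exact H'.arc)
  have L1 : Q.lev yz < Q.lev yv := Q.levU_lt z yz yv H.rz (by rw [H.cc]; exact a1)
    (by rw [a2, H.cb])
  have L2 : Q.lev yz' < Q.lev yv' := Q.levU_lt z' yz' yv' H'.rz (by rw [H'.cc]; exact b1)
    (by rw [b2, H'.cb])
  have B1 := abs_lt.1 (hB z)
  have B2 := abs_lt.1 (hB z')
  have B3 := abs_lt.1 (hB v)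
  have B4 := abs_lt.1 (hB v')
  have hvv : Q.hm v = Q.hm v' := by rw [← a4, ← b4, hMM]
  have q3 := NestU_sib_le hτ hvv h3
  rw [NestU_pos_some a1, NestU_pos_some b1, if_neg (by omega), if_neg (by omega)] at q3
  have LL : Q.lev yv ≤ Q.lev yv' := by
    by_contra hc
    push Not at hc
    have := NestU_mul (B := B) hc
    omega
  have hne : v ≠ v' := fun h => by rw [h] at h3; exact lt_irrefl _ h3
  -- the levels of `z` and `z'`
  have K1 : ¬ (Q.lev yz ≤ Q.lev yz' ∧ Q.lev yz' < Q.lev yv) := by
    rintro ⟨c1, c2⟩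
    have := Q.levU z z' yz yz' yv H.rz H'.rz (by rw [H.cc]; exact a1) (by rw [H.cb, H'.cb])
      (by rw [a2, H.cb]) hside.symm c1 c2
    rw [H.cc, H'.cc] at this
    exact hne this.symm
  have K2 : ¬ (Q.lev yz' ≤ Q.lev yz ∧ Q.lev yz < Q.lev yv') := by
    rintro ⟨c1, c2⟩
    have := Q.levU z' z yz' yz yv' H'.rz H.rz (by rw [H'.cc]; exact b1) (by rw [H.cb, H'.cb])
      (by rw [b2, H'.cb]) hside c1 c2
    rw [H.cc, H'.cc] at this
    exact hne this
  have L3 : Q.lev yz < Q.lev yz' := by omega
  have L4 : Q.lev yv ≤ Q.lev yz' := by omega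
  have hzz : Q.hm z = Q.hm z' := by rw [H.hz, H'.hz]
  have hzne : z ≠ z' := by
    intro h
    have : yz = yz' := by
      have := H.rz
      rw [h, H'.rz] at this
      exact (Option.some.inj this).symm
    rw [this] at L3
    exact lt_irrefl _ L3
  have o1 : τ z < τ z' := (NestU_sib_lt hτ hrk hzz hzne H.dz H'.dz).1 h1
  have q1 := NestU_sib_le hτ hzz o1
  have hzv : Q.hm z' = Q.hm v := by rw [H'.hz, ← a4, a3]
  have q2 : Q.pos B z' ≤ Q.pos B v := by
    by_cases hzv' : z' = v
    · rw [hzv']
    · exact NestU_sib_le hτ hzv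
        ((NestU_sib_lt hτ hrk hzv hzv' H'.dz Relation.ReflTransGen.refl).1 h2)
  rw [NestU_pos_some H.rz, NestU_pos_some H'.rz] at q1
  rw [NestU_pos_some H'.rz, NestU_pos_some a1, if_neg (by omega : ¬ Q.off v < 0)] at q2
  have n1 := Q.off_ne z yz H.rz
  have n2 := Q.off_ne z' yz' H'.rz
  have hm1 := NestU_mul (B := B) L3
  have hz'pos : 0 < Q.off z' := by
    by_contra hc
    have hc' : Q.off z' < 0 := by omega
    rw [if_pos hc'] at q1
    split_ifs at q1 <;> omega
  have L5 : Q.lev yz' = Q.lev yv := by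
    by_contra hc
    have hlt : Q.lev yv < Q.lev yz' := by omega
    have := NestU_mul (B := B) hlt
    rw [if_neg (by omega : ¬ Q.off z' < 0)] at q2
    omega
  have hy : yz' = yv := Q.lev_inj z' v yz' yv H'.rz a1 (by rw [a2, H'.cb]) L5
  refine hl1 v yv a1 ?_
  rw [hlam, ← hy, H'.cc]

/-- task P3: colouring of the U-arcs -/
theorem colU [Finite V] (Q : Nest V k) (B : ℕ) (hB : ∀ x, |Q.off x| < B) (τ : V → ℤ)
    (hτ : FOrd (fun _ => True) Q.hm (Q.pos B) τ) :
    ∃ c : V → V → (Fin 3 × Bool × Option (Fin k) × Bool × Fin 3 × Fin 3),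
      ∀ u v u' v', Q.arc u v → Q.arc u' v' → Q.isU u v → Q.isU u' v' → c u v = c u' v' →
        ¬ (τ u < τ u' ∧ τ u' < τ v ∧ τ v < τ v') := by
  classical
  obtain ⟨lam, hl1, hl2⟩ := NestU_lam Q
  obtain ⟨par, hpar⟩ := NestU_par Q
  choose t M p z yz hUD using Q.NestU_exists
  refine ⟨fun x v => if h : Q.isU x v then (t x v h, decide (par (M x v h) = 0),
    some (Q.col (p x v h) v), Q.side (yz x v h), Q.pc v, lam v) else
    (0, true, none, true, 0, 0), ?_⟩
  rintro x v x' v' - - hU hU' hc ⟨h1, h2, h3⟩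
  simp only [dif_pos hU, dif_pos hU', Prod.mk.injEq, Option.some.injEq] at hc
  obtain ⟨ht, hp, hcol, hside, hpc, hlam⟩ := hc
  have H := hUD x v hU
  have H' := hUD x' v' hU'
  have hpe : par (M x v hU) = par (M x' v' hU') := by
    have : ∀ a b : Fin 2, decide (a = 0) = decide (b = 0) → a = b := by decide
    exact this _ _ hp
  generalize M x v hU = m1 at *
  generalize M x' v' hU' = m2 at *
  generalize t x v hU = t1 at *
  generalize t x' v' hU' = t2 at *
  subst ht
  have hinB : ∀ m', m2 = some m' → (∀ m, m1 = some m → Desc Q.hm m m') → m1 ≠ some m' → False :=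
    fun m' e1 e2 e3 => NestU_caseB hpar hτ H H' hpe h2 h3 e1 e2 e3
  have hinC : ∀ m, m1 = some m → (∀ m', m2 = some m' → Desc Q.hm m' m) → m2 ≠ some m → False :=
    fun m e1 e2 e3 => NestU_caseC hpar hl1 hl2 hτ H H' hpe hlam h1 h2 e1 e2 e3
  by_cases hMM : m1 = m2
  · rcases NestU_t012 t1 with h | h | h
    · subst h
      exact NestU_caseA0 hB hτ H H' hMM hside hpc hcol h1 h2 h3
    · have e1 := (H.t1 h).1
      have e2 := (H'.t1 h).1
      rw [hMM, e2] at e1
      rw [Option.some.inj e1] at h3
      exact lt_irrefl _ h3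
    · subst h
      exact NestU_caseA2 hl1 hB hτ H H' hMM hside hlam h1 h2 h3
  · rcases m1 with _ | m1
    · rcases m2 with _ | m2
      · exact hMM rfl
      · exact hinB m2 rfl (fun m h => by simp at h) (by simp)
    · rcases m2 with _ | m2
      · exact hinC m1 rfl (fun m h => by simp at h) (by simp)
      · obtain ⟨a1, a2⟩ := H.inC rfl
        obtain ⟨b1, b2⟩ := H'.inC rfl
        have hx' : Desc Q.hm m1 x' := hτ.conv trivial trivial trivial trivial a1 a2 h1 h2
        rcases desc_or hx' b1 with h | h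
        · refine hinB m2 rfl (fun m hm => ?_) (by simpa using hMM)
          rw [← Option.some.inj hm]; exact h
        · refine hinC m1 rfl (fun m hm => ?_) (fun h' => hMM (by simpa using h'.symm))
          rw [← Option.some.inj hm]; exact h

end Nest

end UP2
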